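import Pool.Agent.LebHex.Defs

/-! # Real objects for covers inside the hexagon -/

open MeasureTheory

namespace PoolHex

/-- the hexagon -/
def Hx : Set (ℝ × ℝ) := {v | |v.1| ≤ 1 / 2 ∧ |v.2| ≤ 1 / 2 ∧ |v.1 + v.2| ≤ 1 / 2}

/-- rotation by 60 degrees -/
def rotR (v : ℝ × ℝ) : ℝ × ℝ := (-v.2, v.1 + v.2)

/-- the rigid motion with rotation part `al + i sqrt 3 be` and translation `t` -/
def act (al be : ℝ) (t v : ℝ × ℝ) : ℝ × ℝ :=
  (al * v.1 - be * (v.1 + 2 * v.2) + t.1, al * v.2 + be * (2 * v.1 + v.2) + t.2)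

/-- the real point of an integer point -/
noncomputable def toR (P : ℤ × ℤ) : ℝ × ℝ := ((P.1 : ℝ) / 10000000000000, (P.2 : ℝ) / 10000000000000)

/-- `3/4` of the squared norm -/
def nR (v : ℝ × ℝ) : ℝ := v.1 ^ 2 + v.1 * v.2 + v.2 ^ 2

/-- displacement cover of the sets of diameter `1`, in the coordinates `(p, q)` -/
def Cov (K : Set (ℝ × ℝ)) : Prop :=
  ∀ S : Set (ℝ × ℝ), (∀ v ∈ S, ∀ w ∈ S, 4 * nR (v - w) ≤ 3) → (∃ v ∈ S, ∃ w ∈ S, 4 * nR (v - w) = 3) →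
    ∃ (al be : ℝ) (t : ℝ × ℝ), al ^ 2 + 3 * be ^ 2 = 1 ∧ ∀ v ∈ S, act al be t v ∈ K

/-- `z` is within the tolerance of the integer point `P` -/
def Cl (z : ℝ × ℝ) (P : ℤ × ℤ) : Prop :=
  |10000000000000 * z.1 - P.1| ≤ 3200 ∧ |10000000000000 * z.2 - P.2| ≤ 3200 ∧
    |10000000000000 * (z.1 + z.2) - (P.1 + P.2)| ≤ 3200

def Near (K : Set (ℝ × ℝ)) (P : ℤ × ℤ) : Prop := ∃ z ∈ K, Cl z P

/-- `K` contains, up to the tolerance, the copy number `k` of the body `B` -/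
def Has (K : Set (ℝ × ℝ)) (B k : ℕ) : Prop := ∀ j < bn B, Near K (rot6 k (bp B j))

/-- `K` contains the disk -/
def HasD (K : Set (ℝ × ℝ)) : Prop := ∀ v : ℝ × ℝ, 16 * nR v ≤ 3 → v ∈ K

/-- coordinates in the frame of window `w` -/
def win (w : ℕ) (v : ℝ × ℝ) : ℝ × ℝ :=
  match w with
  | 0 => (v.1, v.1 + v.2)
  | 1 => (v.2, -v.1)
  | _ => (-v.1 - v.2, -v.2)

def Quad : Set (ℝ × ℝ) := {v | 0 < v.1 ∧ 0 < v.2}

/-- normalised data: a convex cover inside the hexagon with small area, containing the disk and the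
triangle in the reference position -/
structure Good (K : Set (ℝ × ℝ)) : Prop where
  conv : Convex ℝ K
  sub : K ⊆ Hx
  cov : Cov K
  vol : volume K < ENNReal.ofReal ((TT : ℝ) / (2 * 10000000000000 ^ 2))
  disk : HasD K
  v0 : ((1 / 2, -1 / 2) : ℝ × ℝ) ∈ K
  v2 : ((0, 1 / 2) : ℝ × ℝ) ∈ K
  v4 : ((-1 / 2, 0) : ℝ × ℝ) ∈ K

/-- all literals of `a` hold; `T` is the tree of bodies, `nb` their number -/
def Sat (T : BT) (nb : ℕ) (K : Set (ℝ × ℝ)) (a : ℕ) : Prop :=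
  ∀ i < nb, ∀ k < 6, Nat.testBit a (6 * i + k) = true → Has K (T.get i) k

/-- the assignment `a` is impossible -/
def Dead (T : BT) (nb a : ℕ) : Prop := ∀ K : Set (ℝ × ℝ), Good K → Sat T nb K a → False

end PoolHex
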