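import Pool.Agent.LebHex.Bk0
import Pool.Agent.LebHex.Bk1
import Pool.Agent.LebHex.Bk2
import Pool.Agent.LebHex.Bk3
import Pool.Agent.LebHex.Bk4
import Pool.Agent.LebHex.Bk5
import Pool.Agent.LebHex.Bk6
import Pool.Agent.LebHex.Bk7
import Pool.Agent.LebHex.Bk8
import Pool.Agent.LebHex.Bk9
import Pool.Agent.LebHex.Bk10
import Pool.Agent.LebHex.Bk11
import Pool.Agent.LebHex.Bk12
import Pool.Agent.LebHex.Bk13
import Pool.Agent.LebHex.Bk14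
import Pool.Agent.LebHex.Bk15

/-! # Hexagon covers: all bodies are fine -/

namespace PoolHex

theorem disk_ok : diskOK disk nDisk = true := by decide +kernel

theorem bg0 : bodies.get 0 = B0 := rfl
theorem bg1 : bodies.get 1 = B1 := rfl
theorem bg2 : bodies.get 2 = B2 := rfl
theorem bg3 : bodies.get 3 = B3 := rfl
theorem bg4 : bodies.get 4 = B4 := rfl
theorem bg5 : bodies.get 5 = B5 := rfl
theorem bg6 : bodies.get 6 = B6 := rfl
theorem bg7 : bodies.get 7 = B7 := rfl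
theorem bg8 : bodies.get 8 = B8 := rfl
theorem bg9 : bodies.get 9 = B9 := rfl
theorem bg10 : bodies.get 10 = B10 := rfl
theorem bg11 : bodies.get 11 = B11 := rfl
theorem bg12 : bodies.get 12 = B12 := rfl
theorem bg13 : bodies.get 13 = B13 := rfl
theorem bg14 : bodies.get 14 = B14 := rfl
theorem bg15 : bodies.get 15 = B15 := rfl
theorem bg16 : bodies.get 16 = B16 := rfl
theorem bg17 : bodies.get 17 = B17 := rfl
theorem bg18 : bodies.get 18 = B18 := rfl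
theorem bg19 : bodies.get 19 = B19 := rfl
theorem bg20 : bodies.get 20 = B20 := rfl
theorem bg21 : bodies.get 21 = B21 := rfl
theorem bg22 : bodies.get 22 = B22 := rfl
theorem bg23 : bodies.get 23 = B23 := rfl
theorem bg24 : bodies.get 24 = B24 := rfl
theorem bg25 : bodies.get 25 = B25 := rfl
theorem bg26 : bodies.get 26 = B26 := rfl
theorem bg27 : bodies.get 27 = B27 := rfl
theorem bg28 : bodies.get 28 = B28 := rfl
theorem bg29 : bodies.get 29 = B29 := rfl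
theorem bg30 : bodies.get 30 = B30 := rfl
theorem bg31 : bodies.get 31 = B31 := rfl
theorem bg32 : bodies.get 32 = B32 := rfl
theorem bg33 : bodies.get 33 = B33 := rfl
theorem bg34 : bodies.get 34 = B34 := rfl
theorem bg35 : bodies.get 35 = B35 := rfl
theorem bg36 : bodies.get 36 = B36 := rfl
theorem bg37 : bodies.get 37 = B37 := rfl
theorem bg38 : bodies.get 38 = B38 := rfl
theorem bg39 : bodies.get 39 = B39 := rfl
theorem bg40 : bodies.get 40 = B40 := rfl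
theorem bg41 : bodies.get 41 = B41 := rfl
theorem bg42 : bodies.get 42 = B42 := rfl
theorem bg43 : bodies.get 43 = B43 := rfl
theorem bg44 : bodies.get 44 = B44 := rfl
theorem bg45 : bodies.get 45 = B45 := rfl
theorem bg46 : bodies.get 46 = B46 := rfl
theorem bg47 : bodies.get 47 = B47 := rfl
theorem bg48 : bodies.get 48 = B48 := rfl
theorem bg49 : bodies.get 49 = B49 := rfl
theorem bg50 : bodies.get 50 = B50 := rfl
theorem bg51 : bodies.get 51 = B51 := rfl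
theorem bg52 : bodies.get 52 = B52 := rfl
theorem bg53 : bodies.get 53 = B53 := rfl
theorem bg54 : bodies.get 54 = B54 := rfl
theorem bg55 : bodies.get 55 = B55 := rfl
theorem bg56 : bodies.get 56 = B56 := rfl
theorem bg57 : bodies.get 57 = B57 := rfl
theorem bg58 : bodies.get 58 = B58 := rfl
theorem bg59 : bodies.get 59 = B59 := rfl
theorem bg60 : bodies.get 60 = B60 := rfl
theorem bg61 : bodies.get 61 = B61 := rfl
theorem bg62 : bodies.get 62 = B62 := rfl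
theorem bg63 : bodies.get 63 = B63 := rfl
theorem bg64 : bodies.get 64 = B64 := rfl
theorem bg65 : bodies.get 65 = B65 := rfl
theorem bg66 : bodies.get 66 = B66 := rfl
theorem bg67 : bodies.get 67 = B67 := rfl
theorem bg68 : bodies.get 68 = B68 := rfl
theorem bg69 : bodies.get 69 = B69 := rfl
theorem bg70 : bodies.get 70 = B70 := rfl
theorem bg71 : bodies.get 71 = B71 := rfl
theorem bg72 : bodies.get 72 = B72 := rfl
theorem bg73 : bodies.get 73 = B73 := rfl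
theorem bg74 : bodies.get 74 = B74 := rfl
theorem bg75 : bodies.get 75 = B75 := rfl
theorem bg76 : bodies.get 76 = B76 := rfl
theorem bg77 : bodies.get 77 = B77 := rfl
theorem bg78 : bodies.get 78 = B78 := rfl
theorem bg79 : bodies.get 79 = B79 := rfl
theorem bg80 : bodies.get 80 = B80 := rfl
theorem bg81 : bodies.get 81 = B81 := rfl
theorem bg82 : bodies.get 82 = B82 := rfl
theorem bg83 : bodies.get 83 = B83 := rfl
theorem bg84 : bodies.get 84 = B84 := rfl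
theorem bg85 : bodies.get 85 = B85 := rfl
theorem bg86 : bodies.get 86 = B86 := rfl
theorem bg87 : bodies.get 87 = B87 := rfl
theorem bg88 : bodies.get 88 = B88 := rfl
theorem bg89 : bodies.get 89 = B89 := rfl
theorem bg90 : bodies.get 90 = B90 := rfl
theorem bg91 : bodies.get 91 = B91 := rfl
theorem bg92 : bodies.get 92 = B92 := rfl
theorem bg93 : bodies.get 93 = B93 := rfl
theorem bg94 : bodies.get 94 = B94 := rfl
theorem bg95 : bodies.get 95 = B95 := rfl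
theorem bg96 : bodies.get 96 = B96 := rfl
theorem bg97 : bodies.get 97 = B97 := rfl
theorem bg98 : bodies.get 98 = B98 := rfl
theorem bg99 : bodies.get 99 = B99 := rfl
theorem bg100 : bodies.get 100 = B100 := rfl
theorem bg101 : bodies.get 101 = B101 := rfl
theorem bg102 : bodies.get 102 = B102 := rfl
theorem bg103 : bodies.get 103 = B103 := rfl
theorem bg104 : bodies.get 104 = B104 := rfl
theorem bg105 : bodies.get 105 = B105 := rfl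
theorem bg106 : bodies.get 106 = B106 := rfl
theorem bg107 : bodies.get 107 = B107 := rfl
theorem bg108 : bodies.get 108 = B108 := rfl
theorem bg109 : bodies.get 109 = B109 := rfl
theorem bg110 : bodies.get 110 = B110 := rfl
theorem bg111 : bodies.get 111 = B111 := rfl
theorem bg112 : bodies.get 112 = B112 := rfl
theorem bg113 : bodies.get 113 = B113 := rfl
theorem bg114 : bodies.get 114 = B114 := rfl
theorem bg115 : bodies.get 115 = B115 := rfl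
theorem bg116 : bodies.get 116 = B116 := rfl
theorem bg117 : bodies.get 117 = B117 := rfl
theorem bg118 : bodies.get 118 = B118 := rfl
theorem bg119 : bodies.get 119 = B119 := rfl
theorem bg120 : bodies.get 120 = B120 := rfl
theorem bg121 : bodies.get 121 = B121 := rfl
theorem bg122 : bodies.get 122 = B122 := rfl
theorem bg123 : bodies.get 123 = B123 := rfl
theorem bg124 : bodies.get 124 = B124 := rfl
theorem bg125 : bodies.get 125 = B125 := rfl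
theorem bg126 : bodies.get 126 = B126 := rfl
theorem bg127 : bodies.get 127 = B127 := rfl
theorem bg128 : bodies.get 128 = B128 := rfl
theorem bg129 : bodies.get 129 = B129 := rfl
theorem bg130 : bodies.get 130 = B130 := rfl
theorem bg131 : bodies.get 131 = B131 := rfl
theorem bg132 : bodies.get 132 = B132 := rfl
theorem bg133 : bodies.get 133 = B133 := rfl
theorem bg134 : bodies.get 134 = B134 := rfl
theorem bg135 : bodies.get 135 = B135 := rfl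
theorem bg136 : bodies.get 136 = B136 := rfl
theorem bg137 : bodies.get 137 = B137 := rfl
theorem bg138 : bodies.get 138 = B138 := rfl
theorem bg139 : bodies.get 139 = B139 := rfl
theorem bg140 : bodies.get 140 = B140 := rfl
theorem bg141 : bodies.get 141 = B141 := rfl
theorem bg142 : bodies.get 142 = B142 := rfl
theorem bg143 : bodies.get 143 = B143 := rfl
theorem bg144 : bodies.get 144 = B144 := rfl
theorem bg145 : bodies.get 145 = B145 := rfl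
theorem bg146 : bodies.get 146 = B146 := rfl
theorem bg147 : bodies.get 147 = B147 := rfl
theorem bg148 : bodies.get 148 = B148 := rfl
theorem bg149 : bodies.get 149 = B149 := rfl
theorem bg150 : bodies.get 150 = B150 := rfl
theorem bg151 : bodies.get 151 = B151 := rfl
theorem bg152 : bodies.get 152 = B152 := rfl
theorem bg153 : bodies.get 153 = B153 := rfl
theorem bg154 : bodies.get 154 = B154 := rfl
theorem bg155 : bodies.get 155 = B155 := rfl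

theorem bodies_ok : ∀ i < nBod, ∃ c, bodyOK (bodies.get i) c = true := by
  intro i hi
  unfold nBod at hi
  interval_cases i
  · exact ⟨BC0, bg0 ▸ bok0⟩
  · exact ⟨BC1, bg1 ▸ bok1⟩
  · exact ⟨BC2, bg2 ▸ bok2⟩
  · exact ⟨BC3, bg3 ▸ bok3⟩
  · exact ⟨BC4, bg4 ▸ bok4⟩
  · exact ⟨BC5, bg5 ▸ bok5⟩
  · exact ⟨BC6, bg6 ▸ bok6⟩
  · exact ⟨BC7, bg7 ▸ bok7⟩
  · exact ⟨BC8, bg8 ▸ bok8⟩
  · exact ⟨BC9, bg9 ▸ bok9⟩
  · exact ⟨BC10, bg10 ▸ bok10⟩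
  · exact ⟨BC11, bg11 ▸ bok11⟩
  · exact ⟨BC12, bg12 ▸ bok12⟩
  · exact ⟨BC13, bg13 ▸ bok13⟩
  · exact ⟨BC14, bg14 ▸ bok14⟩
  · exact ⟨BC15, bg15 ▸ bok15⟩
  · exact ⟨BC16, bg16 ▸ bok16⟩
  · exact ⟨BC17, bg17 ▸ bok17⟩
  · exact ⟨BC18, bg18 ▸ bok18⟩
  · exact ⟨BC19, bg19 ▸ bok19⟩
  · exact ⟨BC20, bg20 ▸ bok20⟩
  · exact ⟨BC21, bg21 ▸ bok21⟩
  · exact ⟨BC22, bg22 ▸ bok22⟩
  · exact ⟨BC23, bg23 ▸ bok23⟩
  · exact ⟨BC24, bg24 ▸ bok24⟩
  · exact ⟨BC25, bg25 ▸ bok25⟩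
  · exact ⟨BC26, bg26 ▸ bok26⟩
  · exact ⟨BC27, bg27 ▸ bok27⟩
  · exact ⟨BC28, bg28 ▸ bok28⟩
  · exact ⟨BC29, bg29 ▸ bok29⟩
  · exact ⟨BC30, bg30 ▸ bok30⟩
  · exact ⟨BC31, bg31 ▸ bok31⟩
  · exact ⟨BC32, bg32 ▸ bok32⟩
  · exact ⟨BC33, bg33 ▸ bok33⟩
  · exact ⟨BC34, bg34 ▸ bok34⟩
  · exact ⟨BC35, bg35 ▸ bok35⟩
  · exact ⟨BC36, bg36 ▸ bok36⟩
  · exact ⟨BC37, bg37 ▸ bok37⟩
  · exact ⟨BC38, bg38 ▸ bok38⟩
  · exact ⟨BC39, bg39 ▸ bok39⟩
  · exact ⟨BC40, bg40 ▸ bok40⟩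
  · exact ⟨BC41, bg41 ▸ bok41⟩
  · exact ⟨BC42, bg42 ▸ bok42⟩
  · exact ⟨BC43, bg43 ▸ bok43⟩
  · exact ⟨BC44, bg44 ▸ bok44⟩
  · exact ⟨BC45, bg45 ▸ bok45⟩
  · exact ⟨BC46, bg46 ▸ bok46⟩
  · exact ⟨BC47, bg47 ▸ bok47⟩
  · exact ⟨BC48, bg48 ▸ bok48⟩
  · exact ⟨BC49, bg49 ▸ bok49⟩
  · exact ⟨BC50, bg50 ▸ bok50⟩
  · exact ⟨BC51, bg51 ▸ bok51⟩
  · exact ⟨BC52, bg52 ▸ bok52⟩
  · exact ⟨BC53, bg53 ▸ bok53⟩
  · exact ⟨BC54, bg54 ▸ bok54⟩
  · exact ⟨BC55, bg55 ▸ bok55⟩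
  · exact ⟨BC56, bg56 ▸ bok56⟩
  · exact ⟨BC57, bg57 ▸ bok57⟩
  · exact ⟨BC58, bg58 ▸ bok58⟩
  · exact ⟨BC59, bg59 ▸ bok59⟩
  · exact ⟨BC60, bg60 ▸ bok60⟩
  · exact ⟨BC61, bg61 ▸ bok61⟩
  · exact ⟨BC62, bg62 ▸ bok62⟩
  · exact ⟨BC63, bg63 ▸ bok63⟩
  · exact ⟨BC64, bg64 ▸ bok64⟩
  · exact ⟨BC65, bg65 ▸ bok65⟩
  · exact ⟨BC66, bg66 ▸ bok66⟩
  · exact ⟨BC67, bg67 ▸ bok67⟩
  · exact ⟨BC68, bg68 ▸ bok68⟩
  · exact ⟨BC69, bg69 ▸ bok69⟩
  · exact ⟨BC70, bg70 ▸ bok70⟩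
  · exact ⟨BC71, bg71 ▸ bok71⟩
  · exact ⟨BC72, bg72 ▸ bok72⟩
  · exact ⟨BC73, bg73 ▸ bok73⟩
  · exact ⟨BC74, bg74 ▸ bok74⟩
  · exact ⟨BC75, bg75 ▸ bok75⟩
  · exact ⟨BC76, bg76 ▸ bok76⟩
  · exact ⟨BC77, bg77 ▸ bok77⟩
  · exact ⟨BC78, bg78 ▸ bok78⟩
  · exact ⟨BC79, bg79 ▸ bok79⟩
  · exact ⟨BC80, bg80 ▸ bok80⟩
  · exact ⟨BC81, bg81 ▸ bok81⟩
  · exact ⟨BC82, bg82 ▸ bok82⟩
  · exact ⟨BC83, bg83 ▸ bok83⟩
  · exact ⟨BC84, bg84 ▸ bok84⟩
  · exact ⟨BC85, bg85 ▸ bok85⟩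
  · exact ⟨BC86, bg86 ▸ bok86⟩
  · exact ⟨BC87, bg87 ▸ bok87⟩
  · exact ⟨BC88, bg88 ▸ bok88⟩
  · exact ⟨BC89, bg89 ▸ bok89⟩
  · exact ⟨BC90, bg90 ▸ bok90⟩
  · exact ⟨BC91, bg91 ▸ bok91⟩
  · exact ⟨BC92, bg92 ▸ bok92⟩
  · exact ⟨BC93, bg93 ▸ bok93⟩
  · exact ⟨BC94, bg94 ▸ bok94⟩
  · exact ⟨BC95, bg95 ▸ bok95⟩
  · exact ⟨BC96, bg96 ▸ bok96⟩
  · exact ⟨BC97, bg97 ▸ bok97⟩
  · exact ⟨BC98, bg98 ▸ bok98⟩
  · exact ⟨BC99, bg99 ▸ bok99⟩
  · exact ⟨BC100, bg100 ▸ bok100⟩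
  · exact ⟨BC101, bg101 ▸ bok101⟩
  · exact ⟨BC102, bg102 ▸ bok102⟩
  · exact ⟨BC103, bg103 ▸ bok103⟩
  · exact ⟨BC104, bg104 ▸ bok104⟩
  · exact ⟨BC105, bg105 ▸ bok105⟩
  · exact ⟨BC106, bg106 ▸ bok106⟩
  · exact ⟨BC107, bg107 ▸ bok107⟩
  · exact ⟨BC108, bg108 ▸ bok108⟩
  · exact ⟨BC109, bg109 ▸ bok109⟩
  · exact ⟨BC110, bg110 ▸ bok110⟩
  · exact ⟨BC111, bg111 ▸ bok111⟩
  · exact ⟨BC112, bg112 ▸ bok112⟩
  · exact ⟨BC113, bg113 ▸ bok113⟩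
  · exact ⟨BC114, bg114 ▸ bok114⟩
  · exact ⟨BC115, bg115 ▸ bok115⟩
  · exact ⟨BC116, bg116 ▸ bok116⟩
  · exact ⟨BC117, bg117 ▸ bok117⟩
  · exact ⟨BC118, bg118 ▸ bok118⟩
  · exact ⟨BC119, bg119 ▸ bok119⟩
  · exact ⟨BC120, bg120 ▸ bok120⟩
  · exact ⟨BC121, bg121 ▸ bok121⟩
  · exact ⟨BC122, bg122 ▸ bok122⟩
  · exact ⟨BC123, bg123 ▸ bok123⟩
  · exact ⟨BC124, bg124 ▸ bok124⟩
  · exact ⟨BC125, bg125 ▸ bok125⟩
  · exact ⟨BC126, bg126 ▸ bok126⟩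
  · exact ⟨BC127, bg127 ▸ bok127⟩
  · exact ⟨BC128, bg128 ▸ bok128⟩
  · exact ⟨BC129, bg129 ▸ bok129⟩
  · exact ⟨BC130, bg130 ▸ bok130⟩
  · exact ⟨BC131, bg131 ▸ bok131⟩
  · exact ⟨BC132, bg132 ▸ bok132⟩
  · exact ⟨BC133, bg133 ▸ bok133⟩
  · exact ⟨BC134, bg134 ▸ bok134⟩
  · exact ⟨BC135, bg135 ▸ bok135⟩
  · exact ⟨BC136, bg136 ▸ bok136⟩
  · exact ⟨BC137, bg137 ▸ bok137⟩
  · exact ⟨BC138, bg138 ▸ bok138⟩
  · exact ⟨BC139, bg139 ▸ bok139⟩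
  · exact ⟨BC140, bg140 ▸ bok140⟩
  · exact ⟨BC141, bg141 ▸ bok141⟩
  · exact ⟨BC142, bg142 ▸ bok142⟩
  · exact ⟨BC143, bg143 ▸ bok143⟩
  · exact ⟨BC144, bg144 ▸ bok144⟩
  · exact ⟨BC145, bg145 ▸ bok145⟩
  · exact ⟨BC146, bg146 ▸ bok146⟩
  · exact ⟨BC147, bg147 ▸ bok147⟩
  · exact ⟨BC148, bg148 ▸ bok148⟩
  · exact ⟨BC149, bg149 ▸ bok149⟩
  · exact ⟨BC150, bg150 ▸ bok150⟩
  · exact ⟨BC151, bg151 ▸ bok151⟩
  · exact ⟨BC152, bg152 ▸ bok152⟩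
  · exact ⟨BC153, bg153 ▸ bok153⟩
  · exact ⟨BC154, bg154 ▸ bok154⟩
  · exact ⟨BC155, bg155 ▸ bok155⟩

end PoolHex
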