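import Pool.Agent.LebHex.Defs

/-! # Trees of conflicts -/

namespace PoolHex

/-- binary trees of conflicts -/
inductive CB
  | tip (c : Conf)
  | br (l r : CB)

def CB.masks : CB → BT
  | .tip c => .tip c.m
  | .br l r => .br l.masks r.masks

def CB.all (p : Conf → Bool) : CB → Bool
  | .tip c => p c
  | .br l r => l.all p && r.all p

end PoolHex
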