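import Pool.Agent.LebHex.Cf0
import Pool.Agent.LebHex.Cf1
import Pool.Agent.LebHex.Cf2
import Pool.Agent.LebHex.Cf3
import Pool.Agent.LebHex.Cf4
import Pool.Agent.LebHex.Cf5
import Pool.Agent.LebHex.Cf6
import Pool.Agent.LebHex.Cf7
import Pool.Agent.LebHex.Cf8
import Pool.Agent.LebHex.Cf9
import Pool.Agent.LebHex.Cf10
import Pool.Agent.LebHex.Cf11
import Pool.Agent.LebHex.Cf12
import Pool.Agent.LebHex.Cf13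
import Pool.Agent.LebHex.Cf14
import Pool.Agent.LebHex.Cf15
import Pool.Agent.LebHex.Cf16
import Pool.Agent.LebHex.Cf17
import Pool.Agent.LebHex.Cf18
import Pool.Agent.LebHex.Cf19
import Pool.Agent.LebHex.Cf20
import Pool.Agent.LebHex.Cf21
import Pool.Agent.LebHex.Cf22
import Pool.Agent.LebHex.Cf23
import Pool.Agent.LebHex.Cf24
import Pool.Agent.LebHex.Cf25
import Pool.Agent.LebHex.Cf26
import Pool.Agent.LebHex.Cf27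
import Pool.Agent.LebHex.Cf28
import Pool.Agent.LebHex.Cf29
import Pool.Agent.LebHex.Cf30
import Pool.Agent.LebHex.Cf31

/-! # Hexagon covers: all conflicts are fine -/

namespace PoolHex

theorem cok0 : cb0.all (confOK bodies nBod disk nDisk) = true := by
  simp only [cb0, CB.all, Bool.and_eq_true]
  exact ⟨⟨⟨cok0_0, cok0_4⟩, ⟨cok0_2, cok0_6⟩⟩, ⟨⟨cok0_1, cok0_5⟩, ⟨cok0_3, cok0_7⟩⟩⟩

theorem cok1 : cb1.all (confOK bodies nBod disk nDisk) = true := by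
  simp only [cb1, CB.all, Bool.and_eq_true]
  exact ⟨⟨⟨cok1_0, cok1_4⟩, ⟨cok1_2, cok1_6⟩⟩, ⟨⟨cok1_1, cok1_5⟩, ⟨cok1_3, cok1_7⟩⟩⟩

theorem cok2 : cb2.all (confOK bodies nBod disk nDisk) = true := by
  simp only [cb2, CB.all, Bool.and_eq_true]
  exact ⟨⟨⟨cok2_0, cok2_4⟩, ⟨cok2_2, cok2_6⟩⟩, ⟨⟨cok2_1, cok2_5⟩, ⟨cok2_3, cok2_7⟩⟩⟩

theorem cok3 : cb3.all (confOK bodies nBod disk nDisk) = true := by
  simp only [cb3, CB.all, Bool.and_eq_true]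
  exact ⟨⟨⟨cok3_0, cok3_4⟩, ⟨cok3_2, cok3_6⟩⟩, ⟨⟨cok3_1, cok3_5⟩, ⟨cok3_3, cok3_7⟩⟩⟩

theorem cok4 : cb4.all (confOK bodies nBod disk nDisk) = true := by
  simp only [cb4, CB.all, Bool.and_eq_true]
  exact ⟨⟨⟨cok4_0, cok4_4⟩, ⟨cok4_2, cok4_6⟩⟩, ⟨⟨cok4_1, cok4_5⟩, ⟨cok4_3, cok4_7⟩⟩⟩

theorem cok5 : cb5.all (confOK bodies nBod disk nDisk) = true := by
  simp only [cb5, CB.all, Bool.and_eq_true]
  exact ⟨⟨⟨cok5_0, cok5_4⟩, ⟨cok5_2, cok5_6⟩⟩, ⟨⟨cok5_1, cok5_5⟩, ⟨cok5_3, cok5_7⟩⟩⟩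

theorem cok6 : cb6.all (confOK bodies nBod disk nDisk) = true := by
  simp only [cb6, CB.all, Bool.and_eq_true]
  exact ⟨⟨⟨cok6_0, cok6_4⟩, ⟨cok6_2, cok6_6⟩⟩, ⟨⟨cok6_1, cok6_5⟩, ⟨cok6_3, cok6_7⟩⟩⟩

theorem cok7 : cb7.all (confOK bodies nBod disk nDisk) = true := by
  simp only [cb7, CB.all, Bool.and_eq_true]
  exact ⟨⟨⟨cok7_0, cok7_4⟩, ⟨cok7_2, cok7_6⟩⟩, ⟨⟨cok7_1, cok7_5⟩, ⟨cok7_3, cok7_7⟩⟩⟩

theorem cok8 : cb8.all (confOK bodies nBod disk nDisk) = true := by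
  simp only [cb8, CB.all, Bool.and_eq_true]
  exact ⟨⟨⟨cok8_0, cok8_4⟩, ⟨cok8_2, cok8_6⟩⟩, ⟨⟨cok8_1, cok8_5⟩, ⟨cok8_3, cok8_7⟩⟩⟩

theorem cok9 : cb9.all (confOK bodies nBod disk nDisk) = true := by
  simp only [cb9, CB.all, Bool.and_eq_true]
  exact ⟨⟨⟨cok9_0, cok9_4⟩, ⟨cok9_2, cok9_6⟩⟩, ⟨⟨cok9_1, cok9_5⟩, ⟨cok9_3, cok9_7⟩⟩⟩

theorem cok10 : cb10.all (confOK bodies nBod disk nDisk) = true := by
  simp only [cb10, CB.all, Bool.and_eq_true]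
  exact ⟨⟨⟨cok10_0, cok10_4⟩, ⟨cok10_2, cok10_6⟩⟩, ⟨⟨cok10_1, cok10_5⟩, ⟨cok10_3, cok10_7⟩⟩⟩

theorem cok11 : cb11.all (confOK bodies nBod disk nDisk) = true := by
  simp only [cb11, CB.all, Bool.and_eq_true]
  exact ⟨⟨⟨cok11_0, cok11_4⟩, ⟨cok11_2, cok11_6⟩⟩, ⟨⟨cok11_1, cok11_5⟩, ⟨cok11_3, cok11_7⟩⟩⟩

theorem cok12 : cb12.all (confOK bodies nBod disk nDisk) = true := by
  simp only [cb12, CB.all, Bool.and_eq_true]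
  exact ⟨⟨⟨cok12_0, cok12_4⟩, ⟨cok12_2, cok12_6⟩⟩, ⟨⟨cok12_1, cok12_5⟩, ⟨cok12_3, cok12_7⟩⟩⟩

theorem cok13 : cb13.all (confOK bodies nBod disk nDisk) = true := by
  simp only [cb13, CB.all, Bool.and_eq_true]
  exact ⟨⟨⟨cok13_0, cok13_4⟩, ⟨cok13_2, cok13_6⟩⟩, ⟨⟨cok13_1, cok13_5⟩, ⟨cok13_3, cok13_7⟩⟩⟩

theorem cok14 : cb14.all (confOK bodies nBod disk nDisk) = true := by
  simp only [cb14, CB.all, Bool.and_eq_true]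
  exact ⟨⟨⟨cok14_0, cok14_4⟩, ⟨cok14_2, cok14_6⟩⟩, ⟨⟨cok14_1, cok14_5⟩, ⟨cok14_3, cok14_7⟩⟩⟩

theorem cok15 : cb15.all (confOK bodies nBod disk nDisk) = true := by
  simp only [cb15, CB.all, Bool.and_eq_true]
  exact ⟨⟨⟨cok15_0, cok15_4⟩, ⟨cok15_2, cok15_6⟩⟩, ⟨⟨cok15_1, cok15_5⟩, ⟨cok15_3, cok15_7⟩⟩⟩

theorem cok16 : cb16.all (confOK bodies nBod disk nDisk) = true := by
  simp only [cb16, CB.all, Bool.and_eq_true]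
  exact ⟨⟨⟨cok16_0, cok16_4⟩, ⟨cok16_2, cok16_6⟩⟩, ⟨⟨cok16_1, cok16_5⟩, ⟨cok16_3, cok16_7⟩⟩⟩

theorem cok17 : cb17.all (confOK bodies nBod disk nDisk) = true := by
  simp only [cb17, CB.all, Bool.and_eq_true]
  exact ⟨⟨⟨cok17_0, cok17_4⟩, ⟨cok17_2, cok17_6⟩⟩, ⟨⟨cok17_1, cok17_5⟩, ⟨cok17_3, cok17_7⟩⟩⟩

theorem cok18 : cb18.all (confOK bodies nBod disk nDisk) = true := by
  simp only [cb18, CB.all, Bool.and_eq_true]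
  exact ⟨⟨⟨cok18_0, cok18_4⟩, ⟨cok18_2, cok18_6⟩⟩, ⟨⟨cok18_1, cok18_5⟩, ⟨cok18_3, cok18_7⟩⟩⟩

theorem cok19 : cb19.all (confOK bodies nBod disk nDisk) = true := by
  simp only [cb19, CB.all, Bool.and_eq_true]
  exact ⟨⟨⟨cok19_0, cok19_4⟩, ⟨cok19_2, cok19_6⟩⟩, ⟨⟨cok19_1, cok19_5⟩, ⟨cok19_3, cok19_7⟩⟩⟩

theorem cok20 : cb20.all (confOK bodies nBod disk nDisk) = true := by
  simp only [cb20, CB.all, Bool.and_eq_true]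
  exact ⟨⟨⟨cok20_0, cok20_4⟩, ⟨cok20_2, cok20_6⟩⟩, ⟨⟨cok20_1, cok20_5⟩, ⟨cok20_3, cok20_7⟩⟩⟩

theorem cok21 : cb21.all (confOK bodies nBod disk nDisk) = true := by
  simp only [cb21, CB.all, Bool.and_eq_true]
  exact ⟨⟨⟨cok21_0, cok21_4⟩, ⟨cok21_2, cok21_6⟩⟩, ⟨⟨cok21_1, cok21_5⟩, ⟨cok21_3, cok21_7⟩⟩⟩

theorem cok22 : cb22.all (confOK bodies nBod disk nDisk) = true := by
  simp only [cb22, CB.all, Bool.and_eq_true]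
  exact ⟨⟨⟨cok22_0, cok22_4⟩, ⟨cok22_2, cok22_6⟩⟩, ⟨⟨cok22_1, cok22_5⟩, ⟨cok22_3, cok22_7⟩⟩⟩

theorem cok23 : cb23.all (confOK bodies nBod disk nDisk) = true := by
  simp only [cb23, CB.all, Bool.and_eq_true]
  exact ⟨⟨⟨cok23_0, cok23_4⟩, ⟨cok23_2, cok23_6⟩⟩, ⟨⟨cok23_1, cok23_5⟩, ⟨cok23_3, cok23_7⟩⟩⟩

theorem cok24 : cb24.all (confOK bodies nBod disk nDisk) = true := by
  simp only [cb24, CB.all, Bool.and_eq_true]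
  exact ⟨⟨⟨cok24_0, cok24_4⟩, ⟨cok24_2, cok24_6⟩⟩, ⟨⟨cok24_1, cok24_5⟩, ⟨cok24_3, cok24_7⟩⟩⟩

theorem cok25 : cb25.all (confOK bodies nBod disk nDisk) = true := by
  simp only [cb25, CB.all, Bool.and_eq_true]
  exact ⟨⟨⟨cok25_0, cok25_4⟩, ⟨cok25_2, cok25_6⟩⟩, ⟨⟨cok25_1, cok25_5⟩, ⟨cok25_3, cok25_7⟩⟩⟩

theorem cok26 : cb26.all (confOK bodies nBod disk nDisk) = true := by
  simp only [cb26, CB.all, Bool.and_eq_true]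
  exact ⟨⟨⟨cok26_0, cok26_4⟩, ⟨cok26_2, cok26_6⟩⟩, ⟨⟨cok26_1, cok26_5⟩, ⟨cok26_3, cok26_7⟩⟩⟩

theorem cok27 : cb27.all (confOK bodies nBod disk nDisk) = true := by
  simp only [cb27, CB.all, Bool.and_eq_true]
  exact ⟨⟨⟨cok27_0, cok27_4⟩, ⟨cok27_2, cok27_6⟩⟩, ⟨⟨cok27_1, cok27_5⟩, ⟨cok27_3, cok27_7⟩⟩⟩

theorem cok28 : cb28.all (confOK bodies nBod disk nDisk) = true := by
  simp only [cb28, CB.all, Bool.and_eq_true]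
  exact ⟨⟨⟨cok28_0, cok28_4⟩, ⟨cok28_2, cok28_6⟩⟩, ⟨⟨cok28_1, cok28_5⟩, ⟨cok28_3, cok28_7⟩⟩⟩

theorem cok29 : cb29.all (confOK bodies nBod disk nDisk) = true := by
  simp only [cb29, CB.all, Bool.and_eq_true]
  exact ⟨⟨⟨cok29_0, cok29_4⟩, ⟨cok29_2, cok29_6⟩⟩, ⟨⟨cok29_1, cok29_5⟩, ⟨cok29_3, cok29_7⟩⟩⟩

theorem cok30 : cb30.all (confOK bodies nBod disk nDisk) = true := by
  simp only [cb30, CB.all, Bool.and_eq_true]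
  exact ⟨⟨⟨cok30_0, cok30_4⟩, ⟨cok30_2, cok30_6⟩⟩, ⟨⟨cok30_1, cok30_5⟩, ⟨cok30_3, cok30_7⟩⟩⟩

theorem cok31 : cb31.all (confOK bodies nBod disk nDisk) = true := by
  simp only [cb31, CB.all, Bool.and_eq_true]
  exact ⟨⟨⟨cok31_0, cok31_4⟩, ⟨cok31_2, cok31_6⟩⟩, ⟨⟨cok31_1, cok31_5⟩, ⟨cok31_3, cok31_7⟩⟩⟩

end PoolHex
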