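import Mathlib

/-! # Displacement covers inside Pal's hexagon: data formats and checkers

Plane points are written in the coordinates `(p, q)` where `p` and `q` are the scalar products with
the unit vectors at 30 and 150 degrees. In these coordinates the hexagon is
`|p|, |q|, |p + q| ≤ 1/2`, rotation by 60 degrees is `(p, q) ↦ (-q, p + q)` and
the squared norm is `4/3 (p^2 + p q + q^2)`. -/

namespace PoolHex

/-- scale: coordinates are integers in units of `1/M` -/
def M : ℤ := 10000000000000
/-- the same scale, as a natural number -/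
def Mn : ℕ := 10000000000000
/-- slope denominator -/
def Q : ℤ := 30000000000000
/-- slope gap -/
def sg : ℤ := 3000
/-- tolerance of the contact points -/
def d0 : ℤ := 50
/-- position tolerance, in units `1/M` -/
def DD : ℕ := 3200
/-- loss per edge -/
def kap : ℕ := 3 * DD * Mn
/-- twice the area threshold (in the `(p, q)` plane), in units `1/M^2` -/
def TT : ℕ := 146202408680000000000000000

/-- rotation by `60 n` degrees, `n < 6` -/
def rot6 (n : ℕ) (v : ℤ × ℤ) : ℤ × ℤ :=
  match n with
  | 0 => v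
  | 1 => (-v.2, v.1 + v.2)
  | 2 => (-v.1 - v.2, v.1)
  | 3 => (-v.1, -v.2)
  | 4 => (v.2, -v.1 - v.2)
  | _ => (v.1 + v.2, -v.1)

/-- point `j` of the packed body `B`: corner, and the two coordinates in the frame of the corner -/
def bc (B j : ℕ) : ℕ := (B >>> (8 + 96 * j)) % 256
def bx (B j : ℕ) : ℕ := (B >>> (16 + 96 * j)) % 17592186044416
def bY (B j : ℕ) : ℕ := (B >>> (60 + 96 * j)) % 17592186044416
/-- number of points of the packed body -/
def bn (B : ℕ) : ℕ := B % 256

/-- point `j` of body `B` in the reference frame -/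
def bp (B j : ℕ) : ℤ × ℤ :=
  rot6 ((bc B j + 5) % 6) ((bx B j : ℤ), (bY B j : ℤ) - (bx B j : ℤ))

/-- `3/4` of the squared norm -/
def nrm (v : ℤ × ℤ) : ℤ := v.1 * v.1 + v.1 * v.2 + v.2 * v.2

/-- all pairs of points of the list are at distance at most `1` -/
def pairOK (v : ℤ × ℤ) : List (ℤ × ℤ) → Bool
  | [] => true
  | w :: l => decide (4 * nrm (v.1 - w.1, v.2 - w.2) ≤ 3 * M * M) && pairOK v l

def diamOK : List (ℤ × ℤ) → Bool
  | [] => true
  | v :: l => pairOK v l && diamOK l

/-- one exclusion segment: slope `s`, sign, three points -/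
structure Seg where
  s : ℤ
  sgn : Bool
  a : ℕ
  b : ℕ
  c : ℕ

/-- the value at rotation zero of the sum of three support values -/
def segA (B : ℕ) (g : Seg) : ℤ :=
  let v := (bp B g.a).1 + (bp B g.b).2 - (bp B g.c).1 - (bp B g.c).2
  if g.sgn then v else -v

/-- the derivative -/
def segB (B : ℕ) (g : Seg) : ℤ :=
  let v := -((bp B g.a).1 + 2 * (bp B g.a).2) + (2 * (bp B g.b).1 + (bp B g.b).2)
    + ((bp B g.c).2 - (bp B g.c).1)
  if g.sgn then v else -v

def endOK (A B s : ℤ) : Bool :=
  decide (0 < Q * A + s * B) &&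
    decide (9 * M * M * (Q * Q + 3 * s * s) < 4 * (Q * A + s * B) * (Q * A + s * B))

def segOK (B : ℕ) (s : ℤ) (g : Seg) : Bool :=
  decide (g.a < bn B) && decide (g.b < bn B) && decide (g.c < bn B) &&
    endOK (segA B g) (segB B g) s && endOK (segA B g) (segB B g) g.s

/-- segments covering the slopes from `s` up to `e` -/
def exclOK (B : ℕ) (e : ℤ) : ℤ → List Seg → Bool
  | s, [] => decide (e ≤ s)
  | s, g :: l => segOK B s g && exclOK B e g.s l

/-- functional `k`: scalar product with the unit vector at `30 + 60 k` degrees -/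
def fn (k : ℕ) (v : ℤ × ℤ) : ℤ :=
  match k with
  | 0 => v.1
  | 1 => v.1 + v.2
  | 2 => v.2
  | 3 => -v.1
  | 4 => -v.1 - v.2
  | _ => -v.2

/-- a point of the body almost touches each side -/
def contOK (B : ℕ) : ℕ → List ℕ → Bool
  | k, [] => decide (6 ≤ k)
  | k, j :: l => decide (j < bn B) && decide (M ≤ 2 * (fn k (bp B j) + d0)) && contOK B (k + 1) l

def coordOK (B : ℕ) : ℕ → Bool
  | 0 => true
  | n + 1 => decide (bc B n < 6) && decide (2 * bx B n ≤ Mn) && decide (2 * bY B n ≤ Mn) &&
      coordOK B n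

/-- certificate of a body -/
structure BCert where
  cont : List ℕ
  left : List Seg
  right : List Seg

def bodyPts (B : ℕ) : List (ℤ × ℤ) := (List.range (bn B)).map (bp B)

def bodyOK (B : ℕ) (c : BCert) : Bool :=
  decide (2 ≤ bn B) && coordOK B (bn B) && diamOK (bodyPts B) &&
    decide (4 * nrm ((bp B 0).1 - (bp B 1).1, (bp B 0).2 - (bp B 1).2) = 3 * M * M) &&
    contOK B 0 c.cont && exclOK B (-sg) (-10000000000000) c.left &&
    exclOK B 10000000000001 sg c.right

/-- binary trees of numbers -/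
inductive BT
  | tip (m : ℕ)
  | br (l r : BT)

def BT.get : BT → ℕ → ℕ
  | .tip m, _ => m
  | .br l r, n => bif Nat.beq (n % 2) 0 then l.get (n / 2) else r.get (n / 2)

/-- disk point `j`: the two coordinates in the frame of a corner -/
def dx (D j : ℕ) : ℕ := (D >>> (88 * j)) % 17592186044416
def dy (D j : ℕ) : ℕ := (D >>> (88 * j + 44)) % 17592186044416

def diskOK (D : ℕ) : ℕ → Bool
  | 0 => true
  | n + 1 => decide (16 * (dx D n * dx D n + dy D n * dy D n) ≤
      3 * Mn * Mn + 16 * (dx D n * dy D n)) && diskOK D n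

/-- the chain value: `0` on failure, otherwise the accumulated value. `T` is the tree of bodies, `D`
the disk table with `nd` points, `a` the assignment, `w` the window -/
def chain (T : BT) (nb D nd a w : ℕ) : ℕ → ℕ → ℕ → List ℕ → ℕ
  | x, y, acc, [] =>
    bif Nat.ble (y * 0 + kap) (x * (Mn / 2)) then acc + (x * (Mn / 2) - y * 0 - kap) else 0
  | x, y, acc, n :: l =>
    bif Nat.ble 65536 n then
      (let X := dx D (n - 65536)
       let Y := dy D (n - 65536)
       bif Nat.blt (n - 65536) nd && Nat.ble DD X && Nat.ble DD Y &&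
          Nat.ble (y * X + kap) (x * Y) then
         chain T nb D nd a w X Y (acc + (x * Y - y * X - kap)) l
       else 0)
    else
      (let i := n / 256
       let j := n % 256
       let B := T.get i
       let X := bx B j
       let Y := bY B j
       bif Nat.blt i nb && Nat.blt j (bn B) && Nat.testBit a (6 * i + (2 * w + 7 - bc B j) % 6) &&
          Nat.ble DD X && Nat.ble DD Y && Nat.ble (y * X + kap) (x * Y) then
         chain T nb D nd a w X Y (acc + (x * Y - y * X - kap)) l
       else 0)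

/-- a conflict certificate: three chains -/
structure Conf where
  m : ℕ
  c0 : List ℕ
  c1 : List ℕ
  c2 : List ℕ

def chainW (T : BT) (nb D nd a w : ℕ) (l : List ℕ) : ℕ := chain T nb D nd a w (Mn / 2) 0 1 l

def confOK (T : BT) (nb D nd : ℕ) (c : Conf) : Bool :=
  Nat.blt 0 (chainW T nb D nd c.m 0 c.c0) && Nat.blt 0 (chainW T nb D nd c.m 1 c.c1) &&
    Nat.blt 0 (chainW T nb D nd c.m 2 c.c2) &&
    Nat.ble (TT + 3) (chainW T nb D nd c.m 0 c.c0 + chainW T nb D nd c.m 1 c.c1 +
      chainW T nb D nd c.m 2 c.c2)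

/-- branching tree -/
inductive Tr
  | lf (n : ℕ)
  | nd (i : ℕ) (t0 t1 t2 t3 t4 t5 : Tr)

def treeOK (C : BT) (nb : ℕ) : Tr → ℕ → Bool
  | .lf n, a => Nat.beq (Nat.land (C.get n) a) (C.get n)
  | .nd i t0 t1 t2 t3 t4 t5, a =>
    Nat.blt i nb && treeOK C nb t0 (a ||| 1 <<< (6 * i)) && treeOK C nb t1 (a ||| 1 <<< (6 * i + 1)) &&
      treeOK C nb t2 (a ||| 1 <<< (6 * i + 2)) && treeOK C nb t3 (a ||| 1 <<< (6 * i + 3)) &&
      treeOK C nb t4 (a ||| 1 <<< (6 * i + 4)) && treeOK C nb t5 (a ||| 1 <<< (6 * i + 5))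

end PoolHex
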