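import Pool.Agent.LebHex.S1

/-! # HEX-A3: soundness of the chains -/

open MeasureTheory

namespace PoolHex

/-- A point of the body table, seen in window `w`. Proof: from `h j hj` get `z` with
`Cl z (rot6 k (bp B j))`, `bp B j = rot6 ((bc B j + 5) % 6) (x, y - x)`. Do cases on `bc B j` (6 values)
and on `w` (3 values): `k` is determined and the composition of the two rotations is `rot6 (2 w)`;
then `win w z` is close to `(x, y)` by unfolding everything. -/
theorem near_win {K : Set (ℝ × ℝ)} {B k w j : ℕ} (hw : w < 3) (hj : j < bn B) (hc : bc B j < 6)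
    (hk : k = (2 * w + 7 - bc B j) % 6) (h : Has K B k) :
    ∃ z ∈ win w '' K, |10000000000000 * z.1 - bx B j| ≤ 3200 ∧ |10000000000000 * z.2 - bY B j| ≤ 3200 := by
  obtain ⟨z, hz, h1, h2, h3⟩ := h j hj
  refine ⟨win w z, ⟨z, hz, rfl⟩, ?_⟩
  unfold bp at h1 h2 h3
  generalize bc B j = c at *
  generalize bx B j = x at *
  generalize bY B j = y at *
  subst hk
  rw [abs_le] at h1 h2 h3
  interval_cases w <;> interval_cases c <;>
    · simp [rot6] at h1 h2 h3
      simp only [win, abs_le]
      refine ⟨⟨?_, ?_⟩, ⟨?_, ?_⟩⟩ <;> linarith [h1.1, h1.2, h2.1, h2.2, h3.1, h3.2]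

theorem hex3_prod {a b A B : ℝ} (ha : |a| ≤ A) (hb : |b| ≤ B) : |a * b| ≤ A * B := by
  rw [abs_mul]
  exact mul_le_mul ha hb (abs_nonneg _) ((abs_nonneg _).trans ha)

theorem hex3_edge {v u : ℝ × ℝ} {x y X Y : ℕ} (hx : 2 * x ≤ Mn) (hy : 2 * y ≤ Mn)
    (hX : 2 * X ≤ Mn) (hY : 2 * Y ≤ Mn)
    (h1 : |10000000000000 * v.1 - x| ≤ 3200) (h2 : |10000000000000 * v.2 - y| ≤ 3200)
    (h3 : |10000000000000 * u.1 - X| ≤ 3200) (h4 : |10000000000000 * u.2 - Y| ≤ 3200)
    (h : y * X + kap ≤ x * Y) :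
    0 < v.1 * u.2 - v.2 * u.1 ∧
      ((x * Y - y * X - kap : ℕ) : ℝ) ≤ 10000000000000 ^ 2 * (v.1 * u.2 - v.2 * u.1) := by
  have hcast : ((x * Y - y * X - kap : ℕ) : ℝ) = (x : ℝ) * Y - y * X - kap := by
    have h5 : (x * Y - y * X - kap) + (y * X + kap) = x * Y := by omega
    have h6 := congrArg (fun n : ℕ => (n : ℝ)) h5
    push_cast at h6
    linarith
  have hk : (kap : ℝ) = 96000000000000000 := by
    unfold kap DD Mn
    norm_num
  have hR : ((y : ℝ) * X + kap) ≤ x * Y := by exact_mod_cast h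
  have bd : ∀ n : ℕ, 2 * n ≤ Mn → |(n : ℝ)| ≤ 5000000000000 := by
    intro n hn
    have h5 : (2 : ℝ) * n ≤ 10000000000000 := by
      have : ((2 * n : ℕ) : ℝ) ≤ (Mn : ℝ) := by exact_mod_cast hn
      have h6 : (Mn : ℝ) = 10000000000000 := by
        unfold Mn
        norm_num
      rw [h6] at this
      push_cast at this
      exact this
    rw [abs_of_nonneg (Nat.cast_nonneg n)]
    linarith
  have a1 := hex3_prod (bd x hx) h4
  have a2 := hex3_prod (bd Y hY) h1
  have a3 := hex3_prod h1 h4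
  have a4 := hex3_prod (bd y hy) h3
  have a5 := hex3_prod (bd X hX) h2
  have a6 := hex3_prod h2 h3
  have e : (10000000000000 : ℝ) ^ 2 * (v.1 * u.2 - v.2 * u.1) = (x : ℝ) * Y - y * X +
      (x : ℝ) * (10000000000000 * u.2 - Y) + (Y : ℝ) * (10000000000000 * v.1 - x) +
      (10000000000000 * v.1 - x) * (10000000000000 * u.2 - Y) -
      (y : ℝ) * (10000000000000 * u.1 - X) - (X : ℝ) * (10000000000000 * v.2 - y) -
      (10000000000000 * v.2 - y) * (10000000000000 * u.1 - X) := by ring
  rw [abs_le] at a1 a2 a3 a4 a5 a6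
  rw [hk] at hcast hR
  have key : (x : ℝ) * Y - y * X - 70000000000000000 ≤
      10000000000000 ^ 2 * (v.1 * u.2 - v.2 * u.1) := by
    rw [e]
    linarith [a1.1, a2.1, a3.1, a4.2, a5.2, a6.2]
  constructor
  · by_contra hneg
    rw [not_lt] at hneg
    have : (10000000000000 : ℝ) ^ 2 * (v.1 * u.2 - v.2 * u.1) ≤ 0 :=
      mul_nonpos_of_nonneg_of_nonpos (by positivity) hneg
    linarith
  · rw [hcast]
    linarith

theorem hex3_disk {D : ℕ} {j : ℕ} : ∀ {nd : ℕ}, diskOK D nd = true → j < nd →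
    16 * (dx D j * dx D j + dy D j * dy D j) ≤ 3 * Mn * Mn + 16 * (dx D j * dy D j) := by
  intro nd
  induction nd with
  | zero => intro _ h; exact absurd h (Nat.not_lt_zero _)
  | succ n ih =>
    intro h hj
    rw [diskOK, Bool.and_eq_true, decide_eq_true_iff] at h
    rcases Nat.lt_succ_iff_lt_or_eq.1 hj with h1 | h1
    · exact ih h.2 h1
    · rw [h1]
      exact h.1

theorem hex3_disk_half {x y : ℕ} (h : 16 * (x * x + y * y) ≤ 3 * Mn * Mn + 16 * (x * y)) :
    2 * x ≤ Mn ∧ 2 * y ≤ Mn := by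
  have h1 : (16 : ℤ) * (x * x + y * y) ≤ 3 * Mn * Mn + 16 * (x * y) := by exact_mod_cast h
  have h0 : (0 : ℤ) ≤ Mn := Int.natCast_nonneg _
  constructor
  · by_contra hc
    rw [not_le] at hc
    have h2 : (Mn : ℤ) < 2 * x := by exact_mod_cast hc
    nlinarith [sq_nonneg ((x : ℤ) - 2 * y), mul_self_lt_mul_self h0 h2]
  · by_contra hc
    rw [not_le] at hc
    have h2 : (Mn : ℤ) < 2 * y := by exact_mod_cast hc
    nlinarith [sq_nonneg ((y : ℤ) - 2 * x), mul_self_lt_mul_self h0 h2]

theorem hex3_disk_mem {w : ℕ} (hw : w < 3) {K : Set (ℝ × ℝ)} (hK : HasD K) {x y : ℕ}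
    (h : 16 * (x * x + y * y) ≤ 3 * Mn * Mn + 16 * (x * y)) :
    (((x : ℝ) / 10000000000000, (y : ℝ) / 10000000000000) : ℝ × ℝ) ∈ win w '' K := by
  have hR : (16 : ℝ) * (x * x + y * y) ≤ 3 * 10000000000000 * 10000000000000 + 16 * (x * y) := by
    have h1 : ((16 * (x * x + y * y) : ℕ) : ℝ) ≤ ((3 * Mn * Mn + 16 * (x * y) : ℕ) : ℝ) :=
      Nat.cast_le.2 h
    have h6 : (Mn : ℝ) = 10000000000000 := by
      unfold Mn
      norm_num
    push_cast at h1
    rw [h6] at h1
    exact h1
  set a : ℝ := (x : ℝ) / 10000000000000 with ha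
  set b : ℝ := (y : ℝ) / 10000000000000 with hb
  have hx : (x : ℝ) = 10000000000000 * a := by rw [ha]; ring
  have hy : (y : ℝ) = 10000000000000 * b := by rw [hb]; ring
  have hab : 16 * (a ^ 2 - a * b + b ^ 2) ≤ 3 := by
    rw [hx, hy] at hR
    nlinarith
  interval_cases w
  · refine ⟨(a, b - a), hK _ ?_, ?_⟩
    · unfold nR
      nlinarith
    · simp [win]
  · refine ⟨(-b, a), hK _ ?_, ?_⟩
    · unfold nR
      nlinarith
    · simp [win]
  · refine ⟨(b - a, -b), hK _ ?_, ?_⟩
    · unfold nR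
      nlinarith
    · simp [win]

theorem hex3_ind {T : BT} {nb D nd a w : ℕ} (hw : w < 3) {K : Set (ℝ × ℝ)} (hG : Good K)
    (hS : Sat T nb K a) (hD : diskOK D nd = true)
    (hB : ∀ i < nb, ∀ j < bn (T.get i), bc (T.get i) j < 6 ∧ 2 * bx (T.get i) j ≤ Mn ∧
      2 * bY (T.get i) j ≤ Mn)
    (l : List ℕ) : ∀ (x y acc : ℕ) (v : ℝ × ℝ), 2 * x ≤ Mn → 2 * y ≤ Mn →
      |10000000000000 * v.1 - x| ≤ 3200 → |10000000000000 * v.2 - y| ≤ 3200 →
      0 < chain T nb D nd a w x y acc l →
      ∃ l' : List (ℝ × ℝ), (∀ u ∈ l', u ∈ win w '' K ∧ 0 ≤ u.1 ∧ 0 ≤ u.2) ∧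
        fanOK v (l' ++ [(0, 1 / 2)]) ∧
        (chain T nb D nd a w x y acc l : ℝ) - acc ≤
          10000000000000 ^ 2 * fan v (l' ++ [(0, 1 / 2)]) := by
  induction l with
  | nil =>
    intro x y acc v hx hy h1 h2 h
    rw [chain] at h ⊢
    cases hc : Nat.ble (y * 0 + kap) (x * (Mn / 2)) with
    | false =>
      rw [hc, cond_false] at h
      exact absurd h (lt_irrefl _)
    | true =>
      rw [cond_true]
      have hc' := Nat.le_of_ble_eq_true hc
      have h3 := hex3_edge (v := v) (u := (0, 1 / 2)) (X := 0) (Y := Mn / 2) hx hy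
        (Nat.zero_le _) (by unfold Mn; norm_num) h1 h2 (by norm_num) (by
          unfold Mn
          norm_num) hc'
      refine ⟨[], by simp, ?_, ?_⟩
      · exact ⟨h3.1, trivial⟩
      · have h4 := h3.2
        rw [List.nil_append]
        simp only [fan, add_zero]
        push_cast at h4 ⊢
        linarith
  | cons n l ih =>
    intro x y acc v hx hy h1 h2 h
    rw [chain] at h ⊢
    cases hn : Nat.ble 65536 n with
    | true =>
      rw [hn, cond_true] at h
      rw [cond_true]
      simp only at h ⊢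
      set X := dx D (n - 65536) with hX
      set Y := dy D (n - 65536) with hY
      cases hc : (Nat.blt (n - 65536) nd && Nat.ble DD X && Nat.ble DD Y &&
          Nat.ble (y * X + kap) (x * Y)) with
      | false =>
        rw [hc, cond_false] at h
        exact absurd h (lt_irrefl _)
      | true =>
        rw [hc, cond_true] at h
        rw [cond_true]
        simp only [Bool.and_eq_true] at hc
        obtain ⟨⟨⟨hc1, hc2⟩, hc3⟩, hc4⟩ := hc
        have hc1' : n - 65536 < nd := by
          rw [Nat.blt_eq] at hc1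
          exact hc1
        have hc4' := Nat.le_of_ble_eq_true hc4
        have hdk := hex3_disk hD hc1'
        have hhalf := hex3_disk_half hdk
        have hmem := hex3_disk_mem hw hG.disk hdk
        have e1 : |10000000000000 * (((X : ℝ) / 10000000000000)) - X| ≤ 3200 := by
          rw [mul_div_cancel₀ _ (by norm_num : (10000000000000 : ℝ) ≠ 0), sub_self, abs_zero]
          norm_num
        have e2 : |10000000000000 * (((Y : ℝ) / 10000000000000)) - Y| ≤ 3200 := by
          rw [mul_div_cancel₀ _ (by norm_num : (10000000000000 : ℝ) ≠ 0), sub_self, abs_zero]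
          norm_num
        obtain ⟨l', hl1, hl2, hl3⟩ := ih X Y _ ((X : ℝ) / 10000000000000, (Y : ℝ) / 10000000000000)
          hhalf.1 hhalf.2 e1 e2 h
        have h3 := hex3_edge (v := v)
          (u := ((X : ℝ) / 10000000000000, (Y : ℝ) / 10000000000000)) hx hy hhalf.1 hhalf.2 h1 h2
          e1 e2 hc4'
        refine ⟨((X : ℝ) / 10000000000000, (Y : ℝ) / 10000000000000) :: l', ?_, ?_, ?_⟩
        · intro u hu
          rcases List.mem_cons.1 hu with rfl | hu
          · exact ⟨hmem, div_nonneg (Nat.cast_nonneg _) (by norm_num),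
              div_nonneg (Nat.cast_nonneg _) (by norm_num)⟩
          · exact hl1 u hu
        · exact ⟨h3.1, hl2⟩
        · have h4 := h3.2
          rw [List.cons_append]
          simp only [fan]
          push_cast at h4 hl3 ⊢
          linarith
    | false =>
      rw [hn, cond_false] at h
      rw [cond_false]
      simp only at h ⊢
      set i := n / 256 with hi
      set j := n % 256 with hj
      set X := bx (T.get i) j with hX
      set Y := bY (T.get i) j with hY
      cases hc : (Nat.blt i nb && Nat.blt j (bn (T.get i)) &&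
          Nat.testBit a (6 * i + (2 * w + 7 - bc (T.get i) j) % 6) &&
          Nat.ble DD X && Nat.ble DD Y && Nat.ble (y * X + kap) (x * Y)) with
      | false =>
        rw [hc, cond_false] at h
        exact absurd h (lt_irrefl _)
      | true =>
        rw [hc, cond_true] at h
        rw [cond_true]
        simp only [Bool.and_eq_true] at hc
        obtain ⟨⟨⟨⟨⟨hc1, hc2⟩, hc3⟩, hc4⟩, hc5⟩, hc6⟩ := hc
        have hc1' : i < nb := by
          rw [Nat.blt_eq] at hc1
          exact hc1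
        have hc2' : j < bn (T.get i) := by
          rw [Nat.blt_eq] at hc2
          exact hc2
        have hc4' := Nat.le_of_ble_eq_true hc4
        have hc5' := Nat.le_of_ble_eq_true hc5
        have hc6' := Nat.le_of_ble_eq_true hc6
        obtain ⟨hb1, hb2, hb3⟩ := hB i hc1' j hc2'
        obtain ⟨u, hu, e1, e2⟩ := near_win hw hc2' hb1 rfl
          (hS i hc1' _ (Nat.mod_lt _ (by norm_num)) hc3)
        obtain ⟨l', hl1, hl2, hl3⟩ := ih X Y _ u hb2 hb3 e1 e2 h
        have h3 := hex3_edge (v := v) (u := u) hx hy hb2 hb3 h1 h2 e1 e2 hc6'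
        have hDD : (DD : ℝ) = 3200 := by
          unfold DD
          norm_num
        have f1 : (3200 : ℝ) ≤ X := by
          rw [← hDD]
          exact_mod_cast hc4'
        have f2 : (3200 : ℝ) ≤ Y := by
          rw [← hDD]
          exact_mod_cast hc5'
        refine ⟨u :: l', ?_, ?_, ?_⟩
        · intro u' hu'
          rcases List.mem_cons.1 hu' with rfl | hu'
          · rw [abs_le] at e1 e2
            exact ⟨hu, by linarith [e1.1], by linarith [e2.1]⟩
          · exact hl1 u' hu'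
        · exact ⟨h3.1, hl2⟩
        · have h4 := h3.2
          rw [List.cons_append]
          simp only [fan]
          push_cast at h4 hl3 ⊢
          linarith

theorem hex3_convex {K : Set (ℝ × ℝ)} (hK : Convex ℝ K) (w : ℕ) : Convex ℝ (win w '' K) := by
  have hlin : ∀ (a b : ℝ) (x y : ℝ × ℝ), win w (a • x + b • y) = a • win w x + b • win w y := by
    intro a b x y
    rcases w with _ | _ | w <;>
      · simp only [win, Prod.smul_fst, Prod.smul_snd, Prod.smul_mk, smul_eq_mul, Prod.fst_add,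
          Prod.snd_add, Prod.mk_add_mk]
        ext <;> simp <;> ring
  rintro _ ⟨x, hx, rfl⟩ _ ⟨y, hy, rfl⟩ a b ha hb hab
  exact ⟨a • x + b • y, hK hx hy ha hb hab, hlin a b x y⟩

/-- Soundness of the checker `chain`. Proof: first an induction on the list `l` (generalizing the
current integer point `(x, y)` and `acc`): if `2x, 2y ≤ Mn`, `v ∈ win w '' K` has
`|10^13 v.1 - x| ≤ 3200`, `|10^13 v.2 - y| ≤ 3200` and `0 ≤ v.1, v.2`, and the value `r` of `chain` is
positive, then there is a list `l'` of points of `win w '' K` with nonnegative coordinates such that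
`fanOK v (l' ++ [(0, 1/2)])` and `r - acc ≤ 10^26 * fan v (l' ++ [(0, 1/2)])`. One edge: the cross
product of the actual points times `10^26` differs from `x Y - y X` by at most
`3200 (x + y + X + Y) + 2 * 3200^2 ≤ kap`. Body points by `near_win`, disk points are in `K` by
`hG.disk` (all three windows: `x^2 - x y + y^2` is `nR`), their coordinates satisfy `2 X, 2 Y ≤ Mn` by
`diskOK`. The points `(1/2, 0)` and `(0, 1/2)` of `win w '' K` come from `v0, v2, v4` (`w = 0`: `v0, v2`;
`w = 1`: `v2, v4`; `w = 2`: `v4, v0`). Then `sector_vol` with `v = (1/2, 0)`, `r = 0`. -/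
theorem chain_sound {T : BT} {nb D nd a w : ℕ} (hw : w < 3) {K : Set (ℝ × ℝ)} (hG : Good K)
    (hS : Sat T nb K a) (hD : diskOK D nd = true)
    (hB : ∀ i < nb, ∀ j < bn (T.get i), bc (T.get i) j < 6 ∧ 2 * bx (T.get i) j ≤ Mn ∧
      2 * bY (T.get i) j ≤ Mn)
    (l : List ℕ) (h : 0 < chainW T nb D nd a w l) :
    ENNReal.ofReal (((chainW T nb D nd a w l : ℝ) - 1) / (2 * 10000000000000 ^ 2)) ≤
      volume (win w '' K ∩ Quad) := by
  have hends : ((1 / 2, 0) : ℝ × ℝ) ∈ win w '' K ∧ ((0, 1 / 2) : ℝ × ℝ) ∈ win w '' K ∧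
      ((0, 0) : ℝ × ℝ) ∈ win w '' K := by
    have h0 : ((0, 0) : ℝ × ℝ) ∈ K := hG.disk _ (by norm_num [nR])
    interval_cases w
    · exact ⟨⟨_, hG.v0, by norm_num [win]⟩, ⟨_, hG.v2, by simp [win]⟩, ⟨_, h0, by simp [win]⟩⟩
    · exact ⟨⟨_, hG.v2, by simp [win]⟩, ⟨_, hG.v4, by norm_num [win]⟩, ⟨_, h0, by simp [win]⟩⟩
    · exact ⟨⟨_, hG.v4, by norm_num [win]⟩, ⟨_, hG.v0, by norm_num [win]⟩, ⟨_, h0, by simp [win]⟩⟩
  unfold chainW at h ⊢
  obtain ⟨l', hl1, hl2, hl3⟩ := hex3_ind hw hG hS hD hB l (Mn / 2) 0 1 (1 / 2, 0)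
    (by unfold Mn; norm_num) (Nat.zero_le _) (by
      unfold Mn
      norm_num) (by norm_num) h
  have h1 := sector_vol (hex3_convex hG.conv w) hends.2.2 (l' ++ [(0, 1 / 2)]) (1 / 2, 0) hends.1
    (by norm_num) (by norm_num) (by
      intro u hu
      rw [List.mem_append] at hu
      rcases hu with hu | hu
      · exact hl1 u hu
      · rw [List.mem_singleton] at hu
        rw [hu]
        exact ⟨hends.2.1, by norm_num, by norm_num⟩) hl2 0 le_rfl (by simp)
  refine le_trans (ENNReal.ofReal_le_ofReal ?_) h1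
  rw [zero_add, div_le_div_iff₀ (by positivity) (by positivity)]
  push_cast at hl3
  linarith

end PoolHex
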