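import Pool.Agent.LebHex.S2
import Pool.Agent.LebHex.S3

/-! # HEX-C1: soundness of conflicts and of the tree -/

open MeasureTheory

namespace PoolHex

/-- Proof: `chain_sound` for the three windows (`a = c.m`), `three_windows`, and `Good.vol`:
`(r0 - 1) + (r1 - 1) + (r2 - 1) ≥ TT`. -/
theorem conf_sound {T : BT} {nb D nd : ℕ} (hD : diskOK D nd = true)
    (hB : ∀ i < nb, ∀ j < bn (T.get i), bc (T.get i) j < 6 ∧ 2 * bx (T.get i) j ≤ Mn ∧
      2 * bY (T.get i) j ≤ Mn) {c : Conf} (h : confOK T nb D nd c = true) :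
    Dead T nb c.m := by
  unfold confOK at h
  simp only [Bool.and_eq_true] at h
  obtain ⟨⟨⟨h0, h1⟩, h2⟩, h3⟩ := h
  rw [Nat.blt_eq] at h0 h1 h2
  rw [Nat.ble_eq] at h3
  intro K hG hS
  have a0 := chain_sound (w := 0) (by norm_num) hG hS hD hB c.c0 h0
  have a1 := chain_sound (w := 1) (by norm_num) hG hS hD hB c.c1 h1
  have a2 := chain_sound (w := 2) (by norm_num) hG hS hD hB c.c2 h2
  have a3 := three_windows K
  have a4 := hG.vol
  set r0 := chainW T nb D nd c.m 0 c.c0 with hr0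
  set r1 := chainW T nb D nd c.m 1 c.c1 with hr1
  set r2 := chainW T nb D nd c.m 2 c.c2 with hr2
  have c0 : (1 : ℝ) ≤ r0 := by exact_mod_cast h0
  have c1 : (1 : ℝ) ≤ r1 := by exact_mod_cast h1
  have c2 : (1 : ℝ) ≤ r2 := by exact_mod_cast h2
  have c3 : (TT : ℝ) + 3 ≤ r0 + r1 + r2 := by exact_mod_cast h3
  have hd : (0 : ℝ) < 2 * 10000000000000 ^ 2 := by norm_num
  have b0 : 0 ≤ ((r0 : ℝ) - 1) / (2 * 10000000000000 ^ 2) := div_nonneg (by linarith) hd.le
  have b1 : 0 ≤ ((r1 : ℝ) - 1) / (2 * 10000000000000 ^ 2) := div_nonneg (by linarith) hd.le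
  have b2 : 0 ≤ ((r2 : ℝ) - 1) / (2 * 10000000000000 ^ 2) := div_nonneg (by linarith) hd.le
  have a5 := (add_le_add (add_le_add a0 a1) a2).trans a3
  rw [← ENNReal.ofReal_add b0 b1, ← ENNReal.ofReal_add (add_nonneg b0 b1) b2] at a5
  have a6 : ENNReal.ofReal ((TT : ℝ) / (2 * 10000000000000 ^ 2)) ≤
      ENNReal.ofReal (((r0 : ℝ) - 1) / (2 * 10000000000000 ^ 2) +
        ((r1 : ℝ) - 1) / (2 * 10000000000000 ^ 2) + ((r2 : ℝ) - 1) / (2 * 10000000000000 ^ 2)) := by
    refine ENNReal.ofReal_le_ofReal ?_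
    rw [← add_div, ← add_div]
    refine div_le_div_of_nonneg_right ?_ hd.le
    linarith
  exact absurd (lt_of_le_of_lt (a6.trans a5) a4) (lt_irrefl _)

/-- monotonicity: every bit of `a` is a bit of `b` (`Nat.testBit_land`) -/
theorem dead_mono {T : BT} {nb a b : ℕ} (h : Dead T nb a) (hab : Nat.land a b = a) :
    Dead T nb b := by
  intro K hG hS
  refine h K hG ?_
  intro i hi k hk hbit
  refine hS i hi k hk ?_
  rw [← hab] at hbit
  have h1 : Nat.testBit (a &&& b) (6 * i + k) = true := hbit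
  rw [Nat.testBit_and, Bool.and_eq_true] at h1
  exact h1.2

/-- branching: `Nat.testBit_lor`, `1 <<< n = 2 ^ n`, `Nat.testBit_two_pow` and `6 i + k = 6 i' + k'` with
`k, k' < 6` implies `i = i'`, `k = k'` -/
theorem dead_branch {T : BT} {nb a i : ℕ} (hi : i < nb)
    (hp : ∀ K : Set (ℝ × ℝ), Good K → ∃ k < 6, Has K (T.get i) k)
    (h : ∀ k < 6, Dead T nb (a ||| 1 <<< (6 * i + k))) : Dead T nb a := by
  intro K hG hS
  obtain ⟨k, hk, hhas⟩ := hp K hG
  refine h k hk K hG ?_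
  intro i' hi' k' hk' hbit
  rw [Nat.testBit_or, Bool.or_eq_true] at hbit
  rcases hbit with h1 | h1
  · exact hS i' hi' k' hk' h1
  · rw [Nat.one_shiftLeft, Nat.testBit_two_pow, decide_eq_true_iff] at h1
    have h2 : i = i' := by omega
    have h3 : k = k' := by omega
    rw [← h2, ← h3]
    exact hhas

theorem tree_sound {T C : BT} {nb : ℕ}
    (hp : ∀ i < nb, ∀ K : Set (ℝ × ℝ), Good K → ∃ k < 6, Has K (T.get i) k)
    (hC : ∀ n, Dead T nb (C.get n)) : ∀ (t : Tr) (a : ℕ), treeOK C nb t a = true → Dead T nb a := by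
  intro t
  induction t with
  | lf n =>
    intro a h
    rw [treeOK] at h
    exact dead_mono (hC n) (Nat.eq_of_beq_eq_true h)
  | nd i t0 t1 t2 t3 t4 t5 ih0 ih1 ih2 ih3 ih4 ih5 =>
    intro a h
    rw [treeOK] at h
    simp only [Bool.and_eq_true] at h
    obtain ⟨⟨⟨⟨⟨⟨hi, h0⟩, h1⟩, h2⟩, h3⟩, h4⟩, h5⟩ := h
    rw [Nat.blt_eq] at hi
    refine dead_branch hi (hp i hi) ?_
    intro k hk
    interval_cases k
    · exact ih0 _ h0
    · exact ih1 _ h1
    · exact ih2 _ h2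
    · exact ih3 _ h3
    · exact ih4 _ h4
    · exact ih5 _ h5

end PoolHex
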