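import Pool.Agent.LebHex.S5

/-! # HEX-D1: normalisation of the cover: the disk, the triangle, the first body -/

open MeasureTheory

namespace PoolHex

/-- a convex cover inside the hexagon with small area -/
structure Pre (K : Set (ℝ × ℝ)) : Prop where
  conv : Convex ℝ K
  sub : K ⊆ Hx
  cov : Cov K
  vol : volume K < ENNReal.ofReal ((TT : ℝ) / (2 * 10000000000000 ^ 2))

/-- `rotR` as a linear map -/
noncomputable def hex8a_L : (ℝ × ℝ) →ₗ[ℝ] (ℝ × ℝ) :=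
  Matrix.toLin (Module.Basis.finTwoProd ℝ) (Module.Basis.finTwoProd ℝ) !![0, -1; 1, 1]

theorem hex8a_L_eq (v : ℝ × ℝ) : hex8a_L v = rotR v := by
  unfold hex8a_L rotR
  rw [Matrix.toLin_finTwoProd_apply]
  ext <;> simp

theorem hex8a_im (K : Set (ℝ × ℝ)) : rotR '' K = hex8a_L '' K := by
  apply Set.image_congr
  intro v _
  exact (hex8a_L_eq v).symm

theorem hex8a_vol (K : Set (ℝ × ℝ)) : volume (rotR '' K) = volume K := by
  rw [hex8a_im, Measure.addHaar_image_linearMap]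
  have h : LinearMap.det hex8a_L = 1 := by
    unfold hex8a_L
    rw [LinearMap.det_toLin, Matrix.det_fin_two_of]
    norm_num
  rw [h]
  simp

theorem hex8a_back (v : ℝ × ℝ) : rotR (rotR (v.2, -(v.1 + v.2))) = v := by
  unfold rotR
  ext
  · simp
  · simp

theorem hex8a_rot (k : ℕ) (hk : k < 6) (P : ℤ × ℤ) :
    rot6 ((k + 1) % 6) P = (-(rot6 k P).2, (rot6 k P).1 + (rot6 k P).2) := by
  have h : k = 0 ∨ k = 1 ∨ k = 2 ∨ k = 3 ∨ k = 4 ∨ k = 5 := by omega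
  rcases h with rfl | rfl | rfl | rfl | rfl | rfl <;> simp only [rot6, Nat.reduceAdd, Nat.reduceMod] <;>
    ext <;> simp only [] <;> ring

/-- `rotR` is linear with determinant `1`, maps `Hx` to itself; covers: compose the motion with
`act_rot`. -/
theorem Pre.rot {K : Set (ℝ × ℝ)} (h : Pre K) : Pre (rotR '' K) := by
  refine ⟨?_, ?_, ?_, ?_⟩
  · rw [hex8a_im]
    exact h.conv.linear_image hex8a_L
  · rintro _ ⟨v, hv, rfl⟩
    exact Hx_rot (h.sub hv)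
  · intro S h1 h2
    obtain ⟨al, be, t, hn, hS⟩ := h.cov S h1 h2
    refine ⟨(al - 3 * be) / 2, (al + be) / 2, rotR t, ?_, ?_⟩
    · linear_combination hn
    · intro v hv
      rw [← act_rot]
      exact ⟨_, hS v hv, rfl⟩
  · rw [hex8a_vol]
    exact h.vol

/-- The closed disk of diameter `1` is in the centre: apply `Pre.cov` to `{v | 16 * nR v ≤ 3}`
(`nR (v - w) ≤ 2 nR v + 2 nR w`; exact pair `(1/2, -1/4)` and its opposite). The motion maps the disk onto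
the disk of centre `t`; the six points at distance `1/2` from `t` in the directions of the functionals
(`t ± (1/2, -1/4)`, `t ± (1/4, 1/4)`, `t ± (-1/4, 1/2)`) are in `Hx`, so `t = 0`. -/
theorem Pre.disk {K : Set (ℝ × ℝ)} (h : Pre K) : HasD K := by
  obtain ⟨al, be, t, hn, hS⟩ := h.cov {v | 16 * nR v ≤ 3} (by
    intro v hv w hw
    simp only [Set.mem_ofPred_eq, nR] at hv hw
    simp only [nR, Prod.fst_sub, Prod.snd_sub]
    nlinarith [sq_nonneg (2 * (v.1 + w.1) + (v.2 + w.2)), sq_nonneg (v.2 + w.2)]) (by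
    refine ⟨(1 / 2, -1 / 4), ?_, (-1 / 2, 1 / 4), ?_, ?_⟩
    · simp only [Set.mem_ofPred_eq, nR]
      norm_num
    · simp only [Set.mem_ofPred_eq, nR]
      norm_num
    · simp only [nR, Prod.fst_sub, Prod.snd_sub]
      norm_num)
  have key : ∀ v : ℝ × ℝ, 16 * nR v ≤ 3 → ((v.1 + t.1, v.2 + t.2) : ℝ × ℝ) ∈ K := by
    intro v hv
    have h1 : nR (al * v.1 + be * (v.1 + 2 * v.2), al * v.2 - be * (2 * v.1 + v.2)) = nR v := by
      simp only [nR]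
      linear_combination (v.1 ^ 2 + v.1 * v.2 + v.2 ^ 2) * hn
    have h2 := hS (al * v.1 + be * (v.1 + 2 * v.2), al * v.2 - be * (2 * v.1 + v.2)) (by
      simp only [Set.mem_ofPred_eq]
      rw [h1]
      exact hv)
    have h3 : act al be t (al * v.1 + be * (v.1 + 2 * v.2), al * v.2 - be * (2 * v.1 + v.2)) =
        (v.1 + t.1, v.2 + t.2) := by
      simp only [act]
      ext
      · simp only
        linear_combination v.1 * hn
      · simp only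
        linear_combination v.2 * hn
    rw [h3] at h2
    exact h2
  have k1 := h.sub (key (1 / 2, -1 / 4) (by simp only [nR]; norm_num))
  have k2 := h.sub (key (-1 / 2, 1 / 4) (by simp only [nR]; norm_num))
  have k3 := h.sub (key (-1 / 4, 1 / 2) (by simp only [nR]; norm_num))
  have k4 := h.sub (key (1 / 4, -1 / 2) (by simp only [nR]; norm_num))
  simp only [Hx, Set.mem_ofPred_eq, abs_le] at k1 k2 k3 k4
  have t1 : t.1 = 0 := by linarith [k1.1.2, k2.1.1]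
  have t2 : t.2 = 0 := by linarith [k3.2.1.2, k4.2.1.1]
  intro v hv
  have h4 := key v hv
  rw [t1, t2, add_zero, add_zero] at h4
  exact h4

theorem hex8b_pos {a b : ℝ} (ha : 0 ≤ a) (hb : 0 ≤ b) (h : a ^ 2 + 3 * b ^ 2 = 1) (h1 : a + b ≤ 1)
    (h2 : 2 * b ≤ 1) : (b = 0 ∧ a = 1) ∨ (b = 1 / 2 ∧ a = 1 / 2) := by
  have h3 : a ≤ 1 - b := by linarith
  have h4 : a ^ 2 ≤ (1 - b) ^ 2 := by nlinarith
  have h5 : 0 ≤ b * (1 - 2 * b) := mul_nonneg hb (by linarith)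
  have h6 : b * (1 - 2 * b) = 0 := by nlinarith
  rcases mul_eq_zero.1 h6 with h7 | h7
  · left
    refine ⟨h7, ?_⟩
    rw [h7] at h
    nlinarith
  · right
    have h8 : b = 1 / 2 := by linarith
    refine ⟨h8, ?_⟩
    rw [h8] at h
    nlinarith

theorem hex8b_six {a b : ℝ} (h : a ^ 2 + 3 * b ^ 2 = 1) (h1 : a + b ≤ 1) (h2 : -1 ≤ a + b) (h3 : a - b ≤ 1)
    (h4 : -1 ≤ a - b) (h5 : 2 * b ≤ 1) (h6 : -1 ≤ 2 * b) :
    (b = 0 ∧ (a = 1 ∨ a = -1)) ∨ ((b = 1 / 2 ∨ b = -1 / 2) ∧ (a = 1 / 2 ∨ a = -1 / 2)) := by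
  rcases le_total 0 a with ha | ha <;> rcases le_total 0 b with hb | hb
  · rcases hex8b_pos ha hb h h1 h5 with ⟨h7, h8⟩ | ⟨h7, h8⟩
    · exact Or.inl ⟨h7, Or.inl h8⟩
    · exact Or.inr ⟨Or.inl h7, Or.inl h8⟩
  · rcases hex8b_pos (a := a) (b := -b) ha (by linarith) (by linarith [neg_sq b]) (by linarith) (by linarith) with
      ⟨h7, h8⟩ | ⟨h7, h8⟩
    · exact Or.inl ⟨by linarith, Or.inl h8⟩
    · exact Or.inr ⟨Or.inr (by linarith), Or.inl h8⟩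
  · rcases hex8b_pos (a := -a) (b := b) (by linarith) hb (by linarith [neg_sq a]) (by linarith) (by linarith) with
      ⟨h7, h8⟩ | ⟨h7, h8⟩
    · exact Or.inl ⟨h7, Or.inr (by linarith)⟩
    · exact Or.inr ⟨Or.inl h7, Or.inr (by linarith)⟩
  · rcases hex8b_pos (a := -a) (b := -b) (by linarith) (by linarith) (by linarith [neg_sq a, neg_sq b]) (by linarith)
      (by linarith) with ⟨h7, h8⟩ | ⟨h7, h8⟩
    · exact Or.inl ⟨by linarith, Or.inr (by linarith)⟩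
    · exact Or.inr ⟨Or.inr (by linarith), Or.inr (by linarith)⟩

/-- The equilateral triangle of side `1` has only two positions in the hexagon. Proof: apply `Pre.cov`
to `{(1/2, -1/2), (0, 1/2), (-1/2, 0)}`. As in `normalise`, rotate (`act_rot`, `Hx_rot`) until
`3 |be| ≤ al`. Then adding `F_0 (V_0) + F_2 (V_2) + F_4 (V_4) ≤ 3/2` gives `al + be ≤ 1`, adding
`F_3 (V_4) + F_5 (V_0) + F_1 (V_2) ≤ 3/2` gives `al - be ≤ 1`; with `al^2 + 3 be^2 = 1` and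
`|be| ≤ 1/3` this forces `be = 0`, `al = 1`, and then the six contact inequalities give `t = 0`. Rotate
back: `rotR` exchanges the two triples. -/
theorem Pre.tri {K : Set (ℝ × ℝ)} (h : Pre K) :
    (((1 / 2, -1 / 2) : ℝ × ℝ) ∈ K ∧ ((0, 1 / 2) : ℝ × ℝ) ∈ K ∧ ((-1 / 2, 0) : ℝ × ℝ) ∈ K) ∨
    (((1 / 2, 0) : ℝ × ℝ) ∈ K ∧ ((-1 / 2, 1 / 2) : ℝ × ℝ) ∈ K ∧ ((0, -1 / 2) : ℝ × ℝ) ∈ K) := by
  obtain ⟨al, be, ⟨t, u⟩, hn, hK⟩ := h.cov {((1 / 2, -1 / 2) : ℝ × ℝ), ((0, 1 / 2) : ℝ × ℝ), ((-1 / 2, 0) : ℝ × ℝ)}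
    (by
      intro v hv w hw
      simp only [Set.mem_insert_iff, Set.mem_singleton_iff] at hv hw
      rcases hv with rfl | rfl | rfl <;> rcases hw with rfl | rfl | rfl <;>
        (simp only [nR, Prod.fst_sub, Prod.snd_sub]; norm_num))
    ⟨((1 / 2, -1 / 2) : ℝ × ℝ), by simp, ((0, 1 / 2) : ℝ × ℝ), by simp, by
      simp only [nR, Prod.fst_sub, Prod.snd_sub]; norm_num⟩
  have hP0 := hK ((1 / 2, -1 / 2) : ℝ × ℝ) (by simp)
  have hP2 := hK ((0, 1 / 2) : ℝ × ℝ) (by simp)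
  have hP4 := hK ((-1 / 2, 0) : ℝ × ℝ) (by simp)
  have e0 : act al be (t, u) ((1 / 2, -1 / 2) : ℝ × ℝ) = (al / 2 + be / 2 + t, -al / 2 + be / 2 + u) := by
    unfold act
    refine Prod.ext ?_ ?_
    · show al * (1 / 2) - be * (1 / 2 + 2 * (-1 / 2)) + t = al / 2 + be / 2 + t
      ring
    · show al * (-1 / 2) + be * (2 * (1 / 2) + -1 / 2) + u = -al / 2 + be / 2 + u
      ring
  have e2 : act al be (t, u) ((0, 1 / 2) : ℝ × ℝ) = (-be + t, al / 2 + be / 2 + u) := by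
    unfold act
    refine Prod.ext ?_ ?_
    · show al * 0 - be * (0 + 2 * (1 / 2)) + t = -be + t
      ring
    · show al * (1 / 2) + be * (2 * 0 + 1 / 2) + u = al / 2 + be / 2 + u
      ring
  have e4 : act al be (t, u) ((-1 / 2, 0) : ℝ × ℝ) = (-al / 2 + be / 2 + t, -be + u) := by
    unfold act
    refine Prod.ext ?_ ?_
    · show al * (-1 / 2) - be * (-1 / 2 + 2 * 0) + t = -al / 2 + be / 2 + t
      ring
    · show al * 0 + be * (2 * (-1 / 2) + 0) + u = -be + u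
      ring
  rw [e0] at hP0
  rw [e2] at hP2
  rw [e4] at hP4
  obtain ⟨a1, a2, a3⟩ := h.sub hP0
  obtain ⟨b1, b2, b3⟩ := h.sub hP2
  obtain ⟨c1, c2, c3⟩ := h.sub hP4
  rw [abs_le] at a1 a2 a3 b1 b2 b3 c1 c2 c3
  obtain ⟨a1, a1'⟩ := a1
  obtain ⟨a2, a2'⟩ := a2
  obtain ⟨a3, a3'⟩ := a3
  obtain ⟨b1, b1'⟩ := b1
  obtain ⟨b2, b2'⟩ := b2
  obtain ⟨b3, b3'⟩ := b3
  obtain ⟨c1, c1'⟩ := c1
  obtain ⟨c2, c2'⟩ := c2
  obtain ⟨c3, c3'⟩ := c3
  dsimp only at a1 a1' a2 a2' a3 a3' b1 b1' b2 b2' b3 b3' c1 c1' c2 c2' c3 c3'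
  have key := hex8b_six hn (by linarith) (by linarith) (by linarith) (by linarith) (by linarith) (by linarith)
  have ht : t = 0 := by
    rcases key with ⟨h1, h2 | h2⟩ | ⟨h1 | h1, h2 | h2⟩ <;> linarith
  have hu : u = 0 := by
    rcases key with ⟨h1, h2 | h2⟩ | ⟨h1 | h1, h2 | h2⟩ <;> linarith
  rw [ht, hu] at hP0 hP2 hP4
  rcases key with ⟨rfl, rfl | rfl⟩ | ⟨rfl | rfl, rfl | rfl⟩ <;> norm_num at hP0 hP2 hP4 <;> norm_num
  · exact Or.inl ⟨hP0, hP2, hP4⟩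
  · exact Or.inr ⟨hP4, hP0, hP2⟩
  · exact Or.inr ⟨hP0, hP2, hP4⟩
  · exact Or.inl ⟨hP4, hP0, hP2⟩
  · exact Or.inr ⟨hP2, hP4, hP0⟩
  · exact Or.inl ⟨hP2, hP4, hP0⟩

theorem Has_rot {K : Set (ℝ × ℝ)} {B k : ℕ} (hk : k < 6) (h : Has K B k) :
    Has (rotR '' K) B ((k + 1) % 6) := by
  intro j hj
  obtain ⟨z, hz, h1, h2, h3⟩ := h j hj
  refine ⟨rotR z, ⟨z, hz, rfl⟩, ?_⟩
  rw [hex8a_rot k hk]
  refine ⟨?_, ?_, ?_⟩
  · simp only [rotR]
    push_cast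
    have e : (10000000000000 : ℝ) * -z.2 - -((rot6 k (bp B j)).2 : ℝ) =
        -(10000000000000 * z.2 - ((rot6 k (bp B j)).2 : ℝ)) := by ring
    rw [e, abs_neg]
    exact h2
  · simp only [rotR]
    push_cast
    exact h3
  · simp only [rotR]
    push_cast
    have e : (10000000000000 : ℝ) * (-z.2 + (z.1 + z.2)) - (-((rot6 k (bp B j)).2 : ℝ) +
        (((rot6 k (bp B j)).1 : ℝ) + ((rot6 k (bp B j)).2 : ℝ))) =
        10000000000000 * z.1 - ((rot6 k (bp B j)).1 : ℝ) := by ring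
    rw [e]
    exact h1

theorem Good.rot2 {K : Set (ℝ × ℝ)} (h : Good K) : Good (rotR '' (rotR '' K)) := by
  have hP : Pre K := ⟨h.conv, h.sub, h.cov, h.vol⟩
  have hP2 := hP.rot.rot
  refine ⟨hP2.conv, hP2.sub, hP2.cov, hP2.vol, ?_, ?_, ?_, ?_⟩
  · intro v hv
    refine ⟨_, ⟨(v.2, -(v.1 + v.2)), h.disk _ ?_, rfl⟩, hex8a_back v⟩
    have e : nR (v.2, -(v.1 + v.2)) = nR v := by
      simp only [nR]
      ring
    rw [e]
    exact hv
  · refine ⟨_, ⟨_, h.v4, rfl⟩, ?_⟩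
    simp only [rotR]
    ext <;> norm_num
  · refine ⟨_, ⟨_, h.v0, rfl⟩, ?_⟩
    simp only [rotR]
    ext <;> norm_num
  · refine ⟨_, ⟨_, h.v2, rfl⟩, ?_⟩
    simp only [rotR]
    ext <;> norm_num

/-- Proof: `Pre.disk`, `Pre.tri` (second case: replace `K` by `rotR '' K`) give a `Good` set; then `hB`
gives a copy `k < 6`; apply `rotR` twice (`Good.rot2`, `Has_rot`) until `k < 2`.

After a rotation the cover contains the triangle in the reference position and copy `0` or `1`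
of the body `B` -/
theorem start {K : Set (ℝ × ℝ)} (h : Pre K) {B : ℕ}
    (hB : ∀ K' : Set (ℝ × ℝ), Pre K' → ∃ k < 6, Has K' B k) :
    ∃ K' : Set (ℝ × ℝ), Good K' ∧ (Has K' B 0 ∨ Has K' B 1) := by
  obtain ⟨K1, hP, hG⟩ : ∃ K1 : Set (ℝ × ℝ), Pre K1 ∧ Good K1 := by
    rcases h.tri with ⟨h0, h2, h4⟩ | ⟨h0, h2, h4⟩
    · exact ⟨K, h, h.conv, h.sub, h.cov, h.vol, h.disk, h0, h2, h4⟩
    · have hR := h.rot
      refine ⟨rotR '' K, hR, hR.conv, hR.sub, hR.cov, hR.vol, hR.disk, ⟨_, h4, ?_⟩, ⟨_, h0, ?_⟩, ⟨_, h2, ?_⟩⟩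
      · unfold rotR
        norm_num
      · unfold rotR
        norm_num
      · unfold rotR
        norm_num
  obtain ⟨k, hk, hH⟩ := hB K1 hP
  have step : ∀ (K2 : Set (ℝ × ℝ)), Good K2 → ∀ k < 6, Has K2 B k →
      ∃ K3 : Set (ℝ × ℝ), Good K3 ∧ Has K3 B (((k + 1) % 6 + 1) % 6) := fun K2 h2 k hk hH =>
    ⟨rotR '' (rotR '' K2), h2.rot2, Has_rot (Nat.mod_lt _ (by norm_num)) (Has_rot hk hH)⟩
  interval_cases k
  · exact ⟨K1, hG, Or.inl hH⟩
  · exact ⟨K1, hG, Or.inr hH⟩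
  · obtain ⟨K2, h2, hH2⟩ := step K1 hG 2 (by norm_num) hH
    obtain ⟨K3, h3, hH3⟩ := step K2 h2 4 (by norm_num) hH2
    exact ⟨K3, h3, Or.inl hH3⟩
  · obtain ⟨K2, h2, hH2⟩ := step K1 hG 3 (by norm_num) hH
    obtain ⟨K3, h3, hH3⟩ := step K2 h2 5 (by norm_num) hH2
    exact ⟨K3, h3, Or.inr hH3⟩
  · obtain ⟨K2, h2, hH2⟩ := step K1 hG 4 (by norm_num) hH
    exact ⟨K2, h2, Or.inl hH2⟩
  · obtain ⟨K2, h2, hH2⟩ := step K1 hG 5 (by norm_num) hH
    exact ⟨K2, h2, Or.inr hH2⟩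

end PoolHex
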