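import Pool.Agent.LebHex.Base

/-! # HEX-D2: from the Euclidean plane to the coordinates `(p, q)` -/

open MeasureTheory

namespace PoolHex

/-- the Euclidean plane -/
abbrev Pl : Type := EuclideanSpace ℝ (Fin 2)

/-- rotation by `θ`, then translation by `a` -/
noncomputable def mot (θ : ℝ) (a x : Pl) : Pl :=
  !₂[Real.cos θ * x 0 - Real.sin θ * x 1 + a 0, Real.sin θ * x 0 + Real.cos θ * x 1 + a 1]

def DCov (R : Set Pl) : Prop :=
  ∀ S : Set Pl, Metric.diam S = 1 → ∃ (θ : ℝ) (a : Pl), ∀ x ∈ S, mot θ a x ∈ R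

/-- regular hexagon with inradius `1/2` -/
def Hex : Set Pl :=
  {x | |x 1| ≤ 1 / 2 ∧ |Real.sqrt 3 / 2 * x 0 + 1 / 2 * x 1| ≤ 1 / 2 ∧
    |Real.sqrt 3 / 2 * x 0 - 1 / 2 * x 1| ≤ 1 / 2}

/-- the coordinates -/
noncomputable def Phi (x : Pl) : ℝ × ℝ :=
  (Real.sqrt 3 / 2 * x 0 + 1 / 2 * x 1, -(Real.sqrt 3 / 2) * x 0 + 1 / 2 * x 1)

noncomputable def hex9a_e : Pl ≃ᵐ ℝ × ℝ :=
  (MeasurableEquiv.toLp 2 (Fin 2 → ℝ)).symm.trans MeasurableEquiv.finTwoArrow

theorem hex9a_e_apply (x : Pl) : hex9a_e x = (x 0, x 1) := rfl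

theorem hex9a_e_mp : MeasurePreserving hex9a_e volume volume :=
  (EuclideanSpace.volume_preserving_symm_measurableEquiv_toLp (Fin 2)).trans
    (volume_preserving_finTwoArrow ℝ)

noncomputable def hex9a_f : ℝ × ℝ →ₗ[ℝ] ℝ × ℝ :=
  Matrix.toLin (Module.Basis.finTwoProd ℝ) (Module.Basis.finTwoProd ℝ)
    !![Real.sqrt 3 / 2, 1 / 2; -(Real.sqrt 3 / 2), 1 / 2]

theorem hex9a_f_apply (z : ℝ × ℝ) : hex9a_f z =
    (Real.sqrt 3 / 2 * z.1 + 1 / 2 * z.2, -(Real.sqrt 3 / 2) * z.1 + 1 / 2 * z.2) := by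
  rw [hex9a_f, Matrix.toLin_finTwoProd_apply]

theorem hex9a_f_det : LinearMap.det hex9a_f = Real.sqrt 3 / 2 := by
  rw [hex9a_f, LinearMap.det_toLin, Matrix.det_fin_two_of]
  ring

theorem hex9a_Phi (x : Pl) : Phi x = hex9a_f (hex9a_e x) := by
  rw [hex9a_e_apply, hex9a_f_apply, Phi]

/-- `EuclideanSpace.volume_preserving_measurableEquiv` (to `Fin 2 → ℝ`), `volume_preserving_finTwoArrow`
(to `ℝ × ℝ`) and a linear map of determinant `sqrt 3 / 2`. -/
theorem Phi_vol (R : Set Pl) : volume (Phi '' R) = ENNReal.ofReal (Real.sqrt 3 / 2) * volume R := by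
  have h1 : Phi '' R = hex9a_f '' (hex9a_e '' R) := by
    rw [Set.image_image]
    exact Set.image_congr (fun x _ => hex9a_Phi x)
  rw [h1, Measure.addHaar_image_linearMap, hex9a_f_det, abs_of_pos (by positivity)]
  congr 1
  rw [MeasurableEquiv.image_eq_preimage_symm]
  exact (hex9a_e_mp.symm hex9a_e).measure_preimage_equiv R

theorem Phi_convex {R : Set Pl} (h : Convex ℝ R) : Convex ℝ (Phi '' R) := by
  rintro _ ⟨x, hx, rfl⟩ _ ⟨y, hy, rfl⟩ a b ha hb hab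
  refine ⟨a • x + b • y, h hx hy ha hb hab, ?_⟩
  apply Prod.ext
  · simp only [Phi, PiLp.add_apply, PiLp.smul_apply, smul_eq_mul, Prod.smul_mk, Prod.mk_add_mk]
    ring
  · simp only [Phi, PiLp.add_apply, PiLp.smul_apply, smul_eq_mul, Prod.smul_mk, Prod.mk_add_mk]
    ring

theorem Phi_hex {R : Set Pl} (h : R ⊆ Hex) : Phi '' R ⊆ Hx := by
  rintro _ ⟨x, hx, rfl⟩
  obtain ⟨h1, h2, h3⟩ := h hx
  refine ⟨h2, ?_, ?_⟩
  · show |-(Real.sqrt 3 / 2) * x 0 + 1 / 2 * x 1| ≤ 1 / 2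
    rw [← abs_neg]
    have e : -(-(Real.sqrt 3 / 2) * x 0 + 1 / 2 * x 1) = Real.sqrt 3 / 2 * x 0 - 1 / 2 * x 1 := by
      ring
    rw [e]
    exact h3
  · show |Real.sqrt 3 / 2 * x 0 + 1 / 2 * x 1 + (-(Real.sqrt 3 / 2) * x 0 + 1 / 2 * x 1)| ≤ 1 / 2
    have e : Real.sqrt 3 / 2 * x 0 + 1 / 2 * x 1 + (-(Real.sqrt 3 / 2) * x 0 + 1 / 2 * x 1) = x 1 := by
      ring
    rw [e]
    exact h1

theorem hex9b_s3 : Real.sqrt 3 ^ 2 = 3 := Real.sq_sqrt (by norm_num)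

theorem hex9b_dist (x y : Pl) : dist x y ^ 2 = 4 / 3 * nR (Phi x - Phi y) := by
  rw [EuclideanSpace.dist_eq, Real.sq_sqrt (by positivity), Fin.sum_univ_two, Real.dist_eq, Real.dist_eq,
    sq_abs, sq_abs]
  simp only [nR, Phi, Prod.fst_sub, Prod.snd_sub]
  linear_combination (-(1 : ℝ) / 3 * (x 0 - y 0) ^ 2) * hex9b_s3

theorem hex9b_surj (v : ℝ × ℝ) : ∃ x : Pl, Phi x = v := by
  refine ⟨!₂[(v.1 - v.2) * Real.sqrt 3 / 3, v.1 + v.2], ?_⟩
  simp only [Phi]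
  ext
  · simp
    linear_combination ((v.1 - v.2) / 6) * hex9b_s3
  · simp
    linear_combination (-(v.1 - v.2) / 6) * hex9b_s3

theorem hex9b_act (θ : ℝ) (a x : Pl) :
    act (Real.cos θ) (Real.sin θ * Real.sqrt 3 / 3) (Phi a) (Phi x) = Phi (mot θ a x) := by
  simp only [act, Phi, mot]
  ext
  · simp
    linear_combination (Real.sin θ * x 0 / 6) * hex9b_s3
  · simp
    linear_combination (Real.sin θ * x 0 / 6) * hex9b_s3

/-- Proof: given `S ⊆ ℝ × ℝ`, apply `h` to `Phi ⁻¹' S`: `Phi` is bijective and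
`dist x y ^ 2 = 4/3 * nR (Phi x - Phi y)`, so the diameter is exactly `1` (`Metric.diam_le_of_forall_dist_le`,
`Metric.dist_le_diam_of_mem`). Take `al = cos θ`, `be = sin θ / sqrt 3`, `t = Phi a`:
`Phi (mot θ a x) = act al be t (Phi x)`. -/
theorem Phi_cov {R : Set Pl} (h : DCov R) : Cov (Phi '' R) := by
  intro S h1 h2
  obtain ⟨v, hv, w, hw, hvw⟩ := h2
  have hle : ∀ x ∈ Phi ⁻¹' S, ∀ y ∈ Phi ⁻¹' S, dist x y ≤ 1 := by
    intro x hx y hy
    have h3 := h1 _ hx _ hy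
    have h4 := hex9b_dist x y
    have h5 : dist x y ^ 2 ≤ 1 := by rw [h4]; linarith
    have h6 : (0 : ℝ) ≤ dist x y := dist_nonneg
    nlinarith
  have hd : Metric.diam (Phi ⁻¹' S) = 1 := by
    apply le_antisymm
    · exact Metric.diam_le_of_forall_dist_le zero_le_one hle
    · obtain ⟨x, rfl⟩ := hex9b_surj v
      obtain ⟨y, rfl⟩ := hex9b_surj w
      have h3 : dist x y = 1 := by
        have h4 := hex9b_dist x y
        have h5 : dist x y ^ 2 = 1 := by rw [h4]; linarith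
        have h6 : (0 : ℝ) ≤ dist x y := dist_nonneg
        nlinarith
      rw [← h3]
      exact Metric.dist_le_diam_of_mem (Metric.isBounded_iff.2 ⟨1, fun x hx y hy => hle x hx y hy⟩) hv hw
  obtain ⟨θ, a, hR⟩ := h _ hd
  refine ⟨Real.cos θ, Real.sin θ * Real.sqrt 3 / 3, Phi a, ?_, ?_⟩
  · linear_combination Real.cos_sq_add_sin_sq θ + (Real.sin θ ^ 2 / 3) * hex9b_s3
  · intro u hu
    obtain ⟨x, rfl⟩ := hex9b_surj u
    rw [hex9b_act]
    exact ⟨_, hR x hu, rfl⟩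

/-- the rotation -/
noncomputable def hex9b_L (θ : ℝ) : Pl →ₗ[ℝ] Pl where
  toFun x := !₂[Real.cos θ * x 0 - Real.sin θ * x 1, Real.sin θ * x 0 + Real.cos θ * x 1]
  map_add' x y := by
    ext i
    fin_cases i
    · simp
      ring
    · simp
      ring
  map_smul' c x := by
    ext i
    fin_cases i
    · simp
      ring
    · simp
      ring

theorem hex9b_mot (θ : ℝ) (a x : Pl) : mot θ a x = hex9b_L θ x + a := by
  ext i
  fin_cases i
  · simp [mot, hex9b_L]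
  · simp [mot, hex9b_L]

theorem hex9b_norm (θ : ℝ) (x : Pl) : ‖hex9b_L θ x‖ = ‖x‖ := by
  rw [EuclideanSpace.norm_eq, EuclideanSpace.norm_eq, Fin.sum_univ_two, Fin.sum_univ_two]
  congr 1
  simp only [hex9b_L, LinearMap.coe_mk, AddHom.coe_mk, Real.norm_eq_abs, sq_abs]
  simp
  linear_combination (x 0 ^ 2 + x 1 ^ 2) * Real.cos_sq_add_sin_sq θ

/-- the rotation as an isometry -/
noncomputable def hex9b_E (θ : ℝ) : Pl ≃ₗᵢ[ℝ] Pl :=
  LinearIsometry.toLinearIsometryEquiv ⟨hex9b_L θ, hex9b_norm θ⟩ rfl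

theorem hex9b_E_apply (θ : ℝ) (x : Pl) : hex9b_E θ x = hex9b_L θ x := rfl

theorem hex9b_im (θ : ℝ) (a : Pl) (R : Set Pl) : mot θ a '' R = (fun y => y + a) '' (hex9b_L θ '' R) := by
  rw [Set.image_image]
  apply Set.image_congr
  intro x _
  exact hex9b_mot θ a x

theorem hex9b_vol (θ : ℝ) (a : Pl) (R : Set Pl) : volume (mot θ a '' R) = volume R := by
  rw [hex9b_im]
  have e1 : (fun y => y + a) '' (hex9b_L θ '' R) = (fun y => y + -a) ⁻¹' (hex9b_L θ '' R) := by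
    ext y
    constructor
    · rintro ⟨z, hz, rfl⟩
      simpa using hz
    · intro hy
      exact ⟨y + -a, hy, by simp⟩
  have e2 : hex9b_L θ '' R = (hex9b_E θ).symm ⁻¹' R := by
    ext y
    constructor
    · rintro ⟨z, hz, rfl⟩
      rw [Set.mem_preimage, ← hex9b_E_apply, LinearIsometryEquiv.symm_apply_apply]
      exact hz
    · intro hy
      refine ⟨(hex9b_E θ).symm y, hy, ?_⟩
      rw [← hex9b_E_apply, LinearIsometryEquiv.apply_symm_apply]
  rw [e1, measure_preimage_add_right, e2]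
  exact (hex9b_E θ).symm.measurePreserving.measure_preimage_emb
    (hex9b_E θ).symm.toHomeomorph.measurableEmbedding R

theorem hex9b_comp (θ θ' : ℝ) (a a' x : Pl) :
    mot θ a (mot θ' a' x) = mot (θ + θ') (mot θ a a') x := by
  ext i
  fin_cases i
  · simp [mot, Real.cos_add, Real.sin_add]
    ring
  · simp [mot, Real.cos_add, Real.sin_add]
    ring

/-- moving the cover into the hexagon -/
theorem move_cov {R : Set Pl} (hR : DCov R) (hc : Convex ℝ R) {θ : ℝ} {a : Pl}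
    (h : ∀ x ∈ R, mot θ a x ∈ Hex) :
    DCov (mot θ a '' R) ∧ Convex ℝ (mot θ a '' R) ∧ mot θ a '' R ⊆ Hex ∧
      volume (mot θ a '' R) = volume R := by
  refine ⟨?_, ?_, ?_, hex9b_vol θ a R⟩
  · intro S hS
    obtain ⟨θ', a', h1⟩ := hR S hS
    refine ⟨θ + θ', mot θ a a', fun x hx => ?_⟩
    rw [← hex9b_comp]
    exact ⟨_, h1 x hx, rfl⟩
  · rw [hex9b_im]
    have h1 := (hc.linear_image (hex9b_L θ)).translate a
    have e1 : (fun y => a + y) '' (hex9b_L θ '' R) = (fun y => y + a) '' (hex9b_L θ '' R) := by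
      apply Set.image_congr
      intro y _
      exact add_comm _ _
    rw [← e1]
    exact h1
  · rintro _ ⟨x, hx, rfl⟩
    exact h x hx

end PoolHex
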