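import Pool.Agent.LebHex.S6
import Pool.Agent.LebHex.S7
import Pool.Agent.LebHex.S8
import Pool.Agent.LebHex.S9
import Pool.Agent.LebHex.CB

/-! # Hexagon covers: final argument, abstract part -/

open MeasureTheory

namespace PoolHex

theorem masks_get {p : Conf → Bool} : ∀ (cb : CB), cb.all p = true → ∀ n,
    ∃ c, p c = true ∧ cb.masks.get n = c.m
  | .tip c, h, n => ⟨c, h, rfl⟩
  | .br l r, h, n => by
    rw [CB.all, Bool.and_eq_true] at h
    rw [CB.masks, BT.get]
    rcases Bool.eq_false_or_eq_true (Nat.beq (n % 2) 0) with h2 | h2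
    · rw [h2]
      exact masks_get l h.1 (n / 2)
    · rw [h2]
      exact masks_get r h.2 (n / 2)

theorem coord_get {B : ℕ} : ∀ n, coordOK B n = true → ∀ j < n,
    bc B j < 6 ∧ 2 * bx B j ≤ Mn ∧ 2 * bY B j ≤ Mn
  | 0, _, j, hj => absurd hj (Nat.not_lt_zero _)
  | n + 1, h, j, hj => by
    rw [coordOK] at h
    simp only [Bool.and_eq_true, decide_eq_true_eq] at h
    rcases Nat.lt_succ_iff_lt_or_eq.mp hj with h1 | h1
    · exact coord_get n h.2 j h1
    · subst h1
      exact ⟨h.1.1.1, h.1.1.2, h.1.2⟩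

theorem bodyOK_coord {B : ℕ} {c : BCert} (h : bodyOK B c = true) : coordOK B (bn B) = true := by
  unfold bodyOK at h
  simp only [Bool.and_eq_true] at h
  tauto

/-- everything together, for abstract data -/
theorem no_pre {T : BT} {nb D nd rt : ℕ} {cb : CB} {t0 t1 : Tr}
    (hT : ∀ i < nb, ∃ c, bodyOK (T.get i) c = true) (hD : diskOK D nd = true)
    (hcb : cb.all (confOK T nb D nd) = true) (hrt : rt < nb)
    (h0 : treeOK cb.masks nb t0 (1 <<< (6 * rt + 0)) = true)
    (h1 : treeOK cb.masks nb t1 (1 <<< (6 * rt + 1)) = true)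
    {K : Set (ℝ × ℝ)} (hK : Pre K) : False := by
  have hB : ∀ i < nb, ∀ j < bn (T.get i), bc (T.get i) j < 6 ∧ 2 * bx (T.get i) j ≤ Mn ∧
      2 * bY (T.get i) j ≤ Mn := by
    intro i hi
    obtain ⟨c, hc⟩ := hT i hi
    exact coord_get _ (bodyOK_coord hc)
  have hp : ∀ i < nb, ∀ K : Set (ℝ × ℝ), Good K → ∃ k < 6, Has K (T.get i) k := by
    intro i hi K hG
    obtain ⟨c, hc⟩ := hT i hi
    exact body_sound hc hG.cov hG.sub
  have hC : ∀ n, Dead T nb (cb.masks.get n) := by
    intro n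
    obtain ⟨c, hc, he⟩ := masks_get cb hcb n
    rw [he]
    exact conf_sound hD hB hc
  have d0 := tree_sound hp hC t0 _ h0
  have d1 := tree_sound hp hC t1 _ h1
  obtain ⟨K', hG, hh⟩ := start hK (B := T.get rt) (by
    intro K' hK'
    obtain ⟨c, hc⟩ := hT rt hrt
    exact body_sound hc hK'.cov hK'.sub)
  have sat : ∀ k0, k0 < 6 → Has K' (T.get rt) k0 → Sat T nb K' (1 <<< (6 * rt + k0)) := by
    intro k0 hk0 hh i hi k hk hb
    rw [Nat.one_shiftLeft, Nat.testBit_two_pow] at hb
    simp only [decide_eq_true_eq] at hb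
    have e1 : i = rt := by omega
    have e2 : k = k0 := by omega
    rw [e1, e2]
    exact hh
  rcases hh with hh | hh
  · exact d0 K' hG (sat 0 (by norm_num) hh)
  · exact d1 K' hG (sat 1 (by norm_num) hh)

theorem num_bound : Real.sqrt 3 / 2 * (8441 / 10000) ≤ (TT : ℝ) / (2 * 10000000000000 ^ 2) := by
  have h : Real.sqrt 3 ≤ 1.73205080772 := by
    rw [show (1.73205080772 : ℝ) = Real.sqrt (1.73205080772 ^ 2) by
      rw [Real.sqrt_sq (by norm_num)]]
    apply Real.sqrt_le_sqrt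
    norm_num
  have : ((TT : ℕ) : ℝ) = 146202408680000000000000000 := by
    unfold TT
    norm_num
  rw [this]
  linarith [h]

/-- convex displacement covers inside the hexagon, from the absence of normalised sets -/
theorem main_of (hno : ∀ K : Set (ℝ × ℝ), Pre K → False) {R : Set Pl} (h : DCov R)
    (hc : Convex ℝ R) {θ : ℝ} {a : Pl} (hh : ∀ x ∈ R, mot θ a x ∈ Hex) :
    ENNReal.ofReal (8441 / 10000) ≤ volume R := by
  by_contra hlt
  rw [not_le] at hlt
  obtain ⟨c1, c2, c3, c4⟩ := move_cov h hc hh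
  refine hno (Phi '' (mot θ a '' R)) ⟨Phi_convex c2, Phi_hex c3, Phi_cov c1, ?_⟩
  rw [Phi_vol, c4]
  calc ENNReal.ofReal (Real.sqrt 3 / 2) * volume R
      < ENNReal.ofReal (Real.sqrt 3 / 2) * ENNReal.ofReal (8441 / 10000) := by
        apply ENNReal.mul_lt_mul_right _ _ hlt
        · exact (ENNReal.ofReal_pos.mpr (by positivity)).ne'
        · exact ENNReal.ofReal_ne_top
    _ = ENNReal.ofReal (Real.sqrt 3 / 2 * (8441 / 10000)) := by
        rw [ENNReal.ofReal_mul (by positivity)]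
    _ ≤ _ := ENNReal.ofReal_le_ofReal num_bound

end PoolHex
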