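import Pool.Agent.LebHex.Cf0
import Pool.Agent.LebHex.Cf1
import Pool.Agent.LebHex.Cf2
import Pool.Agent.LebHex.Cf3
import Pool.Agent.LebHex.Cf4
import Pool.Agent.LebHex.Cf5
import Pool.Agent.LebHex.Cf6
import Pool.Agent.LebHex.Cf7
import Pool.Agent.LebHex.Cf8
import Pool.Agent.LebHex.Cf9
import Pool.Agent.LebHex.Cf10
import Pool.Agent.LebHex.Cf11
import Pool.Agent.LebHex.Cf12
import Pool.Agent.LebHex.Cf13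
import Pool.Agent.LebHex.Cf14
import Pool.Agent.LebHex.Cf15
import Pool.Agent.LebHex.Cf16
import Pool.Agent.LebHex.Cf17
import Pool.Agent.LebHex.Cf18
import Pool.Agent.LebHex.Cf19
import Pool.Agent.LebHex.Cf20
import Pool.Agent.LebHex.Cf21
import Pool.Agent.LebHex.Cf22
import Pool.Agent.LebHex.Cf23
import Pool.Agent.LebHex.Cf24
import Pool.Agent.LebHex.Cf25
import Pool.Agent.LebHex.Cf26
import Pool.Agent.LebHex.Cf27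
import Pool.Agent.LebHex.Cf28
import Pool.Agent.LebHex.Cf29
import Pool.Agent.LebHex.Cf30
import Pool.Agent.LebHex.Cf31

/-! # Hexagon covers: the branching trees -/

namespace PoolHex

def confs : CB := (.br (.br (.br (.br (.br cb0 cb16) (.br cb8 cb24)) (.br (.br cb4 cb20) (.br cb12 cb28))) (.br (.br (.br cb2 cb18) (.br cb10 cb26)) (.br (.br cb6 cb22) (.br cb14 cb30)))) (.br (.br (.br (.br cb1 cb17) (.br cb9 cb25)) (.br (.br cb5 cb21) (.br cb13 cb29))) (.br (.br (.br cb3 cb19) (.br cb11 cb27)) (.br (.br cb7 cb23) (.br cb15 cb31)))))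

def tr0 : Tr := (.nd 71 (.nd 21 (.lf 32) (.lf 35) (.lf 34) (.lf 36) (.nd 44 (.lf 29) (.lf 28) (.lf 30) (.lf 27) (.lf 31) (.nd 145 (.lf 22) (.lf 25) (.lf 24) (.lf 26) (.lf 23) (.nd 14 (.lf 19) (.lf 21) (.lf 18) (.lf 17) (.lf 16) (.lf 20)))) (.lf 33)) (.lf 53) (.nd 14 (.lf 19) (.lf 21) (.lf 52) (.nd 9 (.lf 48) (.lf 47) (.nd 2 (.lf 4) (.lf 44) (.lf 43) (.lf 46) (.lf 5) (.lf 45)) (.lf 49) (.lf 50) (.lf 51)) (.nd 2 (.lf 4) (.nd 11 (.lf 40) (.lf 10) (.lf 39) (.lf 38) (.lf 37) (.lf 9)) (.lf 43) (.lf 42) (.lf 5) (.lf 41)) (.lf 20)) (.lf 54) (.nd 3 (.lf 13) (.lf 15) (.lf 11) (.lf 12) (.nd 11 (.nd 2 (.lf 4) (.lf 1) (.lf 0) (.lf 2) (.lf 5) (.lf 3)) (.lf 10) (.lf 7) (.lf 8) (.lf 6) (.lf 9)) (.lf 14)) (.lf 55))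

def tr1 : Tr := (.nd 131 (.nd 95 (.lf 135) (.lf 134) (.lf 110) (.nd 9 (.nd 20 (.lf 125) (.lf 123) (.lf 126) (.lf 124) (.lf 122) (.nd 44 (.lf 117) (.lf 116) (.lf 120) (.lf 119) (.lf 121) (.lf 118))) (.lf 128) (.lf 127) (.lf 129) (.lf 130) (.lf 131)) (.lf 133) (.lf 132)) (.lf 148) (.nd 3 (.lf 114) (.lf 115) (.lf 113) (.lf 111) (.nd 95 (.lf 109) (.lf 106) (.lf 110) (.lf 108) (.lf 107) (.nd 49 (.nd 19 (.nd 2 (.lf 95) (.lf 92) (.lf 96) (.lf 94) (.lf 97) (.lf 93)) (.lf 102) (.lf 100) (.lf 101) (.lf 98) (.lf 99)) (.lf 69) (.lf 105) (.lf 70) (.lf 103) (.lf 104))) (.lf 112)) (.lf 149) (.nd 49 (.lf 146) (.lf 69) (.nd 11 (.nd 3 (.lf 138) (.lf 115) (.lf 139) (.lf 140) (.lf 136) (.lf 137)) (.lf 66) (.lf 143) (.lf 142) (.lf 141) (.lf 144)) (.lf 70) (.lf 145) (.lf 147)) (.lf 150))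

def tr2 : Tr := (.nd 17 (.lf 163) (.lf 164) (.nd 11 (.lf 158) (.lf 66) (.lf 159) (.lf 160) (.lf 161) (.lf 144)) (.nd 12 (.lf 89) (.lf 90) (.nd 4 (.lf 85) (.lf 87) (.lf 84) (.nd 49 (.lf 67) (.lf 69) (.nd 11 (.lf 62) (.lf 66) (.lf 63) (.lf 64) (.lf 65) (.lf 9)) (.lf 70) (.nd 145 (.lf 56) (.lf 60) (.lf 58) (.lf 61) (.lf 59) (.lf 57)) (.lf 68)) (.nd 149 (.nd 49 (.nd 14 (.lf 19) (.lf 21) (.lf 73) (.lf 71) (.lf 72) (.lf 20)) (.lf 69) (.lf 75) (.lf 70) (.lf 74) (.lf 68)) (.lf 82) (.nd 11 (.lf 76) (.lf 66) (.lf 77) (.lf 78) (.lf 79) (.lf 9)) (.lf 83) (.lf 80) (.lf 81)) (.lf 86)) tr0 (.lf 88) (.lf 91)) (.nd 70 (.nd 20 (.lf 125) (.lf 152) (.lf 126) (.lf 153) (.lf 122) (.lf 151)) tr1 (.lf 155) (.lf 156) (.lf 157) (.lf 154)) (.lf 162))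

def tr3 : Tr := (.nd 94 (.lf 213) (.nd 95 (.lf 204) (.nd 3 (.lf 199) (.lf 201) (.lf 198) (.lf 200) (.lf 197) (.nd 21 (.lf 193) (.nd 2 (.lf 168) (.lf 188) (.lf 189) (.lf 191) (.lf 170) (.lf 190)) (.lf 192) (.lf 196) (.lf 194) (.lf 195))) (.lf 206) (.lf 203) (.lf 205) (.lf 202)) (.lf 215) (.nd 145 (.lf 210) (.lf 209) (.lf 207) (.lf 212) (.lf 208) (.lf 211)) (.lf 214) (.nd 9 (.nd 8 (.lf 183) (.lf 174) (.lf 181) (.lf 173) (.lf 182) (.lf 175)) (.lf 186) (.nd 49 (.nd 8 (.lf 172) (.lf 174) (.nd 2 (.lf 168) (.lf 165) (.lf 169) (.lf 167) (.lf 170) (.lf 166)) (.lf 173) (.lf 171) (.lf 175)) (.lf 177) (.lf 179) (.lf 180) (.lf 176) (.lf 178)) (.lf 184) (.lf 185) (.lf 187)))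

def tr4 : Tr := (.nd 1 (.nd 103 tr3 (.nd 145 (.lf 221) (.lf 220) (.nd 2 (.lf 168) (.lf 218) (.lf 217) (.lf 219) (.lf 170) (.lf 216)) (.lf 212) (.lf 208) (.lf 211)) (.lf 222) (.lf 225) (.lf 224) (.lf 223)) (.nd 145 (.lf 253) (.lf 252) (.lf 251) (.lf 250) (.lf 254) (.lf 248)) (.lf 257) (.lf 256) (.lf 255) (.nd 145 (.nd 2 (.lf 230) (.nd 8 (.lf 234) (.lf 237) (.lf 233) (.lf 235) (.lf 232) (.lf 236)) (.lf 228) (.lf 239) (.lf 231) (.lf 238)) (.nd 8 (.lf 247) (.lf 237) (.lf 246) (.lf 235) (.nd 19 (.lf 241) (.lf 245) (.lf 243) (.lf 244) (.lf 240) (.lf 242)) (.lf 236)) (.nd 2 (.lf 230) (.lf 226) (.lf 228) (.lf 229) (.lf 231) (.lf 227)) (.lf 250) (.lf 249) (.lf 248)))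

def tr5 : Tr := (.nd 0 (.nd 1 (.lf 297) (.lf 298) (.lf 257) (.lf 256) (.lf 255) (.nd 49 (.lf 293) (.lf 295) (.nd 3 (.lf 289) (.lf 292) (.lf 291) (.lf 288) (.lf 287) (.lf 290)) (.lf 296) (.nd 9 (.lf 281) (.lf 285) (.lf 282) (.lf 283) (.lf 284) (.lf 286)) (.lf 294))) tr2 (.nd 70 (.lf 278) (.nd 17 (.lf 163) (.lf 164) (.lf 277) (.lf 276) (.nd 12 (.lf 89) (.lf 90) (.lf 275) (.nd 9 (.nd 49 (.lf 270) (.lf 264) (.lf 266) (.lf 267) (.lf 268) (.lf 269)) (.lf 273) (.nd 49 (.nd 2 (.lf 230) (.lf 258) (.lf 261) (.lf 260) (.lf 262) (.lf 259)) (.lf 264) (.lf 266) (.lf 267) (.lf 263) (.lf 265)) (.lf 271) (.lf 272) (.lf 274)) tr4 (.lf 91)) (.lf 162)) (.lf 155) (.lf 280) (.lf 157) (.lf 279)) (.lf 299) (.lf 300) (.lf 301))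

def tree0 : Tr := tr5

def tr6 : Tr := (.nd 144 (.lf 6521) (.nd 103 (.nd 9 (.lf 6482) (.lf 6466) (.lf 6484) (.nd 1 (.lf 6478) (.lf 6480) (.lf 1144) (.lf 6481) (.lf 1146) (.lf 6479)) (.lf 6483) (.lf 6467)) (.nd 84 (.lf 6475) (.nd 3 (.lf 6469) (.lf 6472) (.lf 6468) (.lf 6471) (.lf 6470) (.nd 9 (.lf 6464) (.lf 6466) (.lf 6465) (.nd 118 (.lf 6462) (.lf 6460) (.lf 6461) (.lf 6459) (.nd 2 (.lf 6456) (.lf 6452) (.lf 6453) (.lf 6455) (.lf 6457) (.lf 6454)) (.lf 6458)) (.lf 6463) (.lf 6467))) (.lf 6477) (.lf 6473) (.lf 6476) (.lf 6474)) (.lf 6485) (.lf 857) (.lf 6486) (.lf 858)) (.lf 6523) (.nd 145 (.lf 6496) (.lf 6495) (.nd 11 (.lf 6489) (.lf 6492) (.lf 6487) (.lf 6491) (.lf 6488) (.lf 6490)) (.lf 6498) (.nd 1 (.lf 6493) (.lf 6494) (.lf 1144) (.lf 6481) (.lf 1146) (.lf 249)) (.lf 6497)) (.lf 6522) (.nd 9 (.nd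 1 (.lf 6515) (.lf 6516) (.lf 1144) (.lf 6481) (.lf 1146) (.lf 6517)) (.lf 6519) (.nd 1 (.nd 2 (.lf 6510) (.nd 84 (.lf 6505) (.lf 6506) (.lf 6477) (.lf 6507) (.lf 6476) (.nd 8 (.lf 6501) (.lf 6504) (.lf 6499) (.lf 6502) (.lf 6500) (.lf 6503))) (.lf 6511) (.lf 6509) (.lf 6512) (.lf 6508)) (.lf 6514) (.lf 1144) (.lf 6481) (.lf 1146) (.lf 6513)) (.lf 6518) (.lf 6520) (.lf 6467)))

def tr7 : Tr := (.nd 153 (.lf 6427) (.nd 3 (.lf 6405) (.lf 201) (.lf 6407) (.lf 6408) (.lf 6406) (.nd 82 (.lf 6401) (.nd 2 (.lf 6398) (.lf 6395) (.nd 21 (.lf 6392) (.lf 6390) (.nd 9 (.lf 6387) (.lf 6389) (.lf 6386) (.lf 6385) (.lf 6384) (.lf 6388)) (.lf 6394) (.lf 6391) (.lf 6393)) (.lf 6396) (.lf 6399) (.lf 6397)) (.lf 6403) (.lf 6400) (.lf 6404) (.lf 6402))) (.lf 6429) (.nd 149 (.lf 6414) (.lf 6415) (.lf 6413) (.lf 6417) (.nd 3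 (.lf 6410) (.lf 201) (.lf 6409) (.lf 6408) (.lf 6412) (.lf 6411)) (.lf 6416)) (.lf 6428) (.nd 145 (.lf 6424) (.nd 8 (.lf 6420) (.lf 6422) (.lf 6418) (.lf 6421) (.lf 6419) (.lf 6423)) (.lf 6425) (.lf 1128) (.lf 6426) (.lf 211)))

def tr8 : Tr := (.nd 153 (.lf 6369) (.nd 3 (.lf 6357) (.lf 201) (.lf 6359) (.lf 6360) (.lf 6358) (.nd 52 (.lf 6352) (.lf 6356) (.lf 6353) (.lf 6354) (.nd 82 (.lf 6348) (.nd 135 (.lf 6346) (.lf 6344) (.lf 6345) (.lf 6342) (.nd 9 (.lf 6340) (.lf 6322) (.lf 6341) (.nd 49 (.lf 6336) (.lf 6334) (.nd 118 (.lf 6333) (.lf 6330) (.lf 6332) (.lf 6331) (.lf 6329) (.nd 21 (.lf 6326) (.lf 6324) (.lf 6323) (.lf 6327) (.lf 6325) (.lf 6328))) (.lf 6338) (.lf 6335) (.lf 6337)) (.lf 6339) (.lf 6319)) (.lf 6343)) (.lf 6350) (.lf 6347) (.lf 6351) (.lf 6349)) (.lf 6355))) (.lf 6371) (.nd 9 (.nd 145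 (.lf 6317) (.lf 6316) (.lf 6314) (.lf 1128) (.lf 6315) (.lf 211)) (.lf 6322) (.lf 6318) (.lf 6321) (.lf 6320) (.lf 6319)) (.lf 6370) (.nd 145 (.lf 6317) (.nd 19 (.lf 6362) (.lf 6366) (.lf 6364) (.lf 6365) (.lf 6361) (.lf 6363)) (.lf 6367) (.lf 1128) (.lf 6368) (.lf 211)))

def tr9 : Tr := (.nd 46 (.nd 1 (.nd 145 (.lf 6535) (.lf 6538) (.nd 2 (.lf 6529) (.lf 6527) (.lf 6526) (.lf 6525) (.lf 6528) (.lf 6536)) (.lf 1128) (.lf 6537) (.lf 211)) (.nd 145 (.lf 6535) (.lf 6534) (.nd 2 (.lf 6529) (.lf 6527) (.lf 6526) (.lf 6525) (.lf 6528) (.lf 6524)) (.lf 6498) (.nd 3 (.lf 6531) (.lf 6472) (.lf 6530) (.lf 6471) (.lf 6533) (.lf 6532)) (.lf 6497)) (.lf 1144) (.lf 6481) (.lf 1146) (.lf 6539)) (.lf 6542) (.lf 6540) (.lf 6541) tr6 (.nd 138 (.nd 145 (.lf 6446) (.lf 6445) (.nd 2 (.lf 6398) (.lf 6441) (.lf 6440) (.lf 6442)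 (.lf 6443) (.lf 6439)) (.lf 6448) (.lf 6444) (.lf 6447)) (.lf 6451) (.lf 6449) (.lf 6450) (.nd 1 tr7 (.nd 149 (.lf 6435) (.lf 6436) (.nd 9 (.lf 6430) (.lf 6389) (.lf 6433) (.lf 6431) (.lf 6432) (.lf 6388)) (.lf 6417) (.lf 6434) (.lf 6416)) (.lf 1144) (.lf 6438) (.lf 1146) (.lf 6437)) (.nd 1 tr8 (.nd 145 (.lf 6317) (.lf 6378) (.nd 11 (.lf 6372) (.lf 6377) (.lf 6375) (.lf 6376) (.lf 6374) (.lf 6373)) (.lf 6381) (.lf 6379) (.lf 6380)) (.lf 1144) (.lf 6383) (.lf 1146) (.lf 6382))))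

def tr10 : Tr := (.nd 17 (.lf 6576) (.lf 444) (.lf 6577) (.lf 443) (.nd 0 (.lf 6563) (.lf 6562) (.nd 70 (.lf 278) (.nd 12 (.lf 6547) (.lf 1121) (.lf 6545) (.nd 9 (.lf 6544) (.lf 273) (.lf 6543) (.lf 271) (.lf 272) (.lf 274)) tr9 (.lf 6546)) (.nd 145 (.lf 6555) (.lf 6554) (.nd 11 (.lf 6551) (.lf 6492) (.lf 6548) (.lf 6552) (.lf 6550) (.lf 6549)) (.lf 6498) (.lf 6553) (.lf 6497)) (.lf 6556) (.lf 336) (.lf 6557)) (.nd 145 (.lf 6561) (.lf 6560) (.lf 6559) (.lf 6498) (.lf 6558) (.lf 6497)) (.lf 6564) (.lf 1075)) (.nd 12 (.lf 6547) (.lf 1121) (.lf 6545) (.lf 6575) (.nd 145 (.lf 6573) (.lf 6572) (.nd 3 (.lf 6567) (.lf 6472) (.lf 6566) (.lf 6569) (.lf 6568) (.lf 6565)) (.lf 6498) (.nd 3 (.lf 6567) (.lf 6472) (.lf 6570) (.lf 6569) (.lf 6568) (.lf 6571)) (.lf 6574)) (.lf 6546)))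

def tr11 : Tr := (.nd 94 (.lf 6280) (.nd 3 (.lf 6272) (.lf 201) (.lf 6274) (.lf 1162) (.lf 6273) (.nd 146 (.nd 19 (.nd 114 (.lf 6263) (.nd 9 (.lf 6260) (.lf 6243) (.lf 6261) (.nd 49 (.lf 6257) (.lf 6255) (.nd 89 (.lf 6251) (.nd 21 (.lf 6250) (.nd 11 (.lf 6244) (.lf 1157) (.lf 6247) (.lf 1156) (.lf 6246) (.lf 6245)) (.lf 6248) (.lf 1779) (.lf 6249) (.lf 6183)) (.lf 6254) (.lf 6252) (.lf 1271) (.lf 6253)) (.lf 6258) (.lf 6256) (.lf 2887)) (.lf 6259) (.lf 6241)) (.lf 6262) (.lf 5620) (.lf 5619) (.lf 5621)) (.lf 6267) (.lf 6264) (.lf 6268) (.lf 6266) (.lf 6265)) (.lf 6204) (.lf 6271) (.lf 6203) (.lf 6270) (.lf 6269))) (.lf 6281) (.nd 9 (.nd 145 (.lf 6238) (.lf 6237) (.lf 6235) (.lf 1128) (.lf 6236) (.lf 211)) (.lf 6243) (.lf 6239) (.lf 6242) (.lf 6240) (.lf 6241)) (.lf 2359) (.nd 145 (.lf 6238) (.nd 20 (.lf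 6275) (.lf 6277) (.lf 3211) (.lf 6215) (.lf 3210) (.lf 6276)) (.lf 6278) (.lf 1128) (.lf 6279) (.lf 211)))

def tr12 : Tr := (.nd 118 (.lf 2883) (.lf 6076) (.lf 2882) (.lf 6075) (.nd 117 (.nd 35 (.lf 6070) (.lf 6068) (.lf 1221) (.lf 6069) (.lf 6067) (.nd 85 (.lf 6010) (.lf 6065) (.nd 77 (.lf 1495) (.lf 6063) (.lf 6061) (.nd 29 (.lf 6058) (.lf 6057) (.nd 21 (.lf 6054) (.nd 7 (.lf 1803) (.lf 6052) (.nd 49 (.lf 6050) (.lf 6048) (.nd 42 (.lf 6045) (.lf 6044) (.lf 6043) (.lf 6047) (.lf 6046) (.lf 1226)) (.lf 6051) (.lf 6049) (.lf 1151)) (.lf 6053) (.lf 1802) (.lf 6003)) (.lf 6055) (.lf 6041) (.lf 6056) (.lf 6042)) (.lf 6060) (.lf 6059) (.lf 1920)) (.lf 6064) (.lf 6062)) (.lf 6066) (.lf 1203) (.lf 6009))) (.lf 3141) (.lf 6072) (.lf 1925) (.lf 6073) (.lf 6071)) (.lf 6074))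

def tr13 : Tr := (.nd 155 (.lf 1276) (.nd 118 (.lf 2883) (.lf 6015) (.lf 2882) (.lf 6014) (.nd 4 (.lf 6019) (.lf 370) (.lf 6020) (.lf 369) (.lf 6018) (.nd 39 (.lf 6002) (.lf 5998) (.lf 5274) (.lf 5999) (.lf 6017) (.lf 6016))) (.nd 4 (.lf 6019) (.lf 370) (.lf 6020) (.lf 369) (.lf 6025) (.nd 11 (.lf 6021) (.lf 1157) (.lf 6023) (.lf 1156) (.lf 6024) (.lf 6022)))) (.nd 118 (.lf 2883) (.lf 6015) (.lf 2882) (.lf 6014) (.nd 85 (.lf 6010) (.lf 6007) (.nd 24 (.lf 2911) (.lf 6004) (.nd 7 (.lf 1803) (.nd 39 (.lf 6002) (.lf 5998) (.lf 2834) (.lf 5999) (.lf 6001) (.lf 6000)) (.nd 39 (.lf 3703) (.lf 5998) (.lf 2834) (.lf 5999) (.lf 5996) (.lf 5997)) (.lf 2403) (.lf 1802) (.lf 6003)) (.lf 6005) (.lf 2910) (.lf 6006)) (.lf 6008) (.lf 1203) (.lf 6009)) (.nd 7 (.lf 1803) (.lf 6011) (.lf 6012) (.lf 6013) (.lf 1802) (.lf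 6003))) (.lf 6026) (.lf 1275) (.lf 6027))

def tr14 : Tr := (.nd 2 (.lf 6095) (.nd 155 (.lf 1276) (.nd 129 (.lf 6091) (.lf 6088) (.lf 6090) (.lf 6087) (.lf 6089) (.nd 29 (.lf 6085) (.lf 6084) (.nd 4 (.lf 6082) (.lf 370) (.lf 6083) (.lf 369) (.lf 6081) (.nd 48 (.lf 6080) (.lf 1789) (.lf 6079) (.lf 6077) (.lf 6078) (.lf 1788))) (.lf 6060) (.lf 6086) (.lf 1920))) tr12 (.lf 6092) (.lf 1275) (.lf 6027)) (.nd 21 (.lf 6039) tr13 (.nd 7 (.lf 1803) (.nd 9 (.lf 6035) (.lf 6037) (.lf 6034) (.nd 155 (.lf 1276) (.nd 4 (.lf 6030) (.lf 370) (.lf 6031) (.lf 369) (.lf 6029) (.lf 6028)) (.lf 6032) (.lf 6026) (.lf 1275) (.lf 6027)) (.lf 6033) (.lf 6036)) (.lf 6038) (.lf 3191) (.lf 1802) (.lf 6003)) (.lf 6041) (.lf 6040) (.lf 6042)) (.lf 6093) (.lf 5090) (.lf 6094))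

def tr15 : Tr := (.nd 103 (.lf 6120) (.nd 114 (.lf 6115) (.nd 3 (.nd 11 (.lf 6103) (.lf 1157) (.lf 6104) (.lf 1156) (.lf 6106) (.lf 6105)) (.lf 201) (.lf 5119) (.lf 1162) (.nd 24 (.lf 2911) (.lf 6108) (.lf 6107) (.lf 6109) (.lf 2910) (.lf 6006)) (.nd 146 tr14 (.lf 6101) (.lf 6099) (.lf 6102) (.lf 6100) (.nd 7 (.lf 1803) (.lf 6096) (.lf 6097) (.lf 6098) (.lf 1802) (.lf 6003)))) (.nd 2 (.lf 6095) (.nd 3 (.lf 5290) (.lf 201) (.lf 5119) (.lf 1162) (.lf 5289) (.lf 6110)) (.lf 6111) (.lf 6113) (.lf 6114) (.lf 6112)) (.lf 5620) (.lf 5619) (.lf 5621)) (.nd 2 (.lf 3197) (.nd 3 (.lf 5118) (.lf 201) (.lf 5119) (.lf 1162) (.lf 5117) (.lf 6116)) (.lf 6117) (.lf 6118) (.lf 6114) (.lf 6119)) (.lf 857) (.lf 3168) (.lf 858))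

def tr16 : Tr := (.nd 145 (.lf 6174) (.nd 113 (.lf 6168) (.lf 2907) (.lf 6167) (.nd 3 (.lf 6154) (.lf 201) (.lf 6153) (.lf 1162) (.nd 71 (.lf 6149) (.lf 6150) (.nd 84 (.lf 6144) (.lf 6145) (.lf 3304) (.lf 6146) (.lf 3303) (.nd 24 (.lf 2911) (.lf 6141) (.lf 6142) (.lf 6143) (.lf 2910) (.lf 6006))) (.lf 6147) (.lf 6148) (.lf 6151)) (.lf 6152)) (.nd 4 (.lf 6165) (.lf 370) (.lf 6166) (.lf 369) (.lf 6164) (.nd 71 (.lf 6163) (.lf 6150) (.lf 6162) (.lf 6161) (.nd 85 (.lf 6010) (.lf 6158) (.nd 7 (.lf 1803) (.lf 6156) (.lf 6155) (.lf 6157) (.lf 1802) (.lf 6003)) (.lf 6159) (.lf 6160) (.lf 6009)) (.lf 6151))) (.lf 6169)) (.nd 16 (.lf 6140) (.nd 98 (.lf 2389) (.lf 6131) tr15 (.nd 3 (.lf 6129) (.lf 201) (.lf 6130) (.lf 1162) (.lf 6128) (.nd 11 (.lf 6125) (.lf 1157) (.lf 6126) (.lf 1156) (.lf 6127) (.nd 49 (.lf 6124)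 (.lf 6121) (.lf 6122) (.lf 6051) (.lf 6123) (.lf 1151)))) (.lf 2388) (.lf 2387)) (.nd 2 (.lf 6095) (.nd 3 (.lf 6134) (.lf 201) (.lf 6130) (.lf 1162) (.lf 6133) (.lf 6132)) (.lf 6135) (.lf 6137) (.lf 6114) (.lf 6136)) (.lf 6138) (.lf 398) (.lf 6139)) (.lf 1128) (.nd 3 (.lf 6170) (.lf 201) (.lf 6171) (.lf 1162) (.lf 6173) (.lf 6172)) (.lf 211))

def tr17 : Tr := (.nd 145 (.lf 6220) (.nd 20 (.lf 6213) (.nd 95 (.lf 6208) (.lf 6209) (.lf 6212) (.lf 6211) (.lf 5230) (.lf 6210)) (.lf 3211) (.lf 6215) (.lf 3210) (.lf 6214)) (.nd 3 (.lf 6206) (.lf 201) (.lf 6207) (.lf 1162) (.lf 6205) (.nd 146 (.nd 2 (.lf 6199) (.nd 117 (.nd 155 (.lf 6192) (.lf 6189) (.nd 49 (.lf 6187) (.lf 6184) (.lf 6185) (.lf 6188) (.lf 6186) (.lf 1151)) (.lf 6190) (.lf 5440) (.lf 6191)) (.lf 3141) (.lf 6194) (.lf 6196) (.lf 6195) (.lf 6193))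 (.nd 21 (.lf 6181) (.nd 24 (.lf 2911) (.lf 6176) (.lf 6175) (.lf 6177) (.lf 2910) (.lf 6178)) (.lf 6179) (.lf 6182) (.lf 6180) (.lf 6183)) (.lf 6198) (.lf 5090) (.lf 6197)) (.lf 6204) (.lf 6201) (.lf 6203) (.lf 6202) (.lf 6200))) (.lf 1128) (.nd 3 (.lf 6216) (.lf 201) (.lf 6217) (.lf 1162) (.lf 6219) (.lf 6218)) (.lf 211))

def tr18 : Tr := (.nd 70 (.lf 278) (.nd 33 (.lf 6283) tr11 tr16 (.nd 103 (.lf 6234) tr17 (.nd 21 (.nd 113 (.lf 6228) (.lf 2907) (.lf 6230) (.lf 6229) (.lf 6227) (.lf 6231)) (.lf 6233) (.lf 6232) (.lf 3192) (.nd 145 (.lf 3236) (.lf 6226) (.nd 11 (.lf 6224) (.lf 1157) (.lf 6221) (.lf 1156) (.lf 6223) (.lf 6222)) (.lf 1128) (.lf 6225) (.lf 211)) (.lf 3193)) (.lf 857) (.lf 3168) (.lf 858)) (.lf 6284) (.lf 6282)) (.nd 149 (.lf 6296) (.lf 6295) (.nd 2 (.lf 6199) (.nd 3 (.lf 6287) (.lf 201)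 (.lf 6288) (.lf 1162) (.lf 6286) (.lf 6285)) (.lf 6289) (.lf 6291) (.lf 5098) (.lf 6290)) (.lf 3268) (.nd 3 (.lf 6287) (.lf 201) (.lf 6292) (.lf 1162) (.lf 6294) (.lf 6293)) (.lf 3267)) (.lf 6297) (.lf 336) (.lf 3184))

def tr19 : Tr := (.nd 26 (.lf 1810) (.nd 68 (.lf 2850) (.lf 2849) (.nd 113 (.lf 2846) (.lf 2848) (.lf 2845) (.lf 2844) (.nd 49 (.lf 2841) (.nd 152 (.lf 1231) (.lf 2839) (.nd 122 (.lf 2812) (.lf 2838) (.lf 2811) (.lf 2837) (.lf 2836) (.nd 39 (.lf 2835) (.lf 2833) (.lf 2834) (.lf 2831) (.nd 81 (.lf 1250) (.lf 2830) (.lf 1251) (.nd 62 (.lf 2413) (.lf 2825) (.nd 149 (.lf 2819) (.lf 2824) (.lf 2823) (.lf 2822) (.lf 2820) (.lf 2821)) (.lf 2826) (.lf 2412) (.lf 2827)) (.lf 2828) (.lf 2829)) (.lf 2832))) (.lf 2840) (.lf 1230) (.lf 2612)) (.lf 2842) (.lf 1152) (.lf 2843) (.lf 2213)) (.lf 2847))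 (.lf 2385) (.lf 2383) (.lf 2384)) (.nd 144 (.lf 2863) (.nd 121 (.lf 2860) (.lf 2859) (.nd 77 (.lf 2858) (.lf 2855) (.nd 86 (.lf 2692) (.lf 2853) (.nd 149 (.lf 2819) (.lf 2852) (.lf 2851) (.lf 2822) (.lf 2820) (.lf 2821)) (.lf 2854) (.lf 2693) (.lf 1438)) (.lf 2856) (.lf 1182) (.lf 2857)) (.lf 2862) (.lf 2861) (.lf 1993)) (.lf 2867) (.lf 2864) (.lf 2866) (.lf 2865)) (.lf 2868) (.lf 1809) (.lf 1808))

def tr20 : Tr := (.nd 3 (.lf 2265) (.lf 1161) (.lf 2266) (.lf 1162) (.nd 149 (.lf 2819) (.nd 146 (.lf 2816) (.lf 1978) (.lf 2817) (.lf 1977) (.lf 2815) (.nd 7 (.lf 1803) (.lf 2813) (.nd 122 (.lf 2812) (.lf 2810) (.lf 2811) (.lf 2809) (.nd 20 (.nd 73 (.lf 2420) (.lf 2804) (.lf 2805) (.lf 2806) (.lf 2703) (.lf 2803)) (.nd 73 (.lf 2420) (.lf 2800) (.lf 2801) (.lf 2802) (.lf 2703) (.lf 2803)) (.lf 1964) (.lf 2633)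 (.lf 1963) (.lf 2807)) (.lf 2808)) (.lf 2814) (.lf 1802) (.lf 1801))) (.lf 2818) (.lf 2822) (.lf 2820) (.lf 2821)) (.nd 7 (.lf 1803) (.lf 2872) (.nd 11 (.lf 2870) (.lf 1157) (.lf 2262) (.lf 1156) (.lf 2869) tr19) (.lf 2871) (.lf 1802) (.lf 1801)))

def tr21 : Tr := (.nd 33 (.lf 2401) (.lf 2613) (.nd 152 (.lf 1231) (.lf 2610) (.nd 128 (.nd 62 (.lf 2413) (.lf 2604) (.nd 18 (.lf 1193) (.lf 2602) (.lf 2601) (.lf 2603) (.lf 1192) (.lf 2416)) (.lf 2605) (.lf 2412) (.lf 2480)) (.lf 2607) (.lf 2609) (.lf 2608) (.lf 1902) (.lf 2606)) (.lf 2611) (.lf 1230) (.lf 2612)) (.nd 89 (.nd 25 (.lf 1490) (.lf 2597) (.nd 18 (.lf 1193) (.lf 2594) (.nd 52 (.lf 2592) (.lf 1475) (.lf 2591) (.lf 2590) (.nd 73 (.lf 2420) (.lf 2588) (.nd 29 (.lf 2584) (.nd 26 (.lf 1810) (.lf 2582) (.lf 2583) (.lf 1879) (.lf 1809) (.lf 1808)) (.lf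 2585) (.lf 2587) (.lf 2586) (.lf 1920)) (.lf 2589) (.lf 1378) (.lf 2418)) (.lf 2593)) (.lf 2595) (.lf 1192) (.lf 2416)) (.lf 2596) (.lf 1491) (.lf 2393)) (.lf 2599) (.lf 2504) (.lf 2600) (.lf 1271) (.lf 2598)) (.lf 2400) (.lf 2399))

def tr22 : Tr := (.nd 49 (.lf 2481) (.nd 25 (.lf 1490) (.lf 2457) (.nd 54 (.lf 2454) (.nd 128 (.nd 62 (.lf 2413) (.nd 28 (.lf 2447) (.lf 2288) (.lf 2448) (.lf 2289) (.lf 2446) (.lf 2445)) (.nd 28 (.lf 2443) (.lf 2288) (.lf 2444) (.lf 2289) (.lf 2442) (.nd 18 (.lf 1193) (.lf 2440) (.lf 2441) (.lf 1783) (.lf 1192) (.lf 2416))) (.lf 2449) (.lf 2412) (.lf 2450)) (.lf 2451) (.lf 2318) (.lf 2453) (.lf 1902) (.lf 2452)) (.lf 2455) (.lf 2091) (.lf 2456) (.lf 2090)) (.lf 2290) (.lf 1491) (.lf 2292)) (.nd 62 (.lf 2413) (.nd 55 (.nd 25 (.lf 1490) (.nd 42 (.lf 2464) (.lf 2468) (.lf 2467)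 (.lf 2466) (.lf 2465) (.lf 1226)) (.nd 42 (.lf 2464) (.nd 54 (.lf 2462) (.nd 28 (.lf 2459) (.lf 2288) (.lf 2461) (.lf 2289) (.lf 2460) (.lf 2458)) (.lf 2455) (.lf 2091) (.lf 2456) (.lf 2090)) (.lf 2463) (.lf 2466) (.lf 2465) (.lf 1226)) (.lf 2469) (.lf 1491) (.lf 2292)) (.lf 2470) (.lf 2473) (.lf 2472) (.lf 2474) (.lf 2471)) (.nd 42 (.lf 2464) (.nd 18 (.lf 1193) (.lf 2475) (.lf 2476) (.lf 2477) (.lf 1192) (.lf 2416)) (.lf 2478) (.lf 2466) (.lf 2465) (.lf 1226)) (.lf 2479) (.lf 2412) (.lf 2480)) (.lf 1152) (.lf 1797) (.lf 1151))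

def tr23 : Tr := (.nd 89 (.nd 77 (.lf 1495) (.lf 2499) (.nd 25 (.lf 1490) (.lf 2497) (.nd 54 (.lf 2495) (.nd 62 (.lf 2413) (.lf 2493) (.nd 18 (.lf 1193) (.lf 2491) (.nd 48 (.lf 2489) (.lf 1789) (.lf 2487) (.lf 2488) (.lf 2490) (.lf 1788)) (.lf 2492) (.lf 1192) (.lf 2416)) (.lf 2494) (.lf 2412) (.lf 2450)) (.lf 2496) (.lf 2091) (.lf 2456) (.lf 2090)) (.lf 2469) (.lf 1491) (.lf 2393)) (.nd 7 (.lf 1803) (.lf 2485) (.nd 26 (.lf 1810) (.nd 98 (.lf 2389) (.lf 2483) tr22 (.lf 2482) (.lf 2388) (.lf 2387)) (.lf 2484) (.lf 1807) (.lf 1809) (.lf 1808)) (.lf 2486) (.lf 1802) (.lf 1801)) (.lf 2500) (.lf 2498)) (.lf 2501) (.lf 2504) (.lf 2503) (.lf 1271) (.lf 2502))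

def tr24 : Tr := (.nd 18 (.lf 1193) (.lf 2569) (.nd 42 (.lf 2535) (.nd 81 (.lf 1250) (.lf 2566) (.lf 1251) (.nd 35 (.lf 2554) (.lf 2552) (.lf 1221) (.lf 2553) (.lf 2564) (.nd 48 (.lf 2550) (.lf 1789) (.nd 62 (.lf 2413) (.lf 2562) (.lf 2560) (.lf 2561) (.lf 2412) (.lf 2531)) (.lf 2563) (.lf 2549) (.lf 1788))) (.nd 129 (.lf 2558) (.lf 2556) (.lf 2559) (.lf 2557) (.lf 2555) (.nd 35 (.lf 2554) (.lf 2552) (.lf 1221) (.lf 2553) (.lf 2551) (.nd 48 (.lf 2550) (.lf 1789) (.nd 26 (.lf 1810) (.lf 2547) (.lf 2546) (.lf 1807) (.lf 1809) (.lf 1808)) (.lf 2548) (.lf 2549) (.lf 1788)))) (.lf 2565)) (.lf 2567) (.lf 2466) (.lf 2568) (.lf 1226)) (.lf 2570) (.lf 1192) (.lf 2416))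

def tr25 : Tr := (.nd 98 (.lf 2389) (.lf 2483) (.nd 73 (.lf 2420) (.nd 62 (.lf 2413) (.lf 2530) (.nd 28 (.lf 2527) (.lf 2288) (.lf 2528) (.lf 2289) (.lf 2526) (.nd 18 (.lf 1193) (.lf 2524) (.lf 2523) (.lf 2525) (.lf 1192) (.lf 2416))) (.lf 2529) (.lf 2412) (.lf 2531)) (.nd 62 (.lf 2413) (.lf 2521) (.nd 28 (.lf 2518) (.lf 2288) (.lf 2519) (.lf 2289) (.nd 43 (.lf 1435) (.lf 2515) (.lf 2516) (.lf 2517) (.lf 1434) (.lf 2514)) (.nd 43 (.lf 1435) (.nd 81 (.lf 1250) (.lf 2511) (.lf 1251) (.lf 2508) (.lf 2509) (.lf 2510)) (.lf 2512) (.lf 2513) (.lf 1434) (.lf 2514))) (.lf 2520) (.lf 2412) (.lf 2522)) (.lf 2532) (.lf 1378) (.lf 2418)) (.lf 2533) (.lf 2388) (.lf 2387))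

def tr26 : Tr := (.nd 7 (.lf 1803) (.lf 2575) (.nd 63 (.lf 2507) (.lf 2408) (.lf 2573) (.nd 77 (.lf 1495) (.lf 2572) (.nd 25 (.lf 1490) (.lf 2497) tr24 (.lf 2538) (.lf 1491) (.lf 2393)) (.nd 49 (.lf 2481) (.nd 25 (.lf 1490) (.lf 2537) (.nd 42 (.lf 2535) tr25 (.lf 2534) (.lf 2466) (.lf 2536) (.lf 1226)) (.lf 2538) (.lf 1491) (.lf 2393)) (.nd 62 (.lf 2413) (.lf 2545) (.nd 81 (.lf 1250) (.lf 2543) (.lf 1251) (.nd 42 (.lf 2535) (.lf 2539) (.lf 2540) (.lf 2466) (.lf 2536) (.lf 1226)) (.lf 2541) (.lf 2542)) (.lf 2544) (.lf 2412) (.lf 2531)) (.lf 1152) (.lf 1797) (.lf 1151)) (.lf 2500) (.lf 2571)) (.lf 2574) (.lf 2407)) (.lf 2486) (.lf 1802) (.lf 1801))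

def tr27 : Tr := (.nd 118 (.lf 2432) (.lf 2431) (.lf 2433) (.lf 2430) (.nd 73 (.lf 2420) (.nd 18 (.lf 1193) (.nd 62 (.lf 2413) (.nd 63 (.lf 2406) (.lf 2408) (.lf 2405) (.nd 7 (.lf 1803) (.lf 2402) (.nd 33 (.lf 2401) (.lf 2398) (.nd 48 (.lf 2396) (.lf 1789) (.lf 2395) (.lf 2394) (.nd 25 (.lf 1490) (.lf 2390) (.lf 2391) (.lf 2392) (.lf 1491) (.lf 2393)) (.lf 1788)) (.lf 2397) (.lf 2400) (.lf 2399)) (.lf 2403) (.lf 1802) (.lf 1801)) (.lf 2404) (.lf 2407)) (.lf 2409) (.lf 2410) (.lf 2412) (.lf 2411)) (.lf 2414) (.lf 2415) (.lf 1192) (.lf 2416)) (.lf 2417) (.lf 2419) (.lf 1378) (.lf 2418)) (.nd 73 (.lf 2420) (.nd 21 (.lf 2425) (.nd 25 (.lf 1490) (.lf 2422) (.lf 2421) (.lf 2423) (.lf 1491) (.lf 2393)) (.lf 2424) (.lf 1779) (.lf 2426) (.lf 2427)) (.lf 2428) (.lf 2429) (.lf 1378) (.lf 2418)))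

def tr28 : Tr := (.nd 2 (.lf 1826) (.nd 71 (.lf 2623) (.lf 2339) (.lf 2624) (.lf 2622) (.nd 11 (.lf 2620) (.lf 1157) (.lf 1155) (.lf 1156) (.lf 2621) (.nd 21 (.nd 7 (.lf 1803) (.lf 2616) (.nd 88 (.lf 2436) (.lf 1770) tr21 (.lf 2614) (.lf 2615) (.lf 1771)) (.lf 2617) (.lf 1802) (.lf 1801)) (.nd 9 (.lf 2581) (.lf 1859) (.lf 2579) (.nd 88 (.lf 2436) (.lf 1770) (.nd 33 (.lf 2401) (.lf 2576) (.nd 63 (.lf 2507) (.lf 2408) (.lf 2506) tr23 (.lf 2505) (.lf 2407)) tr26 (.lf 2400) (.lf 2399)) (.lf 2577) (.lf 2578) (.lf 1771)) (.lf 2580) (.lf 1858)) (.lf 2618) (.lf 2332) (.lf 2619) (.lf 2427))) (.lf 2338)) (.nd 9 (.lf 2439) (.lf 1859) (.lf 2438) (.nd 88 (.lf 2436) (.lf 1770) tr27 (.lf 2434) (.lf 2435) (.lf 1771)) (.lf 2437) (.lf 1858)) (.lf 2625) (.lf 1886) (.lf 2626))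

def tr29 : Tr := (.nd 111 (.lf 2737) (.lf 2735) (.nd 35 (.lf 2554) (.lf 2734) (.lf 1221) (.lf 2733) (.nd 120 (.lf 1217) (.lf 2731) (.nd 18 (.lf 1193) (.lf 2729) (.nd 73 (.lf 2420) (.lf 2588) (.nd 142 (.lf 2725) (.nd 127 (.lf 2717) (.lf 2719) (.nd 29 (.lf 2721) (.lf 2720) (.lf 2714) (.lf 2643) (.lf 2586) (.lf 1920)) (.lf 2722) (.lf 2723) (.lf 2718)) (.nd 127 (.lf 2717) (.lf 2719) (.nd 29 (.lf 2713) (.lf 2712) (.lf 2714) (.lf 1393) (.lf 2586) (.lf 1394)) (.lf 2715) (.lf 2716) (.lf 2718)) (.lf 2724) (.lf 2726) (.lf 1207)) (.lf 2727) (.lf 2703) (.lf 2651)) (.lf 2728) (.lf 1192) (.lf 2416)) (.lf 2730) (.lf 1216) (.lf 2639)) (.lf 2732)) (.lf 2738) (.lf 2736) (.lf 1647))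

def tr30 : Tr := (.nd 154 (.lf 2768) (.lf 1907) (.lf 2766) (.nd 33 (.lf 2401) (.lf 2613) (.lf 2765) (.nd 107 (.lf 1764) (.lf 2764) (.lf 1765) (.nd 143 (.lf 2759) (.lf 2761) (.lf 2760) (.lf 2758) (.nd 81 (.lf 1250) (.lf 2566) (.lf 1251) (.lf 2756) (.nd 29 (.lf 2753) (.nd 120 (.lf 1217) (.lf 2751) (.lf 2750) (.lf 2752) (.lf 1216) (.lf 2639)) (.lf 2754) (.lf 2643) (.lf 2755) (.lf 1920)) (.lf 2757)) (.lf 2762)) (.nd 99 (.lf 2748) (.lf 2746) (.lf 2749) (.lf 2747) (.lf 2745) (.nd 52 (.lf 2743) (.lf 1475) (.lf 2744) (.lf 2742) (.nd 77 (.lf 1495) (.lf 2740) tr29 (.lf 2739) (.lf 2500) (.lf 2741)) (.lf 2593))) (.lf 2763)) (.lf 2400) (.lf 2399)) (.lf 2767) (.lf 2769))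

def tr31 : Tr := (.nd 86 (.lf 2692) (.nd 48 (.lf 2550) (.lf 1789) (.nd 129 (.lf 2558) (.lf 2671) (.lf 2559) (.lf 2672) (.lf 2670) (.nd 26 (.lf 1810) (.lf 2669) (.nd 98 (.lf 2389) (.lf 2483) (.nd 35 (.lf 2554) (.lf 2552) (.lf 1221) (.lf 2667) (.nd 120 (.lf 1217) (.lf 2666) (.lf 2665) (.lf 2275) (.lf 1216) (.lf 2639)) (.nd 62 (.lf 2413) (.lf 2521) (.lf 2664) (.nd 120 (.lf 1217) (.lf 2662) (.nd 107 (.lf 1764) (.lf 2661) (.lf 1765) (.lf 2658) (.lf 2659) (.lf 2660)) (.lf 2663) (.lf 1216) (.lf 2639)) (.lf 2412) (.lf 2522))) (.lf 2668) (.lf 2388) (.lf 2387)) (.lf 1807) (.lf 1809) (.lf 1808))) (.lf 2673) (.lf 2549) (.lf 1788)) (.nd 48 (.lf 2550) (.lf 1789) (.nd 65 (.lf 1442) (.lf 2686) (.nd 35 (.lf 2554) (.lf 2552) (.lf 1221) (.lf 2667) (.nd 120 (.lf 1217) (.lf 2681) (.nd 40 (.lf 2679) (.nd 129 (.lf 2558) (.lf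 1197) (.lf 1199) (.lf 2672) (.lf 2675) (.lf 2674)) (.nd 129 (.lf 2558) (.lf 1197) (.lf 1199) (.lf 2672) (.lf 2677) (.lf 2676)) (.lf 2678) (.lf 2680) (.lf 1418)) (.lf 2663) (.lf 1216) (.lf 2639)) (.nd 40 (.lf 2679) (.nd 57 (.lf 2648) (.lf 2682) (.lf 2683) (.lf 2684) (.lf 2647) (.lf 1353)) (.lf 2685) (.lf 2678) (.lf 2680) (.lf 1418))) (.lf 2687) (.lf 1441) (.lf 2688)) (.lf 2689) (.lf 2549) (.lf 1788)) (.lf 2690) (.lf 2693) (.lf 2691))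

def tr32 : Tr := (.nd 77 (.lf 1495) (.lf 2707) (.nd 18 (.lf 1193) (.lf 2705) (.nd 73 (.lf 2420) (.lf 2701) (.nd 29 (.lf 2698) (.nd 81 (.lf 1250) (.lf 2511) (.lf 1251) (.lf 2696) (.nd 49 (.lf 2481) (.nd 88 (.lf 2436) (.lf 1770) tr31 (.lf 2694) (.lf 2578) (.lf 1771)) (.lf 2695) (.lf 1152) (.lf 1797) (.lf 1151)) (.lf 2697)) (.lf 2699) (.lf 2643) (.lf 2700) (.lf 1920)) (.lf 2702) (.lf 2703) (.lf 2651)) (.lf 2704) (.lf 1192) (.lf 2416)) (.nd 25 (.lf 1490) (.lf 2656) (.nd 88 (.lf 2436) (.lf 1770) (.nd 49 (.lf 2481) (.nd 73 (.lf 2420) (.lf 2649) (.nd 57 (.lf 2648) (.nd 29 (.lf 2641) (.nd 120 (.lf 1217) (.lf 2636) (.lf 2637) (.lf 2638) (.lf 1216) (.lf 2639)) (.lf 2640) (.lf 2643) (.lf 2642) (.lf 1920)) (.lf 2644) (.lf 2645) (.lf 2647) (.lf 2646)) (.lf 2650) (.lf 1378) (.lf 2651)) (.nd 120 (.lf 1217) (.lf 2652)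 (.lf 2653) (.lf 2654) (.lf 1216) (.lf 2639)) (.lf 1152) (.lf 1797) (.lf 1151)) (.lf 2655) (.lf 2578) (.lf 1771)) (.lf 2657) (.lf 1491) (.lf 2393)) (.lf 2500) (.lf 2706))

def tr33 : Tr := (.nd 71 (.lf 2623) (.lf 2339) (.lf 2785) (.lf 2784) (.nd 11 (.lf 2782) (.lf 1157) (.lf 1155) (.lf 1156) (.lf 2783) (.nd 136 (.lf 2780) (.lf 2779) (.lf 2781) (.lf 2778) (.nd 7 (.lf 1803) (.lf 2776) (.nd 21 (.nd 49 (.lf 2774) (.nd 89 (.nd 25 (.lf 1490) (.lf 2771) tr30 (.lf 2770) (.lf 1491) (.lf 2393)) (.lf 2711) (.lf 2504) (.lf 2600) (.lf 1271) (.lf 2772)) (.lf 2773) (.lf 1152) (.lf 2775) (.lf 1151)) (.nd 89 (.nd 9 (.lf 2709) (.lf 1859) (.lf 2708) tr32 (.lf 2580) (.lf 1858)) (.lf 2711) (.lf 2504) (.lf 2503) (.lf 1271) (.lf 2710)) (.lf 2618) (.lf 2332) (.lf 2619) (.lf 2427)) (.lf 2617) (.lf 1802) (.lf 1801)) (.lf 2777)))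 (.lf 2338))

def tr34 : Tr := (.nd 13 (.lf 2798) (.lf 2797) (.lf 2799) (.lf 2796) (.nd 20 (.lf 2635) (.nd 3 (.lf 2630) (.lf 1161) (.lf 1159) (.lf 1162) (.nd 8 (.lf 2629) (.lf 1873) (.lf 2628) (.lf 1874) (.lf 2627) (.lf 1971)) tr28) (.lf 1964) (.nd 3 (.lf 2632) (.lf 1161) (.lf 1159) (.lf 1162) (.lf 2633) (.lf 2631)) (.lf 1963) (.lf 2634)) (.nd 3 (.lf 2795) (.lf 1161) (.lf 1159) (.lf 1162) (.nd 8 (.lf 2629) (.lf 1873) (.lf 2628) (.lf 1874) (.lf 2794) (.lf 1971)) (.nd 2 (.lf 1826) tr33 (.nd 21 (.lf 2791) (.nd 63 (.lf 2789) (.lf 2408) (.lf 2788) (.nd 7 (.lf 1803) (.lf 2402) (.lf 2786) (.lf 2403) (.lf 1802) (.lf 1801)) (.lf 2787) (.lf 2407)) (.lf 2790) (.lf 2332) (.lf 2426) (.lf 2427)) (.lf 2792) (.lf 1886) (.lf 2793))))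

def tr35 : Tr := (.nd 3 (.lf 2265) (.lf 1161) (.lf 2266) (.lf 1162) (.nd 146 (.lf 1975) (.lf 1978) (.lf 1976) (.lf 1977) (.lf 2363) (.nd 8 (.lf 1969) (.lf 1970) (.lf 2361) (.lf 2362) (.nd 94 (.lf 2356) (.lf 2357) (.lf 2360) (.lf 2358) (.lf 2359) (.nd 4 (.lf 1973) (.lf 370) (.lf 1813) (.lf 369) (.lf 1972) (.lf 2355))) (.lf 1971))) (.nd 68 (.lf 2382) (.lf 2381) (.nd 7 (.lf 1803) (.lf 2215) (.nd 144 (.lf 2375) (.nd 39 (.lf 2374) (.lf 2373) (.lf 1847) (.lf 2371) (.nd 121 (.lf 2369) (.lf 2368) (.nd 43 (.lf 1435) (.lf 2366) (.lf 2364) (.lf 2365) (.lf 1434) (.lf 2367)) (.lf 2205) (.lf 2370) (.lf 1993)) (.lf 2372)) (.lf 2379) (.lf 2376) (.lf 2378) (.lf 2377)) (.lf 2380) (.lf 1802) (.lf 1801)) (.lf 2385) (.lf 2383) (.lf 2384)))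

def tr36 : Tr := (.nd 21 (.nd 7 (.lf 1803) (.lf 2329) (.nd 89 (.nd 77 (.lf 1495) (.lf 2322) (.nd 25 (.lf 1490) (.lf 2320) (.nd 128 (.nd 111 (.lf 2313) (.lf 2311) (.nd 43 (.lf 1435) (.lf 2309) (.nd 29 (.lf 2304) (.nd 127 (.lf 2300) (.lf 2303) (.lf 2298) (.lf 2299) (.lf 2301) (.lf 2302)) (.lf 2306) (.lf 2307) (.lf 2305) (.lf 1920)) (.lf 2308) (.lf 1434) (.lf 2310)) (.lf 2314) (.lf 2312) (.lf 1647)) (.lf 2316) (.lf 2318) (.lf 2317) (.lf 1902) (.lf 2315)) (.lf 2319) (.lf 1491) (.lf 2292)) (.lf 2321) (.lf 2324) (.lf 2323)) (.lf 2326) (.lf 1270) (.lf 2327) (.lf 1271) (.lf 2325)) (.lf 2328) (.lf 1802) (.lf 1801)) (.nd 7 (.lf 1803) (.lf 2296) (.nd 49 (.lf 2294) (.nd 25 (.lf 1490) (.lf 2291) (.nd 28 (.lf 2287) (.lf 2288) (.lf 2285) (.lf 2289) (.nd 18 (.lf 1193) (.lf 2283) (.nd 48 (.lf 1786) (.lf 1789) (.nd 26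 (.lf 1810) (.lf 2279) (.nd 35 (.lf 1220) (.lf 1218) (.lf 1221) (.lf 2278) (.nd 120 (.lf 1217) (.lf 1214) (.lf 2274) (.lf 2275) (.lf 1216) (.lf 2276)) (.lf 2277)) (.lf 1879) (.lf 1809) (.lf 1808)) (.lf 2280) (.lf 2281) (.lf 1788)) (.lf 2282) (.lf 1192) (.lf 2284)) (.lf 2286)) (.lf 2290) (.lf 1491) (.lf 2292)) (.lf 2293) (.lf 1152) (.lf 2295) (.lf 1151)) (.lf 2297) (.lf 1802) (.lf 1801)) (.lf 2331) (.lf 2332) (.lf 2330) (.lf 1780))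

def tr37 : Tr := (.nd 145 (.lf 2271) tr35 (.nd 3 (.lf 2354) (.lf 1161) (.lf 1159) (.lf 1162) (.nd 8 (.lf 2353) (.lf 1873) (.lf 1158) (.lf 1874) (.lf 2352) (.lf 1971)) (.nd 2 (.lf 1826) (.nd 4 (.lf 2341) (.lf 370) (.lf 1813) (.lf 369) (.lf 2340) (.nd 71 (.lf 2335) (.lf 2339) (.lf 2337) (.lf 2336) (.nd 11 (.lf 2333) (.lf 1157) (.lf 1155) (.lf 1156) (.lf 2334) tr36) (.lf 2338))) (.nd 21 (.lf 2349) (.nd 18 (.lf 1193) (.lf 2344) (.lf 2345) (.nd 7 (.lf 1803) (.lf 2343) (.lf 2342) (.lf 2297) (.lf 1802) (.lf 1801)) (.lf 1192) (.lf 2346)) (.lf 2347) (.lf 2332) (.lf 2348) (.lf 1780)) (.lf 2350) (.lf 1886) (.lf 2351))) (.lf 2272) (.nd 3 (.lf 2267) (.lf 1161) (.lf 2270) (.lf 1162) (.lf 2269) (.lf 2268)) (.lf 2273))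

def tr38 : Tr := (.nd 16 (.lf 1266) (.nd 7 (.lf 1803) (.lf 2215) (.nd 26 (.lf 1810) (.lf 2224) (.nd 87 (.lf 2223) (.lf 2221) (.lf 2222) (.lf 2220) (.lf 2219) (.nd 18 (.lf 1193) (.lf 2218) (.lf 2216) (.lf 2217) (.lf 1192) (.lf 1191))) (.lf 2225) (.lf 1809) (.lf 1808)) (.lf 2226) (.lf 1802) (.lf 1801)) (.nd 95 (.nd 86 (.lf 1367) (.lf 2243) (.nd 19 (.lf 2238) (.lf 2241) (.lf 2239) (.lf 2240) (.lf 2237) (.nd 105 (.lf 2235) (.nd 58 (.nd 10 (.lf 1952) (.lf 2227) (.lf 2228) (.lf 2229) (.lf 356) (.lf 1951)) (.lf 2231) (.lf 2234) (.lf 2232) (.lf 2233) (.lf 2230)) (.lf 2236) (.lf 1840) (.lf 1837) (.lf 1839))) (.lf 2242) (.lf 1368) (.lf 2244)) (.lf 2245) (.lf 2249) (.lf 2247) (.lf 2248) (.lf 2246)) (.lf 2250) (.lf 398) (.lf 1265))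

def tr39 : Tr := (.nd 105 (.lf 2012) (.nd 101 (.lf 2009) (.lf 2010) (.lf 2008) (.lf 2007) (.nd 25 (.lf 1490) (.lf 2006) (.nd 146 (.lf 2002) (.lf 1978) (.lf 2004) (.lf 1977) (.lf 2003) (.nd 78 (.lf 1256) (.nd 82 (.nd 43 (.lf 1435) (.lf 1988) (.lf 1995) (.lf 1996) (.lf 1434) (.lf 1989)) (.lf 1998) (.lf 2000) (.lf 1999) (.lf 1695) (.lf 1997)) (.nd 121 (.lf 1992) (.lf 1990) (.nd 43 (.lf 1435) (.lf 1988) (.lf 1987) (.nd 89 (.lf 1983) (.lf 1986) (.lf 1270) (.lf 1985) (.lf 1271) (.lf 1984)) (.lf 1434) (.lf 1989)) (.lf 1994) (.lf 1991) (.lf 1993)) (.lf 2001) (.lf 1255) (.lf 1254))) (.lf 2005) (.lf 1491) (.lf 1489)) (.lf 2011)) (.lf 2013) (.lf 1840) (.lf 1837) (.lf 1839))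

def tr40 : Tr := (.nd 40 (.lf 1420) (.lf 2147) (.nd 73 (.lf 1511) (.lf 2145) (.lf 2144) (.nd 153 (.lf 2141) (.nd 57 (.lf 1354) (.lf 2140) (.nd 47 (.lf 1912) (.lf 2137) (.nd 9 (.lf 2135) (.lf 1859) (.lf 2134) (.nd 154 (.lf 2133) (.lf 1747) (.lf 2131) (.nd 93 (.lf 1632) (.lf 2128) (.nd 142 (.lf 1173) (.lf 2127) (.nd 18 (.lf 1193) (.lf 1607) (.lf 2124) (.lf 2125) (.lf 1192) (.lf 1191)) (.lf 2126) (.lf 1172) (.lf 1748)) (.lf 2129) (.lf 1242) (.lf 2130)) (.lf 2132) (.lf 1746)) (.lf 1857) (.lf 2136)) (.lf 2138) (.lf 1911) (.lf 2020)) (.lf 2139) (.lf 1355) (.lf 1472)) (.lf 2084) (.lf 2143) (.lf 2083) (.lf 2142)) (.lf 1510) (.lf 1542)) (.lf 2146) (.lf 1419) (.lf 1612))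

def tr41 : Tr := (.nd 43 (.lf 1435) (.lf 2068) (.nd 95 (.lf 2045) (.nd 154 (.lf 1640) (.lf 1642) (.lf 2044) (.nd 78 (.lf 1256) (.lf 2043) (.nd 81 (.lf 1250) (.lf 1249) (.lf 1251) (.lf 1410) (.lf 2042) (.nd 63 (.lf 2038) (.lf 2040) (.lf 2037) (.nd 91 (.lf 1596) (.lf 2035) (.lf 2034) (.lf 2036) (.lf 1595) (.lf 1594)) (.lf 2039) (.lf 2041))) (.lf 1688) (.lf 1255) (.lf 1254)) (.lf 1639) (.lf 1906)) (.lf 2048) (.lf 2046) (.lf 2049) (.lf 2047)) (.nd 78 (.lf 1256) (.lf 2067) (.nd 42 (.nd 9 (.lf 2064) (.lf 1859) (.lf 2063) (.nd 146 (.lf 2060) (.lf 1978) (.lf 2062) (.lf 1977) (.lf 2061) (.nd 93 (.lf 1632) (.lf 2059) (.nd 95 (.lf 2057) (.nd 140 (.lf 1603) (.lf 2055) (.nd 110 (.lf 1682) (.nd 10 (.lf 1952) (.lf 2050) (.lf 2051) (.lf 2052) (.lf 356) (.lf 1951)) (.lf 2053) (.lf 1683) (.lf 1681) (.lf 2054)) (.lf 2056)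 (.lf 1602) (.lf 1601)) (.lf 2048) (.lf 2046) (.lf 2049) (.lf 2047)) (.lf 2058) (.lf 1242) (.lf 1631))) (.lf 1857) (.lf 2065)) (.lf 2066) (.lf 1550) (.lf 1225) (.lf 1616) (.lf 1226)) (.lf 1688) (.lf 1255) (.lf 1254)) (.lf 1434) (.lf 1433))

def tr42 : Tr := (.nd 143 (.lf 2101) (.lf 2102) (.nd 81 (.lf 1250) (.lf 1249) (.lf 1251) (.lf 2099) (.lf 2098) (.nd 78 (.lf 1256) (.lf 2097) (.nd 141 (.lf 2092) (.nd 54 (.lf 2088) (.lf 2087) (.nd 123 (.lf 1591) (.lf 2086) (.lf 2085) (.nd 153 (.lf 2080) (.nd 134 (.lf 1627) (.lf 2078) (.nd 9 (.lf 2064) (.lf 1859) (.lf 2077) (.lf 2076) (.lf 1857) (.lf 2065)) (.lf 2079) (.lf 1628) (.lf 1626)) (.lf 2084) (.lf 2082) (.lf 2083) (.lf 2081)) (.lf 1590) (.lf 1589)) (.lf 2091) (.lf 2089) (.lf 2090)) (.lf 2093) (.lf 2096) (.lf 2094) (.lf 2095)) (.lf 1688) (.lf 1255) (.lf 1254)))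 (.nd 109 (.lf 2074) (.lf 2073) (.nd 40 (.lf 1420) (.lf 2072) (.nd 96 (.lf 1700) (.lf 2070) tr41 (.lf 2069) (.lf 1699) (.lf 1698)) (.lf 2071) (.lf 1419) (.lf 1612)) (.lf 1211) (.lf 2075) (.lf 1212)) (.lf 2100) (.lf 2103))

def tr43 : Tr := (.nd 77 (.lf 2160) (.lf 2157) (.nd 155 (.lf 1276) (.lf 2156) (.nd 66 (.lf 1834) (.nd 61 (.lf 2148) tr40 (.lf 2152) (.lf 2150) (.lf 2151) (.lf 2149)) (.nd 111 (.lf 2121) (.nd 89 (.nd 152 (.lf 1231) (.lf 2116) (.nd 82 (.nd 99 (.lf 2110) (.lf 2108) (.lf 2109) (.lf 2107) (.nd 18 (.lf 1193) (.lf 2105) (.lf 2104) tr42 (.lf 1192) (.lf 1191)) (.lf 2106)) (.lf 2112) (.lf 2114) (.lf 2113) (.lf 1695) (.lf 2111)) (.lf 2115) (.lf 1230) (.lf 1229)) (.lf 2118) (.lf 1270) (.lf 2119) (.lf 1271) (.lf 2117)) (.lf 2120) (.lf 2123) (.lf 2122) (.lf 1647)) (.lf 2153) (.lf 1835) (.lf 2154))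 (.lf 2155) (.lf 1275) (.lf 1274)) (.lf 2158) (.lf 1182) (.lf 2159))

def tr44 : Tr := (.nd 133 (.nd 120 (.lf 1217) (.lf 2033) (.lf 2032) (.nd 39 (.lf 2031) (.lf 2030) (.lf 1847) (.lf 2028) (.nd 86 (.lf 1367) (.lf 2027) (.nd 80 (.lf 2021) (.nd 47 (.lf 1912) (.lf 2018) (.nd 52 (.lf 2016) (.lf 2017) (.lf 2015) tr39 (.lf 2014) (.lf 1476)) (.lf 2019) (.lf 1911) (.lf 2020)) (.lf 2025) (.lf 2023) (.lf 2024) (.lf 2022)) (.lf 2026) (.lf 1368) (.lf 1438)) (.lf 2029)) (.lf 1216) (.lf 1215)) (.nd 107 (.lf 1764) (.lf 2174) (.lf 1765) (.lf 2173) (.nd 117 (.lf 2167) (.lf 2171) (.lf 2169) (.lf 2170) (.lf 2168) (.nd 65 (.lf 1442) (.lf 2166) (.lf 2165) (.nd 39 (.lf 2031) (.lf 2030) (.lf 1847) (.lf 2164) (.nd 120 (.lf 1217) (.lf 2033) (.lf 2163) (.nd 88 (.lf 1769) (.lf 1770) (.lf 2161) tr43 (.lf 2162) (.lf 1771)) (.lf 1216)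 (.lf 1215)) (.lf 2029)) (.lf 1441) (.lf 1440))) (.lf 2172)) (.lf 2178) (.lf 2176) (.lf 2177) (.lf 2175))

def tr45 : Tr := (.nd 16 (.lf 1266) (.nd 39 (.lf 2031) (.lf 2030) (.lf 1847) (.lf 2207) (.nd 26 (.lf 1810) (.lf 2206) (.nd 121 (.lf 2203) (.lf 2202) (.nd 57 (.lf 1354) (.lf 2201) (.nd 131 (.lf 2197) (.lf 2198) (.lf 2196) (.lf 2195) (.nd 85 (.lf 1204) (.lf 2193) (.lf 2192) (.nd 154 (.lf 2190) (.lf 2191) (.lf 2188) (.nd 18 (.lf 1193) (.lf 2187) (.lf 2185) (.lf 2186) (.lf 1192) (.lf 1191)) (.lf 2189) (.lf 1906)) (.lf 1203) (.lf 2194)) (.lf 2199)) (.lf 2200) (.lf 1355) (.lf 1472)) (.lf 2205) (.lf 2204) (.lf 1993)) (.lf 2184) (.lf 1809) (.lf 1808)) (.lf 2208)) (.nd 26 (.lf 1810) (.lf 2183) (.nd 21 tr44 (.lf 2179) (.lf 2181) (.lf 2182) (.lf 2180) (.lf 1780)) (.lf 2184) (.lf 1809) (.lf 1808)) (.lf 2209) (.lf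 398) (.lf 1265))

def tr46 : Tr := (.nd 3 (.lf 2265) (.lf 1161) (.lf 2266) (.lf 1162) (.nd 2 (.lf 1826) (.nd 146 (.lf 1975) (.lf 1978) (.lf 1976) (.lf 1977) (.lf 1974) (.nd 4 (.lf 1973) (.lf 370) (.lf 1813) (.lf 369) (.lf 1972) (.nd 8 (.lf 1969) (.lf 1970) (.lf 1967) (.lf 1968) (.nd 7 (.lf 1803) (.lf 1966) (.nd 20 (.lf 1960) (.nd 105 (.nd 40 (.lf 1420) (.lf 1955) (.lf 1953) (.lf 1954) (.lf 1419) (.lf 1956)) (.lf 1957) (.lf 1958) (.lf 1840) (.lf 1959) (.lf 1839)) (.lf 1964) (.lf 1962) (.lf 1963) (.lf 1961)) (.lf 1965) (.lf 1802) (.lf 1801)) (.lf 1971)))) (.lf 1981) (.lf 1980) (.lf 1982) (.lf 1979)) (.nd 4 (.lf 2264) (.lf 370) (.lf 1813) (.lf 369) (.lf 2263) (.nd 11 (.lf 2261) (.lf 1157) (.lf 2262) (.lf 1156) (.lf 2260) (.nd 8 (.lf 2256) (.lf 2259) (.lf 2255) (.lf 2257) (.nd 60 tr38 (.nd 7 (.lf 1803) (.lf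 2215) (.nd 49 (.lf 2210) tr45 (.lf 2211) (.lf 1152) (.lf 2212) (.lf 2213)) (.lf 2214) (.lf 1802) (.lf 1801)) (.lf 2254) (.lf 2251) (.lf 2253) (.lf 2252)) (.lf 2258)))))

def tr47 : Tr := (.nd 57 (.lf 1354) (.lf 1471) (.nd 81 (.lf 1250) (.lf 1249) (.lf 1251) (.lf 1469) (.nd 142 (.lf 1173) (.lf 1466) (.nd 42 (.lf 1464) (.nd 18 (.lf 1193) (.lf 1463) (.nd 146 (.nd 85 (.lf 1204) (.lf 1454) (.lf 1453) (.nd 109 (.lf 1451) (.nd 120 (.lf 1217) (.lf 1450) (.nd 111 (.lf 1445) (.lf 1443) (.lf 1444) (.lf 1447) (.lf 1446) (.lf 1448)) (.lf 1449) (.lf 1216) (.lf 1215)) (.lf 1452) (.lf 1211) (.lf 1381) (.lf 1212)) (.lf 1456) (.lf 1455)) (.lf 1460) (.lf 1459) (.lf 1461) (.lf 1458) (.lf 1457)) (.lf 1462) (.lf 1192) (.lf 1191)) (.lf 1399) (.lf 1225) (.lf 1400) (.lf 1226)) (.lf 1465) (.lf 1172) (.lf 1467)) (.lf 1468)) (.lf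 1470) (.lf 1355) (.lf 1472))

def tr48 : Tr := (.nd 72 (.lf 1313) (.lf 1311) (.lf 1314) (.lf 1312) (.nd 85 (.lf 1204) (.lf 1292) (.lf 1291) (.nd 109 (.lf 1288) (.nd 29 (.nd 96 (.lf 1281) (.lf 1278) (.lf 1277) (.lf 1279) (.lf 1282) (.lf 1280)) (.lf 1283) (.lf 1284) (.lf 1286) (.lf 1285) (.lf 1287)) (.lf 1289) (.lf 1211) (.lf 1290) (.lf 1212)) (.lf 1294) (.lf 1293)) (.nd 16 (.lf 1266) (.nd 55 (.lf 1304) (.lf 1305) (.lf 1307) (.lf 1306) (.lf 1308) (.nd 85 (.lf 1204) (.lf 1292) (.lf 1303) (.nd 109 (.lf 1301) (.nd 96 (.lf 1281) (.nd 29 (.lf 1296) (.lf 1295) (.lf 1297) (.lf 1286) (.lf 1298) (.lf 1287)) (.lf 1299) (.lf 1300) (.lf 1282) (.lf 1280)) (.lf 1302) (.lf 1211) (.lf 1290) (.lf 1212)) (.lf 1203) (.lf 1293))) (.lf 1309) (.lf 1310) (.lf 398) (.lf 1265)))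

def tr49 : Tr := (.nd 50 (.lf 1178) (.nd 129 (.lf 1198) (.lf 1338) (.lf 1340) (.lf 1337) (.nd 29 (.lf 1335) (.nd 72 (.lf 1313) (.lf 1333) (.lf 1314) (.lf 1334) (.lf 1332) (.nd 142 (.lf 1173) (.lf 1329) (.nd 117 (.lf 1328) (.lf 1319) (.lf 1317) (.lf 1318) (.lf 1316) (.nd 55 (.lf 1327) (.lf 1305) (.lf 1307) (.lf 1306) (.lf 1308) (.nd 100 (.lf 1323) (.lf 1326) (.lf 1324) (.lf 1325) (.lf 1322) (.nd 85 (.lf 1204) (.lf 1292) (.lf 1320) (.lf 1321) (.lf 1294) (.lf 1293))))) (.lf 1330) (.lf 1172) (.lf 1331))) (.lf 1336) (.lf 1286) (.lf 1298) (.lf 1287)) (.lf 1339)) (.nd 117 (.lf 1315) (.lf 1319) (.lf 1317) (.lf 1318) (.lf 1316) tr48) (.lf 1341) (.lf 1177) (.lf 1342))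

def tr50 : Tr := (.nd 142 (.lf 1173) (.lf 1407) (.nd 127 (.lf 1401) (.lf 1405) (.nd 42 (.lf 1398) (.nd 35 (.lf 1220) (.lf 1397) (.lf 1221) (.lf 1395) (.nd 29 (.nd 109 (.lf 1379) (.nd 73 (.lf 1377) (.lf 1375) (.nd 129 (.lf 1198) (.lf 1371) (.lf 1373) (.lf 1370) (.lf 1369) (.lf 1372)) (.lf 1374) (.lf 1378) (.lf 1376)) (.lf 1380) (.lf 1211) (.lf 1381) (.lf 1212)) (.nd 50 (.lf 1178) (.lf 1388) (.nd 72 (.lf 1386) (.lf 1384) (.lf 1387) (.lf 1385) (.lf 1382) (.lf 1383)) (.lf 1389) (.lf 1177) (.lf 1390)) (.lf 1392) (.lf 1393) (.lf 1391) (.lf 1394)) (.lf 1396)) (.lf 1399) (.lf 1225) (.lf 1400) (.lf 1226)) (.lf 1402) (.lf 1403) (.lf 1404)) (.lf 1406) (.lf 1172) (.lf 1408))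

def tr51 : Tr := (.nd 65 (.lf 1442) (.lf 1439) (.nd 86 (.lf 1367) (.lf 1364) (.nd 111 (.lf 1361) (.lf 1359) (.nd 35 (.lf 1220) (.lf 1358) (.lf 1221) (.lf 1357) (.nd 57 (.lf 1354) (.lf 1351) (.nd 128 (.nd 42 (.lf 1343) tr49 (.lf 1344) (.lf 1225) (.lf 1345) (.lf 1226)) (.lf 1347) (.lf 1349) (.lf 1348) (.lf 1350) (.lf 1346)) (.lf 1352) (.lf 1355) (.lf 1353)) (.lf 1356)) (.lf 1362) (.lf 1360) (.lf 1363)) (.lf 1365) (.lf 1368) (.lf 1366)) (.nd 86 (.lf 1367) (.lf 1436) (.nd 43 (.lf 1435) (.lf 1432) (.nd 117 (.lf 1426) (.lf 1430) (.lf 1427) (.lf 1429) (.lf 1428) (.nd 55 (.lf 1421) (.lf 1422) (.lf 1424) (.lf 1423) (.lf 1425) (.nd 40 (.lf 1420) (.lf 1416) (.nd 111 (.lf 1413) (.lf 1411) (.nd 81 (.lf 1250) (.lf 1249) (.lf 1251) (.lf 1410) tr50 (.lf 1409)) (.lf 1415) (.lf 1412) (.lf 1414)) (.lf 1417) (.lf 1419) (.lf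 1418)))) (.lf 1431) (.lf 1434) (.lf 1433)) (.lf 1437) (.lf 1368) (.lf 1438)) (.lf 1441) (.lf 1440))

def tr52 : Tr := (.nd 111 (.lf 1645) (.nd 143 (.lf 1635) (.lf 1637) (.lf 1721) (.nd 128 (.nd 93 (.lf 1632) (.lf 1718) (.nd 18 (.lf 1193) (.lf 1463) (.nd 72 (.lf 1386) (.lf 1651) (.lf 1387) (.lf 1715) (.lf 1716) (.lf 1706)) (.lf 1717) (.lf 1192) (.lf 1191)) (.lf 1661) (.lf 1242) (.lf 1662)) (.lf 1560) (.lf 1562) (.lf 1561) (.lf 1563) (.lf 1719)) (.lf 1720) (.lf 1636)) (.nd 18 (.lf 1193) (.lf 1463) (.nd 143 (.lf 1635) (.lf 1637) (.lf 1721) (.nd 128 (.nd 109 (.lf 1451) (.nd 93 (.lf 1522) (.lf 1722) (.lf 1723) (.lf 1661) (.lf 1242) (.lf 1521)) (.lf 1724) (.lf 1211) (.lf 1535) (.lf 1212)) (.lf 1560) (.lf 1562) (.lf 1561) (.lf 1563) (.lf 1725)) (.lf 1720) (.lf 1636)) (.lf 1726) (.lf 1192) (.lf 1191)) (.lf 1415)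 (.lf 1646) (.lf 1414))

def tr53 : Tr := (.nd 105 (.nd 128 (.nd 34 (.lf 1712) (.lf 1710) (.lf 1713) (.lf 1711) (.lf 1709) (.nd 120 (.lf 1217) (.lf 1450) (.lf 1708) (.nd 72 (.lf 1386) (.lf 1707) (.lf 1387) (.lf 1705) (.nd 111 (.lf 1645) (.lf 1704) (.nd 73 (.lf 1511) (.lf 1703) (.lf 1702) (.lf 1701) (.lf 1510) (.lf 1376)) (.lf 1415) (.lf 1646) (.lf 1414)) (.lf 1706)) (.lf 1216) (.lf 1215))) (.lf 1560) (.lf 1562) (.lf 1561) (.lf 1563) (.lf 1714)) (.nd 146 (.nd 42 (.lf 1733) (.nd 35 (.lf 1220) (.lf 1732) (.lf 1221) (.lf 1730) (.nd 123 (.lf 1591) (.lf 1727) tr52 (.lf 1728) (.lf 1590) (.lf 1729)) (.lf 1731)) (.lf 1399) (.lf 1225) (.lf 1400) (.lf 1226)) (.lf 1460) (.lf 1459) (.lf 1461) (.lf 1458) (.lf 1734)) (.lf 1735) (.lf 1527) (.lf 1736) (.lf 1526))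

def tr54 : Tr := (.nd 128 (.nd 123 (.lf 1591) (.lf 1669) (.nd 99 (.lf 1666) (.lf 1665) (.lf 1667) (.lf 1664) (.nd 93 (.lf 1632) (.lf 1660) (.nd 81 (.lf 1250) (.lf 1249) (.lf 1251) (.lf 1659) (.nd 111 (.lf 1645) (.nd 66 (.lf 1656) (.lf 1653) (.nd 72 (.lf 1538) (.lf 1651) (.lf 1539) (.lf 1649) (.lf 1650) (.lf 1652)) (.lf 1654) (.lf 1655) (.lf 1578)) (.lf 1657) (.lf 1648) (.lf 1646) (.lf 1647)) (.lf 1658)) (.lf 1661) (.lf 1242) (.lf 1662)) (.lf 1663)) (.lf 1668) (.lf 1590) (.lf 1670)) (.lf 1560) (.lf 1562) (.lf 1561) (.lf 1563) (.nd 93 (.lf 1632) (.lf 1677) (.nd 66 (.lf 1656) (.lf 1674) (.nd 81 (.lf 1250) (.lf 1249) (.lf 1251) (.lf 1673) (.lf 1671) (.lf 1672)) (.lf 1675) (.lf 1655) (.lf 1676)) (.lf 1678) (.lf 1242) (.lf 1679)))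

def tr55 : Tr := (.nd 143 (.lf 1635) (.lf 1637) (.lf 1633) (.nd 93 (.lf 1632) (.lf 1629) (.nd 134 (.lf 1627) (.nd 128 (.nd 81 (.lf 1250) (.lf 1249) (.lf 1251) (.lf 1469) (.lf 1623) (.nd 91 (.lf 1596) (.lf 1621) (.lf 1622) (.lf 1620) (.lf 1595) (.lf 1594))) (.lf 1560) (.lf 1562) (.lf 1561) (.lf 1563) (.nd 91 (.lf 1596) (.nd 43 (.lf 1435) (.lf 1618) (.nd 42 (.lf 1615) (.nd 81 (.lf 1250) (.lf 1249) (.lf 1251) (.lf 1410) (.lf 1613) (.lf 1614)) (.lf 1550) (.lf 1225) (.lf 1616) (.lf 1226)) (.lf 1617) (.lf 1434) (.lf 1433)) (.lf 1619) (.lf 1620) (.lf 1595) (.lf 1594))) (.lf 1624) (.lf 1625) (.lf 1628) (.lf 1626)) (.lf 1630) (.lf 1242) (.lf 1631)) (.lf 1634) (.lf 1636))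

def tr56 : Tr := (.nd 82 (.nd 118 (.lf 1486) (.lf 1484) (.lf 1485) (.lf 1690) (.nd 16 (.lf 1266) (.lf 1689) (.nd 78 (.lf 1256) (.nd 154 (.lf 1640) (.lf 1642) (.lf 1687) (.nd 143 (.lf 1635) (.lf 1637) (.lf 1686) (.nd 110 (.lf 1682) (.lf 1680) tr54 (.lf 1683) (.lf 1681) (.lf 1684)) (.lf 1685) (.lf 1636)) (.lf 1639) (.lf 1641)) (.nd 111 (.lf 1645) (.nd 57 (.lf 1354) (.lf 1471) (.nd 154 (.lf 1640) (.lf 1642) (.lf 1638) tr55 (.lf 1639) (.lf 1641)) (.lf 1643) (.lf 1355) (.lf 1472)) (.lf 1644) (.lf 1648) (.lf 1646) (.lf 1647)) (.lf 1688) (.lf 1255) (.lf 1254)) (.lf 1529) (.lf 398) (.lf 1265)) (.lf 1483)) (.lf 1691) (.lf 1694) (.lf 1693) (.lf 1695) (.lf 1692))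

def tr57 : Tr := (.nd 117 (.lf 1754) (.lf 1572) (.lf 1427) (.lf 1571) (.lf 1570) (.nd 85 (.lf 1204) (.lf 1752) (.lf 1750) (.nd 142 (.lf 1173) (.lf 1749) (.nd 154 (.lf 1745) (.lf 1747) (.lf 1743) (.nd 96 (.lf 1700) (.lf 1742) (.nd 82 (.nd 118 (.lf 1486) (.lf 1484) (.lf 1485) (.lf 1740) (.nd 16 (.lf 1266) (.lf 1739) (.nd 43 (.lf 1435) (.lf 1738) tr53 (.lf 1737) (.lf 1434) (.lf 1433)) (.lf 1529) (.lf 398) (.lf 1265)) (.lf 1483)) (.lf 1741) (.lf 1694) (.lf 1693) (.lf 1695) (.lf 1692)) (.lf 1696) (.lf 1699) (.lf 1698)) (.lf 1744) (.lf 1746)) (.nd 96 (.lf 1700) (.lf 1697) tr56 (.lf 1696) (.lf 1699) (.lf 1698)) (.lf 1172) (.lf 1748)) (.lf 1753) (.lf 1751)))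

def tr58 : Tr := (.nd 105 (.nd 72 (.lf 1386) (.lf 1517) (.lf 1387) (.lf 1515) (.nd 111 (.lf 1514) (.lf 1512) (.nd 73 (.lf 1511) (.lf 1375) (.nd 129 (.lf 1198) (.lf 1501) (.lf 1503) (.nd 120 (.lf 1217) (.lf 1498) (.lf 1497) (.lf 1496) (.lf 1216) (.lf 1215)) (.nd 120 (.lf 1217) (.lf 1498) (.lf 1499) (.lf 1500) (.lf 1216) (.lf 1215)) (.lf 1502)) (.nd 19 (.lf 1505) (.lf 1508) (.lf 1506) (.lf 1509) (.lf 1507) (.lf 1504)) (.lf 1510) (.lf 1376)) (.lf 1415) (.lf 1513) (.lf 1414)) (.lf 1516)) (.nd 129 (.lf 1198) (.lf 1501) (.lf 1503) (.nd 93 (.lf 1522) (.lf 1518) (.lf 1519) (.lf 1520) (.lf 1242) (.lf 1521)) (.lf 1523) (.lf 1502)) (.lf 1524) (.lf 1527) (.lf 1525) (.lf 1526))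

def tr59 : Tr := (.nd 35 (.lf 1220) (.lf 1554) (.lf 1221) (.lf 1552) (.nd 42 (.lf 1549) (.nd 43 (.lf 1435) (.lf 1432) (.nd 29 (.nd 109 (.lf 1534) (.nd 142 (.lf 1173) (.lf 1531) (.nd 16 (.lf 1266) (.lf 1528) tr58 (.lf 1529) (.lf 398) (.lf 1265)) (.lf 1530) (.lf 1172) (.lf 1532)) (.lf 1533) (.lf 1211) (.lf 1535) (.lf 1212)) (.nd 105 (.nd 73 (.lf 1511) (.lf 1541) (.nd 72 (.lf 1538) (.lf 1517) (.lf 1539) (.lf 1515) (.lf 1536) (.lf 1537)) (.lf 1540) (.lf 1510) (.lf 1542)) (.lf 1543) (.lf 1524) (.lf 1527) (.lf 1525) (.lf 1526)) (.lf 1545) (.lf 1546) (.lf 1544) (.lf 1547)) (.lf 1548) (.lf 1434) (.lf 1433)) (.lf 1550) (.lf 1225) (.lf 1551) (.lf 1226)) (.lf 1553))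

def tr60 : Tr := (.nd 117 (.lf 1605) (.lf 1572) (.lf 1427) (.lf 1571) (.lf 1570) (.nd 128 (.nd 140 (.lf 1603) (.nd 57 (.lf 1354) (.lf 1598) (.nd 91 (.lf 1596) (.nd 123 (.lf 1591) (.lf 1588) (.nd 47 (.lf 1586) (.lf 1582) (.nd 29 (.nd 66 (.lf 1580) (.lf 1576) (.nd 78 (.lf 1256) (.lf 1573) (.lf 1574) (.lf 1575) (.lf 1255) (.lf 1254)) (.lf 1577) (.lf 1579) (.lf 1578)) (.lf 1581) (.lf 1545) (.lf 1546) (.lf 1544) (.lf 1547)) (.lf 1583) (.lf 1585) (.lf 1584)) (.lf 1587) (.lf 1590) (.lf 1589)) (.lf 1592) (.lf 1593) (.lf 1595) (.lf 1594)) (.lf 1597) (.lf 1355) (.lf 1472)) (.lf 1599) (.lf 1600) (.lf 1602) (.lf 1601)) (.lf 1560) (.lf 1562) (.lf 1561) (.lf 1563) (.lf 1604)))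

def tr61 : Tr := (.nd 52 (.lf 1473) (.lf 1475) (.lf 1474) (.nd 152 (.lf 1231) (.lf 1481) (.nd 40 (.lf 1420) (.lf 1757) (.nd 89 tr57 (.lf 1478) (.lf 1270) (.lf 1479) (.lf 1271) (.lf 1755)) (.lf 1756) (.lf 1419) (.lf 1612)) (.lf 1758) (.lf 1230) (.lf 1229)) (.nd 40 (.lf 1420) (.lf 1610) (.nd 89 (.nd 152 (.lf 1231) (.lf 1481) (.nd 18 (.lf 1193) (.lf 1607) (.nd 117 (.lf 1569) (.lf 1572) (.lf 1427) (.lf 1571) (.lf 1570) (.nd 55 (.lf 1564) (.lf 1565) (.lf 1567) (.lf 1566) (.lf 1568) (.nd 128 (.nd 127 (.lf 1556) (.lf 1558) tr59 (.lf 1555) (.lf 1557) (.lf 1404)) (.lf 1560) (.lf 1562) (.lf 1561) (.lf 1563) (.lf 1559)))) (.nd 55 (.lf 1606) (.lf 1565) (.lf 1567) (.lf 1566) (.lf 1568) tr60) (.lf 1192) (.lf 1191)) (.lf 1608) (.lf 1230) (.lf 1229)) (.lf 1478) (.lf 1270) (.lf 1479) (.lf 1271) (.lf 1609)) (.lf 1611)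 (.lf 1419) (.lf 1612)) (.lf 1476))

def tr62 : Tr := (.nd 88 (.lf 1769) (.lf 1770) (.nd 77 (.lf 1495) (.lf 1492) (.nd 25 (.lf 1490) (.lf 1488) (.nd 118 (.lf 1486) (.lf 1484) (.lf 1485) (.lf 1482) (.nd 152 (.lf 1231) (.lf 1481) (.nd 89 (.nd 52 (.lf 1473) (.lf 1475) (.lf 1474) tr47 tr51 (.lf 1476)) (.lf 1478) (.lf 1270) (.lf 1479) (.lf 1271) (.lf 1477)) (.lf 1480) (.lf 1230) (.lf 1229)) (.lf 1483)) (.lf 1487) (.lf 1491) (.lf 1489)) (.lf 1493) (.lf 1182) (.lf 1494)) (.nd 77 (.lf 1495) (.lf 1766) (.nd 107 (.lf 1764) (.lf 1763) (.lf 1765) (.lf 1761) (.nd 86 (.lf 1367) (.lf 1759) tr61 (.lf 1760) (.lf 1368) (.lf 1438)) (.lf 1762)) (.lf 1767) (.lf 1182) (.lf 1494)) (.lf 1768) (.lf 1771))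

def tr63 : Tr := (.nd 35 (.lf 1220) (.lf 1218) (.lf 1221) (.lf 1219) (.nd 120 (.lf 1217) (.lf 1214) (.nd 109 (.nd 142 (.lf 1173) (.lf 1205) (.nd 85 (.lf 1204) (.lf 1201) (.nd 129 (.lf 1198) (.lf 1197) (.lf 1199) (.lf 1196) (.lf 1194) (.lf 1195)) (.lf 1200) (.lf 1203) (.lf 1202)) (.lf 1206) (.lf 1172) (.lf 1207)) (.lf 1208) (.lf 1209) (.lf 1211) (.lf 1210) (.lf 1212)) (.lf 1213) (.lf 1216) (.lf 1215)) (.nd 18 (.lf 1193) (.lf 1190) (.nd 28 (.lf 1185) (.lf 1187) (.lf 1186) (.lf 1188) (.nd 77 (.lf 1183) (.lf 1180) (.nd 50 (.lf 1178) (.nd 142 (.lf 1173) (.lf 1169) (.nd 48 (.lf 1166) (.lf 1168) (.lf 1163) (.lf 1164) (.lf 1165) (.lf 1167)) (.lf 1170) (.lf 1172) (.lf 1171)) (.lf 1174) (.lf 1175) (.lf 1177) (.lf 1176)) (.lf 1179) (.lf 1182) (.lf 1181)) (.lf 1184)) (.lf 1189) (.lf 1192) (.lf 1191)))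

def tr64 : Tr := (.nd 16 (.lf 1266) (.nd 49 (.lf 1233) (.nd 152 (.lf 1231) (.lf 1228) (.nd 42 (.lf 1222) tr63 (.lf 1223) (.lf 1225) (.lf 1224) (.lf 1226)) (.lf 1227) (.lf 1230) (.lf 1229)) (.lf 1232) (.lf 1152) (.lf 1234) (.lf 1151)) (.nd 49 (.lf 1233) (.nd 28 (.lf 1261) (.lf 1187) (.lf 1262) (.lf 1188) (.nd 77 (.lf 1183) (.lf 1258) (.nd 78 (.lf 1256) (.nd 81 (.lf 1250) (.lf 1249) (.lf 1251) (.lf 1248) (.nd 142 (.lf 1173) (.lf 1245) (.nd 93 (.lf 1243) (.nd 35 (.lf 1220) (.lf 1218) (.lf 1221) (.lf 1238) (.nd 120 (.lf 1217) (.lf 1214) (.lf 1236) (.lf 1235) (.lf 1216) (.lf 1215)) (.lf 1237)) (.lf 1239) (.lf 1240) (.lf 1242) (.lf 1241)) (.lf 1244) (.lf 1172) (.lf 1246)) (.lf 1247)) (.lf 1252) (.lf 1253) (.lf 1255) (.lf 1254)) (.lf 1257) (.lf 1182) (.lf 1259)) (.lf 1260)) (.lf 1263) (.lf 1152) (.lf 1234) (.lf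 1151)) (.lf 1264) (.lf 398) (.lf 1265))

def tr65 : Tr := (.nd 26 (.lf 1810) (.nd 89 (.nd 7 (.lf 1803) (.lf 1799) (.nd 49 (.lf 1798) (.nd 52 (.lf 1794) (.lf 1475) (.lf 1795) (.lf 1793) (.nd 25 (.lf 1490) (.lf 1792) (.nd 21 (.lf 1790) (.nd 48 (.lf 1786) (.lf 1789) (.nd 18 (.lf 1193) (.lf 1782) (.lf 1781) (.lf 1783) (.lf 1192) (.lf 1784)) (.lf 1785) (.lf 1787) (.lf 1788)) (.lf 1778) (.lf 1779) (.lf 1777) (.lf 1780)) (.lf 1791) (.lf 1491) (.lf 1489)) (.lf 1476)) (.lf 1796) (.lf 1152) (.lf 1797) (.lf 1151)) (.lf 1800) (.lf 1802) (.lf 1801)) (.lf 1806) (.lf 1270) (.lf 1804) (.lf 1271) (.lf 1805)) (.nd 21 (.nd 49 (.lf 1775) (.nd 155 (.lf 1276) (.lf 1773) tr62 (.lf 1772) (.lf 1275) (.lf 1274)) (.lf 1774) (.lf 1152) (.lf 1776) (.lf 1151)) (.nd 155 (.lf 1276) (.lf 1273) (.nd 89 tr64 (.lf 1268) (.lf 1270) (.lf 1269)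 (.lf 1271) (.lf 1267)) (.lf 1272) (.lf 1275) (.lf 1274)) (.lf 1778) (.lf 1779) (.lf 1777) (.lf 1780)) (.lf 1807) (.lf 1809) (.lf 1808))

def tr66 : Tr := (.nd 9 (.lf 1856) (.lf 1859) (.nd 7 (.lf 1803) (.lf 1855) (.nd 49 (.lf 1851) (.nd 86 (.lf 1367) (.lf 1849) (.nd 39 (.lf 1846) (.lf 1845) (.lf 1847) (.lf 1843) (.nd 16 (.lf 1266) (.lf 1841) (.nd 105 (.lf 1836) (.nd 66 (.lf 1834) (.lf 1831) (.nd 43 (.lf 1435) (.lf 1829) (.lf 1827) (.lf 1828) (.lf 1434) (.lf 1830)) (.lf 1833) (.lf 1835) (.lf 1832)) (.lf 1838) (.lf 1840) (.lf 1837) (.lf 1839)) (.lf 1842) (.lf 398) (.lf 1265)) (.lf 1844)) (.lf 1848) (.lf 1368) (.lf 1850)) (.lf 1852) (.lf 1152) (.lf 1853) (.lf 1151)) (.lf 1854) (.lf 1802) (.lf 1801)) (.nd 2 (.lf 1826) (.nd 4 (.lf 1812) (.lf 370) (.lf 1813) (.lf 369) (.lf 1811) tr65) (.nd 7 (.lf 1803) (.lf 1821)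 (.nd 118 (.lf 1486) (.lf 1820) (.lf 1485) (.lf 1819) (.nd 18 (.lf 1193) (.lf 1816) (.lf 1814) (.lf 1815) (.lf 1192) (.lf 1817)) (.lf 1818)) (.lf 1822) (.lf 1802) (.lf 1801)) (.lf 1824) (.lf 1825) (.lf 1823)) (.lf 1857) (.lf 1858))

def tr67 : Tr := (.nd 46 (.nd 3 (.lf 1890) (.lf 1161) (.lf 1159) (.lf 1162) (.lf 1889) (.nd 11 (.lf 1887) (.lf 1157) (.lf 1155) (.lf 1156) (.lf 1888) (.nd 2 (.lf 1826) (.nd 48 (.lf 1880) (.lf 1789) (.nd 26 (.lf 1810) (.lf 1878) (.nd 16 (.lf 1266) (.lf 1876) (.lf 1875) (.lf 1877) (.lf 398) (.lf 1265)) (.lf 1879) (.lf 1809) (.lf 1808)) (.lf 1881) (.lf 1882) (.lf 1788)) (.lf 1883) (.lf 1884) (.lf 1886) (.lf 1885)))) (.lf 1893) (.lf 1892) (.lf 1894) (.lf 1891) (.nd 8 (.nd 9 (.lf 1871) (.lf 1859) (.lf 1870) (.nd 21 (.lf 1868) (.nd 25 (.lf 1490) (.lf 1866) (.lf 1864) (.lf 1865) (.lf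 1491) (.lf 1489)) (.lf 1867) (.lf 1779) (.lf 1869) (.lf 1780)) (.nd 49 (.lf 1862) (.lf 1863) (.lf 1860) (.lf 1152) (.lf 1861) (.lf 1151)) (.lf 1858)) (.lf 1873) (.nd 3 (.lf 1160) (.lf 1161) (.lf 1159) (.lf 1162) (.lf 1158) (.nd 11 (.lf 1153) (.lf 1157) (.lf 1155) (.lf 1156) (.lf 1154) (.nd 49 (.lf 1150) (.lf 1147) (.lf 1148) (.lf 1152) (.lf 1149) (.lf 1151)))) (.lf 1874) tr66 (.lf 1872)))

def tr68 : Tr := (.nd 48 (.lf 1931) (.lf 1789) (.nd 39 (.lf 1846) (.lf 1929) (.lf 1847) (.lf 1927) (.nd 26 (.lf 1810) (.lf 1926) (.nd 117 (.lf 1921) (.lf 1924) (.lf 1922) (.lf 1925) (.lf 1923) (.nd 29 (.nd 52 (.lf 1914) (.lf 1475) (.lf 1915) (.nd 47 (.lf 1912) (.lf 1908) (.nd 154 (.lf 1905) (.lf 1907) (.lf 1903) (.nd 128 (.nd 25 (.lf 1490) (.lf 1897) (.lf 1895) (.lf 1896) (.lf 1491) (.lf 1489)) (.lf 1899) (.lf 1901)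 (.lf 1900) (.lf 1902) (.lf 1898)) (.lf 1904) (.lf 1906)) (.lf 1909) (.lf 1911) (.lf 1910)) (.lf 1913) (.lf 1476)) (.lf 1916) (.lf 1918) (.lf 1919) (.lf 1917) (.lf 1920))) (.lf 1879) (.lf 1809) (.lf 1808)) (.lf 1928)) (.lf 1930) (.lf 1932) (.lf 1788))

def tr69 : Tr := (.nd 98 (.lf 2389) (.lf 2386) tr37 (.nd 145 (.lf 2271) tr46 (.nd 10 (.lf 1952) tr67 (.nd 3 (.lf 1949) (.lf 1161) (.lf 1159) (.lf 1162) (.nd 8 (.lf 1947) (.lf 1873) (.lf 1158) (.lf 1874) (.lf 1946) (.lf 1948)) (.nd 92 (.lf 1944) (.nd 11 (.lf 1939) (.lf 1157) (.lf 1155) (.lf 1156) (.lf 1940) (.nd 2 (.lf 1826) (.nd 49 (.lf 1934) tr68 (.lf 1933) (.lf 1152) (.lf 1935) (.lf 1151)) (.lf 1936) (.lf 1937) (.lf 1886) (.lf 1938))) (.lf 1941) (.lf 1943) (.lf 1945) (.lf 1942))) (.lf 1950) (.lf 356) (.lf 1951)) (.lf 2272) (.nd 3 (.lf 2267) (.lf 1161) (.lf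 2270) (.lf 1162) (.lf 2269) (.lf 2268)) (.lf 2273)) (.lf 2388) (.lf 2387))

def tr70 : Tr := (.nd 24 (.lf 2911) (.nd 113 (.nd 3 (.lf 2899) (.lf 1161) (.lf 2898) (.lf 1162) (.lf 2901) (.lf 2900)) (.lf 2907) (.nd 3 (.lf 2905) (.lf 1161) (.lf 2903) (.lf 1162) (.lf 2902) (.lf 2904)) (.lf 2906) (.nd 146 (.nd 3 (.lf 2893) (.lf 1161) (.lf 2894) (.lf 1162) (.lf 2892) (.nd 9 (.lf 2888) (.lf 1859) (.lf 2890) (.nd 49 (.lf 2886) (.lf 2884) (.nd 118 (.lf 2883) (.lf 2880) (.lf 2882) (.lf 2881) (.nd 33 (.lf 2401) (.lf 2877) (.lf 2875) (.lf 2876) (.lf 2400) (.lf 2878)) (.lf 2879)) (.lf 1152) (.lf 2885) (.lf 2887)) (.lf 2889) (.lf 2891))) (.lf 1978) (.lf 2895) (.lf 1977) (.lf 2896) (.lf 2897)) (.lf 2908)) (.nd 145 (.lf 2874) tr20 tr34 (.lf 2272) (.nd 3 (.lf 2873) (.lf 1161) (.lf 2270) (.lf 1162) (.lf 2269) (.lf 2268))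 (.lf 2273)) tr69 (.lf 2910) (.lf 2909))

def tr71 : Tr := (.nd 145 (.lf 3128) (.nd 20 (.lf 3179) (.nd 71 (.lf 3176) (.lf 2339) (.lf 3178) (.lf 3177) (.nd 3 (.lf 2265) (.lf 1161) (.lf 2266) (.lf 1162) (.lf 3175) (.lf 3174)) (.lf 2338)) (.lf 1964) (.lf 3180) (.lf 1963) (.lf 3181)) (.nd 3 (.lf 2972) (.lf 1161) (.lf 1159) (.lf 1162) (.lf 3173) (.nd 11 (.lf 3172) (.lf 1157) (.lf 1155) (.lf 1156) (.lf 3146) (.nd 49 (.lf 3144) (.nd 117 (.lf 3170) (.lf 3141) (.lf 3139) (.lf 1925) (.lf 3140) (.nd 7 (.lf 1803) (.lf 2957) (.lf 3169) (.lf 2956) (.lf 1802) (.lf 1801))) (.lf 3171) (.lf 1152) (.lf 3143) (.lf 1151)))) (.lf 2272) (.nd 3 (.lf 3127) (.lf 1161) (.lf 2270) (.lf 1162) (.lf 2269) (.lf 2268)) (.lf 2273))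

def tr72 : Tr := (.nd 152 (.lf 1231) (.lf 3035) (.nd 149 (.lf 3030) (.lf 3029) (.nd 131 (.lf 3025) (.lf 3027) (.lf 3026) (.lf 3024) (.nd 57 (.lf 1354) (.lf 2201) (.lf 3022) (.nd 135 (.lf 3020) (.lf 3019) (.lf 3021) (.lf 3017) (.nd 61 (.lf 3014) (.nd 74 (.lf 2999) (.nd 153 (.lf 3011) (.nd 130 (.lf 2983) (.lf 3008) (.nd 40 (.lf 1420) (.lf 2072) (.lf 3006) (.lf 3007) (.lf 1419) (.lf 1612)) (.lf 3009) (.lf 2984) (.lf 3010)) (.lf 2084) (.lf 2082) (.lf 2083) (.lf 2081)) (.lf 3012) (.lf 3013) (.lf 3000) (.lf 2997)) (.lf 2152) (.lf 3015) (.lf 2151) (.lf 3016)) (.lf 3018)) (.lf 1355) (.lf 3023)) (.lf 3028)) (.lf 3033) (.lf 3031) (.lf 3032)) (.lf 3034) (.lf 1230) (.lf 1229))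

def tr73 : Tr := (.nd 9 (.lf 2064) (.lf 1859) (.nd 134 (.lf 2994) (.lf 3036) tr72 (.lf 2079) (.lf 2993) (.lf 2992)) (.nd 40 (.lf 1420) (.lf 2072) (.nd 110 (.lf 3002) (.nd 74 (.lf 2999) (.nd 63 (.lf 2038) (.lf 2040) (.nd 134 (.lf 2994) (.lf 2991) (.nd 140 (.lf 1603) (.lf 2989) (.nd 93 (.lf 2988) (.lf 2987) (.nd 130 (.lf 2983) (.lf 2979) (.lf 2980) (.lf 2981) (.lf 2984) (.lf 2982)) (.nd 95 (.lf 2985) (.lf 2986) (.lf 2048) (.lf 2046) (.lf 2049) (.lf 2047)) (.lf 1242) (.lf 1679)) (.lf 2990) (.lf 1602) (.lf 1601)) (.lf 2079) (.lf 2993) (.lf 2992)) (.lf 2995) (.lf 2039) (.lf 2041)) (.lf 2996) (.lf 2998) (.lf 3000) (.lf 2997)) (.lf 3001) (.lf 1683) (.lf 3003) (.lf 3004)) (.lf 3005) (.lf 1419) (.lf 1612)) (.lf 1863) (.lf 2065))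

def tr74 : Tr := (.nd 2 (.lf 1826) (.nd 16 (.lf 1266) (.lf 3053) (.nd 24 (.lf 2911) (.lf 2897) (.lf 3052) (.nd 49 (.lf 3050) (.nd 52 (.lf 3049) (.lf 2017) (.lf 3048) (.nd 60 (.lf 3046) (.nd 77 (.lf 3045) (.lf 3042) (.nd 86 (.lf 1367) (.lf 2027) (.nd 111 (.lf 3039) (.nd 142 (.lf 1173) (.lf 3038) (.lf 3037) tr73 (.lf 1172) (.lf 1748)) (.lf 2927) (.lf 2123) (.lf 3040) (.lf 1647)) (.lf 3041) (.lf 1368) (.lf 1438)) (.lf 3043) (.lf 1182) (.lf 3044)) (.lf 2254) (.lf 2251) (.lf 2253) (.lf 2252)) (.lf 3047) (.lf 1476)) (.lf 2961) (.lf 1152) (.lf 3051) (.lf 2213)) (.lf 2910) (.lf 2909)) (.lf 1529) (.lf 398) (.lf 3054)) (.lf 3055) (.lf 3056) (.lf 1982) (.lf 3057))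

def tr75 : Tr := (.nd 121 (.lf 3093) (.lf 3091) (.nd 82 (.nd 47 (.lf 1912) (.lf 3086) (.nd 75 (.lf 3080) (.nd 89 (.nd 83 (.lf 3075) (.lf 2920) (.lf 3074) (.nd 41 (.lf 3070) (.lf 3068) (.nd 42 (.nd 66 (.lf 1834) (.lf 3061) (.nd 146 (.lf 3058) (.lf 1978) (.lf 3060) (.lf 1977) (.lf 3059) tr74) (.lf 3062) (.lf 1835) (.lf 3063)) (.lf 3064) (.lf 3066) (.lf 3067) (.lf 3065) (.lf 1226)) (.lf 3071) (.lf 3069) (.lf 3072)) (.lf 3073) (.lf 2919)) (.lf 3078) (.lf 3079) (.lf 3077) (.lf 1271) (.lf 3076)) (.lf 3084) (.lf 3082) (.lf 3083) (.lf 3081)) (.lf 3085) (.lf 1911) (.lf 3087)) (.lf 3089) (.lf 2114) (.lf 3090) (.lf 1695) (.lf 3088)) (.lf 3094) (.lf 3092) (.lf 3095))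

def tr76 : Tr := (.nd 3 (.lf 2265) (.lf 1161) (.lf 2266) (.lf 1162) (.nd 8 (.lf 2971) (.lf 1970) (.lf 2978) (.lf 2977) (.nd 94 (.lf 2974) (.lf 2975) (.lf 2360) (.lf 2976) (.lf 2359) (.lf 2973)) (.lf 1971)) (.nd 68 (.lf 3126) (.lf 3125) (.nd 26 (.lf 1810) (.lf 3123) (.nd 117 (.lf 3122) (.lf 2171) (.lf 3121) (.lf 2170) (.lf 3120) (.nd 113 (.lf 3118) (.lf 2907) (.lf 3119) (.lf 3117) (.nd 122 (.lf 3115) (.lf 3113) (.lf 3116) (.lf 3114) (.lf 3112) (.nd 39 (.lf 3111) (.lf 3110) (.lf 2951) (.lf 3108) (.nd 101 (.lf 3104) (.lf 3107) (.lf 3105) (.lf 3103) (.nd 88 (.lf 1769) (.lf 1770) (.lf 3101) (.nd 56 (.lf 3097) (.lf 3099) (.lf 3098) (.lf 3096) tr75 (.lf 3100)) (.lf 3102) (.lf 1771)) (.lf 3106)) (.lf 3109))) (.lf 2908))) (.lf 3124) (.lf 1809) (.lf 1808)) (.lf 2385) (.lf 2383) (.lf 2384)))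

def tr77 : Tr := (.nd 39 (.lf 1846) (.lf 2950) (.lf 2951) (.lf 2948) (.nd 86 (.lf 2947) (.lf 2945) (.nd 29 (.nd 82 (.nd 52 (.lf 2933) (.lf 1475) (.lf 2934) (.nd 111 (.lf 2928) (.nd 154 (.lf 2926) (.lf 1907) (.lf 2924) (.nd 140 (.lf 1603) (.lf 2921) (.nd 83 (.lf 2918) (.lf 2920) (.lf 2917) (.nd 96 (.lf 1700) (.lf 2914) (.lf 2912) (.lf 2913) (.lf 1699) (.lf 2915)) (.lf 2916) (.lf 2919)) (.lf 2922) (.lf 1602) (.lf 2923)) (.lf 2925) (.lf 1906)) (.lf 2927) (.lf 2930) (.lf 2929) (.lf 2931)) (.lf 2932) (.lf 2935)) (.lf 2936) (.lf 2939) (.lf 2938) (.lf 1695) (.lf 2937)) (.lf 2940) (.lf 2942) (.lf 2943) (.lf 2941) (.lf 1920)) (.lf 2944) (.lf 1368) (.lf 2946)) (.lf 2949))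

def tr78 : Tr := (.nd 145 (.lf 3128) tr76 (.nd 3 (.lf 2972) (.lf 1161) (.lf 1159) (.lf 1162) (.nd 8 (.lf 2971) (.lf 1873) (.lf 2970) (.lf 1874) (.lf 2969) (.lf 1971)) (.nd 2 (.lf 1826) (.nd 49 (.lf 2962) (.nd 48 (.lf 2959) (.lf 1789) (.nd 7 (.lf 1803) (.lf 2957) (.nd 21 tr77 (.lf 2952) (.lf 2954) (.lf 852) (.lf 2953) (.lf 2955)) (.lf 2956) (.lf 1802) (.lf 1801)) (.lf 2958) (.lf 2960) (.lf 1788)) (.lf 2961) (.lf 1152) (.lf 2963) (.lf 1151)) (.nd 11 (.lf 2964) (.lf 1157) (.lf 1155) (.lf 1156) (.lf 2966) (.lf 2965)) (.lf 2967) (.lf 1886) (.lf 2968))) (.lf 2272) (.nd 3 (.lf 3127) (.lf 1161) (.lf 2270) (.lf 1162) (.lf 2269) (.lf 2268)) (.lf 2273))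

def tr79 : Tr := (.nd 3 (.lf 2265) (.lf 1161) (.lf 2266) (.lf 1162) (.nd 8 (.lf 2971) (.lf 1970) (.lf 2978) (.lf 2977) (.nd 94 (.lf 2974) (.lf 2975) (.lf 2360) (.lf 2976) (.lf 2359) (.lf 2973)) (.lf 1971)) (.nd 113 (.lf 3166) (.lf 2907) (.lf 3119) (.lf 3165) (.nd 26 (.lf 1810) (.lf 3164) (.nd 122 (.lf 3115) (.lf 3163) (.lf 3116) (.lf 3114) (.lf 3162) (.nd 39 (.lf 3111) (.lf 3161) (.lf 2951) (.lf 3159) (.nd 121 (.lf 3093) (.lf 3157) (.nd 95 (.nd 118 (.lf 2883) (.lf 3151) (.lf 2882) (.nd 41 (.lf 3149) (.lf 3148) (.lf 3147) (.lf 3071) (.lf 3069) (.lf 3072)) (.lf 3150) (.lf 3152)) (.lf 3153) (.lf 3156) (.lf 3154) (.lf 2248) (.lf 3155)) (.lf 3094) (.lf 3158) (.lf 3095)) (.lf 3160))) (.lf 3124) (.lf 1809) (.lf 1808)) (.lf 2908)))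

def tr80 : Tr := (.nd 145 (.lf 3128) tr79 (.nd 3 (.lf 2972) (.lf 1161) (.lf 1159) (.lf 1162) (.nd 8 (.lf 2971) (.lf 1873) (.lf 2970) (.lf 1874) (.lf 2969) (.lf 1971)) (.nd 11 (.lf 3145) (.lf 1157) (.lf 1155) (.lf 1156) (.lf 3146) (.nd 49 (.lf 3144) (.nd 48 (.lf 2959) (.lf 1789) (.nd 117 (.lf 3138) (.lf 3141) (.lf 3139) (.lf 1925) (.lf 3140) (.nd 50 (.lf 3137) (.lf 3134) (.nd 111 (.lf 3132) (.lf 3129) (.lf 3130) (.lf 2930) (.lf 3131) (.lf 3133)) (.lf 3135) (.lf 1177) (.lf 3136))) (.lf 2958) (.lf 2960) (.lf 1788)) (.lf 3142) (.lf 1152) (.lf 3143) (.lf 1151)))) (.lf 2272) (.nd 3 (.lf 3127) (.lf 1161) (.lf 2270) (.lf 1162) (.lf 2269) (.lf 2268)) (.lf 2273))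

def tr81 : Tr := (.nd 145 (.lf 5279) (.nd 20 (.lf 5297) (.nd 113 (.lf 5295) (.lf 2907) (.lf 5296) (.lf 5294) (.nd 39 (.lf 2374) (.lf 5124) (.lf 5274) (.lf 5292) (.nd 26 (.lf 1810) (.lf 5259) (.lf 5291) (.lf 5260) (.lf 1809) (.lf 5168)) (.lf 5293)) (.lf 2908)) (.lf 3211) (.lf 5298) (.lf 3210) (.lf 5299)) (.nd 3 (.lf 5290) (.lf 1161) (.lf 5119) (.lf 1162) (.lf 5289) (.nd 11 (.lf 5288) (.lf 1157) (.lf 5201) (.lf 1156) (.lf 5200) (.nd 2 (.lf 5193) (.nd 7 (.lf 1803) (.lf 5170) (.nd 52 (.lf 5282) (.lf 4267) (.lf 5284) (.lf 5283) (.nd 21 (.lf 5281) (.nd 49 (.lf 5179) (.lf 5280) (.lf 5178) (.lf 1152) (.lf 2295) (.lf 1151)) (.lf 5182) (.lf 5183) (.lf 2330) (.lf 5184)) (.lf 5285)) (.lf 5286) (.lf 1802) (.lf 5171)) (.lf 5287) (.lf 5191) (.lf 1886) (.lf 5192)))) (.lf 2272) (.nd 3 (.lf 5131) (.lf 1161) (.lf 3235)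 (.lf 1162) (.lf 2269) (.lf 2268)) (.lf 2273))

def tr82 : Tr := (.nd 39 (.lf 5273) (.lf 5271) (.lf 5274) (.nd 26 (.lf 1810) (.lf 5269) (.nd 19 (.lf 5266) (.lf 5268) (.lf 5265) (.lf 5267) (.lf 5264) (.nd 10 (.lf 1952) (.lf 5261) (.lf 5262) (.lf 5263) (.lf 356) (.lf 1951))) (.lf 5270) (.lf 1809) (.lf 5168)) (.nd 26 (.lf 1810) (.lf 5259) (.nd 50 (.lf 3137) (.lf 5257) (.nd 101 (.lf 5253) (.lf 5255) (.lf 5254) (.lf 5252) (.nd 121 (.lf 5249) (.lf 5247) (.nd 82 (.nd 105 (.lf 5237) (.nd 61 (.lf 5232) (.nd 95 (.nd 10 (.lf 1952) (.lf 5224) (.lf 5225) (.lf 5226) (.lf 356) (.lf 1951)) (.lf 5227) (.lf 5231) (.lf 5228) (.lf 5230) (.lf 5229)) (.lf 5236) (.lf 5233) (.lf 5235) (.lf 5234)) (.lf 5238) (.lf 5241) (.lf 5239) (.lf 5240)) (.lf 5244) (.lf 5245) (.lf 5243) (.lf 5246) (.lf 5242)) (.lf 5251) (.lf 5248) (.lf 5250))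 (.lf 5256)) (.lf 5258) (.lf 1177) (.lf 5177)) (.lf 5260) (.lf 1809) (.lf 5168)) (.lf 5272))

def tr83 : Tr := (.nd 21 (.nd 7 (.lf 1803) (.lf 5170) (.nd 26 (.lf 1810) (.lf 5167) (.nd 77 (.lf 5166) (.lf 5163) (.nd 29 (.nd 16 (.lf 5158) (.lf 5156) (.nd 111 (.lf 5153) (.nd 66 (.lf 5150) (.lf 5146) (.lf 5145) (.lf 5147) (.lf 5149) (.lf 5148)) (.lf 5151) (.lf 5155) (.lf 5152) (.lf 5154)) (.lf 5157) (.lf 398) (.lf 3808)) (.lf 5159) (.lf 5161) (.lf 5162) (.lf 5160) (.lf 4653)) (.lf 5164) (.lf 1182) (.lf 5165)) (.lf 3186) (.lf 1809) (.lf 5168)) (.lf 5169) (.lf 1802) (.lf 5171)) (.nd 7 (.lf 1803) (.lf 5170) (.nd 49 (.lf 5179) (.nd 50 (.lf 3137) (.lf 5175) (.nd 66 (.lf 5150) (.lf 5173) (.lf 5172) (.lf 5174) (.lf 5149) (.lf 5148)) (.lf 5176) (.lf 1177) (.lf 5177)) (.lf 5178) (.lf 1152) (.lf 5180) (.lf 1151)) (.lf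 3189) (.lf 1802) (.lf 5171)) (.lf 5182) (.lf 5183) (.lf 5181) (.lf 5184))

def tr84 : Tr := (.nd 145 (.lf 5279) (.nd 3 (.lf 5277) (.lf 1161) (.lf 2266) (.lf 1162) (.nd 146 (.lf 5222) (.lf 1978) (.lf 5221) (.lf 5223) (.lf 5220) (.nd 8 (.lf 5218) (.lf 1970) (.lf 5216) (.lf 5217) (.nd 26 (.lf 1810) (.lf 5214) (.nd 20 (.lf 5211) (.lf 5210) (.lf 3211) (.lf 5213) (.lf 3210) (.lf 5212)) (.lf 5215) (.lf 1809) (.lf 5168)) (.lf 5219))) (.nd 11 (.lf 5276) (.lf 1157) (.lf 5201) (.lf 1156) (.lf 5275) tr82)) (.nd 113 (.nd 3 (.lf 5206) (.lf 1161) (.lf 5204) (.lf 1162) (.lf 5207) (.lf 5205)) (.lf 2907) (.lf 5209) (.lf 5208) (.nd 3 (.lf 5203) (.lf 1161) (.lf 5204) (.lf 1162) (.nd 7 (.lf 1803) (.lf 5093) (.lf 5202) (.lf 3201) (.lf 1802) (.lf 5171)) (.nd 11 (.nd 26 (.lf 1810) (.lf 5198) (.lf 5197) (.lf 5199) (.lf 1809) (.lf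 5168)) (.lf 1157) (.lf 5201) (.lf 1156) (.lf 5200) (.nd 4 (.lf 5195) (.lf 370) (.lf 5196) (.lf 369) (.lf 5194) (.nd 2 (.lf 5193) (.nd 122 (.lf 5188) (.lf 5186) (.lf 5189) (.lf 5187) (.lf 5185) tr83) (.lf 5190) (.lf 5191) (.lf 1886) (.lf 5192))))) (.lf 2908)) (.lf 2272) (.nd 3 (.lf 5278) (.lf 1161) (.lf 3235) (.lf 1162) (.lf 2269) (.lf 2268)) (.lf 2273))

def tr85 : Tr := (.nd 64 (.lf 4090) (.nd 41 (.lf 5427) (.lf 5425) (.nd 149 (.lf 4585) (.lf 5424) (.nd 131 (.lf 5044) (.lf 4387) (.lf 4385) (.lf 5423) (.nd 108 (.lf 5308) (.lf 5421) (.nd 61 (.lf 5419) (.lf 5420) (.lf 4130) (.lf 5233) (.lf 5235) (.lf 5234)) (.lf 5422) (.lf 5307) (.lf 5306)) (.lf 4388)) (.lf 3268) (.lf 3031) (.lf 3267)) (.lf 5428) (.lf 5426) (.lf 5429)) (.nd 119 (.lf 5418) (.nd 141 (.nd 25 (.lf 5411) (.lf 2320) (.nd 149 (.lf 4585) (.nd 108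 (.lf 5308) (.lf 5407) (.lf 5406) (.nd 51 (.lf 5400) (.lf 5405) (.lf 5404) (.lf 4559) (.lf 5399) (.lf 5398)) (.lf 5307) (.lf 5306)) (.nd 152 (.lf 5395) (.lf 5392) (.nd 131 (.lf 5044) (.lf 4387) (.lf 4385) (.lf 5401) (.lf 5402) (.lf 4388)) (.lf 5403) (.lf 5394) (.lf 5393)) (.lf 3268) (.lf 3031) (.lf 3267)) (.lf 5408) (.lf 5410) (.lf 5409)) (.lf 5412) (.lf 5413) (.lf 5416) (.lf 5414) (.lf 5415)) (.lf 5417) (.lf 4309) (.lf 4583) (.lf 4310)) (.lf 5430) (.lf 4091) (.lf 5431))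

def tr86 : Tr := (.nd 63 (.lf 2038) (.lf 2040) (.nd 152 (.lf 5395) (.lf 5392) (.nd 154 (.lf 5390) (.lf 1747) (.nd 106 (.lf 5388) (.lf 5384) (.nd 130 (.lf 2983) (.lf 5381) (.nd 74 (.lf 5380) (.lf 5376) (.nd 143 (.lf 5373) (.lf 5374) (.nd 64 (.lf 4090) (.nd 96 (.lf 5367) (.lf 5364) (.nd 9 (.lf 2064) (.lf 5362) (.lf 5360) (.lf 5361) (.lf 3706) (.lf 2065)) (.lf 5363) (.lf 5366) (.lf 5365)) (.lf 5368) (.lf 5369) (.lf 4091) (.lf 5370)) (.lf 5371) (.lf 5372) (.lf 5375)) (.lf 5377) (.lf 5379) (.lf 5378)) (.lf 5382) (.lf 2984) (.lf 5383)) (.lf 5385) (.lf 5387) (.lf 5386)) (.lf 5389) (.lf 4561) (.lf 4198)) (.lf 5391) (.lf 5394) (.lf 5393)) (.lf 5396) (.lf 2039) (.lf 2041))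

def tr87 : Tr := (.nd 15 (.lf 4831) (.nd 77 (.lf 3759) (.lf 5446) (.nd 105 (.lf 5237) (.nd 111 (.lf 5442) (.nd 155 (.lf 5441) (.lf 5438) (.nd 153 (.nd 130 (.lf 2983) (.lf 5434) (.nd 95 (.nd 140 (.lf 5316) (.lf 5432) tr85 (.lf 4588) (.lf 5315) (.lf 5314)) (.lf 5433) (.lf 2048) (.lf 2046) (.lf 2049) (.lf 2047)) (.lf 5435) (.lf 2984) (.lf 5436)) (.nd 51 (.lf 5400) tr86 (.lf 5397) (.lf 4559) (.lf 5399) (.lf 5398)) (.lf 4048) (.lf 2082) (.lf 4047) (.lf 2081)) (.lf 5437) (.lf 5440) (.lf 5439)) (.lf 5443) (.lf 2123) (.lf 5444) (.lf 5003)) (.lf 5445) (.lf 1527) (.lf 5239) (.lf 1526)) (.lf 5447) (.lf 1182) (.lf 2741)) (.lf 5448) (.lf 4160) (.lf 4159) (.lf 5449))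

def tr88 : Tr := (.nd 42 (.nd 47 (.lf 1586) (.lf 5494) (.nd 78 (.lf 5471) (.lf 5492) (.nd 133 (.nd 140 (.lf 5316) (.lf 5488) (.nd 82 (.nd 108 (.lf 5308) (.lf 5483) (.lf 5482) (.nd 51 (.lf 5400) (.lf 5479) (.lf 5480) (.lf 5481) (.lf 5399) (.lf 5398)) (.lf 5307) (.lf 5306)) (.lf 5451) (.lf 4355) (.lf 1999) (.lf 4356) (.nd 108 (.lf 5308) (.lf 5483) (.lf 5486) (.nd 31 (.lf 5485) (.lf 5484) (.lf 4143) (.lf 4250) (.lf 4142) (.lf 4364)) (.lf 5307) (.lf 5306))) (.lf 5487) (.lf 5315) (.lf 5314)) (.lf 5489) (.lf 4877) (.lf 5491) (.lf 4878) (.lf 5490)) (.lf 4546) (.lf 5470) (.lf 5469)) (.lf 5493) (.lf 5477) (.lf 5476)) (.lf 5495) (.lf 5473) (.lf 4260) (.lf 4257) (.lf 4259))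

def tr89 : Tr := (.nd 56 (.lf 5524) (.lf 4227) (.lf 5523) (.lf 5522) (.nd 107 (.lf 5462) (.lf 5461) (.lf 5463) (.lf 5521) (.nd 153 (.nd 130 (.lf 2983) (.lf 5515) (.nd 40 (.lf 1420) (.lf 5512) (.lf 5511) (.nd 61 (.nd 131 (.lf 5507) (.lf 4534) (.lf 5506) (.nd 83 (.lf 5504) (.lf 4528) (.lf 5502) (.nd 15 (.lf 4831) (.nd 18 (.lf 5500) (.lf 5497) (.lf 5496) tr88 (.lf 5499) (.lf 5498)) (.lf 5501) (.lf 4160) (.lf 4159) (.lf 5449)) (.lf 5503) (.lf 4976)) (.lf 5505) (.lf 4535)) (.lf 5508) (.lf 4130) (.lf 5510) (.lf 5235) (.lf 5509)) (.lf 1419) (.lf 5513)) (.lf 5514) (.lf 2984) (.lf 5516)) (.lf 5517) (.lf 4048) (.lf 5519) (.lf 4047) (.lf 5518)) (.lf 5520)) (.lf 3100))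

def tr90 : Tr := (.nd 89 (.nd 47 (.lf 5478) (.lf 5475) (.nd 42 (.nd 78 (.lf 5471) (.lf 5467) (.nd 83 (.lf 5466) (.lf 4528) (.lf 5464) (.nd 107 (.lf 5462) (.lf 5461) (.lf 5463) (.lf 5460) (.nd 110 (.lf 5456) (.nd 66 (.lf 5150) (.lf 5454) (.nd 82 tr87 (.lf 5451) (.lf 5245) (.lf 5452) (.lf 4867) (.lf 5450)) (.lf 5453) (.lf 5149) (.lf 5148)) (.lf 5455) (.lf 1683) (.lf 5457) (.lf 5458)) (.lf 5459)) (.lf 5465) (.lf 4976)) (.lf 5468) (.lf 5470) (.lf 5469)) (.lf 5472) (.lf 5473) (.lf 4260) (.lf 4257) (.lf 4259)) (.lf 5474) (.lf 5477) (.lf 5476)) (.lf 5536) (.lf 4608) (.lf 5535) (.lf 4607) (.nd 134 (.lf 5533) (.lf 5530) (.nd 147 (.lf 5525) tr89 (.lf 5529) (.lf 5527) (.lf 5528) (.lf 5526)) (.lf 5531) (.lf 5534) (.lf 5532)))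

def tr91 : Tr := (.nd 88 (.lf 5559) (.lf 5560) (.lf 5557) (.nd 146 (.lf 5555) (.lf 1978) (.lf 4544) (.lf 5223) (.lf 5556) (.nd 58 (.nd 2 (.lf 5193) (.nd 7 (.lf 1803) (.lf 5547) (.nd 8 (.lf 5218) (.lf 2259) (.lf 5545) (.lf 3813) (.nd 24 (.lf 2911) (.lf 4622) (.lf 5543) (.nd 46 (.lf 5542) (.lf 1893) (.lf 1892) (.lf 1894) (.lf 3794) (.nd 49 (.lf 5540) (.nd 117 (.lf 5538) (.lf 1572) (.lf 5539) (.lf 1571) (.lf 5537) tr90) (.lf 5341) (.lf 1152) (.lf 5078) (.lf 5541))) (.lf 2910) (.lf 5544)) (.lf 5219)) (.lf 5546) (.lf 1802) (.lf 5171)) (.lf 5345) (.lf 5548) (.lf 1982) (.lf 5549)) (.lf 5550) (.lf 5553) (.lf 5552) (.lf 5554) (.lf 5551))) (.lf 5558) (.lf 5561))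

def tr92 : Tr := (.nd 11 (.lf 5276) (.lf 1157) (.lf 5201) (.lf 1156) (.lf 5275) (.nd 26 (.lf 1810) (.lf 5586) (.nd 113 (.lf 5584) (.lf 2907) (.lf 5585) (.lf 5583) (.nd 52 (.lf 5580) (.lf 5582) (.lf 5581) (.nd 87 (.lf 5577) (.lf 5575) (.lf 5578) (.lf 5576) (.lf 5574) (.nd 122 (.lf 5188) (.lf 5572) (.lf 5189) (.lf 5573) (.lf 5571) (.nd 50 (.lf 3137) (.lf 5569) (.nd 39 (.lf 5273) (.lf 5568) (.lf 5274) (.lf 5566) (.nd 60 (.lf 5563) (.nd 101 (.lf 5253) (.lf 5255) (.lf 5254) (.lf 5562) tr91 (.lf 5256)) (.lf 2254) (.lf 5564) (.lf 2253) (.lf 5565)) (.lf 5567)) (.lf 5570) (.lf 1177) (.lf 5177)))) (.lf 5579) (.lf 5320)) (.lf 2908)) (.lf 5587) (.lf 1809) (.lf 5168)))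

def tr93 : Tr := (.nd 21 (.nd 39 (.lf 3703) (.lf 3702) (.lf 5274) (.lf 5330) (.nd 50 (.lf 3137) (.lf 5328) (.nd 29 (.nd 82 (.nd 52 (.lf 5319) (.lf 4267) (.lf 5318) (.nd 140 (.lf 5316) (.lf 5312) (.nd 111 (.lf 5310) (.nd 108 (.lf 5308) (.lf 5304) (.nd 146 (.lf 5301) (.lf 1978) (.lf 3060) (.lf 3820) (.lf 5303) (.lf 5302)) (.lf 5305) (.lf 5307) (.lf 5306)) (.lf 5309) (.lf 5004) (.lf 5311) (.lf 5003)) (.lf 5313) (.lf 5315) (.lf 5314)) (.lf 5317) (.lf 5320)) (.lf 5321) (.lf 5324) (.lf 5323) (.lf 4867) (.lf 5322)) (.lf 5325) (.lf 5327) (.lf 3693) (.lf 5326) (.lf 3694)) (.lf 5329) (.lf 1177) (.lf 5177)) (.lf 5331)) (.lf 5332) (.lf 5334) (.lf 852) (.lf 5333) (.lf 5184))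

def tr94 : Tr := (.nd 145 (.lf 5279) (.nd 21 (.nd 3 (.lf 5277) (.lf 1161) (.lf 2266) (.lf 1162) (.nd 8 (.lf 5359) (.lf 1970) (.lf 5358) (.lf 5357) (.nd 94 (.lf 5354) (.lf 5356) (.lf 2360) (.lf 5355) (.lf 2359) (.nd 7 (.lf 1803) (.lf 5353) (.lf 5351) (.lf 5352) (.lf 1802) (.lf 5171))) (.lf 5219)) tr92) (.lf 5589) (.lf 5590) (.lf 852) (.lf 5588) (.lf 5184)) (.nd 3 (.lf 5350) (.lf 1161) (.lf 5204) (.lf 1162) (.nd 8 (.lf 5348) (.lf 1970) (.lf 2970) (.lf 5349) (.lf 5347) (.lf 5219)) (.nd 2 (.lf 5193) (.nd 49 (.lf 5342) (.nd 48 (.lf 5337) (.lf 5340) (.nd 7 (.lf 1803) (.lf 5170) tr93 (.lf 5335) (.lf 1802) (.lf 5171)) (.lf 5336) (.lf 5338) (.lf 5339)) (.lf 5341) (.lf 1152) (.lf 5343) (.lf 1151)) (.nd 11 (.lf 5344) (.lf 1157) (.lf 5201) (.lf 1156) (.lf 5200) (.lf 5345)) (.lf 5346) (.lf 1886) (.lf 5192))) (.lf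 2272) (.nd 3 (.lf 3127) (.lf 1161) (.lf 3235) (.lf 1162) (.lf 2269) (.lf 2268)) (.lf 2273))

def tr95 : Tr := (.nd 102 (.lf 3313) tr94 (.nd 145 (.lf 5279) (.nd 20 (.lf 5603) (.nd 39 (.lf 5273) (.lf 5600) (.lf 5274) (.nd 52 (.lf 5597) (.lf 5582) (.lf 5595) (.lf 5596) (.lf 5598) (.lf 5320)) (.lf 5599) (.lf 5601)) (.lf 3211) (.lf 5602) (.lf 3210) (.lf 5604)) (.nd 3 (.lf 5350) (.lf 1161) (.lf 5204) (.lf 1162) (.lf 5594) (.nd 11 (.lf 5593) (.lf 1157) (.lf 5201) (.lf 1156) (.lf 5200) (.nd 21 (.lf 5592) (.nd 2 (.lf 5193) (.lf 5591) (.lf 5345) (.lf 5191) (.lf 305) (.lf 5192)) (.lf 5182) (.lf 852) (.lf 5181) (.lf 5184)))) (.lf 2272) (.nd 3 (.lf 3127) (.lf 1161) (.lf 3235) (.lf 1162) (.lf 2269) (.lf 2268)) (.lf 2273)) (.lf 5605) (.lf 3314) (.lf 3312))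

def tr96 : Tr := (.nd 70 (.lf 278) (.nd 98 (.lf 2389) (.lf 5300) tr81 tr84 (.lf 2388) (.lf 2387)) (.nd 98 (.lf 2389) (.lf 3182) (.nd 145 (.lf 5279) (.nd 20 (.lf 3179) (.nd 71 (.lf 3176) (.lf 5612) (.lf 3178) (.lf 3177) (.lf 5611) (.lf 5613)) (.lf 3211) (.lf 3180) (.lf 3210) (.lf 3181)) (.nd 3 (.lf 5290) (.lf 1161) (.lf 5119) (.lf 1162) (.lf 3173) (.nd 11 (.lf 3172) (.lf 1157) (.lf 5201) (.lf 1156) (.lf 5200) (.nd 49 (.lf 5610) (.nd 117 (.lf 3170) (.lf 3141) (.lf 5607) (.lf 3739) (.lf 5608) (.lf 5606)) (.lf 3171) (.lf 1152) (.lf 5609) (.lf 1151)))) (.lf 2272) (.nd 3 (.lf 3127) (.lf 1161) (.lf 3235) (.lf 1162) (.lf 2269) (.lf 2268)) (.lf 2273)) tr95 (.lf 2388) (.lf 2387)) (.lf 854) (.lf 336) (.lf 3184))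

def tr97 : Tr := (.nd 145 (.lf 3236) (.nd 20 (.lf 5129) (.nd 113 (.lf 5127) (.lf 2907) (.lf 5128) (.lf 5126) (.nd 39 (.lf 2374) (.lf 5124) (.lf 3219) (.lf 5123) (.nd 7 (.lf 1803) (.lf 5122) (.lf 5120) (.lf 5121) (.lf 1802) (.lf 5106)) (.lf 5125)) (.lf 2908)) (.lf 3211) (.lf 5130) (.lf 3210) (.lf 3209)) (.nd 3 (.lf 5118) (.lf 1161) (.lf 5119) (.lf 1162) (.lf 5117) (.nd 11 (.lf 5115) (.lf 1157) (.lf 5116) (.lf 1156) (.lf 3200) (.nd 49 (.lf 5114) (.nd 21 (.nd 26 (.lf 1810) (.lf 5107) (.lf 5108) (.lf 3186) (.lf 1809) (.lf 3188)) (.lf 5109) (.lf 5111) (.lf 3192) (.lf 5110) (.lf 3193)) (.lf 5113) (.lf 1152) (.lf 5112) (.lf 1151)))) (.lf 2272) (.nd 3 (.lf 5131) (.lf 1161) (.lf 3235) (.lf 1162) (.lf 2269) (.lf 2268)) (.lf 2273))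

def tr98 : Tr := (.nd 113 (.lf 4835) (.lf 2907) (.lf 5074) (.lf 5073) (.nd 52 (.lf 5070) (.lf 4267) (.lf 5072) (.nd 122 (.lf 4889) (.lf 5068) (.lf 4888) (.lf 5069) (.lf 5067) (.nd 39 (.lf 3218) (.lf 5066) (.lf 3219) (.lf 5064) (.nd 50 (.lf 3137) (.lf 5062) (.nd 154 (.lf 5061) (.lf 4903) (.nd 77 (.lf 5058) (.lf 5055) (.nd 82 (.nd 47 (.lf 5049) (.lf 5047) (.nd 131 (.lf 5044) (.lf 2198) (.lf 5045) (.lf 5043) (.lf 5042) (.lf 2199)) (.lf 5046) (.lf 5050) (.lf 5048)) (.lf 5053) (.lf 5054) (.lf 5052) (.lf 4867) (.lf 5051)) (.lf 5057) (.lf 1182) (.lf 5056)) (.lf 5059) (.lf 5060) (.lf 4904)) (.lf 5063) (.lf 1177) (.lf 5016)) (.lf 5065))) (.lf 5071) (.lf 3282)) (.lf 2908))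

def tr99 : Tr := (.nd 2 (.lf 3197) (.nd 49 (.lf 5025) (.nd 48 (.lf 5021) (.lf 4658) (.nd 39 (.lf 3703) (.lf 5019) (.lf 3219) (.lf 5017) (.nd 50 (.lf 3137) (.nd 29 (.nd 9 (.lf 4897) (.lf 3233) (.lf 5010) (.lf 5009) (.lf 3770) (.lf 1858)) (.lf 5011) (.lf 5013) (.lf 5014) (.lf 5012) (.lf 4653)) (.nd 117 (.lf 5005) (.lf 3141) (.lf 5006) (.lf 5008) (.lf 5007) (.nd 111 (.lf 5002) (.nd 9 (.lf 4897) (.lf 3233) (.lf 4999) (.lf 4998) (.lf 3770) (.lf 1858)) (.lf 5000) (.lf 5004) (.lf 5001) (.lf 5003))) (.lf 5015) (.lf 1177) (.lf 5016)) (.lf 5018)) (.lf 5020) (.lf 5022) (.lf 4657)) (.lf 5023) (.lf 1152) (.lf 5024) (.lf 1151)) (.nd 11 (.lf 5026) (.lf 1157) (.lf 5028) (.lf 1156) (.lf 3200) (.lf 5027)) (.lf 5029) (.lf 1886) (.lf 5030))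

def tr100 : Tr := (.nd 145 (.lf 3236) (.nd 3 (.lf 3220) (.lf 1161) (.lf 2266) (.lf 1162) (.nd 8 (.lf 5041) (.lf 1970) (.lf 5039) (.lf 5040) (.nd 94 (.lf 5036) (.lf 5038) (.lf 2360) (.lf 5037) (.lf 2359) (.nd 11 (.lf 3777) (.lf 1157) (.lf 3290) (.lf 1156) (.lf 5035) (.lf 5034))) (.lf 3816)) (.nd 68 (.lf 5082) (.lf 5080) (.nd 49 (.lf 5077) (.nd 26 (.lf 1810) (.lf 5075) tr98 (.lf 5076) (.lf 1809) (.lf 3188)) (.lf 5079) (.lf 1152) (.lf 5078) (.lf 4155)) (.lf 2385) (.lf 5081) (.lf 2384))) (.nd 3 (.lf 5033) (.lf 1161) (.lf 3779) (.lf 1162) (.nd 11 (.lf 3777) (.lf 1157) (.lf 5032) (.lf 1156) (.lf 3776) (.lf 5031)) tr99) (.lf 2272) (.nd 3 (.lf 5083) (.lf 1161) (.lf 3235) (.lf 1162) (.lf 2269) (.lf 2268)) (.lf 2273))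

def tr101 : Tr := (.nd 60 (.nd 16 (.lf 3809) (.lf 3806) (.nd 19 (.lf 3804) (.lf 2241) (.lf 3802) (.lf 3805) (.nd 26 (.lf 1810) (.lf 3801) (.nd 94 (.nd 137 (.lf 3787) (.lf 3788) (.nd 67 (.lf 3356) (.lf 3785) (.nd 71 (.lf 3530) (.lf 3783) (.lf 3781) (.lf 3780) (.lf 3782) (.lf 3784)) (.lf 3786) (.lf 3355) (.lf 3762)) (.lf 3791) (.lf 3789) (.lf 3790)) (.lf 3798) (.lf 2360) (.lf 3799) (.lf 2359) (.nd 76 (.lf 3722) (.lf 3795) (.lf 3796) (.nd 46 (.lf 3792) (.lf 1893) (.lf 1892) (.lf 1894) (.lf 3794) (.lf 3793)) (.lf 3721) (.lf 3797))) (.lf 3800) (.lf 1809) (.lf 3188)) (.lf 3803)) (.lf 3807) (.lf 398) (.lf 3808)) (.lf 3810) (.lf 2254) (.lf 3812) (.lf 2253) (.lf 3811))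

def tr102 : Tr := (.nd 51 (.lf 3689) (.lf 4101) (.nd 46 (.lf 4099) (.lf 1893) (.lf 1892) (.lf 1894) (.lf 3659) (.nd 82 (.lf 4096) (.lf 4097) (.lf 3496) (.lf 4098) (.lf 3497) (.nd 139 (.lf 3421) (.lf 4095) (.nd 122 (.lf 3941) (.lf 3619) (.lf 4094) (.lf 3859) (.nd 67 (.lf 3356) (.lf 4092) (.lf 4093) (.lf 3875) (.lf 3355) (.lf 3679)) (.nd 64 (.lf 4090) (.lf 4089) (.lf 4087) (.nd 137 (.lf 4085) (.lf 4084) (.nd 144 (.lf 4083) (.nd 67 (.lf 3356) (.lf 4082) (.lf 4081) (.lf 3490) (.lf 3355) (.lf 3679)) (.lf 3873) (.lf 3871) (.lf 3872) (.lf 3918)) (.lf 3791) (.lf 4086) (.lf 3790)) (.lf 4091) (.lf 4088))) (.lf 4000) (.lf 3420) (.lf 4001)))) (.lf 4100) (.lf 3688) (.lf 4077))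

def tr103 : Tr := (.nd 126 (.lf 3674) (.nd 148 (.lf 3847) (.lf 4079) (.nd 51 (.lf 3689) (.lf 4075) (.nd 121 (.lf 4071) (.nd 106 (.lf 4069) (.lf 4067) (.lf 4066) (.nd 87 (.lf 4065) (.lf 4063) (.lf 4064) (.lf 4062) (.lf 4061) (.nd 97 (.lf 3712) (.lf 4059) (.lf 4058) (.nd 58 (.nd 76 (.lf 3722) (.lf 4050) (.lf 4049) (.lf 4051) (.lf 3721) (.lf 4052)) (.lf 4054) (.lf 4057) (.lf 4055) (.lf 4056) (.lf 4053)) (.lf 3711) (.lf 4060))) (.lf 4070) (.lf 4068)) (.lf 4072) (.lf 3094) (.lf 4073) (.lf 4074)) (.lf 4076) (.lf 3688) (.lf 4077)) (.lf 4078) (.lf 3848) (.lf 4080)) (.nd 69 (.lf 4121) (.lf 4118) (.nd 87 (.lf 4065) (.lf 4116) (.lf 4064) (.lf 4117) (.lf 4115) (.nd 132 (.lf 4112) (.nd 56 (.lf 4110) (.lf 4111) (.lf 4108) (.nd 105 (.lf 4106) (.lf 4105) (.nd 121 (.lf 4102) tr102 (.lf 4103) (.lf 3094) (.lf 4104) (.lf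 4074)) (.lf 1527) (.lf 4107) (.lf 1526)) (.lf 4109) (.lf 3100)) (.lf 4113) (.lf 3843) (.lf 4114) (.lf 3842))) (.lf 4119) (.lf 4122) (.lf 4120)) (.lf 3668) (.lf 3675) (.lf 3673))

def tr104 : Tr := (.nd 49 (.lf 4153) (.nd 9 (.lf 4152) (.lf 3233) (.nd 19 (.lf 4150) (.lf 4035) (.lf 4034) (.lf 3805) (.nd 97 (.lf 3712) (.lf 4147) (.lf 4148) (.nd 132 (.lf 4144) (.nd 31 (.lf 4139) (.lf 4140) (.lf 4143) (.lf 4141) (.lf 4142) (.lf 4138)) (.lf 4145) (.lf 3843) (.lf 4146) (.lf 3842)) (.lf 3711) (.lf 4149)) (.nd 78 (.lf 3699) (.lf 4137) (.nd 25 (.lf 4134) (.lf 4132) (.lf 4131) (.nd 61 (.nd 88 (.lf 4125) (.lf 3997) (.lf 4124) tr103 (.lf 4123) (.lf 3998)) (.lf 4126) (.lf 4130) (.lf 4128) (.lf 4129) (.lf 4127)) (.lf 4135) (.lf 4133)) (.lf 4136) (.lf 3698) (.lf 3697))) (.lf 4151) (.lf 3231) (.lf 3232)) (.lf 3748) (.lf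 1152) (.lf 4154) (.lf 4155))

def tr105 : Tr := (.nd 126 (.lf 3674) (.lf 4029) (.nd 88 (.lf 3996) (.lf 3997) (.lf 4028) (.nd 52 (.lf 4025) (.lf 4026) (.lf 4023) (.nd 95 (.nd 76 (.lf 3722) (.lf 4016) (.lf 4015) (.nd 117 (.lf 4013) (.lf 1572) (.lf 4014) (.lf 1571) (.lf 4012) (.nd 37 (.lf 3321) (.lf 4009) (.nd 148 (.lf 3847) (.lf 4007) (.nd 113 (.lf 4005) (.lf 2907) (.lf 3469) (.lf 4004) (.nd 46 (.lf 4002) (.lf 1893) (.lf 1892) (.lf 1894) (.lf 3659) (.lf 4003)) (.lf 2908)) (.lf 4006) (.lf 3848) (.lf 4008)) (.lf 4010) (.lf 3320) (.lf 4011))) (.lf 3721) (.lf 4017)) (.lf 4019) (.lf 4022) (.lf 4020) (.lf 4021) (.lf 4018)) (.lf 4024) (.lf 3282)) (.lf 4027) (.lf 3998)) (.lf 3668) (.lf 3675) (.lf 3673))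

def tr106 : Tr := (.nd 87 (.lf 3452) (.lf 3866) (.lf 3453) (.lf 3867) (.nd 37 (.lf 3321) (.lf 3849) (.nd 148 (.lf 3847) (.lf 3845) (.nd 132 (.lf 3840) (.nd 56 (.lf 3836) (.lf 3838) (.nd 32 (.lf 3834) (.lf 3831) (.nd 121 (.lf 3827) (.nd 69 (.lf 3825) (.lf 3822) (.lf 3821) (.lf 3823) (.lf 3826) (.lf 3824)) (.lf 3828) (.lf 3094) (.lf 3829) (.lf 3830)) (.lf 3832) (.lf 615) (.lf 3833)) (.lf 3835) (.lf 3837) (.lf 3100)) (.lf 3839) (.lf 3843) (.lf 3841) (.lf 3842)) (.lf 3844) (.lf 3848) (.lf 3846)) (.lf 3850) (.lf 3320) (.lf 3851)) (.nd 132 (.lf 3864) (.nd 37 (.lf 3321) (.lf 3862) (.nd 122 (.lf 3861) (.lf 3619) (.lf 3860) (.lf 3859) (.nd 112 (.lf 3857) (.lf 3854) (.lf 3852) (.lf 3853) (.lf 3856) (.lf 3855)) (.lf 3858)) (.lf 3850) (.lf 3320) (.lf 3851)) (.lf 3863) (.lf 3843) (.lf 3865) (.lf 3842)))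

def tr107 : Tr := (.nd 31 (.nd 136 (.lf 3309) (.lf 3888) (.lf 3308) (.nd 67 (.lf 3356) (.lf 3874) (.nd 144 (.nd 126 (.lf 3674) (.lf 3868) tr106 (.lf 3668) (.lf 3675) (.lf 3673)) (.lf 3869) (.lf 3873) (.lf 3871) (.lf 3872) (.lf 3870)) (.lf 3875) (.lf 3355) (.lf 3762)) (.nd 67 (.lf 3356) (.lf 3887) (.nd 132 (.lf 3886) (.nd 144 (.nd 79 (.lf 3883) (.nd 122 (.lf 3861) (.lf 3878) (.lf 3860) (.lf 3859) (.lf 3876) (.lf 3877)) (.lf 3879) (.lf 3880) (.lf 3882) (.lf 3881)) (.lf 3884) (.lf 3873) (.lf 3871) (.lf 3872) (.lf 3870)) (.lf 3885) (.lf 3843) (.lf 3865) (.lf 3842)) (.lf 3875) (.lf 3355) (.lf 3762)) (.lf 3889)) (.lf 3891) (.lf 3893) (.lf 3892) (.lf 3894) (.lf 3890))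

def tr108 : Tr := (.nd 122 (.lf 3941) (.lf 3619) (.lf 3940) (.lf 3859) (.nd 67 (.lf 3356) (.lf 3939) (.nd 134 (.lf 3909) (.lf 3906) (.lf 3938) (.nd 112 (.lf 3857) (.lf 3935) (.nd 91 (.lf 3732) (.lf 3933) (.lf 3932) (.nd 58 (.lf 3930) (.lf 3931) (.lf 3913) (.lf 3912) (.lf 3914) (.nd 37 (.lf 3321) (.lf 3929) (.nd 136 (.lf 3309) (.lf 3888) (.lf 3308) (.lf 3927) (.lf 3928) (.lf 3889)) (.lf 3850) (.lf 3320) (.lf 3851))) (.lf 3731) (.lf 3934)) (.lf 3936) (.lf 3856) (.lf 3937)) (.lf 3908) (.lf 3907)) (.lf 3875) (.lf 3355) (.lf 3679)) (.nd 90 (.nd 67 (.lf 3356) (.lf 3921) (.nd 76 (.lf 3722) (.lf 3919) (.nd 58 (.nd 134 (.lf 3909) (.lf 3906) (.nd 144 (.lf 3904) (.lf 3905) (.lf 3873) (.lf 3871) (.lf 3872) (.lf 3903)) (.nd 144 (.lf 3901) (.lf 3902) (.lf 3873) (.lf 3871) (.lf 3872) (.lf 3903)) (.lf 3908) (.lf 3907))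 (.lf 3911) (.lf 3913) (.lf 3912) (.lf 3914) (.lf 3910)) (.nd 144 (.nd 37 (.lf 3321) (.lf 3916) (.lf 3915) (.lf 3483) (.lf 3320) (.lf 3851)) (.lf 3917) (.lf 3873) (.lf 3871) (.lf 3872) (.lf 3918)) (.lf 3721) (.lf 3920)) (.lf 3490) (.lf 3355) (.lf 3679)) (.lf 3923) (.lf 3925) (.lf 3924) (.lf 3926) (.lf 3922)))

def tr109 : Tr := (.nd 31 (.nd 87 (.lf 3966) (.lf 3963) (.lf 3965) (.lf 3964) (.nd 67 (.lf 3356) (.lf 3962) (.nd 112 (.lf 3857) (.lf 3959) (.nd 69 (.lf 3957) (.lf 3954) (.nd 37 (.lf 3321) (.lf 3953) (.lf 3952) (.lf 3850) (.lf 3320) (.lf 3851)) (.lf 3955) (.lf 3958) (.lf 3956)) (.lf 3960) (.lf 3856) (.lf 3961)) (.lf 3875) (.lf 3355) (.lf 3762)) (.nd 126 (.lf 3674) (.lf 3951) (.nd 132 (.lf 3949) (.nd 121 (.lf 3945) (.nd 51 (.lf 3689) (.lf 3943) tr108 (.lf 3942) (.lf 3688) (.lf 3944)) (.lf 3946) (.lf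 3094) (.lf 3947) (.lf 3830)) (.lf 3948) (.lf 3843) (.lf 3950) (.lf 3842)) (.lf 3668) (.lf 3675) (.lf 3673))) (.lf 3967) (.lf 3893) (.lf 3892) (.lf 3894) (.lf 3968))

def tr110 : Tr := (.nd 88 (.lf 3996) (.lf 3997) (.lf 3995) (.nd 30 (.lf 3426) (.lf 3991) (.nd 78 (.lf 3699) (.lf 3990) (.nd 61 (.nd 95 (.nd 82 (.lf 3974) (.lf 3976) (.lf 3978) (.lf 3975) (.lf 3977) (.nd 147 (.nd 46 (.nd 71 (.lf 3900) (.lf 3783) (.lf 3899) (.nd 50 (.lf 1178) (.lf 3896) tr107 (.lf 3895) (.lf 1177) (.lf 3897)) (.lf 3898) (.lf 3784)) (.lf 1893) (.lf 1892) (.lf 1894) (.lf 3794) tr109) (.lf 3970) (.lf 3973) (.lf 3971) (.lf 3972) (.lf 3969))) (.lf 3980) (.lf 3983) (.lf 3981) (.lf 3982) (.lf 3979)) (.lf 3985) (.lf 3988) (.lf 3986) (.lf 3987) (.lf 3984)) (.lf 3989) (.lf 3698) (.lf 3697)) (.lf 3992) (.lf 3425) (.lf 3993)) (.lf 3994)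 (.lf 3998))

def tr111 : Tr := (.nd 24 (.lf 2911) (.lf 4163) (.lf 4162) (.nd 15 (.lf 4158) (.nd 84 (.nd 44 (.lf 4043) (.lf 4041) (.lf 4156) tr104 (.lf 4042) (.lf 4040)) (.lf 4157) (.lf 3304) (.lf 4038) (.lf 3303) (.lf 4037)) (.nd 153 (.nd 44 (.lf 4043) (.lf 4041) (.lf 4039) (.nd 84 (.nd 19 (.lf 4033) (.lf 4035) (.lf 4034) (.lf 3805) (.nd 30 (.lf 3426) (.lf 4030) tr105 (.lf 4031) (.lf 3425) (.lf 4032)) (.nd 139 (.lf 3421) (.lf 3999) tr110 (.lf 4000) (.lf 3420) (.lf 4001))) (.lf 4036) (.lf 3304) (.lf 4038) (.lf 3303) (.lf 4037)) (.lf 4042) (.lf 4040)) (.lf 4044) (.lf 4048) (.lf 4046) (.lf 4047) (.lf 4045)) (.lf 4160) (.lf 4159) (.lf 4161)) (.lf 2910) (.lf 4164))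

def tr112 : Tr := (.nd 140 (.lf 4539) (.lf 4589) (.nd 19 (.lf 4587) (.lf 4035) (.lf 4255) (.lf 1509) (.lf 4542) (.nd 149 (.lf 4585) (.nd 139 (.lf 3421) (.nd 74 (.lf 4395) (.lf 4576) (.nd 51 (.lf 3689) (.lf 4574) (.nd 25 (.lf 4134) (.lf 2320) (.lf 4573) (.lf 4572) (.lf 4135) (.lf 4133)) (.lf 4559) (.lf 3688) (.lf 4077)) (.lf 4575) (.lf 4396) (.lf 4577)) (.lf 4578) (.lf 4000) (.lf 3420) (.lf 4001)) (.nd 139 (.lf 3421) (.nd 119 (.lf 4582) (.nd 51 (.lf 3689) (.lf 4580) (.lf 4579) (.lf 4559) (.lf 3688) (.lf 4077)) (.lf 4581) (.lf 4309) (.lf 4583) (.lf 4310)) (.lf 4584) (.lf 4000) (.lf 3420) (.lf 4001)) (.lf 3268) (.lf 4586) (.lf 3267))) (.lf 4588) (.lf 4538) (.lf 4537))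

def tr113 : Tr := (.nd 66 (.lf 1580) (.lf 4600) (.nd 110 (.lf 4598) (.nd 154 (.lf 4596) (.lf 1747) (.nd 148 (.lf 3847) (.lf 4593) (.nd 9 (.lf 2064) (.lf 3233) (.nd 30 (.lf 3426) tr112 (.lf 4590) (.lf 4591) (.lf 3425) (.lf 4032)) (.lf 4592) (.lf 3231) (.lf 2065)) (.lf 4594) (.lf 3848) (.lf 4080)) (.lf 4595) (.lf 4561) (.lf 4198)) (.lf 4597) (.lf 1683) (.lf 4599) (.lf 4566)) (.nd 134 (.lf 4571) (.lf 4568) (.nd 110 (.lf 4563) (.nd 154 (.lf 4562) (.lf 1747) (.nd 51 (.lf 3689) (.lf 4558) (.nd 64 (.lf 4090) (.lf 4556) (.nd 126 (.lf 3674) (.nd 61 (.nd 132 (.lf 4547) (.lf 4548) (.lf 4549) (.lf 3843) (.lf 4146) (.lf 3842)) (.lf 4550) (.lf 4130) (.lf 4552) (.lf 4553) (.lf 4551)) (.lf 4554) (.lf 3668) (.lf 3675) (.lf 3673)) (.lf 4555) (.lf 4091) (.lf 4557)) (.lf 4559) (.lf 3688) (.lf 4077)) (.lf 4560) (.lf 4561)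 (.lf 4198)) (.lf 4564) (.lf 1683) (.lf 4565) (.lf 4566)) (.lf 4567) (.lf 4570) (.lf 4569)) (.lf 4602) (.lf 4601))

def tr114 : Tr := (.nd 119 (.lf 4306) (.nd 137 (.lf 4303) (.nd 31 (.nd 51 (.lf 3689) (.lf 4281) (.nd 121 (.lf 4300) (.nd 139 (.lf 3421) (.lf 4298) (.nd 132 (.nd 147 (.lf 4286) (.lf 4287) (.lf 3973) (.lf 4288) (.lf 4245) (.lf 4289)) (.nd 77 (.lf 3759) (.lf 4295) (.nd 47 (.lf 1586) (.lf 4292) (.lf 4291) (.lf 4290) (.lf 4294) (.lf 4293)) (.lf 4297) (.lf 1182) (.lf 4296)) (.lf 4219) (.lf 3843) (.lf 4146) (.lf 3842)) (.lf 4000) (.lf 3420) (.lf 4001)) (.lf 4299) (.lf 3094) (.lf 4230) (.lf 3830)) (.lf 4282) (.lf 3688) (.lf 4077)) (.lf 4301) (.lf 4143) (.lf 4250) (.lf 4142) (.lf 4302)) (.lf 4304) (.lf 3791) (.lf 4305) (.lf 3790)) (.lf 4307) (.lf 4309) (.lf 4308) (.lf 4310))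

def tr115 : Tr := (.nd 30 (.lf 3426) (.nd 94 (.lf 4283) (.nd 51 (.lf 3689) (.lf 4281) (.nd 22 (.lf 4277) (.lf 4280) (.lf 4278) (.lf 4276) (.nd 97 (.lf 3712) (.lf 4274) (.nd 147 (.nd 139 (.lf 3421) (.lf 4269) (.lf 4268) (.lf 4000) (.lf 3420) (.lf 4001)) (.lf 4270) (.lf 4244) (.lf 4272) (.lf 4245) (.lf 4271)) (.lf 4273) (.lf 3711) (.lf 4275)) (.lf 4279)) (.lf 4282) (.lf 3688) (.lf 4077)) (.lf 2360) (.lf 4284) (.lf 2359) (.lf 4285)) (.nd 94 (.lf 4328) (.nd 60 (.lf 4326) (.nd 138 (.nd 22 (.lf 4277) (.lf 4280) (.lf 4278) (.lf 4320) (.nd 66 (.lf 1580) (.lf 4317) (.lf 4316) (.nd 101 (.lf 4312) (.lf 4315) (.lf 4313) (.lf 4311) tr114 (.lf 4314)) (.lf 4319) (.lf 4318)) (.lf 4279)) (.lf 4324) (.lf 4323) (.lf 4325) (.lf 4322) (.lf 4321)) (.lf 2254) (.lf 4327) (.lf 2253) (.lf 3811)) (.lf 2360) (.lf 4284) (.lf 2359)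 (.lf 4285)) (.lf 4031) (.lf 3425) (.lf 4032))

def tr116 : Tr := (.nd 83 (.lf 4412) (.lf 4413) (.lf 4410) (.nd 107 (.lf 4371) (.lf 4370) (.lf 4372) (.lf 4369) (.nd 31 (.lf 4408) (.nd 130 (.lf 2983) (.lf 4406) (.nd 121 (.lf 4334) (.lf 4404) (.nd 51 (.lf 3689) (.lf 4402) (.nd 147 (.lf 4399) (.nd 82 (.nd 74 (.lf 4395) (.lf 4393) (.nd 25 (.lf 4134) (.lf 4391) (.lf 4390) (.lf 4389) (.lf 4135) (.lf 4133)) (.lf 4392) (.lf 4396) (.lf 4394)) (.lf 4398) (.lf 4355) (.lf 4368) (.lf 4356) (.lf 4397)) (.lf 4244) (.lf 4401) (.lf 4245) (.lf 4400)) (.lf 4403) (.lf 3688) (.lf 4077)) (.lf 3094) (.lf 4335) (.lf 4074)) (.lf 4405) (.lf 2984) (.lf 4407)) (.lf 4143) (.lf 4250) (.lf 4142) (.lf 4364)) (.lf 4409)) (.lf 4411) (.lf 4414))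

def tr117 : Tr := (.nd 82 (.nd 106 (.lf 4069) (.lf 4344) (.lf 4353) (.nd 30 (.lf 3426) (.lf 4351) (.lf 4352) (.lf 3992) (.lf 3425) (.lf 3993)) (.lf 4070) (.lf 4345)) (.lf 4354) (.lf 4355) (.lf 1999) (.lf 4356) (.nd 150 (.lf 4350) (.lf 4347) (.lf 4346) (.nd 106 (.lf 4069) (.lf 4344) (.lf 4343) (.nd 130 (.lf 2983) (.lf 4341) (.nd 137 (.nd 121 (.lf 4334) (.lf 4337) (.lf 4336) (.lf 3094) (.lf 4335) (.lf 4074)) (.lf 4338) (.lf 4339) (.lf 3791) (.lf 4340) (.lf 3790)) (.nd 121 (.lf 4334) (.nd 30 (.lf 3426) (.lf 4332) (.lf 4331) (.lf 3992) (.lf 3425) (.lf 3993)) (.lf 4333) (.lf 3094) (.lf 4335) (.lf 4074)) (.lf 2984) (.lf 4342)) (.lf 4070) (.lf 4345)) (.lf 4349) (.lf 4348)))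

def tr118 : Tr := (.nd 131 (.lf 4386) (.lf 4387) (.lf 4385) (.nd 119 (.lf 4381) (.nd 64 (.lf 4090) (.lf 4378) (.nd 133 (.nd 107 (.lf 4371) (.lf 4370) (.lf 4372) (.lf 4369) (.nd 147 (.lf 4359) (.nd 47 (.lf 1586) (.lf 4358) tr117 (.lf 4357) (.lf 4294) (.lf 4293)) (.lf 3973) (.lf 4361) (.lf 4245) (.lf 4360)) (.nd 82 (.lf 4367) (.lf 4354) (.lf 4355) (.lf 4368) (.lf 4356) (.nd 76 (.lf 3722) (.nd 31 (.lf 4362) (.lf 4363) (.lf 3893) (.lf 4250) (.lf 3894) (.lf 4364)) (.lf 4365) (.lf 4366) (.lf 3721) (.lf 3720)))) (.lf 4373) (.lf 4377) (.lf 4375) (.lf 4376) (.lf 4374)) (.lf 4379) (.lf 4091) (.lf 4380)) (.lf 4382) (.lf 4309) (.lf 4383) (.lf 4310)) (.lf 4384) (.lf 4388))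

def tr119 : Tr := (.nd 95 (.nd 148 (.lf 3847) (.lf 4426) (.nd 58 (.nd 46 (.lf 4422) (.lf 1893) (.lf 1892) (.lf 1894) (.lf 3794) (.nd 56 (.lf 4421) (.lf 4227) (.lf 4420) (.nd 153 tr115 (.lf 4329) (.lf 4048) (.lf 4330) (.lf 4047) (.lf 4045)) (.nd 155 (.lf 3744) (.lf 4419) (.nd 139 (.lf 3421) (.nd 131 (.lf 4386) (.lf 4387) (.lf 4385) (.nd 64 (.lf 4090) (.lf 4415) tr116 (.lf 4379) (.lf 4091) (.lf 4416)) (.lf 4417) (.lf 4388)) tr118 (.lf 4000) (.lf 3420) (.lf 4001)) (.lf 4418) (.lf 3743) (.lf 3742)) (.lf 3100))) (.lf 4424) (.lf 4057) (.lf 4425) (.lf 4056) (.lf 4423)) (.lf 4427) (.lf 3848) (.lf 4080)) (.lf 4428) (.lf 4432) (.lf 4430) (.lf 4431) (.lf 4429))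

def tr120 : Tr := (.nd 147 (.nd 126 (.lf 3674) (.nd 60 (.lf 4468) (.nd 76 (.lf 3722) (.lf 4467) (.nd 101 (.lf 4463) (.lf 4466) (.lf 4464) (.lf 4462) (.nd 77 (.lf 3759) (.lf 4460) (.lf 4461) (.lf 4454) (.lf 1182) (.lf 4453)) (.lf 4465)) (.lf 4451) (.lf 3721) (.lf 4052)) (.lf 2254) (.lf 4469) (.lf 2253) (.lf 3811)) (.nd 77 (.lf 3759) (.nd 94 (.lf 4477) (.nd 101 (.lf 4463) (.lf 4466) (.lf 4464) (.nd 119 (.lf 4471) (.lf 4470) (.lf 4473) (.lf 4475) (.lf 4472) (.lf 4474)) (.lf 4476) (.lf 4465)) (.lf 2360) (.lf 4478) (.lf 2359) (.lf 4479)) (.lf 4480) (.lf 4454) (.lf 1182) (.lf 4453)) (.lf 3668) (.lf 3675) (.lf 3673)) (.lf 4481) (.lf 3973) (.lf 4459) (.lf 4245) (.lf 4458))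

def tr121 : Tr := (.nd 132 (.lf 4455) (.nd 77 (.lf 3759) (.nd 76 (.lf 3722) (.lf 4450) (.nd 56 (.lf 4449) (.lf 4227) (.lf 4448) (.nd 99 (.lf 4446) (.lf 4444) (.lf 4445) (.lf 4442) (.nd 60 (.nd 67 (.lf 3356) (.nd 71 (.lf 3900) (.lf 3783) (.lf 3899) (.lf 4437) (.nd 137 (.lf 4435) (.lf 4434) (.lf 4433) (.lf 3791) (.lf 4436) (.lf 3790)) (.lf 3784)) (.lf 4438) (.lf 3678) (.lf 3355) (.lf 3679)) (.nd 137 (.lf 4435) (.lf 4439) (.lf 4440) (.lf 3791) (.lf 4436) (.lf 3790)) (.lf 2254) (.lf 4441) (.lf 2253) (.lf 3811)) (.lf 4443)) (.lf 4447) (.lf 3100)) (.lf 4451) (.lf 3721) (.lf 4052)) (.lf 4452) (.lf 4454) (.lf 1182) (.lf 4453)) (.lf 4219) (.lf 3843) (.lf 4146) (.lf 3842))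

def tr122 : Tr := (.nd 90 (.lf 4517) (.lf 4518) (.lf 4520) (.lf 4519) (.lf 4521) (.nd 75 (.nd 139 (.lf 3421) (.lf 4511) (.nd 82 (.lf 4506) (.lf 4508) (.lf 4510) (.lf 4507) (.lf 4509) (.nd 30 (.lf 3426) (.lf 4505) (.nd 23 (.lf 4501) (.lf 4503) (.lf 4502) (.lf 4504) (.nd 121 (.lf 4489) (.nd 64 (.lf 4090) (.lf 4483) (.nd 126 (.lf 3674) (.nd 56 (.lf 4494) (.lf 4496) (.lf 4495) (.lf 4492) (.lf 4493) (.lf 3100)) (.lf 4497) (.lf 3668) (.lf 3675) (.lf 3673)) (.lf 4498) (.lf 4091) (.lf 4484)) (.lf 4499) (.lf 3094) (.lf 4490) (.lf 4074)) (.lf 4500)) (.lf 3992) (.lf 3425) (.lf 3993))) (.lf 4000) (.lf 3420) (.lf 4001)) (.lf 4512) (.lf 4515) (.lf 4514) (.lf 4516) (.lf 4513)))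

def tr123 : Tr := (.nd 83 (.lf 4526) (.lf 4528) (.nd 139 (.lf 3421) (.lf 4491) (.nd 121 (.lf 4489) (.nd 51 (.lf 3689) (.lf 4486) (.nd 46 (.lf 4485) (.lf 1893) (.lf 1892) (.lf 1894) (.lf 3794) (.nd 64 (.lf 4090) (.lf 4483) (.nd 30 (.lf 3426) (.lf 4482) tr120 (.lf 3992) (.lf 3425) (.lf 3993)) (.nd 147 (.nd 30 (.lf 3426) (.lf 4456) tr121 (.lf 3992) (.lf 3425) (.lf 3993)) (.lf 4457) (.lf 3973) (.lf 4459) (.lf 4245) (.lf 4458)) (.lf 4091) (.lf 4484))) (.lf 4487) (.lf 3688) (.lf 4077)) (.lf 4488) (.lf 3094) (.lf 4490) (.lf 4074)) (.lf 4000) (.lf 3420) (.lf 4001)) (.nd 51 (.lf 3689) (.lf 4524) (.nd 67 (.lf 3356) tr122 (.lf 4522) (.lf 4523) (.lf 3355) (.lf 3679)) (.lf 4525) (.lf 3688) (.lf 4077)) (.lf 4527) (.lf 4414))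

def tr124 : Tr := (.nd 18 (.lf 4613) (.lf 4610) (.lf 4609) (.nd 89 (.nd 90 (.lf 4603) (.lf 4604) (.lf 4520) (.lf 4519) (.lf 4521) tr113) (.lf 4606) (.lf 4608) (.lf 4605) (.lf 4607) (.nd 78 (.lf 3699) (.lf 4545) (.nd 146 (.lf 4543) (.lf 1978) (.lf 4544) (.lf 3820) (.lf 3817) (.nd 19 (.lf 4541) (.lf 4035) (.lf 4255) (.lf 1509) (.lf 4542) (.nd 42 (.nd 140 (.lf 4539) (.lf 4536) tr119 (.nd 131 (.lf 4533) (.lf 4534) (.lf 4532) (.nd 148 (.lf 3847) (.lf 4529) tr123 (.lf 4530) (.lf 3848) (.lf 4080)) (.lf 4531) (.lf 4535)) (.lf 4538) (.lf 4537)) (.lf 4540) (.lf 4258) (.lf 4260) (.lf 4257) (.lf 4259)))) (.lf 4546) (.lf 3698) (.lf 3697))) (.lf 4612) (.lf 4611))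

def tr125 : Tr := (.nd 56 (.lf 4226) (.lf 4227) (.lf 4224) (.nd 147 (.nd 132 (.lf 4218) (.nd 91 (.lf 3732) (.lf 4216) (.nd 101 (.lf 4208) (.lf 4210) (.lf 4207) (.nd 90 (.nd 94 (.lf 4201) (.lf 4202) (.lf 2360) (.lf 4204) (.lf 2359) (.lf 4203)) (.lf 3923) (.lf 3925) (.lf 3924) (.lf 3926) (.lf 4205)) (.lf 4206) (.lf 4209)) (.nd 101 (.lf 4208) (.lf 4210) (.lf 4207) (.nd 112 (.lf 3857) (.lf 4213) (.nd 37 (.lf 3321) (.lf 4211) (.lf 4212) (.lf 3850) (.lf 3320) (.lf 3851)) (.lf 4214) (.lf 3856) (.lf 3937)) (.lf 4215) (.lf 4209)) (.lf 3731) (.lf 4217)) (.lf 4219) (.lf 3843) (.lf 3950) (.lf 3842)) (.lf 4220) (.lf 3973) (.lf 4222) (.lf 4223) (.lf 4221)) (.lf 4225) (.lf 3100))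

def tr126 : Tr := (.nd 78 (.lf 3699) (.lf 4248) (.nd 46 (.nd 126 (.lf 3674) (.lf 4246) (.nd 147 (.nd 112 (.lf 3857) (.lf 4239) (.lf 4238) (.nd 37 (.lf 3321) (.lf 4237) (.lf 4236) (.lf 3850) (.lf 3320) (.lf 3851)) (.lf 3856) (.lf 4240)) (.lf 4241) (.lf 4244) (.lf 4243) (.lf 4245) (.lf 4242)) (.lf 3668) (.lf 3675) (.lf 3673)) (.lf 1893) (.lf 1892) (.lf 1894) (.lf 3794) (.nd 139 (.lf 3421) (.lf 4235) (.nd 51 (.lf 3689) (.lf 4233) (.nd 30 (.lf 3426) (.lf 4231) (.nd 121 (.lf 4229) tr125 (.lf 4228) (.lf 3094) (.lf 4230) (.lf 3830)) (.lf 3992) (.lf 3425) (.lf 3993)) (.lf 4232) (.lf 3688) (.lf 4234)) (.lf 4000) (.lf 3420) (.lf 4001))) (.lf 4247) (.lf 3698) (.lf 3697))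

def tr127 : Tr := (.nd 154 (.lf 4197) (.lf 1747) (.nd 9 (.lf 4194) (.lf 3233) (.nd 79 (.lf 3883) (.nd 148 (.lf 3847) (.lf 4188) (.nd 139 (.lf 3421) (.lf 4186) (.nd 131 (.lf 4183) (.lf 4185) (.lf 4182) (.nd 89 (.lf 4176) (.lf 4177) (.lf 4179) (.lf 4178) (.lf 4180) (.nd 37 (.lf 3321) (.nd 76 (.lf 3722) (.lf 4172) (.nd 126 (.lf 3674) (.lf 4170) (.lf 4169) (.lf 3668) (.lf 3675) (.lf 3673)) (.lf 4171) (.lf 3721) (.lf 4173)) (.lf 4174) (.lf 4175) (.lf 3320) (.lf 3851))) (.lf 4181) (.lf 4184)) (.lf 4000) (.lf 3420) (.lf 4001)) (.lf 4187) (.lf 3848) (.lf 4189)) (.lf 4190) (.lf 4191) (.lf 3882) (.lf 4192)) (.lf 4193) (.lf 3231) (.lf 3232)) (.lf 4195) (.lf 4196) (.lf 4198))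

def tr128 : Tr := (.nd 15 (.lf 4158) (.nd 88 (.lf 4125) (.lf 3997) (.lf 4619) (.nd 52 (.lf 4266) (.lf 4267) (.lf 4618) (.nd 50 (.lf 1178) (.lf 4615) tr124 (.lf 4614) (.lf 1177) (.lf 4616)) (.lf 4617) (.lf 3282)) (.lf 4620) (.lf 3998)) (.nd 52 (.lf 4266) (.lf 4267) (.lf 4265) (.nd 16 (.lf 3809) (.lf 4263) (.nd 88 (.lf 3996) (.lf 3997) (.lf 4262) (.nd 42 (.nd 19 (.lf 4253) (.lf 4035) (.lf 4255) (.lf 1509) (.lf 4254) (.nd 31 tr126 (.nd 78 (.lf 3699) (.lf 4200) tr127 (.lf 4199) (.lf 3698) (.lf 3697)) (.lf 4251) (.lf 4250) (.lf 4252) (.lf 4249))) (.lf 4256) (.lf 4258) (.lf 4260) (.lf 4257) (.lf 4259)) (.lf 4261) (.lf 3998)) (.lf 4168) (.lf 398) (.lf 3808)) (.lf 4264) (.lf 3282)) (.lf 4160) (.lf 4159) (.lf 4161))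

def tr129 : Tr := (.nd 3 (.lf 3220) (.lf 1161) (.lf 2266) (.lf 1162) (.nd 146 (.lf 3818) (.lf 1978) (.lf 3819) (.lf 3820) (.lf 3817) (.nd 8 (.lf 3815) (.lf 1970) (.lf 3814) (.lf 3813) tr101 (.lf 3816))) (.nd 11 (.lf 4634) (.lf 1157) (.lf 3290) (.lf 1156) (.lf 4633) (.nd 8 (.lf 4631) (.lf 2259) (.lf 4630) (.lf 4632) (.nd 20 (.lf 4627) (.nd 39 (.lf 3218) (.lf 4626) (.lf 3219) (.nd 16 (.lf 3809) (.lf 4167) (.nd 26 (.lf 1810) (.lf 4166) tr111 (.lf 4165) (.lf 1809) (.lf 3188)) (.lf 4168) (.lf 398) (.lf 3808)) (.nd 26 (.lf 1810) (.lf 4623) (.nd 24 (.lf 2911) (.lf 4622) (.lf 4621) tr128 (.lf 2910) (.lf 4164)) (.lf 4624) (.lf 1809) (.lf 3188)) (.lf 4625)) (.lf 3211) (.lf 4628) (.lf 3210) (.lf 4629)) (.lf 3816))))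

def tr130 : Tr := (.nd 155 (.lf 3744) (.lf 3741) (.nd 39 (.lf 3703) (.lf 3702) (.lf 3219) (.lf 3740) (.nd 117 (.lf 3736) (.lf 3141) (.lf 3738) (.lf 3739) (.lf 3737) (.nd 29 (.nd 91 (.lf 3732) (.lf 3728) (.nd 89 (.nd 76 (.lf 3722) (.nd 111 (.lf 3714) (.nd 97 (.lf 3712) (.nd 9 (.lf 3707) (.lf 3233) (.lf 3705) (.lf 3704) (.lf 3706) (.lf 1858)) (.lf 3708) (.lf 3709) (.lf 3711) (.lf 3710)) (.lf 3713) (.lf 3716) (.lf 3715) (.lf 3717)) (.lf 3718) (.lf 3719) (.lf 3721) (.lf 3720)) (.lf 3724) (.lf 3726) (.lf 3725) (.lf 3727) (.lf 3723)) (.lf 3729) (.lf 3731) (.lf 3730)) (.lf 3733) (.lf 3734) (.lf 3693) (.lf 3735) (.lf 3694))) (.lf 3701)) (.nd 39 (.lf 3703) (.lf 3702) (.lf 3219) (.lf 3700) (.nd 78 (.lf 3699) (.lf 3695) (.nd 29 (.nd 51 (.lf 3689) (.lf 3686) (.nd 99 (.lf 3683) (.lf 3682) (.lf 3684) (.lf 3681) (.nd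 67 (.lf 3356) (.lf 3677) (.lf 3676) (.lf 3678) (.lf 3355) (.lf 3679)) (.lf 3680)) (.lf 3685) (.lf 3688) (.lf 3687)) (.lf 3690) (.lf 3691) (.lf 3693) (.lf 3692) (.lf 3694)) (.lf 3696) (.lf 3698) (.lf 3697)) (.lf 3701)) (.lf 3743) (.lf 3742))

def tr131 : Tr := (.nd 11 (.nd 9 (.lf 3772) (.lf 3233) (.lf 3771) (.lf 3769) (.lf 3770) (.lf 1858)) (.lf 1157) (.lf 3774) (.lf 1156) (.lf 3773) (.nd 2 (.lf 3197) (.nd 21 (.nd 49 (.lf 3747) (.nd 26 (.lf 1810) (.lf 3745) tr130 (.lf 3746) (.lf 1809) (.lf 3188)) (.lf 3748) (.lf 1152) (.lf 3749) (.lf 1151)) (.nd 49 (.lf 3747) (.nd 67 (.lf 3356) (.nd 77 (.lf 3759) (.lf 3756) (.nd 86 (.lf 3754) (.lf 3752) (.lf 3750) (.lf 3751) (.lf 1368) (.lf 3753)) (.lf 3755) (.lf 3758) (.lf 3757)) (.lf 3760) (.lf 3761) (.lf 3355) (.lf 3762)) (.lf 3763) (.lf 1152) (.lf 3749) (.lf 1151))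 (.lf 3764) (.lf 3192) (.lf 3765) (.lf 3193)) (.lf 3766) (.lf 3767) (.lf 1886) (.lf 3768)))

def tr132 : Tr := (.nd 94 (.nd 19 (.lf 4932) (.lf 2241) (.lf 4931) (.lf 3805) (.nd 67 (.lf 3356) (.lf 4929) (.nd 95 (.lf 4925) (.lf 4927) (.lf 4884) (.lf 4926) (.lf 4885) (.nd 148 (.lf 4674) (.lf 4924) (.lf 4923) (.nd 68 (.lf 4921) (.nd 79 (.lf 4711) (.lf 4918) (.lf 4917) (.nd 22 (.lf 4914) (.lf 4915) (.lf 4912) (.nd 71 (.lf 4911) (.lf 3783) (.lf 4909) (.nd 88 (.lf 4908) (.lf 3997) (.lf 4907) (.lf 4905) (.lf 4906) (.lf 3998)) (.lf 4910) (.lf 3784)) (.lf 4913) (.lf 4916)) (.lf 4710) (.lf 4919)) (.lf 4920) (.lf 2385) (.lf 4922) (.lf 2384)) (.lf 4673) (.lf 4813))) (.lf 4928) (.lf 3355) (.lf 3762)) (.lf 4930)) (.lf 4934) (.lf 2360) (.lf 4935) (.lf 2359) (.lf 4933))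

def tr133 : Tr := (.nd 115 (.nd 95 (.nd 117 (.lf 3389) (.lf 1924) (.lf 4014) (.lf 3390) (.lf 4782) (.nd 50 (.lf 1178) (.lf 4760) (.lf 4780) (.lf 4781) (.lf 1177) (.lf 3897))) (.lf 3393) (.lf 3395) (.lf 3392) (.lf 3394) (.lf 4783)) (.nd 52 (.lf 3364) (.lf 4267) (.lf 4778) (.nd 31 (.lf 4776) (.lf 4777) (.lf 3375) (.lf 3372) (.lf 3894) (.nd 144 (.nd 95 (.nd 88 (.lf 3996) (.lf 3997) (.lf 4028) (.lf 4771) (.nd 117 (.lf 3389) (.lf 1924) (.lf 4014) (.lf 3390) (.lf 4770) (.lf 4769)) (.lf 3998)) (.lf 3393) (.lf 3395) (.lf 3392) (.lf 3394) (.lf 4772)) (.lf 4774) (.lf 915) (.lf 4775) (.lf 4736) (.lf 4773))) (.lf 4779) (.lf 3282)) (.lf 4786) (.lf 4785) (.lf 4787) (.lf 4784))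

def tr134 : Tr := (.nd 38 (.lf 3456) (.lf 3380) (.nd 44 (.lf 3514) (.lf 3512) (.lf 4817) (.nd 144 (.nd 148 (.lf 4674) (.lf 4812) (.lf 4811) (.nd 125 (.lf 4645) (.lf 4809) (.nd 117 (.lf 4806) (.lf 1924) (.lf 4805) (.lf 4807) (.lf 4804) (.lf 4803)) (.lf 4808) (.lf 4644) (.lf 4810)) (.lf 4673) (.lf 4813)) (.lf 4815) (.lf 4735) (.lf 4816) (.lf 4736) (.lf 4814)) (.lf 4042) (.lf 4818)) (.nd 3 (.lf 3220) (.lf 1161) (.lf 2266) (.lf 1162) (.lf 4802) (.nd 44 (.lf 3514) (.lf 3512) (.lf 4801) (.nd 87 (.lf 3452) (.lf 4800) (.lf 3453) (.lf 4798) (.nd 37 (.lf 3321) (.lf 4797) (.nd 101 (.lf 3404) (.lf 3405) (.lf 4793) (.nd 19 (.lf 4792) (.lf 2241) (.lf 4791) (.lf 3805) (.nd 116 (.lf 4788) tr133 (.lf 3437) (.lf 741) (.lf 4789) (.lf 3439)) (.lf 4790)) (.lf 4794) (.lf 4795)) (.lf 4796) (.lf 3320) (.lf 4751)) (.lf 4799))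 (.lf 3347) (.lf 3345))) (.lf 3541) (.lf 3379))

def tr135 : Tr := (.nd 79 (.lf 4711) (.lf 4708) (.nd 87 (.lf 3452) (.lf 4666) (.lf 3410) (.lf 4665) (.nd 132 (.lf 4704) (.lf 4703) (.nd 31 (.nd 131 (.lf 3397) (.lf 3399) (.lf 4699) (.nd 104 (.lf 3430) (.nd 19 (.lf 4678) (.lf 2241) (.lf 4679) (.lf 1509) (.lf 4697) (.lf 4696)) (.lf 4698) (.lf 3428) (.lf 655) (.lf 3429)) (.lf 4700) (.lf 4701)) (.lf 4683) (.lf 3893) (.lf 4684) (.lf 3894) (.lf 4702)) (.lf 4705) (.lf 3865) (.lf 4706)) (.lf 4707)) (.nd 87 (.lf 3452) (.lf 4666) (.lf 3410) (.lf 4665) (.nd 31 (.nd 19 (.lf 4678) (.lf 2241) (.lf 4679) (.lf 1509) (.nd 38 (.lf 3456) (.lf 3380) (.lf 4691) (.lf 4690) (.lf 3455) (.lf 3379)) (.nd 27 (.lf 3536) (.lf 818) (.lf 4693) (.lf 4692) (.lf 3535) (.lf 817))) (.lf 4683) (.lf 3893) (.lf 4684) (.lf 3894) (.lf 4694)) (.lf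 4695)) (.lf 4710) (.lf 4709))

def tr136 : Tr := (.nd 31 (.nd 88 (.lf 3996) (.lf 3997) (.lf 4681) (.nd 104 (.lf 3430) (.nd 19 (.lf 4678) (.lf 2241) (.lf 4679) (.lf 1509) (.lf 4677) (.nd 87 (.lf 3452) (.lf 3963) (.lf 3410) (.lf 3964) (.nd 148 (.lf 4674) (.lf 3845) (.lf 4671) (.lf 4672) (.lf 4673) (.lf 3846)) (.nd 148 (.lf 4674) (.lf 3845) (.lf 4675) (.lf 4676) (.lf 4673) (.lf 3846)))) (.nd 136 (.lf 3309) (.lf 4670) (.lf 3308) (.nd 38 (.lf 3378) (.lf 3380) (.nd 87 (.lf 3452) (.lf 4666) (.lf 3410) (.lf 4665) (.lf 4663) (.lf 4664)) (.lf 4667) (.lf 3455) (.lf 3379)) (.lf 4668) (.lf 4669)) (.lf 3428) (.lf 655) (.lf 3429)) (.lf 4680) (.lf 3998)) (.lf 4683) (.lf 3893) (.lf 4684) (.lf 3894) (.lf 4682))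

def tr137 : Tr := (.nd 60 (.nd 94 (.nd 121 (.nd 37 (.lf 3321) (.lf 4719) (.nd 32 (.lf 3834) (.lf 4717) (.nd 51 (.lf 3689) (.lf 4715) (.lf 4714) (.nd 78 (.lf 3699) (.lf 4686) (.nd 88 (.lf 3996) (.lf 3997) (.lf 4681) tr135 (.lf 4712) (.lf 3998)) (.lf 4713) (.lf 3698) (.lf 3697)) (.lf 3688) (.lf 4716)) (.lf 4718) (.lf 615) (.lf 3833)) (.lf 4688) (.lf 3320) (.lf 4689)) (.nd 37 (.lf 3321) (.lf 4687) (.nd 78 (.lf 3699) (.lf 4686) tr136 (.lf 4685) (.lf 3698) (.lf 3697)) (.lf 4688) (.lf 3320) (.lf 4689)) (.lf 4721) (.lf 3094) (.lf 4720) (.lf 4722)) (.lf 4723) (.lf 2360) (.lf 4725) (.lf 2359) (.lf 4724)) (.lf 4726) (.lf 2254) (.lf 4728) (.lf 2253) (.lf 4727))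

def tr138 : Tr := (.nd 50 (.lf 1178) (.lf 4760) (.nd 95 (.nd 144 (.nd 67 (.lf 3356) (.lf 4730) (.nd 39 (.lf 3218) (.lf 4626) (.lf 3219) tr137 (.lf 4729) (.lf 4647)) (.lf 4731) (.lf 3355) (.lf 3762)) (.lf 4732) (.lf 4735) (.lf 4734) (.lf 4736) (.lf 4733)) (.lf 4738) (.lf 3983) (.lf 4739) (.lf 3982) (.lf 4737)) (.nd 136 (.lf 3309) (.lf 4759) (.lf 3308) (.nd 144 (.nd 87 (.lf 3966) (.lf 4754) (.lf 3965) (.lf 4753) (.nd 37 (.lf 3321) (.lf 4749) (.nd 104 (.lf 3430) (.lf 4748) (.nd 121 (.nd 19 (.lf 4743) (.lf 4035) (.lf 4744) (.lf 3805) (.nd 88 (.lf 3996) (.lf 3997) (.lf 4028) (.lf 4740) (.lf 4741) (.lf 3998)) (.lf 4742)) (.lf 4745) (.lf 4747) (.lf 3094) (.lf 4746) (.lf 4722)) (.lf 3428) (.lf 655) (.lf 3429)) (.lf 4750) (.lf 3320) (.lf 4751)) (.lf 4752)) (.lf 4756) (.lf 4735) (.lf 4734) (.lf 4736) (.lf 4755))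 (.lf 4757) (.lf 4758)) (.lf 1177) (.lf 3897))

def tr139 : Tr := (.nd 113 (.lf 4835) (.lf 2907) (.lf 4834) (.nd 67 (.lf 3356) (.lf 4833) (.nd 15 (.lf 4831) (.lf 4830) (.nd 30 (.lf 3426) (.lf 4828) (.nd 60 (.nd 94 (.nd 126 (.lf 3674) (.lf 4820) (.nd 139 (.lf 3421) (.lf 4767) tr134 (.lf 4819) (.lf 3420) (.lf 4001)) (.lf 4821) (.lf 3675) (.lf 3673)) (.lf 4822) (.lf 2360) (.lf 4824) (.lf 2359) (.lf 4823)) (.lf 4825) (.lf 2254) (.lf 4827) (.lf 2253) (.lf 4826)) (.lf 4829) (.lf 3425) (.lf 4032)) (.lf 4160) (.lf 4159) (.lf 4161)) (.lf 4832) (.lf 3355) (.lf 3762)) (.nd 139 (.lf 3421) (.lf 4767) (.nd 90 (.nd 3 (.lf 3220) (.lf 1161) (.lf 2266) (.lf 1162) (.lf 4763) (.nd 15 (.lf 4158) (.lf 4762) (.nd 126 (.lf 3674) (.lf 4761) tr138 (.lf 3668) (.lf 3675) (.lf 3673)) (.lf 4160) (.lf 4159) (.lf 4161))) (.lf 4765) (.lf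 4520) (.lf 4766) (.lf 4521) (.lf 4764)) (.lf 4768) (.lf 3420) (.lf 4001)) (.lf 2908))

def tr140 : Tr := (.nd 124 (.nd 19 (.lf 4855) (.lf 4857) (.lf 4856) (.lf 3805) (.lf 4854) (.nd 3 (.lf 3220) (.lf 1161) (.lf 2266) (.lf 1162) (.lf 4853) (.nd 94 (.nd 50 (.lf 1178) (.lf 4846) (.nd 79 (.lf 4711) (.lf 4850) (.nd 39 (.lf 3218) (.lf 4626) (.lf 3219) (.lf 4847) (.lf 4848) (.lf 4647)) (.lf 4849) (.lf 4710) (.lf 4709)) (.lf 4851) (.lf 1177) (.lf 3897)) (.nd 50 (.lf 1178) (.lf 4846) (.nd 79 (.lf 4711) (.lf 4844) (.nd 60 (.lf 4842) (.lf 4841) (.lf 2254) (.lf 4827) (.lf 2253) (.lf 4826)) (.lf 4843) (.lf 4710) (.lf 4709)) (.lf 4845) (.lf 1177) (.lf 3897)) (.lf 2360) (.lf 4852) (.lf 2359) (.lf 4823)))) (.lf 4858) (.lf 4861) (.lf 4860) (.lf 4862) (.lf 4859))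

def tr141 : Tr := (.nd 29 (.nd 122 (.lf 4889) (.lf 4887) (.lf 4888) (.lf 4886) (.nd 153 (.nd 10 (.lf 1952) (.lf 4836) tr139 (.lf 4837) (.lf 356) (.lf 1951)) (.lf 4838) (.lf 4048) (.lf 4840) (.lf 4047) (.lf 4839)) (.nd 95 (.nd 26 (.lf 1810) (.lf 4880) (.nd 133 (.nd 139 (.lf 3421) (.lf 4872) (.nd 89 (.lf 4868) (.lf 4869) (.lf 4608) (.lf 4870) (.lf 4871) (.nd 82 (.lf 4863) (.lf 4864) (.lf 4866) (.lf 4865) (.lf 4867) tr140)) (.lf 4873) (.lf 3420) (.lf 4001)) (.lf 4874) (.lf 4877) (.lf 4876) (.lf 4878) (.lf 4875)) (.lf 4879) (.lf 1809) (.lf 3188)) (.lf 4882) (.lf 4884) (.lf 4883) (.lf 4885) (.lf 4881))) (.lf 4649) (.lf 4891) (.lf 3693) (.lf 4890) (.lf 4653))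

def tr142 : Tr := (.nd 48 (.lf 4944) (.lf 4658) (.nd 49 (.nd 60 (.nd 16 (.lf 3809) (.lf 4938) (.nd 20 (.lf 4936) tr132 (.lf 3211) (.lf 4937) (.lf 3210) (.lf 4629)) (.lf 4939) (.lf 398) (.lf 3808)) (.lf 4940) (.lf 2254) (.lf 4942) (.lf 2253) (.lf 4941)) (.nd 154 (.lf 4902) (.lf 4903) (.nd 16 (.lf 3809) (.lf 4898) (.nd 9 (.lf 4897) (.lf 3233) (.nd 84 (.nd 24 (.lf 2911) (.lf 4622) (.lf 4892) tr141 (.lf 2910) (.lf 4164)) (.lf 4893) (.lf 3304) (.lf 4895) (.lf 3303) (.lf 4894)) (.lf 4896) (.lf 3231) (.lf 3232)) (.lf 4899) (.lf 398) (.lf 3808)) (.lf 4900) (.lf 4901) (.lf 4904)) (.lf 3748) (.lf 1152) (.lf 4943) (.lf 4155)) (.lf 4656) (.lf 4945) (.lf 4657))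

def tr143 : Tr := (.nd 145 (.lf 4638) (.nd 21 (.nd 11 (.lf 4634) (.lf 1157) (.lf 3290) (.lf 1156) (.nd 20 (.lf 4949) (.lf 4950) (.lf 3211) (.lf 4951) (.lf 3210) (.lf 4629)) (.nd 8 (.lf 4948) (.lf 2259) (.lf 4946) (.lf 4947) tr142 (.lf 3816))) (.lf 4952) (.lf 4637) (.lf 3192) (.lf 4636) (.lf 3193)) (.nd 3 (.lf 4662) (.lf 1161) (.lf 3779) (.lf 1162) (.nd 11 (.lf 3777) (.lf 1157) (.lf 3774) (.lf 1156) (.lf 3776) (.lf 4661)) (.nd 11 (.lf 4659) (.lf 1157) (.lf 3774) (.lf 1156) (.lf 4660) (.nd 48 (.lf 4655) (.lf 4658) (.nd 29 (.nd 39 (.lf 3703) (.lf 4648) (.lf 3219) (.lf 4646) (.nd 125 (.lf 4645) (.nd 16 (.lf 3809) (.lf 4640) (.lf 4639) (.lf 4168) (.lf 398) (.lf 3808)) (.lf 4642) (.lf 4641) (.lf 4644) (.lf 4643)) (.lf 4647)) (.lf 4649) (.lf 4650) (.lf 4652) (.lf 4651) (.lf 4653)) (.lf 4656) (.lf 4654) (.lf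 4657)))) (.lf 2272) (.nd 3 (.lf 3127) (.lf 1161) (.lf 3235) (.lf 1162) (.lf 2269) (.lf 2268)) (.lf 2273))

def tr144 : Tr := (.nd 8 (.lf 3815) (.lf 2259) (.lf 4988) (.lf 4989) (.nd 20 (.lf 4986) (.nd 84 (.nd 44 (.lf 4043) (.lf 4982) (.lf 4980) (.nd 113 (.lf 4978) (.lf 2907) (.lf 4979) (.lf 4977) (.nd 83 (.lf 4972) (.lf 4975) (.nd 39 (.lf 3218) (.lf 4970) (.lf 3219) (.nd 19 (.lf 4967) (.lf 4968) (.lf 4966) (.lf 3805) (.lf 4965) (.nd 87 (.lf 4964) (.lf 4961) (.lf 4963) (.lf 4962) (.lf 4960) (.nd 78 (.lf 3699) (.lf 4137) (.lf 4958) (.lf 4959) (.lf 3698) (.lf 3697)))) (.lf 4969) (.lf 4971)) (.lf 4973) (.lf 4974) (.lf 4976)) (.lf 2908)) (.lf 4042) (.lf 4981)) (.lf 4984) (.lf 3304) (.lf 4983) (.lf 3303) (.lf 4985)) (.lf 3211) (.lf 4987) (.lf 3210) (.lf 4629)) (.lf 3816))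

def tr145 : Tr := (.nd 102 (.lf 3313) (.nd 145 (.lf 4638) (.nd 21 tr129 (.lf 4635) (.lf 4637) (.lf 3192) (.lf 4636) (.lf 3193)) (.nd 3 (.lf 3778) (.lf 1161) (.lf 3779) (.lf 1162) (.nd 11 (.lf 3777) (.lf 1157) (.lf 3774) (.lf 1156) (.lf 3776) (.lf 3775)) tr131) (.lf 2272) (.nd 3 (.lf 3127) (.lf 1161) (.lf 3235) (.lf 1162) (.lf 2269) (.lf 2268)) (.lf 2273)) (.nd 46 tr143 (.lf 1893) (.lf 1892) (.lf 1894) (.lf 4996) (.nd 145 (.lf 4638) (.nd 135 (.lf 3227) (.lf 4995) (.lf 3228) (.nd 146 (.lf 4991) (.lf 1978) (.lf 4990) (.lf 3820) (.lf 4992) tr144) (.lf 4993) (.lf 4994)) (.nd 3 (.lf 4662) (.lf 1161) (.lf 3779) (.lf 1162) (.lf 4957) (.nd 11 (.lf 4659) (.lf 1157) (.lf 3774) (.lf 1156) (.lf 4660) (.nd 48 (.lf 4655) (.lf 4658) (.nd 117 (.lf 4954) (.lf 3141) (.lf 4955) (.lf 3739) (.lf 4956) (.lf 4953)) (.lf 4656)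 (.lf 4654) (.lf 4657)))) (.lf 2272) (.nd 3 (.lf 3127) (.lf 1161) (.lf 3235) (.lf 1162) (.lf 2269) (.lf 2268)) (.lf 2273))) (.lf 4997) (.lf 3314) (.lf 3312))

def tr146 : Tr := (.nd 145 (.lf 3236) (.nd 9 (.lf 3230) (.lf 3233) (.nd 135 (.lf 3227) (.lf 3226) (.lf 3228) (.nd 4 (.lf 3222) (.lf 370) (.lf 3223) (.lf 369) (.lf 3221) (.nd 3 (.lf 3220) (.lf 1161) (.lf 2266) (.lf 1162) (.nd 20 (.lf 3207) (.nd 26 (.lf 1810) (.lf 3206) (.lf 3205) (.lf 3204) (.lf 1809) (.lf 3188)) (.lf 3211) (.lf 3208) (.lf 3210) (.lf 3209)) (.nd 39 (.lf 3218) (.lf 3216) (.lf 3219) (.nd 26 (.lf 1810) (.lf 3214) (.lf 3212) (.lf 3213) (.lf 1809) (.lf 3188)) (.lf 3215) (.lf 3217)))) (.lf 3225) (.lf 3224)) (.lf 3229) (.lf 3231) (.lf 3232)) (.nd 3 (.lf 3202) (.lf 1161) (.lf 3203) (.lf 1162) (.lf 3201) (.nd 11 (.lf 3198) (.lf 1157) (.lf 3199)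 (.lf 1156) (.lf 3200) (.nd 2 (.lf 3197) (.nd 21 (.nd 26 (.lf 1810) (.lf 3187) (.lf 3185) (.lf 3186) (.lf 1809) (.lf 3188)) (.lf 3189) (.lf 3191) (.lf 3192) (.lf 3190) (.lf 3193)) (.lf 3194) (.lf 3195) (.lf 1886) (.lf 3196)))) (.lf 2272) (.nd 3 (.lf 3234) (.lf 1161) (.lf 3235) (.lf 1162) (.lf 2269) (.lf 2268)) (.lf 2273))

def tr147 : Tr := (.nd 145 (.lf 3271) (.nd 135 (.lf 3227) (.lf 3226) (.lf 3228) (.nd 149 (.lf 3266) (.nd 8 (.lf 3262) (.lf 2259) (.lf 3260) (.lf 3261) (.nd 20 (.lf 3257) (.nd 3 (.lf 3220) (.lf 1161) (.lf 2266) (.lf 1162) (.lf 3256) (.nd 94 (.nd 19 (.lf 3250) (.lf 3251) (.lf 3249) (.lf 3252) (.lf 3248) (.lf 3247)) (.lf 3253) (.lf 2360) (.lf 3254) (.lf 2359) (.lf 3255))) (.lf 3211) (.lf 3258) (.lf 3210) (.lf 3259)) (.lf 3263)) (.lf 3264) (.lf 3268) (.lf 3265) (.lf 3267)) (.lf 3270) (.lf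 3269)) (.nd 3 (.lf 3246) (.lf 1161) (.lf 3203) (.lf 1162) (.lf 3245) (.nd 11 (.lf 3242) (.lf 1157) (.lf 3244) (.lf 1156) (.lf 3243) (.nd 21 (.lf 3240) (.nd 26 (.lf 1810) (.lf 3239) (.lf 3237) (.lf 3238) (.lf 1809) (.lf 3188)) (.lf 3241) (.lf 3192) (.lf 3190) (.lf 3193)))) (.lf 2272) (.nd 3 (.lf 3127) (.lf 1161) (.lf 3235) (.lf 1162) (.lf 2269) (.lf 2268)) (.lf 2273))

def tr148 : Tr := (.nd 145 (.lf 3271) (.nd 11 (.lf 3291) (.lf 1157) (.lf 3290) (.lf 1156) (.lf 3289) (.nd 20 (.lf 3286) (.nd 39 (.lf 3218) (.lf 3284) (.lf 3219) (.nd 52 (.lf 3279) (.lf 3281) (.lf 3278) (.nd 26 (.lf 1810) (.lf 3277) (.lf 3275) (.lf 3276) (.lf 1809) (.lf 3188)) (.lf 3280) (.lf 3282)) (.lf 3283) (.lf 3285)) (.lf 3211) (.lf 3287) (.lf 3210) (.lf 3288))) (.nd 3 (.lf 3246) (.lf 1161) (.lf 3203) (.lf 1162) (.lf 3245) (.nd 21 (.lf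 3273) (.nd 11 (.lf 3242) (.lf 1157) (.lf 3244) (.lf 1156) (.lf 3243) (.lf 3272)) (.lf 3241) (.lf 3192) (.lf 3274) (.lf 3193))) (.lf 2272) (.nd 3 (.lf 3127) (.lf 1161) (.lf 3235) (.lf 1162) (.lf 2269) (.lf 2268)) (.lf 2273))

def tr149 : Tr := (.nd 145 (.lf 3271) (.nd 135 (.lf 3227) (.lf 3226) (.lf 3228) (.nd 149 (.lf 3266) (.nd 8 (.lf 3262) (.lf 2259) (.lf 3260) (.lf 3261) (.nd 136 (.lf 3309) (.lf 3306) (.lf 3308) (.nd 84 (.nd 113 (.lf 3298) (.lf 2907) (.lf 3299) (.nd 3 (.lf 3220) (.lf 1161) (.lf 2266) (.lf 1162) (.lf 3296) (.lf 3295)) (.lf 3297) (.lf 2908)) (.lf 3302) (.lf 3304) (.lf 3300) (.lf 3303) (.lf 3301)) (.lf 3305) (.lf 3307)) (.lf 3263)) (.lf 3310) (.lf 3268) (.lf 3265) (.lf 3267)) (.lf 3270) (.lf 3269)) (.nd 3 (.lf 3246) (.lf 1161) (.lf 3203) (.lf 1162) (.lf 3245) (.nd 11 (.lf 3242) (.lf 1157)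 (.lf 3244) (.lf 1156) (.lf 3294) (.nd 21 (.lf 3293) (.nd 26 (.lf 1810) (.lf 3239) (.lf 3237) (.lf 3238) (.lf 1809) (.lf 3188)) (.lf 3241) (.lf 3192) (.lf 3190) (.lf 3193)))) (.lf 2272) (.nd 3 (.lf 3127) (.lf 1161) (.lf 3235) (.lf 1162) (.lf 2269) (.lf 2268)) (.lf 2273))

def tr150 : Tr := (.nd 71 (.lf 3530) (.lf 3370) (.nd 44 (.lf 3514) (.lf 3512) (.nd 37 (.lf 3321) (.lf 3510) (.lf 3509) (.nd 22 (.lf 3508) (.lf 3435) (.lf 3507) (.lf 3506) (.lf 3432) (.lf 630)) (.lf 3320) (.lf 3319)) (.lf 3511) (.lf 3347) (.lf 3513)) (.nd 59 (.lf 3350) (.lf 3351) (.lf 3527) (.nd 68 (.lf 3526) (.nd 45 (.lf 3458) (.lf 3362) (.lf 3524) (.lf 3363) (.nd 44 (.lf 3514) (.lf 3512) (.nd 37 (.lf 3321) (.lf 3521) (.nd 87 (.lf 3452) (.lf 3517) (.lf 3410) (.lf 3515) (.lf 3516) (.lf 3407)) (.nd 87 (.lf 3452) (.lf 3517) (.lf 3453) (.lf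 3518) (.lf 3519) (.lf 3520)) (.lf 3320) (.lf 3319)) (.lf 3522) (.lf 3347) (.lf 3513)) (.lf 3523)) (.lf 3525) (.lf 512) (.lf 511) (.lf 513)) (.lf 3528) (.lf 702)) (.lf 3529) (.lf 3369))

def tr151 : Tr := (.nd 67 (.lf 3356) (.lf 3565) (.nd 38 (.lf 3456) (.lf 3380) (.lf 3540) (.nd 113 (.lf 3539) (.lf 905) (.lf 3538) (.nd 27 (.lf 3536) (.lf 818) (.lf 3534) (.nd 84 tr150 (.lf 3532) (.lf 620) (.lf 3533) (.lf 621) (.lf 3531)) (.lf 3535) (.lf 817)) (.lf 3537) (.lf 904)) (.lf 3541) (.lf 3379)) (.nd 38 (.lf 3564) (.lf 3380) (.lf 3562) (.nd 44 (.lf 3561) (.lf 3559) (.nd 30 (.lf 3426) (.lf 3557) (.nd 22 (.lf 3554) (.lf 3435) (.lf 3553) (.nd 71 (.lf 3549) (.lf 3551) (.lf 3548) (.nd 139 (.lf 3421) (.lf 3546) (.nd 59 (.lf 3350) (.lf 3351) (.lf 3543) (.lf 3542) (.lf 3544) (.lf 702)) (.lf 3545) (.lf 3420) (.lf 3547))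 (.lf 3550) (.lf 3552)) (.lf 3555) (.lf 3434)) (.lf 3556) (.lf 3425) (.lf 3424)) (.lf 3558) (.lf 3347) (.lf 3560)) (.lf 3563) (.lf 3379)) (.lf 3355) (.lf 3492))

def tr152 : Tr := (.nd 60 (.nd 122 (.lf 3501) (.lf 3587) (.lf 3502) (.lf 3499) (.nd 149 (.lf 3266) (.nd 94 (.nd 116 (.lf 3568) (.nd 153 tr151 (.lf 3476) (.lf 3478) (.lf 3567) (.lf 3479) (.lf 3566)) (.lf 3569) (.lf 741) (.lf 3438) (.lf 3439)) (.lf 3583) (.lf 2360) (.lf 3582) (.lf 2359) (.nd 27 (.lf 3581) (.lf 818) (.lf 3579) (.nd 44 (.lf 3577) (.lf 3574) (.nd 26 (.lf 1810) (.lf 3573) (.nd 20 (.lf 3570) (.lf 3571) (.lf 610) (.lf 711) (.lf 611) (.lf 712)) (.lf 3572) (.lf 1809) (.lf 3188)) (.lf 3575) (.lf 3578) (.lf 3576)) (.lf 3580) (.lf 817))) (.lf 3584) (.lf 3268) (.lf 3585) (.lf 3267)) (.lf 3586)) (.lf 3588) (.lf 2254) (.lf 3590) (.lf 2253) (.lf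 3589))

def tr153 : Tr := (.nd 87 (.lf 3409) (.lf 3408) (.lf 3410) (.lf 3406) (.nd 101 (.lf 3404) (.lf 3405) (.lf 3402) (.nd 44 (.lf 3346) (.lf 3401) (.lf 3400) (.nd 131 (.lf 3397) (.lf 3399) (.nd 95 (.nd 59 (.lf 3350) (.lf 3351) (.lf 3391) (.nd 117 (.lf 3389) (.lf 1924) (.lf 3388) (.lf 3390) (.lf 3387) (.lf 3386)) (.lf 632) (.lf 702)) (.lf 3393) (.lf 3395) (.lf 3392) (.lf 3394) (.nd 59 (.lf 3350) (.lf 3351) (.lf 3385) (.nd 52 (.lf 3364) (.lf 3281) (.nd 68 (.lf 3383) (.lf 3381) (.lf 3382) (.lf 512) (.lf 511) (.lf 513)) (.lf 3384) (.lf 3365) (.lf 3282)) (.lf 632) (.lf 702))) (.lf 3396) (.lf 3398) (.lf 641)) (.lf 3347) (.lf 3345)) (.lf 3403) (.lf 636)) (.lf 3407))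

def tr154 : Tr := (.nd 37 (.lf 3321) (.lf 3413) (.nd 31 (.lf 3412) (.lf 3373) (.lf 3375) (.lf 3372) (.lf 3374) (.nd 38 (.lf 3378) (.lf 3380) (.lf 3411) tr153 (.lf 3377) (.lf 3379))) (.nd 38 (.lf 3378) (.lf 3380) (.lf 3376) (.nd 31 (.lf 3371) (.lf 3373) (.lf 3375) (.lf 3372) (.lf 3374) (.nd 71 (.lf 3368) (.lf 3370) (.lf 3366) (.nd 52 (.lf 3364) (.lf 3281) (.nd 67 (.lf 3356) (.lf 3353) (.nd 59 (.lf 3350) (.lf 3351) (.lf 3348) (.nd 44 (.lf 3346) (.lf 3344) (.lf 3343) (.lf 3342) (.lf 3347) (.lf 3345)) (.lf 3349) (.lf 702)) (.lf 3352) (.lf 3355) (.lf 3354)) (.nd 45 (.lf 3360) (.lf 3362) (.lf 3361) (.lf 3363) (.nd 59 (.lf 3350) (.lf 3351) (.lf 3358) (.lf 3357) (.lf 3349) (.lf 702)) (.lf 3359)) (.lf 3365) (.lf 3282)) (.lf 3367) (.lf 3369))) (.lf 3377) (.lf 3379)) (.lf 3320) (.lf 3319))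

def tr155 : Tr := (.nd 26 (.lf 1810) (.lf 3441) (.nd 102 (.lf 3313) (.lf 3466) (.nd 139 (.lf 3421) (.lf 3465) (.nd 67 (.lf 3356) (.lf 3463) (.nd 52 (.lf 3461) (.lf 3281) (.lf 3459) (.nd 45 (.lf 3458) (.lf 3362) (.lf 3361) (.lf 3363) (.nd 38 (.lf 3456) (.lf 3380) (.lf 3454) (.nd 87 (.lf 3452) (.lf 3451) (.lf 3453) (.lf 3450) (.nd 37 (.lf 3321) (.lf 3448) (.nd 19 (.lf 3444) (.lf 3446) (.lf 3445) (.lf 3252) (.lf 3442) (.lf 3443)) (.lf 3447) (.lf 3320) (.lf 3319)) (.lf 3449)) (.lf 3455) (.lf 3379)) (.lf 3457)) (.lf 3460) (.lf 3282)) (.lf 3462) (.lf 3355) (.lf 3354)) (.lf 3464) (.lf 3420) (.lf 3419)) (.lf 3467) (.lf 3314) (.lf 3312)) (.lf 3468) (.lf 1809) (.lf 3188))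

def tr156 : Tr := (.nd 10 (.lf 1952) (.lf 3473) (.nd 149 (.lf 3266) (.nd 113 (.lf 3470) (.lf 2907) (.lf 3469) (.nd 26 (.lf 1810) (.lf 3441) (.nd 116 (.lf 3436) (.nd 22 (.lf 3433) (.lf 3435) (.lf 3431) (.nd 104 (.lf 3430) (.lf 3427) (.nd 30 (.lf 3426) (.lf 3423) (.nd 139 (.lf 3421) (.lf 3418) (.nd 27 (.lf 3416) (.lf 818) (.lf 3414) tr154 (.lf 3415) (.lf 817)) (.lf 3417) (.lf 3420) (.lf 3419)) (.lf 3422) (.lf 3425) (.lf 3424)) (.lf 3428) (.lf 655) (.lf 3429)) (.lf 3432) (.lf 3434)) (.lf 3437) (.lf 741) (.lf 3438) (.lf 3439)) (.lf 3440) (.lf 1809) (.lf 3188)) tr155 (.lf 2908)) (.lf 3471) (.lf 3268) (.lf 3472) (.lf 3267)) (.lf 3474) (.lf 356) (.lf 1951))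

def tr157 : Tr := (.nd 3 (.lf 3220) (.lf 1161) (.lf 2266) (.lf 1162) tr152 (.nd 84 (.nd 122 (.lf 3501) (.lf 3500) (.lf 3502) (.lf 3499) (.nd 153 tr156 (.lf 3476) (.lf 3478) (.lf 3477) (.lf 3479) (.lf 3475)) (.nd 26 (.lf 1810) (.lf 3441) (.nd 82 (.lf 3494) (.lf 3493) (.lf 3496) (.lf 3495) (.lf 3497) (.nd 67 (.lf 3356) (.lf 3491) (.nd 147 (.nd 37 (.lf 3321) (.lf 3484) (.nd 38 (.lf 3456) (.lf 3380) (.lf 3481) (.lf 3480) (.lf 3482) (.lf 3379)) (.lf 3483) (.lf 3320) (.lf 3319)) (.lf 3485) (.lf 3488) (.lf 3487) (.lf 3489) (.lf 3486)) (.lf 3490) (.lf 3355) (.lf 3492))) (.lf 3498) (.lf 1809) (.lf 3188))) (.lf 3503) (.lf 3304) (.lf 3505) (.lf 3303) (.lf 3504)))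

def tr158 : Tr := (.nd 145 (.lf 3608) (.nd 11 (.lf 3291) (.lf 1157) (.lf 3290) (.lf 1156) (.nd 20 (.lf 3604) (.lf 3605) (.lf 3211) (.lf 3607) (.lf 3210) (.lf 3606)) (.nd 8 (.lf 3603) (.lf 2259) (.lf 3602) (.lf 3601) (.nd 63 (.lf 3597) (.lf 3599) (.nd 9 (.lf 3230) (.lf 3233) (.nd 146 (.lf 3591) (.lf 1978) (.lf 3593) (.lf 3594) (.lf 3592) tr157) (.lf 3595) (.lf 3231) (.lf 3232)) (.lf 3596) (.lf 3598) (.lf 3600)) (.lf 3263))) (.nd 3 (.lf 3341) (.lf 1161) (.lf 3203) (.lf 1162) (.nd 11 (.lf 3340) (.lf 1157) (.lf 3334) (.lf 1156) (.lf 3339) (.lf 3338)) (.nd 92 (.lf 1944) (.nd 11 (.lf 3332) (.lf 1157) (.lf 3334) (.lf 1156) (.lf 3333) (.nd 49 (.lf 3330) (.nd 21 (.nd 83 (.lf 3324) (.lf 3326) (.lf 3323) (.lf 3322) (.nd 37 (.lf 3321) (.lf 3318) (.lf 3317) (.lf 3316) (.lf 3320) (.lf 3319)) (.lf 3325)) (.lf 3327)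 (.lf 3328) (.lf 3192) (.lf 3190) (.lf 3193)) (.lf 3329) (.lf 1152) (.lf 3331) (.lf 1151))) (.lf 3336) (.lf 3335) (.lf 1945) (.lf 3337))) (.lf 2272) (.nd 3 (.lf 3127) (.lf 1161) (.lf 3235) (.lf 1162) (.lf 2269) (.lf 2268)) (.lf 2273))

def tr159 : Tr := (.nd 145 (.lf 3608) (.nd 8 (.lf 3642) (.lf 2259) (.lf 3640) (.lf 3641) (.nd 60 (.nd 84 (.nd 113 (.lf 3470) (.lf 2907) (.lf 3633) (.nd 3 (.lf 3220) (.lf 1161) (.lf 2266) (.lf 1162) (.lf 3631) (.lf 3630)) (.lf 3632) (.lf 2908)) (.lf 3636) (.lf 3304) (.lf 3634) (.lf 3303) (.lf 3635)) (.lf 3638) (.lf 2254) (.lf 3637) (.lf 2253) (.lf 3639)) (.lf 3263)) (.nd 3 (.lf 3341) (.lf 1161) (.lf 3203) (.lf 1162) (.lf 3629) (.nd 21 (.lf 3626) (.nd 11 (.lf 3625) (.lf 1157) (.lf 3334) (.lf 1156) (.lf 3333) (.lf 3624)) (.lf 3628) (.lf 3192) (.lf 3627) (.lf 3193))) (.lf 2272)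 (.nd 3 (.lf 3127) (.lf 1161) (.lf 3235) (.lf 1162) (.lf 2269) (.lf 2268)) (.lf 2273))

def tr160 : Tr := (.nd 46 (.nd 70 (.lf 278) (.nd 145 (.lf 3236) (.nd 20 (.lf 3622) (.nd 122 (.lf 3501) (.lf 3619) (.lf 3502) (.lf 3620) (.nd 3 (.lf 3220) (.lf 1161) (.lf 2266) (.lf 1162) (.lf 3617) (.lf 3616)) (.lf 3618)) (.lf 3211) (.lf 3621) (.lf 3210) (.lf 3209)) (.nd 9 (.lf 3613) (.lf 3233) (.lf 3614) (.nd 2 (.lf 3197) (.lf 3609) (.lf 3610) (.lf 3611) (.lf 1886) (.lf 3612)) (.lf 3615) (.lf 1858)) (.lf 2272) (.nd 3 (.lf 3234) (.lf 1161) (.lf 3235) (.lf 1162) (.lf 2269) (.lf 2268)) (.lf 2273)) tr158 (.lf 3623) (.lf 336) (.lf 3184)) (.lf 1893) (.lf 1892) (.lf 1894) (.lf 3659) (.nd 70 (.lf 278) (.nd 11 (.lf 3658) (.lf 1157) (.nd 145 (.lf 3236) (.lf 3290) (.lf 3334) (.lf 2272) (.lf 3643) (.lf 2273)) (.lf 1156) (.nd 145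 (.lf 3236) (.lf 3655) (.lf 3656) (.lf 2272) (.lf 3657) (.lf 2273)) (.nd 113 (.lf 3653) (.lf 2907) (.lf 3654) (.lf 3652) (.nd 89 (.nd 21 (.lf 3644) (.lf 3624) (.lf 3646) (.lf 3192) (.lf 3645) (.lf 3193)) (.lf 3649) (.lf 3650) (.lf 3647) (.lf 3651) (.lf 3648)) (.lf 2908))) tr159 (.lf 3623) (.lf 336) (.lf 3184)))

def tr161 : Tr := (.nd 126 (.lf 3674) (.nd 70 (.lf 278) tr146 (.nd 102 (.lf 3313) (.nd 46 tr147 (.lf 1893) (.lf 1892) (.lf 1894) (.lf 3292) tr148) tr149 (.lf 3311) (.lf 3314) (.lf 3312)) (.lf 3315) (.lf 336) (.lf 3184)) tr160 (.nd 145 (.lf 3672) (.nd 8 (.lf 3671) (.lf 2259) (.lf 3670) (.lf 3669) (.nd 3 (.lf 3220) (.lf 1161) (.lf 2266) (.lf 1162) (.nd 116 (.lf 3667) (.lf 3666) (.lf 3569) (.lf 741) (.lf 3438) (.lf 3439)) (.lf 3668)) (.lf 3263)) (.nd 3 (.lf 3664) (.lf 1161) (.lf 3203) (.lf 1162) (.lf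 3665) (.nd 21 (.lf 3661) (.lf 3660) (.lf 3662) (.lf 3192) (.lf 3663) (.lf 3193))) (.lf 2272) (.nd 3 (.lf 3234) (.lf 1161) (.lf 3235) (.lf 1162) (.lf 2269) (.lf 2268)) (.lf 2273)) (.lf 3675) (.lf 3673))

def tr162 : Tr := (.nd 7 (.lf 1803) (.nd 70 (.lf 278) (.nd 3 (.lf 5094) (.lf 1161) (.nd 145 (.lf 3236) (.lf 2266) (.lf 5091) (.lf 2272) (.lf 3235) (.lf 2273)) (.lf 1162) (.nd 145 (.lf 3236) (.lf 5092) (.lf 5093) (.lf 2272) (.lf 2269) (.lf 2273)) (.nd 2 (.lf 3197) (.nd 145 (.lf 3236) (.lf 5086) (.lf 5085) (.lf 2272) (.lf 2268) (.lf 2273)) (.lf 5087) (.lf 5089) (.lf 5090) (.lf 5088))) (.nd 149 (.lf 5104) (.lf 5103) (.nd 2 (.lf 3197) (.lf 5095) (.lf 5087) (.lf 5097) (.lf 5098) (.lf 5096)) (.lf 3268) (.nd 3 (.lf 5100) (.lf 1161) (.lf 5099) (.lf 1162) (.lf 5102) (.lf 5101)) (.lf 3267)) (.lf 5105) (.lf 336) (.lf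 3184)) (.nd 70 (.lf 278) tr100 tr145 (.lf 5084) (.lf 336) (.lf 3184)) tr161 (.lf 1802) (.lf 5106))

def tr163 : Tr := (.nd 98 (.lf 2389) (.lf 5144) (.nd 70 (.lf 278) tr97 (.nd 145 (.lf 5142) (.nd 122 (.lf 5141) (.lf 5138) (.lf 5140) (.lf 5139) (.nd 20 (.lf 3179) (.lf 5136) (.lf 3211) (.lf 3180) (.lf 3210) (.lf 3181)) (.lf 5137)) (.nd 3 (.lf 5118) (.lf 1161) (.lf 5119) (.lf 1162) (.lf 3173) (.nd 11 (.lf 3172) (.lf 1157) (.lf 5116) (.lf 1156) (.lf 5135) (.nd 21 (.lf 5132) (.nd 49 (.lf 5114) (.lf 5109) (.lf 3171) (.lf 1152) (.lf 5112) (.lf 1151)) (.lf 5134) (.lf 3192) (.lf 5133) (.lf 3193)))) (.lf 2272) (.nd 3 (.lf 3127) (.lf 1161) (.lf 3235) (.lf 1162) (.lf 2269) (.lf 2268)) (.lf 2273)) (.lf 5143) (.lf 336) (.lf 3184)) tr162 (.lf 2388) (.lf 2387))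

def tr164 : Tr := (.nd 0 (.lf 5633) (.lf 5632) (.nd 114 (.nd 3 (.lf 5618) (.lf 1161) (.lf 5615) (.lf 1162) (.lf 5617) (.lf 5616)) (.nd 70 (.lf 278) tr70 (.nd 98 (.lf 2389) (.lf 3182) tr71 (.nd 103 (.lf 3167) tr78 tr80 (.lf 857) (.lf 3168) (.lf 858)) (.lf 2388) (.lf 2387)) (.lf 3183) (.lf 336) (.lf 3184)) (.nd 103 (.lf 5614) tr96 tr163 (.lf 857) (.lf 3168) (.lf 858)) (.lf 5620) (.lf 5619) (.lf 5621)) (.nd 9 (.nd 3 (.lf 5624) (.lf 1015) (.lf 5625) (.lf 1162) (.lf 5627) (.lf 5626)) (.lf 5631) (.nd 3 (.lf 5624) (.lf 1015) (.lf 5625) (.lf 1162) (.lf 5622) (.lf 5623)) (.lf 5630) (.lf 5629) (.lf 5628)) (.lf 1072) (.lf 1075))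

def tr165 : Tr := (.nd 70 (.lf 278) (.nd 21 (.nd 11 (.lf 5886) (.lf 1157) (.lf 5885) (.lf 1156) (.lf 5893) (.nd 113 (.lf 5883) (.lf 403) (.lf 5835) (.lf 5882) (.lf 5892) (.lf 2908))) (.lf 5888) (.lf 5887) (.lf 844) (.nd 145 (.lf 5878) (.lf 5891) (.nd 3 (.lf 5890) (.lf 1161) (.lf 5204) (.lf 1162) (.lf 5880) (.lf 5879)) (.lf 2272) (.lf 836) (.lf 2273)) (.lf 5889)) (.nd 21 (.nd 11 (.lf 5886) (.lf 1157) (.lf 5885) (.lf 1156) (.lf 5884) (.nd 113 (.lf 5883) (.lf 403) (.lf 5835) (.lf 5882) (.lf 5881) (.lf 2908))) (.lf 5888) (.lf 5887) (.lf 844) (.nd 145 (.lf 5878) (.lf 5588) (.nd 3 (.lf 5350) (.lf 1161) (.lf 5204) (.lf 1162) (.lf 5880) (.lf 5879)) (.lf 2272) (.lf 836) (.lf 2273)) (.lf 5889)) (.lf 854) (.lf 336) (.lf 3184))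

def tr166 : Tr := (.nd 71 (.lf 3549) (.lf 507) (.nd 53 (.nd 22 (.lf 5731) (.lf 3435) (.lf 5730) (.nd 26 (.lf 1810) (.lf 3206) (.lf 5728) (.lf 5729) (.lf 1809) (.lf 3188)) (.lf 5732) (.lf 630)) (.nd 94 (.nd 26 (.lf 1810) (.lf 3206) (.nd 22 (.lf 3554) (.lf 3435) (.lf 5725) (.lf 5726) (.lf 5707) (.lf 630)) (.nd 22 (.lf 3554) (.lf 3435) (.lf 5723) (.lf 5724) (.lf 5707) (.lf 630)) (.lf 1809) (.lf 3188)) (.lf 5715) (.lf 2360) (.lf 5714) (.lf 2359) (.lf 5727)) (.lf 5733) (.lf 5711) (.lf 5710) (.lf 5712)) (.nd 26 (.lf 1810) (.lf 3206) (.nd 53 (.nd 139 (.lf 5698) (.lf 3546) (.lf 5735) (.lf 5734) (.lf 5697) (.lf 3419)) (.lf 5736) (.lf 5733) (.lf 5711) (.lf 5710) (.lf 5712)) (.lf 5737) (.lf 1809) (.lf 3188)) (.lf 5717) (.lf 508))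

def tr167 : Tr := (.nd 30 (.lf 5643) (.lf 5744) (.nd 44 (.lf 3577) (.lf 5721) (.nd 59 (.lf 5703) (.lf 3351) (.lf 5742) (.nd 101 (.lf 5740) (.lf 517) (.nd 38 (.lf 5680) (.lf 5681) (.lf 5719) (.nd 20 (.lf 5738) tr166 (.lf 495) (.lf 576) (.lf 496) (.lf 5677)) (.lf 5718) (.lf 5682)) (.lf 5739) (.lf 5741) (.lf 518)) (.lf 5702) (.lf 702)) (.lf 5743) (.lf 3578) (.lf 5722)) (.nd 44 (.lf 3577) (.lf 5721) (.nd 38 (.lf 5680) (.lf 5681) (.lf 5719) (.nd 71 (.lf 3549) (.lf 3551) (.nd 94 (.nd 53 (.lf 5709) (.nd 22 (.lf 3554) (.lf 3435) (.lf 5705) (.lf 5706) (.lf 5707) (.lf 630)) (.lf 5708) (.lf 5711) (.lf 5710) (.lf 5712)) (.lf 5715) (.lf 2360) (.lf 5714) (.lf 2359) (.lf 5713)) (.lf 5716) (.lf 5717) (.lf 3552)) (.lf 5718) (.lf 5682)) (.lf 5720) (.lf 3578) (.lf 5722)) (.lf 5642) (.lf 5641))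

def tr168 : Tr := (.nd 126 (.lf 3674) (.lf 5693) (.nd 7 (.lf 1803) (.lf 1966) (.lf 5691) (.nd 30 (.lf 5643) (.lf 5690) (.nd 44 (.lf 3577) (.lf 5689) (.nd 20 (.nd 26 (.lf 1810) (.lf 3573) (.lf 5687) (.lf 5686) (.lf 1809) (.lf 3188)) (.lf 5688) (.lf 495) (.lf 576) (.lf 496) (.lf 5677)) (.lf 5684) (.lf 3578) (.lf 5685)) (.nd 44 (.lf 3577) (.lf 5683) (.nd 38 (.lf 5680) (.lf 5681) (.lf 5679) (.nd 20 (.nd 36 (.lf 483) (.lf 5675) (.lf 482) (.lf 5673) (.lf 5672) (.lf 5674)) (.lf 5676) (.lf 495) (.lf 576) (.lf 496) (.lf 5677)) (.lf 5678) (.lf 5682)) (.lf 5684) (.lf 3578) (.lf 5685)) (.lf 5642) (.lf 5641)) (.lf 1802) (.lf 5106)) (.lf 5692) (.lf 477) (.lf 476))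

def tr169 : Tr := (.nd 19 (.lf 5763) (.lf 2241) (.lf 5761) (.lf 5764) (.nd 146 (.lf 5757) (.lf 1978) (.lf 5759) (.lf 5760) (.lf 5758) (.nd 149 (.lf 5755) (.nd 84 (.nd 27 (.lf 5750) (.lf 818) (.lf 5748) (.nd 126 (.lf 3674) (.lf 5746) (.nd 7 (.lf 1803) (.lf 1966) (.lf 5745) tr167 (.lf 1802) (.lf 5106)) (.lf 5747) (.lf 3675) (.lf 5650)) (.lf 5749) (.lf 817)) (.lf 5751) (.lf 5753) (.lf 5752) (.lf 3303) (.nd 59 (.lf 5703) (.lf 5704) (.lf 5701) (.nd 68 (.lf 5700) (.nd 139 (.lf 5698) (.lf 5695) (.lf 5694) tr168 (.lf 5697) (.lf 5696)) (.lf 5699) (.lf 512) (.lf 511) (.lf 513)) (.lf 5702) (.lf 702))) (.lf 5754) (.lf 3268) (.lf 5756) (.lf 3267))) (.lf 5762))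

def tr170 : Tr := (.nd 139 (.lf 5698) (.lf 5828) (.lf 5827) (.nd 7 (.lf 1803) (.lf 2215) (.lf 5826) (.nd 37 (.lf 3321) (.lf 5824) (.lf 5823) (.nd 39 (.lf 3218) (.lf 5821) (.lf 5822) (.nd 102 (.lf 3313) (.lf 5817) (.nd 126 (.lf 3674) (.lf 3295) (.nd 30 (.lf 5643) (.lf 3423) (.nd 52 (.lf 5814) (.lf 3281) (.nd 26 (.lf 1810) (.lf 3214) (.lf 5811) (.lf 5812) (.lf 1809) (.lf 3188)) (.lf 5813) (.lf 4779) (.lf 3282)) (.nd 44 (.lf 3346) (.lf 3344) (.lf 5816) (.lf 5815) (.lf 3347) (.lf 3345)) (.lf 5642) (.lf 5641)) (.lf 5805) (.lf 477) (.lf 476)) (.lf 5818) (.lf 3314) (.lf 3312)) (.lf 5819) (.lf 5820)) (.lf 3320) (.lf 5825)) (.lf 1802) (.lf 5106)) (.lf 5697) (.lf 3547))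

def tr171 : Tr := (.nd 113 (.lf 5836) (.lf 403) (.lf 5835) (.nd 38 (.lf 5680) (.lf 5681) (.lf 5833) (.nd 94 (.nd 59 (.lf 3350) (.lf 5704) (.lf 5829) tr170 (.lf 3349) (.lf 702)) (.lf 5831) (.lf 2360) (.lf 5832) (.lf 2359) (.lf 5830)) (.lf 5834) (.lf 5682)) (.nd 153 (.nd 126 (.lf 3674) (.lf 5804) (.nd 104 (.lf 5803) (.lf 5801) (.nd 7 (.lf 1803) (.lf 2215) (.lf 5800) (.nd 30 (.lf 5643) (.lf 5799) (.nd 58 (.lf 5792) (.lf 5793) (.lf 5795) (.lf 5794) (.lf 5796) (.nd 19 (.lf 5789) (.lf 5791) (.lf 5790) (.lf 5764) (.lf 5788) (.lf 5787))) (.nd 122 (.lf 3501) (.lf 3500) (.lf 5781) (.lf 5779) (.lf 5797) (.lf 5798)) (.lf 5642) (.lf 5641)) (.lf 1802) (.lf 5106)) (.lf 5802) (.lf 655) (.lf 3429)) (.lf 5805) (.lf 3675) (.lf 5650)) (.lf 5806) (.lf 5809) (.lf 5808) (.lf 5810) (.lf 5807)) (.lf 2908))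

def tr172 : Tr := (.nd 3 (.lf 3220) (.lf 1161) (.lf 2266) (.lf 1162) (.nd 151 (.lf 5785) (.lf 5782) (.nd 122 (.lf 5141) (.lf 5780) (.lf 5781) (.lf 5779) (.nd 16 (.lf 3809) (.lf 5776) (.nd 8 (.lf 5773) (.lf 1970) (.lf 5772) (.lf 5771) (.nd 90 (.nd 60 tr169 (.lf 5766) (.lf 2254) (.lf 5767) (.lf 2253) (.lf 5765)) (.lf 5769) (.lf 4520) (.lf 5770) (.lf 4521) (.lf 5768)) (.lf 5774)) (.lf 5775) (.lf 398) (.lf 5777)) (.lf 5778)) (.lf 5783) (.lf 5786) (.lf 5784)) (.nd 16 (.lf 3809) (.lf 5856) (.nd 9 (.lf 5855) (.lf 3233) (.nd 118 (.lf 2883) (.lf 5852) (.lf 5853) (.nd 89 (.lf 5845) (.lf 5846) (.lf 5849) (.lf 5847) (.lf 5848) (.nd 146 (.lf 5842) (.lf 1978) (.lf 5844) (.lf 5760) (.lf 5843) (.nd 133 tr171 (.lf 5837) (.lf 5840) (.lf 5839) (.lf 5841) (.lf 5838)))) (.lf 5850) (.lf 5851)) (.lf 5854) (.lf 3231) (.lf 412))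 (.lf 5857) (.lf 398) (.lf 5777)))

def tr173 : Tr := (.nd 113 (.nd 3 (.lf 5669) (.lf 1161) (.lf 5667) (.lf 1162) (.lf 5207) (.lf 5668)) (.lf 403) (.lf 5671) (.lf 5670) (.nd 3 (.lf 5666) (.lf 1161) (.lf 5667) (.lf 1162) (.nd 30 (.lf 5643) (.lf 5665) (.lf 5664) (.lf 5663) (.lf 5642) (.lf 5641)) (.nd 11 (.nd 30 (.lf 5643) (.lf 5660) (.lf 5659) (.lf 5658) (.lf 5642) (.lf 5641)) (.lf 1157) (.lf 5662) (.lf 1156) (.lf 5661) (.nd 2 (.lf 5657) (.nd 48 (.lf 5653) (.lf 5340) (.nd 126 (.lf 3674) (.lf 5648) (.nd 117 (.lf 5644) (.lf 3141) (.lf 5646) (.lf 5647) (.lf 5645) (.nd 30 (.lf 5643) (.lf 5640) (.lf 5638) (.lf 5639) (.lf 5642) (.lf 5641))) (.lf 5649) (.lf 3675) (.lf 5650)) (.lf 5651) (.lf 5652) (.lf 5339)) (.lf 5654) (.lf 5655) (.lf 1886) (.lf 5656)))) (.lf 2908))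

def tr174 : Tr := (.nd 103 (.lf 5894) tr165 (.nd 145 (.lf 5878) (.nd 11 (.lf 5875) (.lf 1157) (.lf 3290) (.lf 1156) (.nd 149 (.lf 5872) (.nd 113 (.lf 5871) (.lf 403) (.lf 5869) (.nd 59 (.lf 5703) (.lf 5704) (.lf 5867) (.nd 53 (.lf 5865) (.nd 26 (.lf 1810) (.lf 5863) (.lf 5862) (.lf 5861) (.lf 1809) (.lf 3188)) (.lf 5864) (.lf 5711) (.lf 5866) (.lf 5712)) (.lf 5868) (.lf 702)) (.lf 5870) (.lf 2908)) (.lf 5873) (.lf 3268) (.lf 5874) (.lf 3267)) (.nd 24 (.lf 2911) (.lf 5859) (.lf 5858) tr172 (.lf 2910) (.lf 5860))) tr173 (.lf 2272) (.nd 3 (.lf 5876) (.lf 1161) (.lf 5877) (.lf 1162) (.lf 2269) (.lf 2268)) (.lf 2273)) (.lf 857) (.lf 3168) (.lf 858))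

def tr175 : Tr := (.nd 20 (.nd 59 (.lf 5703) (.lf 5704) (.lf 5953) (.nd 11 (.lf 5875) (.lf 459) (.lf 473) (.lf 460) (.lf 5952) (.nd 8 (.lf 5951) (.lf 2259) (.lf 5950) (.lf 5949) (.nd 44 (.lf 5935) (.lf 5946) (.nd 36 (.lf 483) (.lf 5944) (.lf 482) (.lf 5942) (.lf 5943) (.lf 5945)) (.lf 5947) (.lf 5934) (.lf 5948)) (.lf 5774))) (.lf 5954) (.lf 702)) (.nd 90 (.nd 52 (.lf 5937) (.lf 5939) (.nd 44 (.lf 5935) (.lf 5931) (.nd 71 (.lf 5928) (.lf 5930) (.nd 84 (.nd 38 (.lf 5680) (.lf 5681) (.lf 5923) (.lf 5922) (.nd 59 (.lf 5703) (.lf 5704) (.lf 5920) (.lf 5919) (.lf 5921) (.lf 702)) (.lf 5682)) (.lf 5925) (.lf 5753) (.lf 5926) (.lf 3303) (.lf 5924)) (.lf 5927) (.lf 5929) (.lf 5613)) (.lf 5932) (.lf 5934) (.lf 5933)) (.lf 5936) (.lf 5938) (.lf 3282)) (.lf 5941) (.lf 4520) (.lf 5770) (.lf 4521) (.lf 5940)) (.lf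 3211) (.lf 5955) (.lf 3210) (.lf 5956))

def tr176 : Tr := (.nd 145 (.lf 5970) (.nd 118 (.lf 2883) (.lf 5969) (.lf 5853) (.nd 149 (.lf 5872) (.nd 146 (.lf 5965) (.lf 1978) (.lf 5964) (.lf 5760) (.lf 5963) (.nd 136 (.lf 3309) (.lf 5960) (.lf 3308) (.nd 122 (.lf 5141) (.lf 5959) (.lf 5781) (.lf 5958) tr175 (.lf 5957)) (.lf 5961) (.lf 5962))) (.lf 5966) (.lf 3268) (.lf 5967) (.lf 3267)) (.lf 5968) (.lf 5851)) (.nd 146 (.nd 9 (.lf 5913) (.lf 3233) (.lf 5911) (.nd 2 (.lf 5657) (.nd 21 (.lf 5904) (.lf 5905) (.lf 5906) (.lf 3192) (.lf 5907) (.lf 3193)) (.lf 5908) (.lf 5909) (.lf 1886) (.lf 5910)) (.lf 5912) (.lf 1858)) (.lf 1978) (.nd 3 (.lf 5915) (.lf 1161) (.lf 5667) (.lf 1162) (.lf 5916) (.lf 5914)) (.lf 5760) (.lf 5918) (.lf 5917)) (.lf 2272) (.nd 3 (.lf 5876) (.lf 1161) (.lf 5877) (.lf 1162) (.lf 2269) (.lf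 2268)) (.lf 2273))

def tr177 : Tr := (.nd 0 (.lf 5633) (.lf 5632) (.nd 103 (.lf 5894) (.nd 9 (.nd 145 (.lf 5970) (.lf 5855) (.lf 5971) (.lf 2272) (.lf 5972) (.lf 2273)) (.lf 5988) (.nd 20 (.lf 5983) (.lf 5981) (.lf 3211) (.lf 5982) (.lf 3210) (.lf 5984)) (.lf 5986) (.lf 5987) (.lf 5985)) (.nd 114 (.lf 5980) (.nd 9 (.nd 145 (.lf 5970) (.lf 5855) (.lf 5971) (.lf 2272) (.lf 5972) (.lf 2273)) (.lf 1859) (.nd 20 (.lf 5975) (.lf 5973) (.lf 1964) (.lf 5974) (.lf 1963) (.lf 5976)) (.lf 5978) (.lf 5979) (.lf 5977)) tr176 (.lf 5620) (.lf 5619) (.lf 5621)) (.lf 857) (.lf 3168) (.lf 858)) (.nd 9 (.nd 3 (.lf 5900) (.lf 1015) (.lf 5899) (.lf 1162) (.lf 5627) (.lf 5626)) (.lf 5631) (.nd 11 (.lf 5898) (.lf 1157) (.lf 5897) (.lf 1156) (.lf 5896) (.lf 5895)) (.lf 5630) (.lf 5902) (.lf 5989)) (.lf 1072) (.lf 1075))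

def tr178 : Tr := (.nd 1 (.nd 0 (.lf 297) (.lf 5632) (.nd 14 (.lf 6306) (.lf 440) (.lf 5992) (.lf 5993) (.nd 17 (.lf 5994) (.lf 444) (.lf 5995) (.lf 443) tr18 (.nd 145 (.lf 5878) (.lf 6302) (.nd 3 (.lf 6299) (.lf 201) (.lf 5667) (.lf 1162) (.lf 6300) (.lf 6298)) (.lf 1128) (.lf 6301) (.lf 211))) (.nd 145 (.lf 5970) (.lf 6305) (.lf 6303) (.lf 1128) (.lf 6304) (.lf 211))) (.nd 3 (.lf 6309) (.lf 201) (.lf 6307) (.lf 1162) (.lf 6310) (.lf 6308)) (.lf 6311) (.lf 1075)) (.nd 17 (.lf 5994) (.lf 444) (.lf 5995) (.lf 443) (.nd 12 (.lf 5636) (.lf 1121) (.lf 5637) (.lf 5635) tr164 (.lf 5634)) (.nd 14 (.lf 5991) (.lf 1037) (.lf 5992) (.lf 5993) (.nd 12 (.lf 5636) (.lf 1121) (.lf 5637) (.lf 5635) (.nd 0 (.lf 5633) (.lf 5632) tr174 (.nd 9 (.nd 3 (.lf 5900) (.lf 1015) (.lf 5899) (.lf 1162) (.lf 5627) (.lf 5626)) (.lf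 5631) (.nd 11 (.lf 5898) (.lf 1157) (.lf 5897) (.lf 1156) (.lf 5896) (.lf 5895)) (.lf 5630) (.lf 5902) (.lf 5901)) (.lf 1072) (.lf 1075)) (.lf 5903)) (.nd 12 (.lf 5636) (.lf 1121) (.lf 5637) (.lf 5635) tr177 (.lf 5990)))) (.lf 1144) (.lf 6313) (.lf 1146) (.lf 6312))

def tr179 : Tr := (.nd 17 (.lf 845) (.lf 444) (.lf 442) (.lf 443) (.nd 145 (.lf 834) (.nd 3 (.lf 833) (.lf 325) (.lf 832) (.lf 326) (.nd 11 (.lf 830) (.lf 784) (.lf 829) (.lf 783) (.lf 828) (.lf 827)) (.lf 831)) (.nd 21 (.lf 825) (.lf 826) (.lf 824) (.lf 319) (.nd 3 (.lf 320) (.lf 325) (.lf 324) (.lf 326) (.lf 323) (.lf 823)) (.lf 312)) (.lf 835) (.nd 3 (.lf 819) (.lf 325) (.lf 822) (.lf 326) (.lf 821) (.lf 820)) (.lf 380)) (.nd 21 (.nd 3 (.lf 842) (.lf 325) (.lf 841) (.lf 326) (.nd 145 (.lf 834) (.lf 839) (.lf 323) (.lf 835) (.lf 821) (.lf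 380)) (.lf 840)) (.lf 382) (.lf 843) (.lf 844) (.nd 145 (.lf 834) (.lf 838) (.lf 837) (.lf 835) (.lf 836) (.lf 380)) (.lf 386)))

def tr180 : Tr := (.nd 145 (.lf 378) (.nd 3 (.lf 376) (.lf 325) (.lf 377) (.lf 326) (.nd 4 (.lf 366) (.lf 370) (.lf 368) (.lf 369) (.lf 367) (.nd 146 (.lf 363) (.lf 365) (.lf 361) (.lf 364) (.lf 362) (.nd 8 (.lf 359) (.lf 360) (.lf 358) (.lf 357) (.nd 10 (.lf 355) (.lf 352) (.lf 351) (.lf 353) (.lf 356) (.lf 354)) (.lf 346)))) (.nd 4 (.lf 374) (.lf 370) (.lf 368) (.lf 369) (.lf 375) (.nd 10 (.lf 355) (.lf 371) (.lf 372) (.lf 373) (.lf 356) (.lf 354)))) (.nd 70 (.lf 278) (.nd 3 (.nd 21 (.lf 321) (.lf 322) (.lf 318) (.lf 319) (.lf 320) (.lf 312)) (.lf 325) (.lf 324) (.lf 326) (.lf 323) (.nd 9 (.lf 315) (.lf 317) (.lf 313) (.nd 21 (.lf 308) (.nd 2 (.lf 307) (.lf 302) (.lf 303)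 (.lf 304) (.lf 305) (.lf 306)) (.lf 310) (.lf 311) (.lf 309) (.lf 312)) (.lf 314) (.lf 316))) (.nd 3 (.lf 331) (.lf 325) (.lf 333) (.lf 326) (.lf 332) (.nd 21 (.lf 328) (.lf 327) (.lf 329) (.lf 319) (.lf 330) (.lf 312))) (.lf 334) (.lf 336) (.lf 335)) (.lf 379) (.nd 118 (.lf 348) (.nd 3 (.lf 338) (.lf 325) (.lf 337) (.lf 326) (.lf 340) (.lf 339)) (.lf 350) (.nd 8 (.lf 341) (.lf 344) (.lf 342) (.lf 345) (.lf 343) (.lf 346)) (.lf 349) (.lf 347)) (.lf 380))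

def tr181 : Tr := (.nd 145 (.lf 419) (.nd 4 (.lf 417) (.lf 370) (.lf 368) (.lf 369) (.lf 418) (.nd 118 (.lf 348) (.lf 414) (.lf 350) (.nd 9 (.lf 410) (.lf 413) (.nd 8 (.lf 407) (.lf 408) (.lf 405) (.lf 406) (.nd 113 (.lf 401) (.lf 403) (.lf 402) (.nd 16 (.lf 399) (.lf 396) (.lf 395) (.lf 394) (.lf 398) (.lf 397)) (.lf 400) (.lf 404)) (.lf 346)) (.lf 409) (.lf 411) (.lf 412)) (.lf 415) (.lf 416))) (.nd 3 (.lf 387) (.lf 325) (.lf 389) (.lf 326) (.lf 388) (.nd 21 (.lf 383) (.nd 70 (.lf 278) (.lf 382) (.lf 381) (.lf 334) (.lf 336) (.lf 335)) (.lf 384) (.lf 319) (.lf 385) (.lf 386))) (.lf 379) (.nd 3 (.nd 118 (.lf 348) (.lf 338) (.lf 350) (.lf 390) (.lf 349) (.lf 347)) (.lf 325) (.lf 393) (.lf 326) (.lf 391) (.lf 392)) (.lf 380))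

def tr182 : Tr := (.nd 145 (.lf 419) (.nd 118 (.lf 348) (.lf 436) (.lf 350) (.nd 4 (.lf 417) (.lf 370) (.lf 368) (.lf 369) (.lf 418) (.nd 8 (.lf 435) (.lf 408) (.nd 3 (.lf 376) (.lf 325) (.lf 377) (.lf 326) (.lf 433) (.lf 434)) (.lf 406) (.nd 20 (.lf 428) (.nd 16 (.lf 399) (.lf 427) (.lf 426) (.nd 3 (.lf 376) (.lf 325) (.lf 377) (.lf 326) (.lf 425) (.lf 424)) (.lf 398) (.lf 397)) (.lf 432) (.lf 429) (.lf 431) (.lf 430)) (.lf 346))) (.lf 415) (.lf 416)) (.nd 3 (.lf 422) (.lf 325) (.lf 389) (.lf 326) (.lf 388) (.nd 21 (.lf 421) (.lf 420) (.lf 384) (.lf 319) (.lf 385) (.lf 386))) (.lf 379) (.nd 3 (.lf 423) (.lf 325) (.lf 393) (.lf 326) (.lf 391) (.lf 392)) (.lf 380))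

def tr183 : Tr := (.nd 70 (.lf 278) (.nd 21 (.nd 3 (.lf 725) (.lf 325) (.lf 724) (.lf 326) (.nd 145 (.lf 719) (.lf 722) (.lf 323) (.lf 673) (.lf 670) (.lf 380)) (.lf 723)) (.lf 708) (.lf 726) (.lf 727) (.nd 145 (.lf 719) (.lf 721) (.lf 707) (.lf 673) (.lf 720) (.lf 380)) (.lf 312)) (.nd 145 (.lf 719) (.nd 8 (.lf 716) (.lf 717) (.lf 715) (.lf 714) (.nd 3 (.lf 688) (.lf 325) (.lf 689) (.lf 326) (.nd 20 (.lf 710) (.lf 709) (.lf 610) (.lf 711) (.lf 611) (.lf 712)) (.lf 713)) (.lf 662)) (.nd 21 (.lf 706) (.lf 708) (.nd 3 (.lf 331) (.lf 325) (.lf 705) (.lf 326) (.lf 332) (.lf 704)) (.lf 319) (.lf 707) (.lf 312)) (.lf 673) (.nd 3 (.lf 718) (.lf 325) (.lf 669) (.lf 326) (.lf 670) (.lf 671)) (.lf 380)) (.lf 728) (.lf 336) (.lf 335))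

def tr184 : Tr := (.nd 14 (.lf 700) (.lf 440) (.lf 438) (.lf 439) (.nd 145 (.lf 693) (.nd 8 (.lf 692) (.lf 408) (.lf 690) (.lf 691) (.nd 3 (.lf 688) (.lf 325) (.lf 689) (.lf 326) (.nd 16 (.lf 399) (.lf 685) (.lf 697) (.lf 698) (.lf 398) (.lf 686)) (.lf 699)) (.lf 662)) (.nd 21 (.lf 694) (.lf 696) (.nd 9 (.lf 677) (.lf 413) (.lf 675) (.lf 585) (.lf 676) (.lf 599)) (.lf 319) (.lf 695) (.lf 386)) (.lf 673) (.nd 3 (.lf 668) (.lf 325) (.lf 669) (.lf 326) (.lf 670) (.lf 671)) (.lf 380)) (.nd 145 (.lf 693) (.nd 8 (.lf 692) (.lf 408) (.lf 690) (.lf 691) (.nd 3 (.lf 688) (.lf 325) (.lf 689) (.lf 326) (.nd 16 (.lf 399) (.lf 685) (.lf 683) (.lf 684) (.lf 398) (.lf 686)) (.lf 687)) (.lf 662)) (.nd 11 (.lf 678) (.lf 681) (.lf 679) (.lf 682) (.lf 680) (.nd 9 (.lf 677) (.lf 413) (.lf 675) (.lf 674) (.lf 676) (.lf 599)))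 (.lf 673) (.nd 3 (.lf 668) (.lf 325) (.lf 669) (.lf 326) (.lf 670) (.lf 671)) (.lf 380)))

def tr185 : Tr := (.nd 146 (.lf 501) (.lf 503) (.lf 502) (.lf 364) (.lf 500) (.nd 113 (.lf 499) (.lf 403) (.lf 498) (.nd 20 (.nd 90 (.nd 36 (.lf 483) (.lf 480) (.lf 482) (.nd 126 (.lf 478) (.lf 475) (.nd 11 (.lf 472) (.lf 459) (.lf 473) (.lf 460) (.lf 471) (.lf 470)) (.lf 474) (.lf 477) (.lf 476)) (.lf 479) (.lf 481)) (.lf 484) (.lf 487) (.lf 486) (.lf 488) (.lf 485)) (.nd 90 (.nd 126 (.lf 478) (.lf 475) (.nd 11 (.lf 472) (.lf 459) (.lf 473) (.lf 460) (.lf 490) (.lf 489)) (.lf 491) (.lf 477) (.lf 476)) (.lf 492) (.lf 487) (.lf 486) (.lf 488) (.lf 485)) (.lf 495) (.lf 494) (.lf 496) (.lf 493)) (.lf 497) (.lf 469)))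

def tr186 : Tr := (.nd 8 (.lf 548) (.lf 408) (.lf 547) (.nd 146 (.lf 545) (.lf 503) (.lf 546) (.lf 364) (.lf 544) (.nd 90 (.nd 60 (.lf 537) (.lf 538) (.lf 541) (.lf 539) (.lf 540) (.nd 126 (.lf 478) (.lf 536) (.lf 535) (.lf 534) (.lf 477) (.lf 476))) (.lf 542) (.lf 487) (.lf 486) (.lf 488) (.lf 543))) (.nd 136 (.lf 532) (.lf 531) (.lf 533) (.nd 131 (.lf 525) (.lf 527) (.nd 95 (.lf 519) (.lf 521) (.lf 523) (.lf 520) (.lf 522) (.nd 101 (.lf 515) (.lf 517) (.nd 68 (.lf 510) (.nd 71 (.lf 505) (.lf 507) tr185 (.lf 504) (.lf 506) (.lf 508)) (.lf 509) (.lf 512) (.lf 511) (.lf 513)) (.lf 514) (.lf 516) (.lf 518))) (.lf 524) (.lf 526) (.lf 528)) (.lf 529) (.lf 530)) (.lf 549))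

def tr187 : Tr := (.nd 145 (.lf 566) (.nd 118 (.lf 348) (.lf 561) (.lf 350) (.nd 89 (.lf 556) (.lf 557) (.lf 559) (.lf 555) (.lf 558) (.nd 149 (.lf 552) tr186 (.lf 550) (.lf 554) (.lf 551) (.lf 553))) (.lf 560) (.lf 416)) (.nd 113 (.nd 3 (.lf 465) (.lf 325) (.lf 463) (.lf 326) (.lf 466) (.lf 464)) (.lf 403) (.lf 467) (.lf 468) (.nd 3 (.lf 462) (.lf 325) (.lf 463) (.lf 326) (.lf 461) (.nd 11 (.lf 456) (.lf 459) (.lf 458) (.lf 460) (.lf 457) (.nd 48 (.lf 453) (.lf 455) (.nd 29 (.lf 445) (.lf 447) (.lf 446) (.lf 449) (.lf 448) (.lf 450)) (.lf 452) (.lf 451) (.lf 454)))) (.lf 469)) (.lf 567) (.nd 3 (.lf 562) (.lf 325) (.lf 563) (.lf 326) (.lf 564) (.lf 565)) (.lf 380))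

def tr188 : Tr := (.nd 8 (.lf 661) (.lf 408) (.lf 660) (.nd 113 (.lf 659) (.lf 403) (.lf 657) (.nd 104 (.lf 656) (.lf 653) (.nd 60 (.lf 647) (.lf 649) (.lf 651) (.lf 648) (.lf 650) (.nd 32 (.lf 616) (.lf 646) (.nd 14 (.lf 644) (.lf 440) (.lf 438) (.lf 439) (.lf 643) (.lf 642)) (.lf 645) (.lf 615) (.lf 614))) (.lf 652) (.lf 655) (.lf 654)) (.lf 658) (.lf 605)) (.nd 131 (.lf 638) (.lf 640) (.nd 101 (.lf 634) (.lf 635) (.nd 22 (.lf 629) (.lf 631) (.nd 68 (.lf 623) (.nd 84 (.lf 617) (.lf 618) (.lf 620) (.lf 619) (.lf 621) (.nd 32 (.lf 616) (.lf 613) (.nd 20 (.lf 606) (.lf 607) (.lf 610) (.lf 608) (.lf 611) (.lf 609)) (.lf 612) (.lf 615) (.lf 614))) (.lf 622) (.lf 625) (.lf 624) (.lf 626)) (.lf 627) (.lf 628) (.lf 630)) (.lf 632) (.lf 633) (.lf 636)) (.lf 637) (.lf 639) (.lf 641)) (.lf 662))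

def tr189 : Tr := (.nd 59 (.lf 701) (.lf 703) tr184 (.nd 14 (.lf 583) (.lf 440) (.lf 438) (.lf 439) (.nd 145 (.lf 566) (.nd 149 (.lf 552) (.nd 8 (.lf 548) (.lf 408) (.lf 547) (.lf 581) (.nd 3 (.lf 579) (.lf 325) (.lf 580) (.lf 326) (.nd 20 (.lf 575) (.lf 574) (.lf 495) (.lf 576) (.lf 496) (.lf 577)) (.lf 578)) (.lf 549)) (.lf 582) (.lf 554) (.lf 551) (.lf 553)) (.nd 3 (.lf 573) (.lf 325) (.lf 463) (.lf 326) (.lf 572) (.nd 21 (.lf 569) (.lf 568) (.lf 570) (.lf 319) (.lf 571) (.lf 386))) (.lf 567) (.nd 3 (.lf 562) (.lf 325) (.lf 563) (.lf 326) (.lf 564) (.lf 565)) (.lf 380)) tr187) (.nd 145 (.lf 672) (.nd 89 (.lf 665) (.lf 664) (.lf 666) (.lf 663) (.lf 667) tr188) (.nd 113 (.nd 9 (.lf 598) (.lf 413) (.lf 602) (.lf 601) (.lf 600) (.lf 599)) (.lf 403) (.lf 603) (.lf 604) (.nd 9 (.lf 598) (.lf 413) (.lf 597)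 (.nd 49 (.lf 589) (.lf 588) (.nd 21 (.lf 586) (.lf 584) (.lf 585) (.lf 311) (.lf 587) (.lf 386)) (.lf 591) (.lf 590) (.lf 592)) (.nd 3 (.lf 593) (.lf 325) (.lf 596) (.lf 326) (.lf 595) (.lf 594)) (.lf 599)) (.lf 605)) (.lf 673) (.nd 3 (.lf 668) (.lf 325) (.lf 669) (.lf 326) (.lf 670) (.lf 671)) (.lf 380)) (.lf 702))

def tr190 : Tr := (.nd 17 (.lf 770) (.lf 444) (.lf 442) (.lf 443) (.nd 9 (.lf 767) (.lf 317) (.nd 4 (.lf 763) (.lf 370) (.lf 765) (.lf 369) (.lf 764) (.nd 8 (.lf 758) (.lf 761) (.lf 760) (.lf 759) (.lf 757) (.lf 762))) (.lf 769) (.lf 768) (.lf 766)) (.nd 9 (.lf 754) (.lf 413) (.nd 49 (.nd 41 (.lf 744) (.nd 116 (.lf 739) (.nd 8 (.lf 735) (.lf 736) (.lf 734) (.nd 10 (.lf 355) (.lf 732) (.lf 730) (.lf 731) (.lf 356) (.lf 354)) (.lf 733) (.lf 737)) (.lf 738) (.lf 741) (.lf 740) (.lf 742)) (.lf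 745) (.lf 746) (.lf 743) (.lf 747)) (.lf 748) (.lf 750) (.lf 752) (.lf 749) (.lf 751)) (.lf 755) (.lf 753) (.lf 756)))

def tr191 : Tr := (.nd 129 (.lf 815) (.nd 17 (.lf 799) (.lf 444) (.lf 442) (.lf 443) (.nd 118 (.lf 348) (.nd 3 (.lf 777) (.lf 325) (.nd 41 (.lf 772) (.lf 774) (.lf 773) (.lf 775) (.lf 771) (.lf 747)) (.lf 326) (.lf 778) (.lf 776)) (.lf 350) (.nd 11 (.lf 782) (.lf 784) (.lf 779) (.lf 783) (.lf 780) (.lf 781)) (.lf 786) (.lf 785)) (.nd 21 (.nd 11 (.lf 782) (.lf 784) (.lf 794) (.lf 783) (.lf 795) (.lf 793)) (.lf 798) (.lf 797) (.lf 796) (.nd 3 (.lf 791) (.lf 325) (.nd 4 (.lf 789) (.lf 370) (.lf 765) (.lf 369) (.lf 787) (.lf 788)) (.lf 326) (.lf 792) (.lf 790)) (.lf 386))) (.lf 814) tr190 (.lf 813) (.nd 14 (.lf 812) (.lf 440) (.lf 438) (.lf 439) (.nd 21 (.lf 804) (.lf 803) (.nd 10 (.lf 355)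 (.lf 801) (.lf 802) (.lf 800) (.lf 356) (.lf 354)) (.lf 806) (.lf 805) (.lf 807)) (.nd 21 (.lf 811) (.lf 810) (.nd 10 (.lf 355) (.lf 801) (.lf 809) (.lf 808) (.lf 356) (.lf 354)) (.lf 806) (.lf 805) (.lf 807))))

def tr192 : Tr := (.nd 103 (.lf 855) (.nd 70 (.lf 278) tr179 (.nd 21 (.nd 3 (.lf 850) (.lf 325) (.lf 841) (.lf 326) (.nd 145 (.lf 834) (.lf 848) (.lf 825) (.lf 835) (.lf 821) (.lf 380)) (.lf 849)) (.lf 826) (.lf 851) (.lf 852) (.nd 145 (.lf 834) (.lf 838) (.lf 847) (.lf 835) (.lf 846) (.lf 380)) (.lf 853)) (.lf 854) (.lf 336) (.lf 335)) (.nd 27 (.lf 816) (.lf 818) (.nd 17 (.lf 441) (.lf 444) (.lf 442) (.lf 443) tr180 (.nd 14 (.lf 437) (.lf 440) (.lf 438) (.lf 439) tr181 tr182)) (.nd 17 (.lf 729) (.lf 444) (.lf 442) (.lf 443) tr183 tr189) tr191 (.lf 817)) (.lf 857) (.lf 856) (.lf 858))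

def tr193 : Tr := (.nd 146 (.lf 932) (.lf 934) (.lf 933) (.lf 935) (.lf 931) (.nd 119 (.nd 121 (.nd 131 (.lf 918) (.lf 919) (.nd 144 (.lf 911) (.lf 912) (.lf 915) (.lf 913) (.lf 914) (.nd 101 (.lf 908) (.lf 909) (.nd 113 (.lf 903) (.lf 905) (.lf 902) (.nd 23 (.lf 898) (.lf 874) (.lf 900) (.lf 875) (.lf 899) (.nd 151 (.lf 870) (.lf 897) (.nd 20 (.lf 890) (.lf 891) (.lf 894) (.lf 892) (.lf 895) (.lf 893)) (.lf 896) (.lf 869) (.lf 868))) (.lf 901) (.lf 904)) (.lf 906) (.lf 907) (.lf 910))) (.lf 916) (.lf 917) (.lf 920)) (.lf 921) (.lf 922) (.lf 925) (.lf 923) (.lf 924)) (.lf 927) (.lf 926) (.lf 930) (.lf 928) (.lf 929)))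

def tr194 : Tr := (.nd 9 (.lf 942) (.lf 944) (.nd 11 (.lf 937) (.lf 784) (.lf 936) (.lf 783) (.nd 145 (.lf 886) (.nd 84 (.lf 881) (.lf 883) (.lf 885) (.lf 882) (.lf 884) (.nd 19 (.lf 878) (.lf 880) (.lf 876) (.lf 877) (.nd 23 (.lf 871) (.lf 874) (.lf 873) (.lf 875) (.lf 872) (.nd 151 (.lf 870) (.lf 867) (.nd 27 (.lf 865) (.lf 818) (.lf 864) (.nd 8 (.lf 862) (.lf 717) (.lf 861) (.lf 859) (.lf 860) (.lf 662)) (.lf 863) (.lf 817)) (.lf 866) (.lf 869) (.lf 868))) (.lf 879))) (.lf 887) (.lf 889) (.lf 888) (.lf 380)) tr193) (.lf 941) (.nd 11 (.lf 937) (.lf 784) (.lf 940) (.lf 783) (.lf 938) (.lf 939)) (.lf 943))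

def tr195 : Tr := (.nd 83 (.nd 21 (.nd 8 (.lf 956) (.lf 957) (.lf 955) (.lf 958) (.nd 27 (.lf 865) (.lf 818) (.lf 953) (.lf 954) (.lf 952) (.lf 817)) (.lf 959)) (.lf 962) (.lf 960) (.lf 961) (.nd 3 (.lf 949) (.lf 951) (.nd 151 (.lf 870) (.lf 947) (.lf 945) (.lf 946) (.lf 869) (.lf 868)) (.lf 326) (.lf 950) (.lf 948)) (.lf 963)) (.lf 984) tr194 (.lf 983) (.nd 9 (.lf 981) (.lf 944) (.lf 980) (.nd 11 (.lf 972) (.lf 784) (.lf 974) (.lf 783) (.lf 973) (.nd 49 (.lf 968) (.nd 27 (.lf 865) (.lf 818) (.lf 966) (.lf 965) (.lf 964) (.lf 817)) (.lf 967) (.lf 970) (.lf 969) (.lf 971))) (.nd 8 (.lf 976) (.lf 979) (.lf 977) (.lf 978) (.lf 975) (.lf 959)) (.lf 982)) (.lf 985))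

def tr196 : Tr := (.nd 131 (.nd 118 (.lf 1021) (.nd 3 (.lf 1012) (.lf 1015) (.lf 1011) (.lf 326) (.lf 1014) (.lf 1013)) (.lf 1023) (.nd 11 (.lf 1019) (.lf 784) (.lf 1018) (.lf 783) (.lf 1016) (.lf 1017)) (.lf 1022) (.lf 1020)) (.lf 1046) (.nd 21 (.nd 17 (.lf 1005) (.lf 444) (.lf 442) (.lf 443) (.lf 1004) (.nd 153 (.lf 1000) (.lf 1001) (.lf 1002) (.lf 999) (.lf 1003) (.nd 145 (.lf 997) (.nd 20 (.nd 11 (.lf 988) (.lf 784) (.lf 989) (.lf 783) (.lf 986) (.lf 987)) (.lf 992) (.lf 993) (.lf 990) (.lf 994) (.lf 991)) (.lf 995) (.lf 998) (.lf 996) (.lf 380)))) (.lf 1008) (.lf 1006) (.lf 1010) (.lf 1007) (.lf 1009)) (.lf 1045) (.nd 17 (.lf 1044) (.lf 444) (.lf 442) (.lf 443) (.lf 1043) (.nd 146 (.nd 14 (.lf 1034) (.lf 1037) (.lf 1036) (.lf 439) (.lf 1035) (.nd 21 (.lf 1031) (.lf 1030) (.nd 8 (.lf 1025) (.lf 1029)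 (.lf 1026) (.lf 1028) (.lf 1024) (.lf 1027)) (.lf 1033) (.lf 1032) (.lf 1009))) (.lf 1041) (.lf 1038) (.lf 1042) (.lf 1040) (.lf 1039))) (.lf 1047))

def tr197 : Tr := (.nd 0 (.lf 1073) (.lf 1074) (.nd 21 (.nd 52 (.lf 1112) (.lf 1110) (.lf 1111) (.lf 1108) (.lf 1104) (.lf 1109)) (.lf 1116) (.lf 1113) (.lf 1114) (.lf 1115) (.lf 1107)) (.nd 52 (.nd 11 (.lf 1081) (.lf 784) (.nd 14 (.lf 1077) (.lf 1037) (.lf 1036) (.lf 439) (.lf 1078) (.lf 1076)) (.lf 783) (.lf 1079) (.lf 1080)) (.lf 1110) (.nd 60 (.lf 1091) (.lf 1092) (.lf 1093) (.lf 1090) (.lf 1094) (.nd 145 (.lf 1086) (.nd 14 (.lf 1083) (.lf 1037) (.lf 1036) (.lf 439) (.lf 1084) (.lf 1082)) (.lf 1085) (.lf 1088) (.lf 1087) (.lf 1089))) (.lf 1108) (.nd 21 (.lf 1104) (.lf 1103) (.nd 8 (.lf 1098) (.lf 1102) (.lf 1099) (.lf 1101) (.nd 14 (.lf 1095) (.lf 1037)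 (.lf 1036) (.lf 439) (.lf 1097) (.lf 1096)) (.lf 1100)) (.lf 1106) (.lf 1105) (.lf 1107)) (.lf 1109)) (.lf 1117) (.lf 1075))

def tr198 : Tr := (.nd 1 (.nd 21 (.nd 3 (.lf 1138) (.lf 201) (.lf 1137) (.lf 326) (.nd 103 (.lf 1124) (.lf 1134) (.lf 1135) (.lf 857) (.lf 856) (.lf 858)) (.lf 1136)) (.lf 1141) (.lf 1139) (.lf 1140) (.nd 9 (.nd 145 (.lf 1127) (.lf 1126) (.lf 1125) (.lf 1128) (.nd 103 (.lf 1124) (.lf 1122) (.lf 1123) (.lf 857) (.lf 856) (.lf 858)) (.lf 211)) (.lf 1133) (.lf 1129) (.lf 1132) (.lf 1131) (.lf 1130)) (.lf 1142)) (.nd 12 (.lf 1118) (.lf 1121) (.lf 1119) (.lf 1120) (.nd 0 (.lf 1073) (.lf 1074) tr192 (.nd 116 (.nd 49 (.nd 9 (.lf 1061) (.lf 1065) (.nd 11 (.lf 1060) (.lf 784) (.lf 1059) (.lf 783) (.lf 1057) (.lf 1058)) (.lf 1064) (.lf 1063) (.lf 1062)) (.lf 1067) (.lf 1066) (.lf 1069) (.nd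 3 (.lf 1055) (.lf 1015) (.nd 145 (.lf 1051) (.lf 1050) (.lf 1049) (.lf 1052) (.lf 1048) (.lf 380)) (.lf 326) (.lf 1056) (.nd 145 (.lf 1051) (.lf 1050) (.lf 1053) (.lf 1052) (.lf 1054) (.lf 380))) (.lf 1068)) tr195 tr196 (.lf 1071) (.lf 1070) (.lf 742)) (.lf 1072) (.lf 1075)) tr197) (.lf 1144) (.lf 1145) (.lf 1146) (.lf 1143))

def tree1 : Tr := (.nd 5 (.lf 6585) (.nd 17 (.lf 6584) (.lf 444) (.lf 6583) (.lf 443) (.nd 1 (.lf 6579) (.lf 6578) (.lf 1144) (.lf 6580) (.lf 1146) (.lf 6581)) (.lf 6582)) (.lf 6586) tr10 tr178 tr198)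

theorem tree0_ok : treeOK confs.masks nBod tree0 (1 <<< 36) = true := by decide +kernel

theorem tree1_ok : treeOK confs.masks nBod tree1 (1 <<< 37) = true := by decide +kernel

/-- index of the first body -/
def rootB : ℕ := 6

end PoolHex
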