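import Pool.Agent.LebHex.Fin1
import Pool.Agent.LebHex.BodiesOK
import Pool.Agent.LebHex.CfAll
import Pool.Agent.LebHex.Trees

/-! # Hexagon covers: the bound -/

open MeasureTheory

namespace PoolHex

theorem confs_all : confs.all (confOK bodies nBod disk nDisk) = true := by
  simp only [confs, CB.all, Bool.and_eq_true]
  exact ⟨⟨⟨⟨⟨cok0, cok16⟩, ⟨cok8, cok24⟩⟩, ⟨⟨cok4, cok20⟩, ⟨cok12, cok28⟩⟩⟩, ⟨⟨⟨cok2, cok18⟩, ⟨cok10, cok26⟩⟩, ⟨⟨cok6, cok22⟩, ⟨cok14, cok30⟩⟩⟩⟩, ⟨⟨⟨⟨cok1, cok17⟩, ⟨cok9, cok25⟩⟩, ⟨⟨cok5, cok21⟩, ⟨cok13, cok29⟩⟩⟩, ⟨⟨⟨cok3, cok19⟩, ⟨cok11, cok27⟩⟩, ⟨⟨cok7, cok23⟩, ⟨cok15, cok31⟩⟩⟩⟩⟩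

theorem no_pre_data {K : Set (ℝ × ℝ)} (hK : Pre K) : False :=
  no_pre (rt := rootB) bodies_ok disk_ok confs_all (by decide) tree0_ok tree1_ok hK

theorem main_bound {R : Set Pl} (h : DCov R) (hc : Convex ℝ R) {θ : ℝ} {a : Pl}
    (hh : ∀ x ∈ R, mot θ a x ∈ Hex) : ENNReal.ofReal (8441 / 10000) ≤ volume R :=
  main_of (fun _ hK => no_pre_data hK) h hc hh

end PoolHex
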