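import Pool.Agent.LebHex.Defs

/-! # A fast check of the pairwise distances -/

namespace PoolHex

/-- lists of points: shifted coordinates and `a^2 + a b + b^2` -/
inductive NL
  | nil
  | cons (a b n : ℕ) (l : NL)

def NL.pts : NL → List (ℤ × ℤ)
  | .nil => []
  | .cons a b _ l => ((a : ℤ) - 5000000000000, (b : ℤ) - 5000000000000) :: l.pts

def pairN (a b n : ℕ) : NL → Bool
  | .nil => true
  | .cons a' b' n' l =>
    Nat.ble (4 * (n + n'))
      (300000000000000000000000000 + 4 * (2 * (a * a' + b * b') + (a * b' + a' * b))) && pairN a b n l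

def diamN : NL → Bool
  | .nil => true
  | .cons a b n l => Nat.beq n (a * a + a * b + b * b) && pairN a b n l && diamN l

theorem pairN_sound {a b n : ℕ} (hn : n = a * a + a * b + b * b) : ∀ (l : NL), pairN a b n l = true →
    diamN l = true → pairOK ((a : ℤ) - 5000000000000, (b : ℤ) - 5000000000000) l.pts = true
  | .nil, _, _ => rfl
  | .cons a' b' n' l, h, h' => by
    rw [pairN, Bool.and_eq_true] at h
    rw [diamN, Bool.and_eq_true, Bool.and_eq_true] at h'
    rw [NL.pts, pairOK, Bool.and_eq_true]
    refine ⟨?_, pairN_sound hn l h.2 h'.2⟩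
    have h1 := Nat.le_of_ble_eq_true h.1
    have h2 := Nat.eq_of_beq_eq_true h'.1.1
    apply decide_eq_true
    subst hn h2
    zify at h1
    unfold nrm M
    simp only
    nlinarith [h1]

theorem diamN_sound : ∀ (l : NL), diamN l = true → diamOK l.pts = true
  | .nil, _ => rfl
  | .cons a b n l, h => by
    have h0 := h
    rw [diamN, Bool.and_eq_true, Bool.and_eq_true] at h
    rw [NL.pts, diamOK, Bool.and_eq_true]
    exact ⟨pairN_sound (Nat.eq_of_beq_eq_true h.1.1) l h.1.2 h.2, diamN_sound l h.2⟩

/-- the part of `bodyOK` without the pairwise distances -/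
def bodyRest (B : ℕ) (c : BCert) : Bool :=
  decide (2 ≤ bn B) && coordOK B (bn B) &&
    decide (4 * nrm ((bp B 0).1 - (bp B 1).1, (bp B 0).2 - (bp B 1).2) = 3 * M * M) &&
    contOK B 0 c.cont && exclOK B (-sg) (-10000000000000) c.left &&
    exclOK B 10000000000001 sg c.right

theorem bodyOK_of {B : ℕ} {c : BCert} {l : NL} (h1 : bodyPts B = l.pts) (h2 : diamN l = true)
    (h3 : bodyRest B c = true) : bodyOK B c = true := by
  unfold bodyOK
  rw [h1, diamN_sound l h2]
  unfold bodyRest at h3
  simp only [Bool.and_eq_true] at h3 ⊢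
  tauto

end PoolHex
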