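import Pool.Agent.LebHex.Base

/-! # HEX-A1: area of a sector -/

open MeasureTheory

namespace PoolHex

/-- twice the area of the fan over consecutive points -/
def fan : ℝ × ℝ → List (ℝ × ℝ) → ℝ
  | _, [] => 0
  | v, w :: l => (v.1 * w.2 - v.2 * w.1) + fan w l

/-- consecutive points turn counterclockwise -/
def fanOK : ℝ × ℝ → List (ℝ × ℝ) → Prop
  | _, [] => True
  | v, w :: l => 0 < v.1 * w.2 - v.2 * w.1 ∧ fanOK w l

theorem hex1_std (c : ℝ) (hc : 0 < c) :
    volume {p : ℝ × ℝ | 0 < p.1 ∧ 0 < p.2 ∧ p.1 + p.2 < c} = ENNReal.ofReal (c ^ 2 / 2) := by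
  have e : {p : ℝ × ℝ | 0 < p.1 ∧ 0 < p.2 ∧ p.1 + p.2 < c}
      = regionBetween (fun _ => (0 : ℝ)) (fun x => c - x) (Set.Ioo 0 c) := by
    ext p
    simp only [regionBetween, Set.mem_setOf_eq, Set.mem_Ioo]
    constructor
    · rintro ⟨h1, h2, h3⟩
      exact ⟨⟨h1, by linarith⟩, h2, by linarith⟩
    · rintro ⟨⟨h1, _⟩, h2, h3⟩
      exact ⟨h1, h2, by linarith⟩
  rw [e, Measure.volume_eq_prod, volume_regionBetween_eq_integral]
  · congr 1
    rw [← integral_Ioc_eq_integral_Ioo, ← intervalIntegral.integral_of_le hc.le]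
    simp only [Pi.sub_apply, sub_zero]
    rw [intervalIntegral.integral_sub (by simp) (by simp)]
    simp
    ring
  · exact (integrableOn_const (by simp)) 
  · exact ((continuous_const.sub continuous_id).integrableOn_Icc).mono_set Set.Ioo_subset_Icc_self
  · exact measurableSet_Ioo
  · intro x hx
    simp only [Set.mem_Ioo] at hx
    linarith [hx.2]

/-- Volume of the open triangle with vertices `0, v, w`. Proof: put `c = v.1 * w.2 - v.2 * w.1 > 0`.
The set is the image of the standard triangle `{p | 0 < p.1 ∧ 0 < p.2 ∧ p.1 + p.2 < 1}` under the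
linear map `p ↦ (p.1 * v.1 + p.2 * w.1, p.1 * v.2 + p.2 * w.2)` of determinant `c` (inverse:
`p.1 = (z × w) / c`, `p.2 = (v × z) / c`); use `Measure.addHaar_image_linearMap` (or the preimage
version). The standard triangle is a `regionBetween` of volume `∫ x in 0..1, (1 - x) = 1/2`.
Measurable because open (continuity of the three functions). -/
theorem tri_vol (v w : ℝ × ℝ) (h : 0 < v.1 * w.2 - v.2 * w.1) :
    MeasurableSet {z : ℝ × ℝ | 0 < z.1 * w.2 - z.2 * w.1 ∧ 0 < v.1 * z.2 - v.2 * z.1 ∧
      (z.1 * w.2 - z.2 * w.1) + (v.1 * z.2 - v.2 * z.1) < v.1 * w.2 - v.2 * w.1} ∧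
    volume {z : ℝ × ℝ | 0 < z.1 * w.2 - z.2 * w.1 ∧ 0 < v.1 * z.2 - v.2 * z.1 ∧
      (z.1 * w.2 - z.2 * w.1) + (v.1 * z.2 - v.2 * z.1) < v.1 * w.2 - v.2 * w.1} =
    ENNReal.ofReal ((v.1 * w.2 - v.2 * w.1) / 2) := by
  set c : ℝ := v.1 * w.2 - v.2 * w.1 with hc
  set f : ℝ × ℝ →ₗ[ℝ] ℝ × ℝ := Matrix.toLin (Module.Basis.finTwoProd ℝ) (Module.Basis.finTwoProd ℝ)
    !![w.2, -w.1; -v.2, v.1] with hf
  have hfx : ∀ z : ℝ × ℝ, f z = (z.1 * w.2 - z.2 * w.1, v.1 * z.2 - v.2 * z.1) := by
    intro z
    rw [hf, Matrix.toLin_finTwoProd_apply]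
    ext <;> simp <;> ring
  have hdet : LinearMap.det f = c := by
    rw [hf, LinearMap.det_toLin, Matrix.det_fin_two_of]
    simp only [hc]
    ring
  have e : {z : ℝ × ℝ | 0 < z.1 * w.2 - z.2 * w.1 ∧ 0 < v.1 * z.2 - v.2 * z.1 ∧
      (z.1 * w.2 - z.2 * w.1) + (v.1 * z.2 - v.2 * z.1) < c}
      = f ⁻¹' {p : ℝ × ℝ | 0 < p.1 ∧ 0 < p.2 ∧ p.1 + p.2 < c} := by
    ext z
    simp only [Set.mem_setOf_eq, Set.mem_preimage, hfx]
  constructor
  · apply IsOpen.measurableSet
    apply IsOpen.and
    · exact isOpen_lt continuous_const (by fun_prop)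
    · apply IsOpen.and
      · exact isOpen_lt continuous_const (by fun_prop)
      · exact isOpen_lt (by fun_prop) continuous_const
  · rw [e, Measure.addHaar_preimage_linearMap volume (by rw [hdet]; exact h.ne'), hdet,
      hex1_std c h, ← ENNReal.ofReal_mul (abs_nonneg _)]
    congr 1
    rw [abs_of_pos (inv_pos.2 h)]
    have := h.ne'
    field_simp

/-- The sector lemma. Induct on `l` generalizing `v` and `r`. Empty list: monotonicity. Step `w :: l`:
apply the induction hypothesis to `w` and `r' = r + (v × w) / 2`, where `v × w = v.1 w.2 - v.2 w.1 > 0`.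
Needed: `ofReal r' ≤ volume (K ∩ Quad ∩ {z | 0 < z × w})`. The right side contains the disjoint union of
`A = K ∩ Quad ∩ {z | 0 < z × v}` and of the open triangle `D` of `tri_vol v w` (measurable, so
`measure_union` applies with `D` second). `D ⊆ K` by convexity (`z = s v + t w + (1-s-t) 0`,
`s = (z × w)/c`, `t = (v × z)/c`); `D ⊆ Quad`: `c > 0` and the signs give `v.1 > 0` and `w.2 > 0`, so
both coordinates of `s v + t w` are positive; `D` and `A` are disjoint as `v × z > 0` on `D`; finally
`A ⊆ {0 < z × w}`: from `z.1 v.2 > z.2 v.1 ≥ 0` get `v.2 > 0`; then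
`(z.1 w.2 - z.2 w.1) v.2 > 0` since `z.1 v.2 w.2 ≥ z.2 v.1 w.2 > z.2 v.2 w.1`. -/
theorem sector_vol {K : Set (ℝ × ℝ)} (hK : Convex ℝ K) (h0 : (0 : ℝ × ℝ) ∈ K)
    (l : List (ℝ × ℝ)) (v : ℝ × ℝ) (hv : v ∈ K) (hv1 : 0 ≤ v.1) (hv2 : 0 ≤ v.2)
    (hl : ∀ w ∈ l, w ∈ K ∧ 0 ≤ w.1 ∧ 0 ≤ w.2) (hf : fanOK v l) (r : ℝ) (hr : 0 ≤ r)
    (hr1 : ENNReal.ofReal r ≤ volume (K ∩ Quad ∩ {z : ℝ × ℝ | 0 < z.1 * v.2 - z.2 * v.1})) :
    ENNReal.ofReal (r + fan v l / 2) ≤ volume (K ∩ Quad) := by
  induction l generalizing v r with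
  | nil =>
    simp only [fan]
    have h2 : r + 0 / 2 = r := by ring
    rw [h2]
    exact hr1.trans (measure_mono Set.inter_subset_left)
  | cons w l ih =>
    obtain ⟨hw, hw1, hw2⟩ := hl w (List.mem_cons_self)
    simp only [fanOK] at hf
    obtain ⟨hc, hf2⟩ := hf
    obtain ⟨hDm, hDv⟩ := tri_vol v w hc
    have hvw : 0 < v.1 * w.2 := by
      have := mul_nonneg hv2 hw1
      linarith
    have hv1' : 0 < v.1 := by
      rcases hv1.lt_or_eq with h | h
      · exact h
      · rw [← h] at hvw
        simp at hvw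
    have hw2' : 0 < w.2 := by
      rcases hw2.lt_or_eq with h | h
      · exact h
      · rw [← h] at hvw
        simp at hvw
    have key : ENNReal.ofReal (r + (v.1 * w.2 - v.2 * w.1) / 2) ≤
        volume (K ∩ Quad ∩ {z : ℝ × ℝ | 0 < z.1 * w.2 - z.2 * w.1}) := by
      rw [ENNReal.ofReal_add hr (by linarith), ← hDv]
      refine le_trans (add_le_add hr1 le_rfl) ?_
      rw [← measure_union _ hDm]
      · apply measure_mono
        rintro z (hz | hz)
        · obtain ⟨⟨hzK, hzQ⟩, hz3⟩ := hz
          refine ⟨⟨hzK, hzQ⟩, ?_⟩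
          simp only [Set.mem_setOf_eq] at hz3 ⊢
          obtain ⟨hz1, hz2⟩ : 0 < z.1 ∧ 0 < z.2 := hzQ
          have h1 : 0 < z.2 * v.1 := mul_pos hz2 hv1'
          have h2 : 0 < v.2 := by
            by_contra hcon
            have h3 : v.2 = 0 := le_antisymm (not_lt.1 hcon) hv2
            rw [h3] at hz3
            linarith
          have h4 : 0 < (z.1 * w.2 - z.2 * w.1) * v.2 := by
            have h5 : 0 < (z.1 * v.2 - z.2 * v.1) * w.2 := mul_pos hz3 hw2'
            have h6 : 0 < z.2 * (v.1 * w.2 - v.2 * w.1) := mul_pos hz2 hc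
            nlinarith
          exact pos_of_mul_pos_left h4 h2.le
        · simp only [Set.mem_setOf_eq] at hz
          obtain ⟨ha, hb, hab⟩ := hz
          set c : ℝ := v.1 * w.2 - v.2 * w.1 with hcd
          set a : ℝ := z.1 * w.2 - z.2 * w.1 with had
          set b : ℝ := v.1 * z.2 - v.2 * z.1 with hbd
          have hz1 : z.1 * c = a * v.1 + b * w.1 := by
            rw [hcd, had, hbd]; ring
          have hz2 : z.2 * c = a * v.2 + b * w.2 := by
            rw [hcd, had, hbd]; ring
          have hu : (a / (a + b)) • v + (b / (a + b)) • w ∈ K :=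
            hK hv hw (by positivity) (by positivity) (by field_simp)
          have hu2 : (1 - (a + b) / c) • (0 : ℝ × ℝ) +
              ((a + b) / c) • ((a / (a + b)) • v + (b / (a + b)) • w) ∈ K := by
            apply hK h0 hu
            · rw [sub_nonneg, div_le_one hc]
              exact hab.le
            · positivity
            · ring
          have hzz : z = (1 - (a + b) / c) • (0 : ℝ × ℝ) +
              ((a + b) / c) • ((a / (a + b)) • v + (b / (a + b)) • w) := by
            have hab0 : a + b ≠ 0 := by positivity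
            have hc0 : c ≠ 0 := hc.ne'
            apply Prod.ext
            · simp only [Prod.fst_add, Prod.smul_fst, Prod.fst_zero, smul_eq_mul, mul_zero, zero_add]
              field_simp
              linarith
            · simp only [Prod.snd_add, Prod.smul_snd, Prod.snd_zero, smul_eq_mul, mul_zero, zero_add]
              field_simp
              linarith
          refine ⟨⟨?_, ?_, ?_⟩, ha⟩
          · rw [hzz]
            exact hu2
          · have h1 : 0 < z.1 * c := by
              rw [hz1]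
              have := mul_pos ha hv1'
              have := mul_nonneg hb.le hw1
              linarith
            exact pos_of_mul_pos_left h1 hc.le
          · have h1 : 0 < z.2 * c := by
              rw [hz2]
              have := mul_nonneg ha.le hv2
              have := mul_pos hb hw2'
              linarith
            exact pos_of_mul_pos_left h1 hc.le
      · rw [Set.disjoint_left]
        rintro z ⟨_, hz⟩ hz2
        simp only [Set.mem_setOf_eq] at hz hz2
        obtain ⟨_, h2, _⟩ := hz2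
        nlinarith
    have h3 := ih w hw hw1 hw2 (fun u hu => hl u (List.mem_cons_of_mem _ hu)) hf2
      (r + (v.1 * w.2 - v.2 * w.1) / 2) (by linarith) key
    simp only [fan]
    have h4 : r + (v.1 * w.2 - v.2 * w.1 + fan w l) / 2
        = r + (v.1 * w.2 - v.2 * w.1) / 2 + fan w l / 2 := by ring
    rw [h4]
    exact h3

end PoolHex
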