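import Pool.Agent.LebHex.Base

/-! # HEX-A2: decomposition of the area into the three windows -/

open MeasureTheory

namespace PoolHex

/-- the windows as linear maps -/
def hex2_L (w : ℕ) : (ℝ × ℝ) →ₗ[ℝ] (ℝ × ℝ) where
  toFun := win w
  map_add' := by
    intro x y
    rcases w with _ | _ | w
    · simp only [win, Prod.fst_add, Prod.snd_add, Prod.mk_add_mk]
      congr 1
      ring
    · simp only [win, Prod.fst_add, Prod.snd_add, Prod.mk_add_mk]
      congr 1
      ring
    · simp only [win, Prod.fst_add, Prod.snd_add, Prod.mk_add_mk]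
      congr 1 <;> ring
  map_smul' := by
    intro c x
    rcases w with _ | _ | w
    · simp only [win, Prod.smul_fst, Prod.smul_snd, Prod.smul_mk, smul_eq_mul, RingHom.id_apply]
      congr 1
      ring
    · simp only [win, Prod.smul_fst, Prod.smul_snd, Prod.smul_mk, smul_eq_mul, RingHom.id_apply]
      congr 1
      ring
    · simp only [win, Prod.smul_fst, Prod.smul_snd, Prod.smul_mk, smul_eq_mul, RingHom.id_apply]
      congr 1 <;> ring

theorem hex2_L_apply (w : ℕ) (v : ℝ × ℝ) : hex2_L w v = win w v := rfl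

theorem hex2_det (w : ℕ) : LinearMap.det (hex2_L w) = 1 := by
  rw [← LinearMap.det_toMatrix (Module.Basis.finTwoProd ℝ), Matrix.det_fin_two]
  simp only [LinearMap.toMatrix_apply, hex2_L_apply, Module.Basis.finTwoProd_zero,
    Module.Basis.finTwoProd_one]
  rcases w with _ | _ | w <;> simp [win]

theorem hex2_vol (w : ℕ) (K : Set (ℝ × ℝ)) :
    volume (win w '' K ∩ Quad) = volume (K ∩ win w ⁻¹' Quad) := by
  rw [← Set.image_inter_preimage]
  have h := Measure.addHaar_image_linearMap (volume : Measure (ℝ × ℝ)) (hex2_L w)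
    (K ∩ win w ⁻¹' Quad)
  rw [hex2_det] at h
  simp only [abs_one, ENNReal.ofReal_one, one_mul] at h
  exact h

theorem win_convex {K : Set (ℝ × ℝ)} (hK : Convex ℝ K) (w : ℕ) : Convex ℝ (win w '' K) := by
  exact hK.linear_image (hex2_L w)

/-- Each `win w` (`w = 0, 1, 2`) is linear and bijective with determinant `1`, so
`volume (win w '' K ∩ Quad) = volume (K ∩ win w ⁻¹' Quad)` (`Measure.addHaar_image_linearMap`). The sets
`U0 = {p > 0, p + q > 0}`, `U1 = {q > 0, p < 0}`, `U2 = {p + q < 0, q < 0}` are measurable and pairwise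
disjoint; apply `measure_inter_add_diff` twice (only the second set has to be measurable). -/
theorem three_windows (K : Set (ℝ × ℝ)) :
    volume (win 0 '' K ∩ Quad) + volume (win 1 '' K ∩ Quad) + volume (win 2 '' K ∩ Quad) ≤
      volume K := by
  rw [hex2_vol, hex2_vol, hex2_vol]
  have hQ : IsOpen Quad := (isOpen_lt continuous_const continuous_fst).inter
    (isOpen_lt continuous_const continuous_snd)
  have hm : ∀ w, MeasurableSet (win w ⁻¹' Quad) := by
    intro w
    have hc : Continuous (win w) := (hex2_L w).continuous_of_finiteDimensional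
    exact (hQ.preimage hc).measurableSet
  have h0 := measure_inter_add_sdiff (μ := (volume : Measure (ℝ × ℝ))) K (hm 0)
  have h1 := measure_inter_add_sdiff (μ := (volume : Measure (ℝ × ℝ))) (K \ win 0 ⁻¹' Quad) (hm 1)
  have h2 : volume (K ∩ win 1 ⁻¹' Quad) ≤ volume ((K \ win 0 ⁻¹' Quad) ∩ win 1 ⁻¹' Quad) := by
    refine measure_mono ?_
    rintro v ⟨hv, hv1⟩
    refine ⟨⟨hv, fun hv0 => ?_⟩, hv1⟩
    have a0 := hv0.1
    have a1 := hv1.2
    simp only [win] at a0 a1
    linarith
  have h3 : volume (K ∩ win 2 ⁻¹' Quad) ≤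
      volume ((K \ win 0 ⁻¹' Quad) \ win 1 ⁻¹' Quad) := by
    refine measure_mono ?_
    rintro v ⟨hv, hv2⟩
    have b1 := hv2.1
    have b2 := hv2.2
    simp only [win] at b1 b2
    refine ⟨⟨hv, fun hv0 => ?_⟩, fun hv1 => ?_⟩
    · have a0 := hv0.2
      simp only [win] at a0
      linarith
    · have a1 := hv1.1
      simp only [win] at a1
      linarith
  rw [← h0, ← h1, add_assoc]
  exact add_le_add_right (add_le_add h2 h3) _

end PoolHex
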