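import Pool.Agent.LebHex.Base

/-! # HEX-B1: exclusion of rotation angles -/

namespace PoolHex

theorem hex4_mid {q c A B s e x : ℝ} (hq : 0 ≤ q) (hc : 0 ≤ c) (hs : 0 < q * A + s * B)
    (hs2 : c * (q * q + 3 * s * s) < 4 * (q * A + s * B) * (q * A + s * B))
    (he : 0 < q * A + e * B)
    (he2 : c * (q * q + 3 * e * e) < 4 * (q * A + e * B) * (q * A + e * B))
    (h1 : s ≤ x) (h2 : x ≤ e) :
    0 < q * A + x * B ∧
      c * (q * q + 3 * x * x) < 4 * (q * A + x * B) * (q * A + x * B) := by
  rcases eq_or_lt_of_le (h1.trans h2) with hse | hse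
  · have : x = s := le_antisymm (by linarith) h1
    rw [this]
    exact ⟨hs, hs2⟩
  · set u : ℝ := (x - s) / (e - s) with hu
    have hes : 0 < e - s := by linarith
    have hu0 : 0 ≤ u := div_nonneg (by linarith) hes.le
    have hu1 : u ≤ 1 := by
      rw [hu, div_le_one hes]
      linarith
    have hxu : x = (1 - u) * s + u * e := by
      rw [hu]
      field_simp
      ring
    set Ws := q * A + s * B with hWs
    set We := q * A + e * B with hWe
    have hWx : q * A + x * B = (1 - u) * Ws + u * We := by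
      rw [hxu, hWs, hWe]
      ring
    have hv0 : 0 ≤ 1 - u := by linarith
    -- the mixed term
    have hmix : c * (q * q + 3 * s * e) ≤ 4 * Ws * We := by
      by_contra hcon
      rw [not_le] at hcon
      have hp : 0 < 4 * Ws * We := by positivity
      have h3 : (4 * Ws * We) ^ 2 < (c * (q * q + 3 * s * e)) ^ 2 :=
        pow_lt_pow_left₀ hcon hp.le two_ne_zero
      have h4 : (q * q + 3 * s * e) ^ 2 ≤ (q * q + 3 * s * s) * (q * q + 3 * e * e) := by
        nlinarith [sq_nonneg (q * (s - e))]
      have h5 : (c * (q * q + 3 * s * e)) ^ 2 ≤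
          (c * (q * q + 3 * s * s)) * (c * (q * q + 3 * e * e)) := by
        have h6 := mul_le_mul_of_nonneg_left h4 (mul_nonneg hc hc)
        nlinarith
      have h7 : 0 ≤ c * (q * q + 3 * s * s) :=
        mul_nonneg hc (by nlinarith [mul_self_nonneg q, mul_self_nonneg s])
      have h8 : 0 ≤ c * (q * q + 3 * e * e) :=
        mul_nonneg hc (by nlinarith [mul_self_nonneg q, mul_self_nonneg e])
      have h9 : (c * (q * q + 3 * s * s)) * (c * (q * q + 3 * e * e)) ≤
          (4 * Ws * Ws) * (4 * We * We) :=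
        mul_le_mul hs2.le he2.le h8 (h7.trans hs2.le)
      nlinarith
    refine ⟨?_, ?_⟩
    · rw [hWx]
      rcases eq_or_lt_of_le hu0 with h0 | h0
      · rw [← h0]
        linarith
      · have := mul_nonneg hv0 hs.le
        have := mul_pos h0 he
        linarith
    · have hid : 4 * (q * A + x * B) * (q * A + x * B) - c * (q * q + 3 * x * x) =
          (1 - u) ^ 2 * (4 * Ws * Ws - c * (q * q + 3 * s * s)) +
          2 * u * (1 - u) * (4 * Ws * We - c * (q * q + 3 * s * e)) +
          u ^ 2 * (4 * We * We - c * (q * q + 3 * e * e)) := by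
        rw [hWx, hxu]
        ring
      have p1 : 0 ≤ (1 - u) ^ 2 * (4 * Ws * Ws - c * (q * q + 3 * s * s)) :=
        mul_nonneg (sq_nonneg _) (by linarith)
      have p2 : 0 ≤ 2 * u * (1 - u) * (4 * Ws * We - c * (q * q + 3 * s * e)) :=
        mul_nonneg (by positivity) (by linarith)
      have p3 : 0 ≤ u ^ 2 * (4 * We * We - c * (q * q + 3 * e * e)) :=
        mul_nonneg (sq_nonneg _) (by linarith)
      rcases eq_or_lt_of_le hu0 with h0 | h0
      · have p4 : 0 < (1 - u) ^ 2 * (4 * Ws * Ws - c * (q * q + 3 * s * s)) := by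
          rw [← h0]
          linarith
        linarith
      · have p4 : 0 < u ^ 2 * (4 * We * We - c * (q * q + 3 * e * e)) :=
          mul_pos (by positivity) (by linarith)
        linarith

/-- Linear against convex: if the strict inequality holds at both ends, it holds in between. Proof:
with `W y = Q A + y B`, `N y z = Q^2 + 3 y z`, `c = 9 * 10^26`: `c N s s < 4 (W s)^2`,
`c N e e < 4 (W e)^2` and `(N s e)^2 ≤ N s s * N e e` give `c N s e ≤ 4 W s W e`
(`abs_le_of_sq_le_sq` or by contradiction). If `x = (1-u) s + u e`, `0 ≤ u ≤ 1`, then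
`4 (W x)^2 - c N x x = (1-u)^2 (4 (W s)^2 - c N s s) + 2 u (1-u) (4 W s W e - c N s e)
+ u^2 (4 (W e)^2 - c N e e) > 0`. (If `s = e` trivial.) -/
theorem mid_ineq {A B s e x : ℝ} (hs : 0 < 30000000000000 * A + s * B)
    (hs2 : 9 * 10000000000000 * 10000000000000 * (30000000000000 * 30000000000000 + 3 * s * s) <
      4 * (30000000000000 * A + s * B) * (30000000000000 * A + s * B))
    (he : 0 < 30000000000000 * A + e * B)
    (he2 : 9 * 10000000000000 * 10000000000000 * (30000000000000 * 30000000000000 + 3 * e * e) <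
      4 * (30000000000000 * A + e * B) * (30000000000000 * A + e * B))
    (h1 : s ≤ x) (h2 : x ≤ e) :
    0 < 30000000000000 * A + x * B ∧
    9 * 10000000000000 * 10000000000000 * (30000000000000 * 30000000000000 + 3 * x * x) <
      4 * (30000000000000 * A + x * B) * (30000000000000 * A + x * B) := by
  have hs2' : (9 * 10000000000000 * 10000000000000 : ℝ) *
      (30000000000000 * 30000000000000 + 3 * s * s) <
      4 * (30000000000000 * A + s * B) * (30000000000000 * A + s * B) := hs2
  exact hex4_mid (q := 30000000000000) (c := 9 * 10000000000000 * 10000000000000)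
    (by norm_num) (by norm_num) hs hs2' he he2 h1 h2

theorem hex4_end {A B s : ℤ} (h : endOK A B s = true) :
    (0 : ℝ) < 30000000000000 * A + s * B ∧
    (9 * 10000000000000 * 10000000000000 * (30000000000000 * 30000000000000 + 3 * s * s) : ℝ) <
      4 * (30000000000000 * A + s * B) * (30000000000000 * A + s * B) := by
  unfold endOK at h
  rw [Bool.and_eq_true, decide_eq_true_iff, decide_eq_true_iff] at h
  obtain ⟨h1, h2⟩ := h
  unfold Q at h1 h2
  unfold M at h2
  constructor
  · exact_mod_cast h1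
  · exact_mod_cast h2

/-- the final contradiction -/
theorem hex4_contra {q c d A B x al be : ℝ} (hq : 0 < q) (hd : 0 < d) (hc : c = d ^ 2)
    (hal : 0 < al) (hn : al ^ 2 + 3 * be ^ 2 = 1) (hx : q * be = x * al)
    (hW : 0 < q * A + x * B)
    (hW2 : c * (q * q + 3 * x * x) < 4 * (q * A + x * B) * (q * A + x * B))
    (hle : 2 * (al * A + be * B) ≤ d) : False := by
  set W := q * A + x * B with hWdef
  have h1 : 2 * (al * W) ≤ d * q := by
    have h2 : al * W = q * (al * A + be * B) := by
      rw [hWdef]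
      linear_combination (-B) * hx
    rw [h2]
    have := mul_le_mul_of_nonneg_left hle hq.le
    linarith
  have h2 : al ^ 2 * (q * q + 3 * x * x) = q ^ 2 := by
    have h3 : al ^ 2 * (q * q + 3 * x * x) = q ^ 2 * al ^ 2 + 3 * (x * al) ^ 2 := by ring
    rw [h3, ← hx]
    linear_combination (q ^ 2) * hn
  have h3 : (2 * (al * W)) ^ 2 ≤ (d * q) ^ 2 :=
    pow_le_pow_left₀ (by positivity) h1 2
  have h4 := mul_lt_mul_of_pos_left hW2 (pow_pos hal 2)
  have h5 : al ^ 2 * (c * (q * q + 3 * x * x)) = (d * q) ^ 2 := by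
    rw [hc]
    linear_combination (d ^ 2) * h2
  rw [h5] at h4
  nlinarith

/-- one segment: if the points of the body `B` are moved into the hexagon by the motion with slope
`x = Q * be / al`, then `x` is not in the segment. Proof: add the three contact inequalities (the
translation cancels), multiply by `30000000000000`, and compare with `mid_ineq` using
`al ^ 2 * (Q ^ 2 + 3 x ^ 2) = Q ^ 2`. -/
theorem seg_sound {B : ℕ} {s : ℤ} {g : Seg} (h : segOK B s g = true) {al be x : ℝ} {t : ℝ × ℝ}
    (hal : 0 < al) (hn : al ^ 2 + 3 * be ^ 2 = 1) (hx : 30000000000000 * be = x * al)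
    (hin : ∀ j < bn B, act al be t (toR (bp B j)) ∈ Hx) (h1 : (s : ℝ) ≤ x) (h2 : x ≤ (g.s : ℝ)) :
    False := by
  unfold segOK at h
  simp only [Bool.and_eq_true, decide_eq_true_iff] at h
  obtain ⟨⟨⟨⟨ha, hb⟩, hc⟩, he1⟩, he2⟩ := h
  obtain ⟨k1, k2⟩ := hex4_end he1
  obtain ⟨k3, k4⟩ := hex4_end he2
  obtain ⟨m1, m2⟩ := mid_ineq k1 k2 k3 k4 h1 h2
  refine hex4_contra (q := 30000000000000) (c := 9 * 10000000000000 * 10000000000000)
    (d := 30000000000000) (by norm_num) (by norm_num) (by norm_num) hal hn hx m1 m2 ?_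
  have a1 := hin g.a ha
  have a2 := hin g.b hb
  have a3 := hin g.c hc
  unfold segA segB
  simp only [Hx, act, toR, Set.mem_ofPred_eq, abs_le] at a1 a2 a3
  obtain ⟨⟨u1, u2⟩, _, _⟩ := a1
  obtain ⟨_, ⟨v1, v2⟩, _⟩ := a2
  obtain ⟨_, _, ⟨w1, w2⟩⟩ := a3
  cases g.sgn
  · simp only [Bool.false_eq_true, if_false]
    push_cast
    nlinarith
  · simp only [if_true]
    push_cast
    nlinarith

theorem excl_sound {B : ℕ} {e : ℤ} (l : List Seg) (s : ℤ) (h : exclOK B e s l = true)
    {al be x : ℝ} {t : ℝ × ℝ} (hal : 0 < al) (hn : al ^ 2 + 3 * be ^ 2 = 1)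
    (hx : 30000000000000 * be = x * al)
    (hin : ∀ j < bn B, act al be t (toR (bp B j)) ∈ Hx) (h1 : (s : ℝ) ≤ x) (h2 : x < (e : ℝ)) :
    False := by
  induction l generalizing s with
  | nil =>
    rw [exclOK, decide_eq_true_iff] at h
    have h3 : (e : ℝ) ≤ s := by exact_mod_cast h
    linarith
  | cons g l ih =>
    rw [exclOK, Bool.and_eq_true] at h
    rcases le_total x (g.s : ℝ) with hx1 | hx1
    · exact seg_sound h.1 hal hn hx hin h1 hx1
    · exact ih g.s h.2 hx1

end PoolHex
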