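import Pool.Agent.LebHex.Base

/-! # HEX-B2: a motion with tiny rotation angle moves the points very little; normalisation -/

namespace PoolHex

theorem hex5a_coord {B : ℕ} {j : ℕ} : ∀ {n : ℕ}, coordOK B n = true → j < n →
    bc B j < 6 ∧ 2 * bx B j ≤ Mn ∧ 2 * bY B j ≤ Mn := by
  intro n
  induction n with
  | zero => intro _ h; exact absurd h (Nat.not_lt_zero _)
  | succ n ih =>
    intro h hj
    rw [coordOK] at h
    simp only [Bool.and_eq_true, decide_eq_true_iff] at h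
    obtain ⟨⟨⟨h1, h2⟩, h3⟩, h4⟩ := h
    rcases Nat.lt_succ_iff_lt_or_eq.1 hj with h5 | h5
    · exact ih h4 h5
    · rw [h5]
      exact ⟨h1, h2, h3⟩

/-- the coordinates of the points of a body are in the hexagon -/
theorem bp_coord {B : ℕ} (h : coordOK B (bn B) = true) {j : ℕ} (hj : j < bn B) :
    2 * |(bp B j).1| ≤ 10000000000000 ∧ 2 * |(bp B j).2| ≤ 10000000000000 ∧
      2 * |(bp B j).1 + (bp B j).2| ≤ 10000000000000 := by
  obtain ⟨h1, h2, h3⟩ := hex5a_coord h hj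
  unfold bp
  generalize bc B j = c at *
  generalize bx B j = x at *
  generalize bY B j = y at *
  unfold Mn at h2 h3
  have hx : (2 : ℤ) * x ≤ 10000000000000 := by exact_mod_cast h2
  have hy : (2 : ℤ) * y ≤ 10000000000000 := by exact_mod_cast h3
  have hx0 : (0 : ℤ) ≤ x := Int.natCast_nonneg _
  have hy0 : (0 : ℤ) ≤ y := Int.natCast_nonneg _
  interval_cases c <;>
    · simp only [rot6, Nat.reduceAdd, Nat.reduceMod]
      refine ⟨?_, ?_, ?_⟩ <;>
        · rcases abs_cases (_ : ℤ) with ⟨h, _⟩ | ⟨h, _⟩ <;> rw [h] <;> linarith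

theorem hex5a_cont {B : ℕ} : ∀ (l : List ℕ) (k : ℕ), contOK B k l = true →
    ∀ m, k ≤ m → m < 6 → ∃ j < bn B, M ≤ 2 * (fn m (bp B j) + d0) := by
  intro l
  induction l with
  | nil =>
    intro k h m h1 h2
    rw [contOK, decide_eq_true_iff] at h
    omega
  | cons j l ih =>
    intro k h m h1 h2
    rw [contOK] at h
    simp only [Bool.and_eq_true, decide_eq_true_iff] at h
    rcases eq_or_lt_of_le h1 with h3 | h3
    · rw [← h3]
      exact ⟨j, h.1.1, h.1.2⟩
    · exact ih (k + 1) h.2 m h3 h2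

theorem hex5a_prod {a b A B : ℝ} (ha : |a| ≤ A) (hb : |b| ≤ B) : |a * b| ≤ A * B := by
  rw [abs_mul]
  exact mul_le_mul ha hb (abs_nonneg _) ((abs_nonneg _).trans ha)

/-- the motion is close to a translation -/
theorem hex5a_pt {al be : ℝ} (h1 : |al - 1| ≤ 1 / 10000000000000) (h2 : |be| ≤ 1 / 10000000000)
    (t : ℝ × ℝ) (P : ℤ × ℤ) (hP1 : 2 * |P.1| ≤ 10000000000000) (hP2 : 2 * |P.2| ≤ 10000000000000)
    (hP3 : 2 * |P.1 + P.2| ≤ 10000000000000) :
    |10000000000000 * (act al be t (toR P)).1 - P.1 - 10000000000000 * t.1| ≤ 1001 ∧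
    |10000000000000 * (act al be t (toR P)).2 - P.2 - 10000000000000 * t.2| ≤ 1001 ∧
    |10000000000000 * ((act al be t (toR P)).1 + (act al be t (toR P)).2) - (P.1 + P.2) -
      10000000000000 * (t.1 + t.2)| ≤ 1001 := by
  have c1 : |(P.1 : ℝ)| ≤ 5000000000000 := by
    have : (2 : ℝ) * |(P.1 : ℝ)| ≤ 10000000000000 := by exact_mod_cast hP1
    linarith
  have c2 : |(P.2 : ℝ)| ≤ 5000000000000 := by
    have : (2 : ℝ) * |(P.2 : ℝ)| ≤ 10000000000000 := by exact_mod_cast hP2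
    linarith
  have c3 : |((P.1 : ℝ) + P.2)| ≤ 5000000000000 := by
    have : (2 : ℝ) * |((P.1 : ℝ) + P.2)| ≤ 10000000000000 := by exact_mod_cast hP3
    linarith
  have a1 := hex5a_prod h1 c1
  have a2 := hex5a_prod h1 c2
  have a3 := hex5a_prod h1 c3
  have b1 := hex5a_prod h2 c1
  have b2 := hex5a_prod h2 c2
  have b3 := hex5a_prod h2 c3
  have e1 : 10000000000000 * (act al be t (toR P)).1 - P.1 - 10000000000000 * t.1 =
      (al - 1) * P.1 - be * (P.1 + P.2) - be * P.2 := by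
    simp only [act, toR]
    ring
  have e2 : 10000000000000 * (act al be t (toR P)).2 - P.2 - 10000000000000 * t.2 =
      (al - 1) * P.2 + be * (P.1 + P.2) + be * P.1 := by
    simp only [act, toR]
    ring
  have e3 : 10000000000000 * ((act al be t (toR P)).1 + (act al be t (toR P)).2) -
      (P.1 + P.2) - 10000000000000 * (t.1 + t.2) =
      (al - 1) * (P.1 + P.2) + be * P.1 - be * P.2 := by
    simp only [act, toR]
    ring
  rw [e1, e2, e3]
  rw [abs_le] at a1 a2 a3 b1 b2 b3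
  refine ⟨abs_le.2 ⟨?_, ?_⟩, abs_le.2 ⟨?_, ?_⟩, abs_le.2 ⟨?_, ?_⟩⟩ <;>
    linarith [a1.1, a1.2, a2.1, a2.2, a3.1, a3.2, b1.1, b1.2, b2.1, b2.2, b3.1, b3.2]

/-- The six contact points and a small rotation force a small motion. Proof: `|be| ≤ 10^-10` and
`1 - 3 * 10^-20 ≤ al ≤ 1`. For each of the six functionals `F_k` (`fn k`) the contact point `P` has
`2 F_k P ≥ 10^13 - 100`; `F_k (act .. (toR P)) = al F_k(P)/10^13 + be F_k(J P)/10^13 + F_k t ≤ 1/2`
with `J (p, q) = (-(p + 2q), 2p + q)` and `|F_k (J P)| ≤ 10^13` (because `|p|, |q|, |p+q| ≤ 10^13/2`), so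
`10^13 F_k t ≤ 50 + 1001`; all six: `|t.1|, |t.2|, |t.1 + t.2| ≤ 1051 * 10^-13`. Then for every point
`|F_k (act .. P) - F_k P| * 10^13 ≤ 2 + 1000 + 1051 ≤ 3200`. -/
theorem cont_close {B : ℕ} {l : List ℕ} (hc : coordOK B (bn B) = true)
    (h : contOK B 0 l = true) {al be x : ℝ} {t : ℝ × ℝ}
    (hal : 0 < al) (hn : al ^ 2 + 3 * be ^ 2 = 1) (hx : 30000000000000 * be = x * al)
    (hin : ∀ j < bn B, act al be t (toR (bp B j)) ∈ Hx) (hx3 : |x| ≤ 3000) :
    ∀ j < bn B, Cl (act al be t (toR (bp B j))) (bp B j) := by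
  have hal1 : al ≤ 1 := by nlinarith [sq_nonneg be]
  have hbe : |be| ≤ 1 / 10000000000 := by
    have h1 : 30000000000000 * |be| = |x| * al := by
      have h2 := congrArg (fun z : ℝ => |z|) hx
      simp only [abs_mul, abs_of_pos hal] at h2
      rw [abs_of_pos (by norm_num : (0 : ℝ) < 30000000000000)] at h2
      exact h2
    have h2 : |x| * al ≤ 3000 * 1 := mul_le_mul hx3 hal1 hal.le (by norm_num)
    rw [← h1] at h2
    linarith
  have hbe2 : be ^ 2 ≤ (1 / 10000000000) ^ 2 := by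
    rw [← sq_abs]
    exact pow_le_pow_left₀ (abs_nonneg _) hbe 2
  have hal2 : |al - 1| ≤ 1 / 10000000000000 := by
    rw [abs_le]
    constructor
    · norm_num at hbe2 ⊢
      nlinarith
    · linarith [show (0 : ℝ) ≤ 1 / 10000000000000 by norm_num]
  have hpt := fun j (hj : j < bn B) => hex5a_pt hal2 hbe t (bp B j) (bp_coord hc hj).1
    (bp_coord hc hj).2.1 (bp_coord hc hj).2.2
  have hin' := fun j (hj : j < bn B) => hin j hj
  have hcon := hex5a_cont l 0 h
  have t0 : 10000000000000 * t.1 ≤ 1051 := by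
    obtain ⟨j, hj, h1⟩ := hcon 0 (by norm_num) (by norm_num)
    have h2 := (hpt j hj).1
    have h3 := (hin j hj).1
    rw [abs_le] at h2 h3
    unfold M d0 at h1
    simp only [fn] at h1
    have h4 : (10000000000000 : ℝ) ≤ 2 * (((bp B j).1 : ℝ) + 50) := by exact_mod_cast h1
    linarith [h2.1, h3.2]
  have t1 : 10000000000000 * (t.1 + t.2) ≤ 1051 := by
    obtain ⟨j, hj, h1⟩ := hcon 1 (by norm_num) (by norm_num)
    have h2 := (hpt j hj).2.2
    have h3 := (hin j hj).2.2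
    rw [abs_le] at h2 h3
    unfold M d0 at h1
    simp only [fn] at h1
    have h4 : (10000000000000 : ℝ) ≤ 2 * (((bp B j).1 : ℝ) + (bp B j).2 + 50) := by
      exact_mod_cast h1
    linarith [h2.1, h3.2]
  have t2 : 10000000000000 * t.2 ≤ 1051 := by
    obtain ⟨j, hj, h1⟩ := hcon 2 (by norm_num) (by norm_num)
    have h2 := (hpt j hj).2.1
    have h3 := (hin j hj).2.1
    rw [abs_le] at h2 h3
    unfold M d0 at h1
    simp only [fn] at h1
    have h4 : (10000000000000 : ℝ) ≤ 2 * (((bp B j).2 : ℝ) + 50) := by exact_mod_cast h1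
    linarith [h2.1, h3.2]
  have t3 : -1051 ≤ 10000000000000 * t.1 := by
    obtain ⟨j, hj, h1⟩ := hcon 3 (by norm_num) (by norm_num)
    have h2 := (hpt j hj).1
    have h3 := (hin j hj).1
    rw [abs_le] at h2 h3
    unfold M d0 at h1
    simp only [fn] at h1
    have h4 : (10000000000000 : ℝ) ≤ 2 * (-((bp B j).1 : ℝ) + 50) := by exact_mod_cast h1
    linarith [h2.2, h3.1]
  have t4 : -1051 ≤ 10000000000000 * (t.1 + t.2) := by
    obtain ⟨j, hj, h1⟩ := hcon 4 (by norm_num) (by norm_num)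
    have h2 := (hpt j hj).2.2
    have h3 := (hin j hj).2.2
    rw [abs_le] at h2 h3
    unfold M d0 at h1
    simp only [fn] at h1
    have h4 : (10000000000000 : ℝ) ≤ 2 * (-((bp B j).1 : ℝ) - (bp B j).2 + 50) := by
      exact_mod_cast h1
    linarith [h2.2, h3.1]
  have t5 : -1051 ≤ 10000000000000 * t.2 := by
    obtain ⟨j, hj, h1⟩ := hcon 5 (by norm_num) (by norm_num)
    have h2 := (hpt j hj).2.1
    have h3 := (hin j hj).2.1
    rw [abs_le] at h2 h3
    unfold M d0 at h1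
    simp only [fn] at h1
    have h4 : (10000000000000 : ℝ) ≤ 2 * (-((bp B j).2 : ℝ) + 50) := by exact_mod_cast h1
    linarith [h2.2, h3.1]
  intro j hj
  obtain ⟨h1, h2, h3⟩ := hpt j hj
  rw [abs_le] at h1 h2 h3
  refine ⟨abs_le.2 ⟨?_, ?_⟩, abs_le.2 ⟨?_, ?_⟩, abs_le.2 ⟨?_, ?_⟩⟩ <;>
    linarith [h1.1, h1.2, h2.1, h2.2, h3.1, h3.2]

/-- rotating by 60 degrees commutes with the action -/
theorem act_rot (al be : ℝ) (t v : ℝ × ℝ) :
    rotR (act al be t v) = act ((al - 3 * be) / 2) ((al + be) / 2) (rotR t) v := by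
  simp only [act, rotR]
  ext <;> simp only <;> ring

theorem Hx_rot {v : ℝ × ℝ} (h : v ∈ Hx) : rotR v ∈ Hx := by
  obtain ⟨h1, h2, h3⟩ := h
  refine ⟨?_, h3, ?_⟩
  · simp only [rotR, abs_neg]
    exact h2
  · simp only [rotR]
    rw [show -v.2 + (v.1 + v.2) = v.1 by ring]
    exact h1

/-- closeness and rotation: if `rotR z` is close to `rot6 k P` then `z` is close to
`rot6 ((k + 5) % 6) P` -/
theorem Cl_rot {z : ℝ × ℝ} {P : ℤ × ℤ} {k : ℕ} (hk : k < 6) (h : Cl (rotR z) (rot6 k P)) :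
    Cl z (rot6 ((k + 5) % 6) P) := by
  obtain ⟨h1, h2, h3⟩ := h
  simp only [rotR, abs_le] at h1 h2 h3
  unfold Cl
  simp only [abs_le]
  interval_cases k <;>
    · simp [rot6] at h1 h2 h3 ⊢
      refine ⟨⟨?_, ?_⟩, ⟨?_, ?_⟩, ⟨?_, ?_⟩⟩ <;>
        linarith [h1.1, h1.2, h2.1, h2.2, h3.1, h3.2]

/-- one rotation step -/
theorem hex5b_step {B : ℕ} {al be : ℝ}
    (H : ∀ t : ℝ × ℝ, (∀ j < bn B, act ((al - 3 * be) / 2) ((al + be) / 2) t (toR (bp B j)) ∈ Hx) →
      ∃ k < 6, ∀ j < bn B, Cl (act ((al - 3 * be) / 2) ((al + be) / 2) t (toR (bp B j)))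
        (rot6 k (bp B j))) :
    ∀ t : ℝ × ℝ, (∀ j < bn B, act al be t (toR (bp B j)) ∈ Hx) →
      ∃ k < 6, ∀ j < bn B, Cl (act al be t (toR (bp B j))) (rot6 k (bp B j)) := by
  intro t ht
  obtain ⟨k, hk, h⟩ := H (rotR t) (fun j hj => by
    rw [← act_rot]
    exact Hx_rot (ht j hj))
  refine ⟨(k + 5) % 6, Nat.mod_lt _ (by norm_num), fun j hj => ?_⟩
  have h1 := h j hj
  rw [← act_rot] at h1
  exact Cl_rot hk h1

/-- Normalisation. Proof: put `(al_j, be_j)` = the pair rotated `j` times by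
`(a, b) ↦ ((a - 3b)/2, (a + b)/2)`, `t_j = rotR^j t`. For some `j ≤ 5` one has `3 |be_j| ≤ al_j` (six
explicit linear forms; cases on the signs of `al`, `al - 3 be`, `al + 3 be`). By `act_rot` and `Hx_rot`
the motion number `j` also moves the points into the hexagon, so by `H` it moves them little
(`rot6 0 P = P`); apply `Cl_rot` `j` times.

If every motion whose rotation part is in the cone `3 |be| ≤ al` and which moves the points into
the hexagon moves them little, then every motion moving the points into the hexagon is close to one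
of the six rotations -/
theorem normalise {B : ℕ}
    (H : ∀ (al be : ℝ) (t : ℝ × ℝ), al ^ 2 + 3 * be ^ 2 = 1 → 3 * |be| ≤ al →
      (∀ j < bn B, act al be t (toR (bp B j)) ∈ Hx) →
      ∀ j < bn B, Cl (act al be t (toR (bp B j))) (bp B j))
    {al be : ℝ} {t : ℝ × ℝ} (hn : al ^ 2 + 3 * be ^ 2 = 1)
    (hin : ∀ j < bn B, act al be t (toR (bp B j)) ∈ Hx) :
    ∃ k < 6, ∀ j < bn B, Cl (act al be t (toR (bp B j))) (rot6 k (bp B j)) := by
  have H0 : ∀ (al be : ℝ), al ^ 2 + 3 * be ^ 2 = 1 → 0 ≤ al - 3 * be → 0 ≤ al + 3 * be →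
      ∀ t : ℝ × ℝ, (∀ j < bn B, act al be t (toR (bp B j)) ∈ Hx) →
      ∃ k < 6, ∀ j < bn B, Cl (act al be t (toR (bp B j))) (rot6 k (bp B j)) := by
    intro al be hn h1 h2 t ht
    refine ⟨0, by norm_num, ?_⟩
    refine H al be t hn ?_ ht
    rcases abs_cases be with ⟨h, _⟩ | ⟨h, _⟩ <;> rw [h] <;> linarith
  have H1 : ∀ (al be : ℝ), al ^ 2 + 3 * be ^ 2 = 1 → 0 ≤ al → al + 3 * be ≤ 0 →
      ∀ t : ℝ × ℝ, (∀ j < bn B, act al be t (toR (bp B j)) ∈ Hx) →
      ∃ k < 6, ∀ j < bn B, Cl (act al be t (toR (bp B j))) (rot6 k (bp B j)) := by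
    intro al be hn h1 h2
    exact hex5b_step (H0 _ _ (by nlinarith) (by linarith) (by linarith))
  have H2 : ∀ (al be : ℝ), al ^ 2 + 3 * be ^ 2 = 1 → al ≤ 0 → 0 ≤ al - 3 * be →
      ∀ t : ℝ × ℝ, (∀ j < bn B, act al be t (toR (bp B j)) ∈ Hx) →
      ∃ k < 6, ∀ j < bn B, Cl (act al be t (toR (bp B j))) (rot6 k (bp B j)) := by
    intro al be hn h1 h2
    exact hex5b_step (H1 _ _ (by nlinarith) (by linarith) (by linarith))
  have H3 : ∀ (al be : ℝ), al ^ 2 + 3 * be ^ 2 = 1 → al - 3 * be ≤ 0 → al + 3 * be ≤ 0 →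
      ∀ t : ℝ × ℝ, (∀ j < bn B, act al be t (toR (bp B j)) ∈ Hx) →
      ∃ k < 6, ∀ j < bn B, Cl (act al be t (toR (bp B j))) (rot6 k (bp B j)) := by
    intro al be hn h1 h2
    exact hex5b_step (H2 _ _ (by nlinarith) (by linarith) (by linarith))
  have H4 : ∀ (al be : ℝ), al ^ 2 + 3 * be ^ 2 = 1 → al ≤ 0 → 0 ≤ al + 3 * be →
      ∀ t : ℝ × ℝ, (∀ j < bn B, act al be t (toR (bp B j)) ∈ Hx) →
      ∃ k < 6, ∀ j < bn B, Cl (act al be t (toR (bp B j))) (rot6 k (bp B j)) := by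
    intro al be hn h1 h2
    exact hex5b_step (H3 _ _ (by nlinarith) (by linarith) (by linarith))
  have H5 : ∀ (al be : ℝ), al ^ 2 + 3 * be ^ 2 = 1 → 0 ≤ al → al - 3 * be ≤ 0 →
      ∀ t : ℝ × ℝ, (∀ j < bn B, act al be t (toR (bp B j)) ∈ Hx) →
      ∃ k < 6, ∀ j < bn B, Cl (act al be t (toR (bp B j))) (rot6 k (bp B j)) := by
    intro al be hn h1 h2
    exact hex5b_step (H4 _ _ (by nlinarith) (by linarith) (by linarith))
  rcases le_total 0 al with h1 | h1
  · rcases le_total 0 (al - 3 * be) with h2 | h2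
    · rcases le_total 0 (al + 3 * be) with h3 | h3
      · exact H0 al be hn h2 h3 t hin
      · exact H1 al be hn h1 h3 t hin
    · exact H5 al be hn h1 h2 t hin
  · rcases le_total 0 (al - 3 * be) with h2 | h2
    · exact H2 al be hn h1 h2 t hin
    · rcases le_total 0 (al + 3 * be) with h3 | h3
      · exact H4 al be hn h1 h3 t hin
      · exact H3 al be hn h2 h3 t hin

end PoolHex
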