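import Pool.Agent.LebHex.S4
import Pool.Agent.LebHex.S5

/-! # HEX-B3: every cover inside the hexagon contains one of the six copies of each body -/

namespace PoolHex

theorem hex6_symm (v w : ℤ × ℤ) :
    nrm (v.1 - w.1, v.2 - w.2) = nrm (w.1 - v.1, w.2 - v.2) := by
  simp only [nrm]
  ring

theorem hex6_pair (v : ℤ × ℤ) : ∀ (l : List (ℤ × ℤ)), pairOK v l = true →
    ∀ w ∈ l, 4 * nrm (v.1 - w.1, v.2 - w.2) ≤ 3 * M * M := by
  intro l
  induction l with
  | nil =>
    intro _ w hw
    exact absurd hw List.not_mem_nil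
  | cons u l ih =>
    intro h w hw
    rw [pairOK, Bool.and_eq_true, decide_eq_true_iff] at h
    rcases List.mem_cons.1 hw with rfl | hw
    · exact h.1
    · exact ih h.2 w hw

theorem diam_sound : ∀ (l : List (ℤ × ℤ)), diamOK l = true →
    ∀ v ∈ l, ∀ w ∈ l, 4 * nrm (v.1 - w.1, v.2 - w.2) ≤ 3 * M * M := by
  intro l
  induction l with
  | nil =>
    intro _ w hw
    exact absurd hw List.not_mem_nil
  | cons u l ih =>
    intro h v hv w hw
    rw [diamOK, Bool.and_eq_true] at h
    rcases List.mem_cons.1 hv with rfl | hv'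
    · rcases List.mem_cons.1 hw with rfl | hw
      · simp only [nrm, sub_self, mul_zero, add_zero]
        unfold M
        norm_num
      · exact hex6_pair v l h.1 w hw
    · rcases List.mem_cons.1 hw with rfl | hw
      · rw [hex6_symm]
        exact hex6_pair w l h.1 v hv'
      · exact ih h.2 v hv' w hw

theorem hex6_nR (P P' : ℤ × ℤ) :
    10000000000000 ^ 2 * nR (toR P - toR P') = ((nrm (P.1 - P'.1, P.2 - P'.2) : ℤ) : ℝ) := by
  simp only [nR, nrm, toR, Prod.fst_sub, Prod.snd_sub]
  push_cast
  ring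

theorem hex6_mem {B j : ℕ} (hj : j < bn B) : bp B j ∈ bodyPts B :=
  List.mem_map.2 ⟨j, List.mem_range.2 hj, rfl⟩

/-- Proof: apply `hc` to `S = {v | ∃ j < bn B, v = toR (bp B j)}` (pair distances from `diam_sound` on
`bodyPts B`, exact pair: points `0` and `1`), get `al, be, t`; the images are in `Hx` by `hH`. Use
`normalise`; for a motion in the cone: `0 < al`, put `x = 30000000000000 * be / al`, then
`|x| ≤ 10^13`; `excl_sound` for `c.left` (from `-10^13` to `-3000`) and for `c.right` (from `3000` to
`10^13 + 1`) give `|x| ≤ 3000`, and `cont_close` finishes. -/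
theorem body_sound {B : ℕ} {c : BCert} (h : bodyOK B c = true) {K : Set (ℝ × ℝ)} (hc : Cov K)
    (hH : K ⊆ Hx) : ∃ k < 6, Has K B k := by
  unfold bodyOK at h
  simp only [Bool.and_eq_true, decide_eq_true_iff] at h
  obtain ⟨⟨⟨⟨⟨⟨hn, hco⟩, hdi⟩, hex⟩, hcont⟩, hl⟩, hr⟩ := h
  obtain ⟨al, be, t, hn1, hin⟩ := hc {v | ∃ j < bn B, v = toR (bp B j)} (by
    rintro _ ⟨j, hj, rfl⟩ _ ⟨j', hj', rfl⟩
    have h1 := diam_sound _ hdi _ (hex6_mem hj) _ (hex6_mem hj')
    have h2 := hex6_nR (bp B j) (bp B j')
    have h3 : (4 : ℝ) * ((nrm ((bp B j).1 - (bp B j').1, (bp B j).2 - (bp B j').2) : ℤ) : ℝ) ≤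
        3 * 10000000000000 * 10000000000000 := by
      unfold M at h1
      exact_mod_cast h1
    rw [← h2] at h3
    nlinarith) (by
    refine ⟨_, ⟨0, by omega, rfl⟩, _, ⟨1, by omega, rfl⟩, ?_⟩
    have h2 := hex6_nR (bp B 0) (bp B 1)
    have h3 : (4 : ℝ) * ((nrm ((bp B 0).1 - (bp B 1).1, (bp B 0).2 - (bp B 1).2) : ℤ) : ℝ) =
        3 * 10000000000000 * 10000000000000 := by
      unfold M at hex
      exact_mod_cast hex
    rw [← h2] at h3
    nlinarith)
  have hin1 : ∀ j < bn B, act al be t (toR (bp B j)) ∈ K := fun j hj => hin _ ⟨j, hj, rfl⟩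
  have hin2 : ∀ j < bn B, act al be t (toR (bp B j)) ∈ Hx := fun j hj => hH (hin1 j hj)
  obtain ⟨k, hk, hcl⟩ := normalise (B := B) (by
    intro al be t hn hcone hin
    have hal : 0 < al := by
      rcases eq_or_lt_of_le ((mul_nonneg (by norm_num) (abs_nonneg be)).trans hcone) with h0 | h0
      · exfalso
        rw [← h0] at hcone hn
        have h1 : be = 0 := by
          have := abs_nonneg be
          exact abs_eq_zero.1 (by linarith)
        rw [h1] at hn
        norm_num at hn
      · exact h0
    set x : ℝ := 30000000000000 * be / al with hx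
    have hxe : 30000000000000 * be = x * al := by
      rw [hx, div_mul_cancel₀ _ hal.ne']
    have habs : |x| ≤ 10000000000000 := by
      rw [hx, abs_div, abs_of_pos hal, div_le_iff₀ hal, abs_mul,
        abs_of_pos (by norm_num : (0 : ℝ) < 30000000000000)]
      linarith
    have hx3 : |x| ≤ 3000 := by
      rw [abs_le] at habs
      by_contra hcon
      rw [abs_le, not_and_or, not_le, not_le] at hcon
      rcases hcon with h1 | h1
      · refine excl_sound c.left _ hl hal hn hxe hin ?_ ?_
        · push_cast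
          exact habs.1
        · unfold sg
          push_cast
          exact h1
      · refine excl_sound c.right _ hr hal hn hxe hin ?_ ?_
        · unfold sg
          push_cast
          exact h1.le
        · push_cast
          linarith [habs.2]
    exact cont_close hco hcont hal hn hxe hin hx3) hn1 hin2
  exact ⟨k, hk, fun j hj => ⟨_, hin1 j hj, hcl j hj⟩⟩

end PoolHex
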